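import Pool.Agent.N103.Star

set_option autoImplicit false
set_option linter.unusedSectionVars false
set_option linter.unusedVariables false

/-! # Specializations of the differential equation on an exceptional curve -/

namespace Pool.Agent.N103

open Pool.Agent.W574.SM

section Spec

variable {κ : Type} [Fintype κ] [DecidableEq κ] {K : Type} [Field K] [Algebra ℂ K]
  {S : Type} [CommRing S] [Algebra ℂ S] [Algebra K S] [IsScalarTower ℂ K S]

/-- the shift `θ` -/
noncomputable def theta (g : Option κ → K) (j : κ) (s : κ → S) : S :=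
  algebraMap K S (g none / g (some j)) +
    ∑ i ∈ Finset.univ.erase j, s i * algebraMap K S (g (some i) / g (some j))

/-- the specialization `y_j ↦ X - θ`, `y_i ↦ s_i` -/
noncomputable def rho (j : κ) (s : κ → S) (θ : S) : MvPolynomial κ K →ₐ[K] Polynomial S :=
  MvPolynomial.aeval fun i => if i = j then Polynomial.X - Polynomial.C θ else Polynomial.C (s i)

theorem rho_C (j : κ) (s : κ → S) (θ : S) (k : K) :
    rho j s θ (MvPolynomial.C k) = Polynomial.C (algebraMap K S k) :=
  (rho j s θ).commutes k

theorem rho_X (j : κ) (s : κ → S) (θ : S) (i : κ) :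
    rho (K := K) j s θ (MvPolynomial.X i)
      = if i = j then Polynomial.X - Polynomial.C θ else Polynomial.C (s i) := by
  rw [rho, MvPolynomial.aeval_X]

theorem rho_TT (g : Option κ → K) (j : κ) (hg : g (some j) ≠ 0) (s : κ → S) :
    rho j s (theta g j s) (TT g (some j)) = Polynomial.X := by
  rw [TT, map_add, map_sum, rho_C, ← Finset.add_sum_erase _ _ (Finset.mem_univ j), map_mul, rho_X,
    if_pos rfl, rho_C, div_self hg, map_one, map_one, mul_one]
  have h : ∀ i ∈ Finset.univ.erase j, rho j s (theta g j s)
      (MvPolynomial.X i * MvPolynomial.C (g (some i) / g (some j)))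
      = Polynomial.C (s i * algebraMap K S (g (some i) / g (some j))) := by
    intro i hi
    rw [map_mul, rho_X, if_neg (Finset.ne_of_mem_erase hi), rho_C, map_mul]
  rw [Finset.sum_congr rfl h, ← map_sum, theta, map_add]
  ring

theorem rho_dc (D : Derivation ℂ K K) (DS : Derivation ℂ S S)
    (hD : ∀ k, DS (algebraMap K S k) = algebraMap K S (D k)) (j : κ) (s : κ → S)
    (hs : ∀ i, DS (s i) = 0) (θ : S) (N : MvPolynomial κ K) :
    rho j s θ (dc D N) = pc DS (rho j s θ N)
      + Polynomial.C (DS θ) * Polynomial.derivative (rho j s θ N) := by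
  induction N using MvPolynomial.induction_on with
  | C a =>
    rw [dc_C, rho_C, rho_C, pc_C, hD, Polynomial.derivative_C, mul_zero, add_zero]
  | add p q hp hq => rw [map_add, map_add, hp, hq, map_add, map_add, Polynomial.derivative_add]; ring
  | mul_X p i hp =>
    rw [Derivation.leibniz, dc_X, smul_zero, zero_add, smul_eq_mul, map_mul, map_mul, hp,
      Derivation.leibniz, Polynomial.derivative_mul, smul_eq_mul, smul_eq_mul, rho_X]
    split_ifs with h
    · rw [map_sub (pc DS), pc_X, pc_C, Polynomial.derivative_sub, Polynomial.derivative_X,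
        Polynomial.derivative_C]
      ring
    · rw [pc_C, hs, Polynomial.derivative_C, map_zero]
      ring

/-- the coefficients of the specialization -/
theorem chain (D : Derivation ℂ K K) (DS : Derivation ℂ S S)
    (hD : ∀ k, DS (algebraMap K S k) = algebraMap K S (D k)) (g : Option κ → K) (j : κ)
    (hg : g (some j) ≠ 0) (s : κ → S) (hs : ∀ i, DS (s i) = 0) (N : MvPolynomial κ K) (e : ℕ)
    (z ω J : K) (E : MvPolynomial κ K)
    (h : TT g (some j) * dc D N + MvPolynomial.C z * dc D (TT g (some j)) * N
        + MvPolynomial.C ω * TT g (some j) * N = MvPolynomial.C J * E * TT g (some j) ^ (e + 1)) :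
    algebraMap K S z * DS (theta g j s) * (rho j s (theta g j s) N).coeff 0 = 0 ∧
    ∀ k, DS ((rho j s (theta g j s) N).coeff k)
        + algebraMap K S ω * (rho j s (theta g j s) N).coeff k
        + (algebraMap K S z + (k + 1)) * DS (theta g j s)
          * (rho j s (theta g j s) N).coeff (k + 1)
      = if e ≤ k then algebraMap K S J * (rho j s (theta g j s) E).coeff (k - e) else 0 := by
  have h1 := congrArg (rho j s (theta g j s)) h
  simp only [map_add, map_mul, map_pow, rho_C, rho_TT g j hg s, rho_dc D DS hD j s hs] at h1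
  rw [pc_X, Polynomial.derivative_X, mul_one, zero_add] at h1
  set θ := theta g j s with hθ
  set Nt := rho j s θ N with hNt
  set Et := rho j s θ E with hEt
  constructor
  · have h2 := congrArg (fun p : Polynomial S => p.coeff 0) h1
    simp only [Polynomial.coeff_add, mul_assoc,
      Polynomial.mul_coeff_zero, Polynomial.coeff_X_zero, zero_mul, mul_zero, pow_succ,
      Polynomial.coeff_C_zero, add_zero, zero_add] at h2
    rw [mul_assoc]
    exact h2
  · intro k
    have h2 := congrArg (fun p : Polynomial S => p.coeff (k + 1)) h1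
    have h3 : (Polynomial.C (algebraMap K S J) * Et * Polynomial.X ^ (e + 1)).coeff (k + 1)
        = if e ≤ k then algebraMap K S J * Et.coeff (k - e) else 0 := by
      rw [Polynomial.coeff_mul_X_pow']
      by_cases hk : e ≤ k
      · rw [if_pos (by omega), if_pos hk, Polynomial.coeff_C_mul]
        congr 2
        omega
      · rw [if_neg (by omega), if_neg hk]
    have h4 : (Polynomial.X * (pc DS Nt + Polynomial.C (DS θ) * Polynomial.derivative Nt)
        + Polynomial.C (algebraMap K S z) * Polynomial.C (DS θ) * Nt
        + Polynomial.C (algebraMap K S ω) * Polynomial.X * Nt).coeff (k + 1)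
        = DS (Nt.coeff k) + DS θ * (Nt.coeff (k + 1) * (k + 1))
          + algebraMap K S z * DS θ * Nt.coeff (k + 1) + algebraMap K S ω * Nt.coeff k := by
      rw [Polynomial.coeff_add, Polynomial.coeff_add, Polynomial.coeff_X_mul, Polynomial.coeff_add,
        coeff_pc, Polynomial.coeff_C_mul, Polynomial.coeff_derivative, ← map_mul,
        Polynomial.coeff_C_mul, mul_assoc (Polynomial.C _) Polynomial.X, Polynomial.coeff_C_mul,
        Polynomial.coeff_X_mul]
    have h5 : (Polynomial.X * (pc DS Nt + Polynomial.C (DS θ) * Polynomial.derivative Nt)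
        + Polynomial.C (algebraMap K S z) * Polynomial.C (DS θ) * Nt
        + Polynomial.C (algebraMap K S ω) * Polynomial.X * Nt)
        = Polynomial.C (algebraMap K S J) * Et * Polynomial.X ^ (e + 1) := h1
    rw [← h3, ← h5, h4]
    ring

end Spec

section Neg

theorem neg_ne {n A a : ℕ} (hn : 1 ≤ n) (hA : 1 ≤ A) (ha : 1 ≤ a) (k : ℕ) :
    (-(n : ℂ) / A * a - k : ℂ) ≠ 0 := by
  intro h
  have hAc : (A : ℂ) ≠ 0 := Nat.cast_ne_zero.2 (by omega)
  have h1 : ((n * a + k * A : ℕ) : ℂ) = 0 := by
    push_cast
    field_simp at h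
    linear_combination -h
  have h2 := Nat.cast_eq_zero.1 h1
  have h3 : 0 < n * a := Nat.mul_pos hn ha
  omega

end Neg

section PartC

variable {κ : Type} [Fintype κ] [DecidableEq κ] {K : Type} [Field K] [Algebra ℂ K]

/-- **(A)** the case of the non-vanishing coefficient `g_0` -/
theorem partA (D : Derivation ℂ K K) (g : Option κ → K) (hg : g none ≠ 0) (N : MvPolynomial κ K)
    (e : ℕ) (z ω J : K) (E : MvPolynomial κ K)
    (h : TT g none * dc D N + MvPolynomial.C z * dc D (TT g none) * N
        + MvPolynomial.C ω * TT g none * N = MvPolynomial.C J * E * TT g none ^ (e + 1)) :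
    ∃ r : K, D r + ω * r = J * MvPolynomial.constantCoeff E := by
  have h0 : MvPolynomial.constantCoeff (TT g none) = 1 := by
    rw [TT, map_add, map_sum, div_self hg, MvPolynomial.constantCoeff_C]
    simp
  have h1 : ∀ p : MvPolynomial κ K, MvPolynomial.constantCoeff (dc D p)
      = D (MvPolynomial.constantCoeff p) := fun p => coeff_dc D p 0
  refine ⟨MvPolynomial.constantCoeff N, ?_⟩
  have h2 := congrArg MvPolynomial.constantCoeff h
  simp only [map_add, map_mul, map_pow, h0, h1, MvPolynomial.constantCoeff_C, one_pow, mul_one,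
    one_mul, Derivation.map_one_eq_zero, mul_zero, zero_mul, add_zero] at h2
  exact h2

theorem cc_rho {S : Type} [CommRing S] [Algebra ℂ S] [Algebra K S] [IsScalarTower ℂ K S] (j : κ)
    (E : MvPolynomial κ K) :
    (rho j (fun _ => (0 : S)) 0 E).coeff 0 = algebraMap K S (MvPolynomial.constantCoeff E) := by
  induction E using MvPolynomial.induction_on with
  | C a => rw [rho_C, Polynomial.coeff_C_zero, MvPolynomial.constantCoeff_C]
  | add p q hp hq => rw [map_add, Polynomial.coeff_add, hp, hq, map_add, map_add]
  | mul_X p i hp =>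
    rw [map_mul, rho_X, map_mul, MvPolynomial.constantCoeff_X, mul_zero, map_zero,
      Polynomial.mul_coeff_zero]
    split_ifs
    · simp
    · simp

/-- **(C1)** the case `g_0 = 0` -/
theorem partC1 (D : Derivation ℂ K K) (g : Option κ → K) (h0 : g none = 0) (j : κ)
    (hg : g (some j) ≠ 0) (N : MvPolynomial κ K)
    (e : ℕ) (z ω J : K) (E : MvPolynomial κ K)
    (h : TT g (some j) * dc D N + MvPolynomial.C z * dc D (TT g (some j)) * N
        + MvPolynomial.C ω * TT g (some j) * N = MvPolynomial.C J * E * TT g (some j) ^ (e + 1)) :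
    ∃ r : K, D r + ω * r = J * MvPolynomial.constantCoeff E := by
  have hθ : theta g j (fun _ => (0 : K)) = 0 := by
    rw [theta, h0, zero_div, map_zero, zero_add]
    simp
  obtain ⟨_, h2⟩ := chain (S := K) D D (fun k => rfl) g j hg (fun _ => 0)
    (fun i => map_zero D) N e z ω J E h
  have h3 := h2 e
  rw [hθ, map_zero, mul_zero, zero_mul, add_zero, if_pos le_rfl, Nat.sub_self, cc_rho] at h3
  exact ⟨_, h3⟩

/-- **(C2)** the case `g_0 = 0`: the `g_i` are proportional -/
theorem partC2 (D : Derivation ℂ K K) (g : Option κ → K) (h0 : g none = 0) (j i : κ) (hij : i ≠ j)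
    (hg : g (some j) ≠ 0) (N : MvPolynomial κ K)
    (e n A a : ℕ) (hn : 1 ≤ n) (hA : 1 ≤ A) (ha : 1 ≤ a) (ω J : K) (hJ : J ≠ 0)
    (η : MvPolynomial κ ℂ) (hη : MvPolynomial.constantCoeff η ≠ 0)
    (h : TT g (some j) * dc D N
        + MvPolynomial.C (algebraMap ℂ K (-(n : ℂ) / A * a - e)) * dc D (TT g (some j)) * N
        + MvPolynomial.C ω * TT g (some j) * N
        = MvPolynomial.C J * MvPolynomial.map (algebraMap ℂ K) η * TT g (some j) ^ (e + 1)) :
    D (g (some i) / g (some j)) = 0 := by
  by_contra hne
  set τ := g (some i) / g (some j) with hτ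
  set s : κ → Polynomial K := fun l => if l = i then Polynomial.X else 0 with hs
  have hθ : theta g j s = Polynomial.X * Polynomial.C τ := by
    rw [theta, h0, zero_div, map_zero, zero_add, Finset.sum_eq_single i]
    · rw [hs]
      simp only [if_true]
      rfl
    · intro l _ hl
      rw [hs]
      simp only [if_neg hl, zero_mul]
    · intro h'
      exact absurd (Finset.mem_erase.2 ⟨hij, Finset.mem_univ i⟩) h'
  have hDX : pc D (Polynomial.X * Polynomial.C τ) = Polynomial.X * Polynomial.C (D τ) := by
    rw [Derivation.leibniz, pc_X, pc_C, smul_zero, add_zero, smul_eq_mul]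
  obtain ⟨h1, h2⟩ := chain (S := Polynomial K) D (pc D) (fun k => pc_C D k) g j hg s
    (fun l => by
      rw [hs]
      simp only
      split_ifs
      · exact pc_X D
      · exact map_zero _) N e _ ω J _ h
  rw [hθ, hDX] at h1 h2
  set m := rho j s (Polynomial.X * Polynomial.C τ) N with hm
  have hX : (Polynomial.X * Polynomial.C (D τ) : Polynomial K) ≠ 0 :=
    mul_ne_zero Polynomial.X_ne_zero (Polynomial.C_ne_zero.2 hne)
  have halg : ∀ c : K, algebraMap K (Polynomial K) c = Polynomial.C c := fun c => rfl
  have hz : ∀ k ≤ e, m.coeff k = 0 := by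
    intro k
    induction k with
    | zero =>
      intro _
      have h3 : algebraMap K (Polynomial K) (algebraMap ℂ K (-(n : ℂ) / A * a - e)) ≠ 0 := by
        rw [halg, Polynomial.C_ne_zero, Ne, map_eq_zero]
        exact neg_ne hn hA ha e
      rcases mul_eq_zero.1 h1 with h4 | h4
      · exact absurd h4 (mul_ne_zero h3 hX)
      · exact h4
    | succ k ih =>
      intro hk
      have h3 := h2 k
      rw [if_neg (by omega), ih (by omega), map_zero, mul_zero, add_zero, zero_add] at h3
      have h4 : algebraMap K (Polynomial K) (algebraMap ℂ K (-(n : ℂ) / A * a - e)) + (k + 1)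
          ≠ 0 := by
        have h5 : algebraMap K (Polynomial K) (algebraMap ℂ K (-(n : ℂ) / A * a - e)) + (k + 1)
            = algebraMap K (Polynomial K) (algebraMap ℂ K
              (-(n : ℂ) / A * a - (e - (k + 1) : ℕ))) := by
          rw [Nat.cast_sub (by omega)]
          simp only [map_sub, map_natCast]
          push_cast
          ring
        rw [h5, halg, Polynomial.C_ne_zero, Ne, map_eq_zero]
        exact neg_ne hn hA ha _
      rcases mul_eq_zero.1 h3 with h5 | h5
      · exact absurd h5 (mul_ne_zero h4 hX)
      · exact h5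
  have h3 := h2 e
  rw [if_pos le_rfl, Nat.sub_self, hz e le_rfl, map_zero, mul_zero, add_zero, zero_add] at h3
  have h4 := congrArg (fun p : Polynomial K => p.coeff 0) h3
  rw [Polynomial.mul_coeff_zero, Polynomial.mul_coeff_zero, Polynomial.mul_coeff_zero,
    Polynomial.coeff_X_zero, zero_mul, mul_zero, zero_mul, halg, Polynomial.mul_coeff_zero,
    Polynomial.coeff_C_zero] at h4
  have h5 : ((rho j s (Polynomial.X * Polynomial.C τ) (MvPolynomial.map (algebraMap ℂ K) η)).coeff
      0).coeff 0 = algebraMap ℂ K (MvPolynomial.constantCoeff η) := by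
    clear h3 h4 h2 h1 h hη hz
    induction η using MvPolynomial.induction_on with
    | C c =>
      rw [MvPolynomial.map_C, rho_C, Polynomial.coeff_C_zero, halg, Polynomial.coeff_C_zero,
        MvPolynomial.constantCoeff_C]
    | add p q hp hq =>
      rw [map_add, map_add, Polynomial.coeff_add, Polynomial.coeff_add, hp, hq, map_add, map_add]
    | mul_X p l hp =>
      rw [map_mul MvPolynomial.constantCoeff, MvPolynomial.constantCoeff_X, mul_zero, map_zero,
        map_mul, map_mul, MvPolynomial.map_X, rho_X, Polynomial.mul_coeff_zero,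
        Polynomial.mul_coeff_zero]
      split_ifs
      · simp
      · rw [hs]
        simp only
        split_ifs
        · simp
        · simp
  rw [h5] at h4
  rcases mul_eq_zero.1 h4.symm with h6 | h6
  · exact hJ h6
  · rw [map_eq_zero] at h6
    exact hη h6

end PartC

end Pool.Agent.N103
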