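import Pool.Agent.N103.Star

set_option autoImplicit false
set_option linter.unusedSectionVars false
set_option linter.unusedVariables false
set_option linter.unusedSimpArgs false

/-! # Roots from smooth hypersurfaces of the resolution -/

namespace Pool.Agent.N103

open Pool.Agent.W574.SM

open MvPolynomial

variable {κ : Type} [Fintype κ] [DecidableEq κ]

/-- the chart `x_i = ξ_i(u, v)`, `y_j = X_j + c_j` -/
noncomputable def Xi (c : κ → ℂ) (ξ : Fin 2 → MP) :
    MvPolynomial (Fin 2 ⊕ κ) ℂ →ₐ[ℂ] MvPolynomial (Fin 2 ⊕ κ) ℂ :=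
  aeval (Sum.elim (fun i => rename Sum.inl (ξ i)) (fun j => X (Sum.inr j) + C (c j)))

theorem Xi_x (c : κ → ℂ) (ξ : Fin 2 → MP) (i : Fin 2) :
    Xi c ξ (X (Sum.inl i)) = rename Sum.inl (ξ i) := by
  rw [Xi, aeval_X]; rfl
theorem Xi_y (c : κ → ℂ) (ξ : Fin 2 → MP) (j : κ) :
    Xi c ξ (X (Sum.inr j)) = X (Sum.inr j) + C (c j) := by
  rw [Xi, aeval_X]; rfl

theorem pderiv_inr_rename (j : κ) (p : MP) :
    pderiv (Sum.inr j) (rename (Sum.inl : Fin 2 → Fin 2 ⊕ κ) p) = 0 := by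
  induction p using MvPolynomial.induction_on with
  | C a => rw [rename_C, pderiv_C]
  | add p q hp hq => rw [map_add, map_add, hp, hq, add_zero]
  | mul_X p i hp =>
    rw [map_mul, rename_X, Derivation.leibniz, hp, pderiv_X_of_ne (by simp)]
    simp

section Prime

theorem codim1_aux (L : Type) [Field L] [Algebra ℂ L] [Algebra (MvPolynomial (Fin 2 ⊕ κ) ℂ) L]
    [IsScalarTower ℂ (MvPolynomial (Fin 2 ⊕ κ) ℂ) L]
    [IsFractionRing (MvPolynomial (Fin 2 ⊕ κ) ℂ) L] (F H : MvPolynomial (Fin 2 ⊕ κ) ℂ) (b : Polynomial ℂ) (hb : HEq H F b)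
    (hF : F ≠ 0) (c : κ → ℂ) (ξ : Fin 2 → MP) (p k : MvPolynomial (Fin 2 ⊕ κ) ℂ) (hp : Prime p)
    (N : ℕ) (hN : 1 ≤ N) (hFp : Xi c ξ F = p ^ N * k) (hk : ¬ p ∣ k)
    (hJ : ¬ p ∣ rename Sum.inl (jac ξ)) (hH : ¬ p ∣ Xi c ξ H) : b.eval (-1 / (N : ℂ)) = 0 := by
  by_contra hne
  set al := algebraMap (MvPolynomial (Fin 2 ⊕ κ) ℂ) L with hal
  have hinj : Function.Injective al := IsFractionRing.injective _ L
  have halg : ∀ z : ℂ, algebraMap ℂ L z = al (C z) := by
    intro z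
    rw [IsScalarTower.algebraMap_apply ℂ (MvPolynomial (Fin 2 ⊕ κ) ℂ) L]
    rfl
  have hder : ∀ t : Fin 2 ⊕ κ, ∃ E : Derivation ℂ L L, ∀ x, E (al x) = al (pderiv t x) := fun t =>
    exists_locDer (B := L) (nonZeroDivisors (MvPolynomial (Fin 2 ⊕ κ) ℂ)) (pderiv t)
  choose pd hpd using hder
  set J : MvPolynomial (Fin 2 ⊕ κ) ℂ := rename Sum.inl (jac ξ) with hJd
  have hJ0 : J ≠ 0 := by
    intro h0
    apply hJ
    rw [h0]
    exact dvd_zero p
  have halJ : al J ≠ 0 := by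
    rw [Ne, map_eq_zero_iff al hinj]
    exact hJ0
  let A : Fin 2 → MvPolynomial (Fin 2 ⊕ κ) ℂ := fun i =>
    if i = 0 then rename Sum.inl (pderiv 1 (ξ 1)) else - rename Sum.inl (pderiv 1 (ξ 0))
  let B : Fin 2 → MvPolynomial (Fin 2 ⊕ κ) ℂ := fun i =>
    if i = 0 then - rename Sum.inl (pderiv 0 (ξ 1)) else rename Sum.inl (pderiv 0 (ξ 0))
  let D : Fin 2 ⊕ κ → Derivation ℂ L L :=
    Sum.elim (fun i => (al J)⁻¹ • (al (A i) • pd (Sum.inl 0) + al (B i) • pd (Sum.inl 1)))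
      (fun j => pd (Sum.inr j))
  have hDx : ∀ (i : Fin 2) (x : L), D (Sum.inl i) x
      = (al J)⁻¹ * (al (A i) * pd (Sum.inl 0) x + al (B i) * pd (Sum.inl 1) x) := fun i x => rfl
  have hDy : ∀ (j : κ) (x : L), D (Sum.inr j) x = pd (Sum.inr j) x := fun j x => rfl
  set φ : MvPolynomial (Fin 2 ⊕ κ) ℂ →ₐ[ℂ] L :=
    (IsScalarTower.toAlgHom ℂ (MvPolynomial (Fin 2 ⊕ κ) ℂ) L).comp (Xi c ξ) with hφ
  have hφa : ∀ x, φ x = al (Xi c ξ x) := fun x => rfl
  have hinl : Function.Injective (Sum.inl : Fin 2 → Fin 2 ⊕ κ) := Sum.inl_injective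
  have hJe : J = rename Sum.inl (pderiv 0 (ξ 0)) * rename Sum.inl (pderiv 1 (ξ 1))
      - rename Sum.inl (pderiv 0 (ξ 1)) * rename Sum.inl (pderiv 1 (ξ 0)) := by
    rw [hJd, jac, Matrix.det_fin_two]
    simp only [Matrix.of_apply, map_sub, map_mul]
  have hpx : ∀ (s i : Fin 2), pd (Sum.inl s) (al (rename Sum.inl (ξ i)))
      = al (rename Sum.inl (pderiv s (ξ i))) := by
    intro s i
    rw [hpd, pderiv_rename hinl]
  have hDφ : ∀ (i : Fin 2 ⊕ κ) (x : MvPolynomial (Fin 2 ⊕ κ) ℂ), D i (φ x) = φ (pderiv i x) := by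
    intro i x
    induction x using MvPolynomial.induction_on with
    | C a =>
      have h1 : φ (C a) = algebraMap ℂ L a := φ.commutes a
      rw [h1, Derivation.map_algebraMap, pderiv_C, map_zero]
    | add p q hp hq => rw [map_add, map_add, hp, hq, map_add, map_add]
    | mul_X x k hx =>
      have h : D i (φ (X k)) = φ (pderiv i (X k)) := by
        rcases i with i | j <;> rcases k with k | l
        · rw [hφa, Xi_x, hDx, hpx, hpx, pderiv_X]
          have hi : i = 0 ∨ i = 1 := by omega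
          have hk' : k = 0 ∨ k = 1 := by omega
          rcases hi with rfl | rfl <;> rcases hk' with rfl | rfl
          · rw [Pi.single_eq_same, map_one, inv_mul_eq_iff_eq_mul₀ halJ, mul_one, hJe]
            simp only [A, B, if_true, map_sub, map_mul, map_neg]
            ring
          · rw [Pi.single_eq_of_ne (by simp), map_zero, inv_mul_eq_iff_eq_mul₀ halJ, mul_zero]
            simp only [A, B, if_true, map_sub, map_mul, map_neg]
            ring
          · rw [Pi.single_eq_of_ne (by simp), map_zero, inv_mul_eq_iff_eq_mul₀ halJ, mul_zero]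
            simp only [A, B, if_neg one_ne_zero, map_sub, map_mul, map_neg]
            ring
          · rw [Pi.single_eq_same, map_one, inv_mul_eq_iff_eq_mul₀ halJ, mul_one, hJe]
            simp only [A, B, if_neg one_ne_zero, map_sub, map_mul, map_neg]
            ring
        · rw [hφa, Xi_y, hDx, hpd, hpd, map_add (pderiv (Sum.inl 0)), pderiv_C,
            pderiv_X_of_ne (by simp), map_add (pderiv (Sum.inl 1)), pderiv_C,
            pderiv_X_of_ne (by simp), pderiv_X_of_ne (by simp)]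
          simp
        · rw [hφa, Xi_x, hDy, hpd, pderiv_inr_rename, pderiv_X_of_ne (by simp), map_zero, map_zero]
        · rw [hφa, Xi_y, hDy, hpd, map_add, pderiv_C, add_zero, pderiv_X]
          by_cases hlj : l = j
          · rw [hlj, Pi.single_eq_same, map_one, map_one]
          · rw [Pi.single_eq_of_ne (fun h' => hlj (Sum.inr_injective h')), map_zero, map_zero]
      rw [map_mul, Derivation.leibniz, hx, Derivation.leibniz, smul_eq_mul, smul_eq_mul,
        smul_eq_mul, smul_eq_mul, map_add, map_mul, map_mul, h]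
  have hDJ : ∀ (i : Fin 2 ⊕ κ) (x : MvPolynomial (Fin 2 ⊕ κ) ℂ),
      ∃ y, D i (al x) * al J = al y := by
    intro i x
    rcases i with i | j
    · refine ⟨A i * pderiv (Sum.inl 0) x + B i * pderiv (Sum.inl 1) x, ?_⟩
      rw [hDx, hpd, hpd, map_add, map_mul, map_mul, mul_comm, mul_inv_cancel_left₀ halJ]
    · exact ⟨pderiv (Sum.inr j) x * J, by rw [hDy, hpd, map_mul]⟩
  have hp0 : p ≠ 0 := hp.ne_zero
  have halp : al p ≠ 0 := by rw [Ne, map_eq_zero_iff al hinj]; exact hp0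
  have hk0 : k ≠ 0 := by
    rintro rfl
    exact hk (dvd_zero p)
  have halk : al k ≠ 0 := by rw [Ne, map_eq_zero_iff al hinj]; exact hk0
  have hφF : φ F = al p ^ N * al k := by rw [hφa, hFp, map_mul, map_pow]
  have hφF0 : φ F ≠ 0 := by
    rw [hφF]
    exact mul_ne_zero (pow_ne_zero _ halp) halk
  have hNc : (N : ℂ) ≠ 0 := Nat.cast_ne_zero.2 (by omega)
  set s : ℂ := -1 / (N : ℂ) with hs
  have hsN : algebraMap ℂ L s * (N : L) = -1 := by
    have h1 : (N : L) = algebraMap ℂ L (N : ℂ) := by rw [map_natCast]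
    rw [h1, ← map_mul, hs, div_mul_cancel₀ _ hNc, map_neg, map_one]
  let U : Submodule ℂ L :=
    { carrier := {x | ∃ n d : MvPolynomial (Fin 2 ⊕ κ) ℂ, ¬ p ∣ d ∧ x * al d = al p * al n}
      add_mem' := by
        rintro x y ⟨n1, d1, h1, e1⟩ ⟨n2, d2, h2, e2⟩
        refine ⟨n1 * d2 + n2 * d1, d1 * d2, fun h => (hp.dvd_or_dvd h).elim h1 h2, ?_⟩
        simp only [map_add, map_mul]
        linear_combination (al d2) * e1 + (al d1) * e2
      zero_mem' := ⟨0, 1, fun h => hp.not_isUnit (isUnit_of_dvd_one h), by simp⟩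
      smul_mem' := by
        rintro z x ⟨n1, d1, h1, e1⟩
        refine ⟨C z * n1, d1, h1, ?_⟩
        rw [Algebra.smul_def, halg, map_mul]
        linear_combination (al (C z)) * e1 }
  have hmem := mem_of_stable φ D F (φ F)⁻¹ s hDφ (mul_inv_cancel₀ hφF0) hF H b hb U
    (by
      rintro i x ⟨n, d, h1, e1⟩
      refine ⟨Xi c ξ (X i) * n, d, h1, ?_⟩
      rw [hφa, map_mul]
      linear_combination (al (Xi c ξ (X i))) * e1)
    (by
      rintro i x ⟨n, d, h1, e1⟩
      obtain ⟨nJ, hnJ⟩ := hDJ i n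
      obtain ⟨dJ, hdJ⟩ := hDJ i d
      obtain ⟨kJ, hkJ⟩ := hDJ i k
      refine ⟨nJ * k * d - n * dJ * k + C s * (n * kJ * d), d * d * (k * J), ?_, ?_⟩
      · intro h
        rcases hp.dvd_or_dvd h with h | h
        · exact (hp.dvd_or_dvd h).elim h1 h1
        · exact (hp.dvd_or_dvd h).elim hk hJ
      · have e2 := congrArg (D i) e1
        rw [Derivation.leibniz, Derivation.leibniz, smul_eq_mul, smul_eq_mul, smul_eq_mul,
          smul_eq_mul] at e2
        have e3 : D i (φ F) * (φ F)⁻¹ * (al p * al k) = N * D i (al p) * al k + al p * D i (al k) := by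
          have h4 : D i (φ F) * al p = (N * D i (al p) * al k + al p * D i (al k)) * al p ^ N := by
            rw [hφF, Derivation.leibniz, Derivation.leibniz_pow, smul_eq_mul, smul_eq_mul,
              smul_eq_mul, nsmul_eq_mul]
            obtain ⟨M, rfl⟩ : ∃ M, N = M + 1 := ⟨N - 1, by omega⟩
            rw [Nat.add_sub_cancel, pow_succ]
            ring
          have h5 : φ F * (φ F)⁻¹ = 1 := mul_inv_cancel₀ hφF0
          rw [hφF] at h5
          rw [hφF] at h4 ⊢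
          linear_combination ((al p ^ N * al k)⁻¹ * al k) * h4
            + (N * D i (al p) * al k + al p * D i (al k)) * h5
        rw [nab_apply]
        simp only [map_add, map_sub, map_mul, ← halg]
        rw [← hnJ, ← hdJ, ← hkJ]
        linear_combination (al d * al k * al J) * e2
          + (- D i (al d) * al k * al J + algebraMap ℂ L s * (D i (φ F) * (φ F)⁻¹)
              * al d * al k * al J) * e1
          + (algebraMap ℂ L s * al n * al d * al J) * e3
          + (al n * al d * al J * D i (al p) * al k) * hsN)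
    (by
      refine ⟨p ^ (N - 1) * k, 1, fun h => hp.not_isUnit (isUnit_of_dvd_one h), ?_⟩
      obtain ⟨M, rfl⟩ : ∃ M, N = M + 1 := ⟨N - 1, by omega⟩
      rw [hφF, Nat.add_sub_cancel, map_one, map_mul, map_pow, pow_succ]
      ring)
  obtain ⟨n, d, h1, e1⟩ := hmem
  rw [halg, hφa, ← map_mul, ← map_mul, ← map_mul] at e1
  have e2 := hinj e1
  have h2 : p ∣ C (b.eval s) * Xi c ξ H * d := ⟨n, e2⟩
  rcases hp.dvd_or_dvd h2 with h3 | h3
  · rcases hp.dvd_or_dvd h3 with h4 | h4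
    · apply hp.not_isUnit
      refine isUnit_of_dvd_unit h4 (IsUnit.map _ (isUnit_iff_ne_zero.2 hne))
    · exact hH h4
  · exact h1 h3

end Prime

theorem codim1_prime (F H : MvPolynomial (Fin 2 ⊕ κ) ℂ) (b : Polynomial ℂ) (hb : HEq H F b)
    (hF : F ≠ 0) (c : κ → ℂ) (ξ : Fin 2 → MP) (p k : MvPolynomial (Fin 2 ⊕ κ) ℂ) (hp : Prime p)
    (N : ℕ) (hN : 1 ≤ N) (hFp : Xi c ξ F = p ^ N * k) (hk : ¬ p ∣ k)
    (hJ : ¬ p ∣ rename Sum.inl (jac ξ)) (hH : ¬ p ∣ Xi c ξ H) : b.eval (-1 / (N : ℂ)) = 0 :=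
  codim1_aux (FractionRing (MvPolynomial (Fin 2 ⊕ κ) ℂ)) F H b hb hF c ξ p k hp N hN hFp hk
    hJ hH

/-- a prime polynomial which divides a polynomial without `t` does not depend on `t` -/
theorem dvd_pderiv_of_dvd {σ : Type} {p Q : MvPolynomial σ ℂ} (hp : Prime p) (hQ : Q ≠ 0)
    (h : p ∣ Q) (t : σ) (ht : MvPolynomial.pderiv t Q = 0) : p ∣ MvPolynomial.pderiv t p := by
  have hfin : FiniteMultiplicity p Q := FiniteMultiplicity.of_not_isUnit hp.not_isUnit hQ
  obtain ⟨r, hr1, hr2⟩ := hfin.exists_eq_pow_mul_and_not_dvd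
  set e := multiplicity p Q with he
  have he1 : 1 ≤ e := by
    by_contra h0
    have : e = 0 := by omega
    rw [this, pow_zero, one_mul] at hr1
    rw [hr1] at h
    exact hr2 h
  obtain ⟨m, hm⟩ : ∃ m, e = m + 1 := ⟨e - 1, by omega⟩
  rw [hr1, hm, Derivation.leibniz, Derivation.leibniz_pow, Nat.add_sub_cancel, smul_eq_mul,
    smul_eq_mul, smul_eq_mul, nsmul_eq_mul] at ht
  have h1 : p ^ m * (p * MvPolynomial.pderiv t r
      + ((m + 1 : ℕ) : MvPolynomial σ ℂ) * MvPolynomial.pderiv t p * r) = 0 := by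
    rw [← ht, pow_succ]
    ring
  have h2 := (mul_eq_zero.1 h1).resolve_left (pow_ne_zero _ hp.ne_zero)
  have h3 : p ∣ ((m + 1 : ℕ) : MvPolynomial σ ℂ) * MvPolynomial.pderiv t p * r :=
    ⟨- MvPolynomial.pderiv t r, by linear_combination h2⟩
  rcases hp.dvd_or_dvd h3 with h4 | h4
  · rcases hp.dvd_or_dvd h4 with h5 | h5
    · exfalso
      apply hp.not_isUnit
      refine isUnit_of_dvd_unit h5 ?_
      have h6 : ((m + 1 : ℕ) : MvPolynomial σ ℂ) = MvPolynomial.C ((m + 1 : ℕ) : ℂ) := by simp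
      rw [h6]
      exact IsUnit.map _ (isUnit_iff_ne_zero.2 (Nat.cast_ne_zero.2 (by omega)))
    · exact h5
  · exact absurd h4 hr2

theorem not_dvd_of_cc {σ : Type} {p x : MvPolynomial σ ℂ} (hp : MvPolynomial.constantCoeff p = 0)
    (hx : MvPolynomial.constantCoeff x ≠ 0) : ¬ p ∣ x := by
  rintro ⟨y, rfl⟩
  rw [map_mul, hp, zero_mul] at hx
  exact hx rfl

/-- **Roots from smooth hypersurfaces.** -/
theorem codim1 (F H : MvPolynomial (Fin 2 ⊕ κ) ℂ) (b : Polynomial ℂ) (hb : HEq H F b)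
    (hF : F ≠ 0) (c : κ → ℂ) (ξ : Fin 2 → MP) (q k : MvPolynomial (Fin 2 ⊕ κ) ℂ)
    (t : Fin 2 ⊕ κ) (N : ℕ) (hN : 1 ≤ N) (α β α' β' : ℕ) (W' : MP)
    (hFq : Xi c ξ F = X (Sum.inl 0) ^ α * X (Sum.inl 1) ^ β * (q ^ N * k))
    (hk : ∀ p, Prime p → constantCoeff p = 0 → constantCoeff (pderiv t p) ≠ 0 → p ∣ q → ¬ p ∣ k)
    (hq : constantCoeff q = 0) (ht : constantCoeff (pderiv t q) ≠ 0)
    (hα : t = Sum.inl 0 → α = 0 ∧ α' = 0) (hβ : t = Sum.inl 1 → β = 0 ∧ β' = 0)
    (hJ : jac ξ = X 0 ^ α' * X 1 ^ β' * W') (hW' : constantCoeff W' ≠ 0)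
    (hH : constantCoeff (Xi c ξ H) ≠ 0) : b.eval (-1 / (N : ℂ)) = 0 := by
  have hq0 : q ≠ 0 := by
    rintro rfl
    rw [map_zero, map_zero] at ht
    exact ht rfl
  obtain ⟨p, hp, hpc, q1, rfl⟩ : ∃ p, Prime p ∧ constantCoeff p = 0 ∧ p ∣ q := by
    obtain ⟨f, hf1, hf2⟩ := UniqueFactorizationMonoid.exists_prime_factors q hq0
    obtain ⟨u, hu⟩ := hf2
    have h1 : constantCoeff f.prod = 0 := by
      have h2 := congrArg constantCoeff hu
      rw [map_mul, hq] at h2
      rcases mul_eq_zero.1 h2 with h3 | h3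
      · exact h3
      · exact absurd h3 (IsUnit.map constantCoeff u.isUnit).ne_zero
    rw [map_multiset_prod, Multiset.prod_eq_zero_iff, Multiset.mem_map] at h1
    obtain ⟨p, hpf, hpc⟩ := h1
    refine ⟨p, hf1 p hpf, hpc, ?_⟩
    rw [← hu]
    exact (Multiset.dvd_prod hpf).mul_right _
  rw [Derivation.leibniz, smul_eq_mul, smul_eq_mul, map_add, map_mul, map_mul, hpc, zero_mul,
    zero_add] at ht
  have hq1 : constantCoeff q1 ≠ 0 := left_ne_zero_of_mul ht
  have hpt : constantCoeff (pderiv t p) ≠ 0 := right_ne_zero_of_mul ht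
  have hX : ∀ s : Fin 2 ⊕ κ, t ≠ s → ¬ p ∣ X s := by
    intro s hts hd
    exact not_dvd_of_cc hpc hpt (dvd_pderiv_of_dvd hp (X_ne_zero s) hd t
      (pderiv_X_of_ne (Ne.symm hts)))
  have hXpow : ∀ (s : Fin 2 ⊕ κ) (n : ℕ), (t = s → n = 0) → ¬ p ∣ X s ^ n := by
    intro s n h h'
    by_cases hts : t = s
    · rw [h hts, pow_zero] at h'
      exact hp.not_isUnit (isUnit_of_dvd_one h')
    · exact hX s hts (hp.dvd_of_dvd_pow h')
  refine codim1_prime F H b hb hF c ξ p (X (Sum.inl 0) ^ α * X (Sum.inl 1) ^ β * (q1 ^ N * k)) hp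
    N hN ?_ ?_ ?_ (not_dvd_of_cc hpc hH)
  · rw [hFq, mul_pow]
    ring
  · intro h
    rcases hp.dvd_or_dvd h with h | h
    · rcases hp.dvd_or_dvd h with h | h
      · exact hXpow _ _ (fun h' => (hα h').1) h
      · exact hXpow _ _ (fun h' => (hβ h').1) h
    · rcases hp.dvd_or_dvd h with h | h
      · exact not_dvd_of_cc hpc hq1 (hp.dvd_of_dvd_pow h)
      · exact hk p hp hpc hpt ⟨q1, rfl⟩ h
  · rw [hJ, map_mul, map_mul, map_pow, map_pow, rename_X, rename_X]
    intro h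
    rcases hp.dvd_or_dvd h with h | h
    · rcases hp.dvd_or_dvd h with h | h
      · exact hXpow _ _ (fun h' => (hα h').2) h
      · exact hXpow _ _ (fun h' => (hβ h').2) h
    · refine not_dvd_of_cc hpc ?_ h
      rw [constantCoeff_rename]
      exact hW'

end Pool.Agent.N103
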