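import Pool.Agent.N103.Eng2

set_option autoImplicit false
set_option linter.unusedSectionVars false
set_option linter.unusedVariables false

/-! # Derivations of polynomial rings and of localizations -/

namespace Pool.Agent.N103

open Pool.Agent.W574.SM

section MvCoef

variable {κ K : Type} [CommRing K] [Algebra ℂ K]

/-- the derivation of the coefficients -/
noncomputable def dc (d : Derivation ℂ K K) :
    Derivation ℂ (MvPolynomial κ K) (MvPolynomial κ K) :=
  Derivation.mk' { toFun := dcoef d
                   map_add' := dcoef_add d
                   map_smul' := fun c P => by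
                    ext μ
                    rw [coeff_dcoef, MvPolynomial.coeff_smul, Derivation.map_smul,
                      RingHom.id_apply, MvPolynomial.coeff_smul, coeff_dcoef] }
    (fun P Q => by
      simp only [LinearMap.coe_mk, AddHom.coe_mk, smul_eq_mul]
      induction P using MvPolynomial.induction_on generalizing Q with
      | C a =>
        rw [dcoef_C_mul]
        have h : dcoef d (MvPolynomial.C a : MvPolynomial κ K) = MvPolynomial.C (d a) := by
          rw [← MvPolynomial.monomial_zero', dcoef_monomial]
        rw [h]
        ring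
      | add p q hp hq => rw [add_mul, dcoef_add, hp, hq, dcoef_add]; ring
      | mul_X p i hp =>
        have h1 : p * MvPolynomial.X i * Q = MvPolynomial.X i * (p * Q) := by ring
        have h2 : p * MvPolynomial.X i = MvPolynomial.X i * p := by ring
        rw [h1, dcoef_X_mul, hp, h2, dcoef_X_mul]
        ring)

theorem coeff_dc (d : Derivation ℂ K K) (P : MvPolynomial κ K) (μ : κ →₀ ℕ) :
    MvPolynomial.coeff μ (dc d P) = d (MvPolynomial.coeff μ P) := coeff_dcoef d P μ

theorem dc_C (d : Derivation ℂ K K) (a : K) :
    dc d (MvPolynomial.C a : MvPolynomial κ K) = MvPolynomial.C (d a) := by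
  rw [← MvPolynomial.monomial_zero']
  exact dcoef_monomial d 0 a

theorem dc_X (d : Derivation ℂ K K) (i : κ) :
    dc d (MvPolynomial.X i : MvPolynomial κ K) = 0 := by
  have h := dcoef_monomial (κ := κ) d (Finsupp.single i 1) 1
  rw [Derivation.map_one_eq_zero, MvPolynomial.monomial_zero] at h
  exact h

theorem dc_pderiv (d : Derivation ℂ K K) (i : κ) (P : MvPolynomial κ K) :
    dc d (MvPolynomial.pderiv i P) = MvPolynomial.pderiv i (dc d P) := by
  classical
  ext μ
  rw [coeff_dc, MvPolynomial.coeff_pderiv, MvPolynomial.coeff_pderiv, coeff_dc]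
  have h : ((μ i : K) + 1) = algebraMap ℂ K ((μ i : ℂ) + 1) := by simp
  rw [h, Derivation.leibniz, Derivation.map_algebraMap, smul_zero, zero_add, smul_eq_mul, mul_comm]

end MvCoef

section PolyCoef

variable {S : Type} [CommRing S] [Algebra ℂ S]

/-- the derivation of the coefficients -/
noncomputable def pcFun (d : Derivation ℂ S S) (P : Polynomial S) : Polynomial S :=
  ∑ n ∈ P.support, Polynomial.monomial n (d (P.coeff n))

theorem coeff_pcFun (d : Derivation ℂ S S) (P : Polynomial S) (n : ℕ) :
    (pcFun d P).coeff n = d (P.coeff n) := by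
  rw [pcFun, Polynomial.finsetSum_coeff]
  simp only [Polynomial.coeff_monomial]
  rw [Finset.sum_ite_eq' P.support n]
  split_ifs with h
  · rfl
  · rw [Polynomial.notMem_support_iff.1 h, map_zero]

/-- the derivation of the coefficients -/
noncomputable def pc (d : Derivation ℂ S S) : Derivation ℂ (Polynomial S) (Polynomial S) :=
  Derivation.mk' { toFun := pcFun d
                   map_add' := fun P Q => by
                    ext n
                    rw [coeff_pcFun, Polynomial.coeff_add, map_add, Polynomial.coeff_add,
                      coeff_pcFun, coeff_pcFun]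
                   map_smul' := fun c P => by
                    ext n
                    rw [coeff_pcFun, Polynomial.coeff_smul, Derivation.map_smul,
                      RingHom.id_apply, Polynomial.coeff_smul, coeff_pcFun] }
    (fun P Q => by
      ext n
      simp only [LinearMap.coe_mk, AddHom.coe_mk, smul_eq_mul]
      rw [coeff_pcFun, Polynomial.coeff_add, Polynomial.coeff_mul, Polynomial.coeff_mul, map_sum,
        mul_comm Q, Polynomial.coeff_mul, ← Finset.sum_add_distrib]
      refine Finset.sum_congr rfl fun x _ => ?_
      rw [coeff_pcFun, coeff_pcFun, Derivation.leibniz, smul_eq_mul, smul_eq_mul]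
      ring)

theorem coeff_pc (d : Derivation ℂ S S) (P : Polynomial S) (n : ℕ) :
    (pc d P).coeff n = d (P.coeff n) := coeff_pcFun d P n

theorem pc_C (d : Derivation ℂ S S) (a : S) : pc d (Polynomial.C a) = Polynomial.C (d a) := by
  ext n
  rw [coeff_pc, Polynomial.coeff_C, Polynomial.coeff_C]
  split_ifs
  · rfl
  · rw [map_zero]

theorem pc_X (d : Derivation ℂ S S) : pc d (Polynomial.X : Polynomial S) = 0 := by
  ext n
  rw [coeff_pc, Polynomial.coeff_X, Polynomial.coeff_zero]
  split_ifs
  · exact Derivation.map_one_eq_zero d
  · rw [map_zero]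

end PolyCoef

section Loc

variable {R B : Type} [CommRing R] [CommRing B] [Algebra ℂ R] [Algebra ℂ B] [Algebra R B]
  [IsScalarTower ℂ R B] (M : Submonoid R) [IsLocalization M B]

/-- the ring homomorphism attached to a derivation -/
noncomputable def tsz (B : Type) [CommRing B] [Algebra ℂ B] [Algebra R B] [IsScalarTower ℂ R B]
    (d : Derivation ℂ R R) : R →+* TrivSqZeroExt B B where
  toFun x := TrivSqZeroExt.inl (algebraMap R B x) + TrivSqZeroExt.inr (algebraMap R B (d x))
  map_zero' := by simp
  map_one' := by
    rw [Derivation.map_one_eq_zero]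
    simp
  map_add' x y := by
    ext
    · simp
    · simp only [TrivSqZeroExt.snd_add, TrivSqZeroExt.snd_inl, TrivSqZeroExt.snd_inr, map_add,
        zero_add]
  map_mul' x y := by
    ext
    · simp
    · simp only [TrivSqZeroExt.snd_add, TrivSqZeroExt.snd_mul, TrivSqZeroExt.fst_add,
        TrivSqZeroExt.fst_inl, TrivSqZeroExt.fst_inr, TrivSqZeroExt.snd_inl,
        TrivSqZeroExt.snd_inr, add_zero, zero_add, Derivation.leibniz, smul_eq_mul,
        map_add, map_mul, op_smul_eq_smul]

theorem tsz_fst (d : Derivation ℂ R R) (x : R) : (tsz B d x).fst = algebraMap R B x := by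
  change (TrivSqZeroExt.inl (algebraMap R B x) + TrivSqZeroExt.inr (algebraMap R B (d x))
    : TrivSqZeroExt B B).fst = _
  rw [TrivSqZeroExt.fst_add, TrivSqZeroExt.fst_inl, TrivSqZeroExt.fst_inr, add_zero]
theorem tsz_snd (d : Derivation ℂ R R) (x : R) : (tsz B d x).snd = algebraMap R B (d x) := by
  change (TrivSqZeroExt.inl (algebraMap R B x) + TrivSqZeroExt.inr (algebraMap R B (d x))
    : TrivSqZeroExt B B).snd = _
  rw [TrivSqZeroExt.snd_add, TrivSqZeroExt.snd_inl, TrivSqZeroExt.snd_inr, zero_add]

include M in
theorem exists_locDer (d : Derivation ℂ R R) :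
    ∃ D : Derivation ℂ B B, ∀ x, D (algebraMap R B x) = algebraMap R B (d x) := by
  have hu : ∀ y : M, IsUnit (tsz B d y) := by
    intro y
    rw [TrivSqZeroExt.isUnit_iff_isUnit_fst, tsz_fst]
    exact IsLocalization.map_units B y
  set f : B →+* TrivSqZeroExt B B := IsLocalization.lift hu with hf
  have hf1 : ∀ x, f (algebraMap R B x) = tsz B d x := fun x => IsLocalization.lift_eq hu x
  have hfst : ∀ x, (f x).fst = x := by
    intro x
    have h : (TrivSqZeroExt.fstHom ℂ B B : TrivSqZeroExt B B →+* B).comp f = RingHom.id B := by
      apply IsLocalization.ringHom_ext M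
      ext y
      simp only [RingHom.comp_apply, hf1, RingHom.id_apply]
      exact tsz_fst d y
    exact congrArg (fun g : B →+* B => g x) h
  refine ⟨Derivation.mk' { toFun := fun x => (f x).snd
                           map_add' := fun x y => by rw [map_add, TrivSqZeroExt.snd_add]
                           map_smul' := fun c x => by
                            have h : c • x = algebraMap R B (algebraMap ℂ R c) * x := by
                              rw [← IsScalarTower.algebraMap_apply, Algebra.smul_def]
                            rw [h, map_mul, hf1, TrivSqZeroExt.snd_mul, tsz_fst, tsz_snd,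
                              Derivation.map_algebraMap, map_zero, RingHom.id_apply,
                              smul_zero, add_zero, smul_eq_mul,
                              Algebra.smul_def, IsScalarTower.algebraMap_apply ℂ R B] }
    (fun x y => by
      simp only [LinearMap.coe_mk, AddHom.coe_mk]
      rw [map_mul, TrivSqZeroExt.snd_mul, hfst, hfst, op_smul_eq_smul]), ?_⟩
  intro x
  change (f (algebraMap R B x)).snd = _
  rw [hf1, tsz_snd]

theorem locDer_mk (d : Derivation ℂ R R) (D : Derivation ℂ B B)
    (hD : ∀ x, D (algebraMap R B x) = algebraMap R B (d x)) (z : B) (m x : R)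
    (h : z * algebraMap R B m = algebraMap R B x) :
    D z * algebraMap R B m + z * algebraMap R B (d m) = algebraMap R B (d x) := by
  rw [← hD, ← hD, ← h, Derivation.leibniz, smul_eq_mul, smul_eq_mul]
  ring

include M in
theorem locDer_comm (d1 d2 : Derivation ℂ R R) (h12 : ∀ x, d1 (d2 x) = d2 (d1 x))
    (D1 D2 : Derivation ℂ B B) (hD1 : ∀ x, D1 (algebraMap R B x) = algebraMap R B (d1 x))
    (hD2 : ∀ x, D2 (algebraMap R B x) = algebraMap R B (d2 x)) (z : B) :
    D1 (D2 z) = D2 (D1 z) := by
  obtain ⟨⟨x, m⟩, hz⟩ := IsLocalization.surj M z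
  have hm : IsUnit (algebraMap R B m) := IsLocalization.map_units B m
  simp only at hz
  have h1 := congrArg (fun u => D1 (D2 u)) hz
  have h2 := congrArg (fun u => D2 (D1 u)) hz
  simp only [Derivation.leibniz, smul_eq_mul, map_add, hD1, hD2] at h1 h2
  rw [h12, h12] at h1
  apply hm.mul_left_cancel
  linear_combination h1 - h2

end Loc

end Pool.Agent.N103
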