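import Pool.Agent.W574.HS.Minus

set_option autoImplicit false
set_option linter.unusedSectionVars false
set_option linter.unusedVariables false

/-! # Evaluation of a functional equation at a complex number, in a ring with derivations

Let `b` satisfy `H b(s) F ^ s = P(s) F ^ (s + 1)` in `ℂ[X_i]`. Let `L` be a commutative ring with
derivations `D i` and a homomorphism `φ : ℂ[X_i] → L` such that `D i (φ p) = φ (∂_i p)` and such that
`φ F` is invertible. Elements `x` of `L` are considered as `x F ^ e`, with a complex number `e`; the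
derivative of `x F ^ e` is `nab i x`. -/

namespace Pool.Agent.N103

open MvPolynomial

variable {σ L : Type} [CommRing L] [Algebra ℂ L]

/-- `H b(s) F ^ s = P(s) F ^ (s + 1)` with `P(s)` in the Weyl algebra. -/
def HEq (H F : MvPolynomial σ ℂ) (b : Polynomial ℂ) : Prop :=
  ∃ P : ℕ →₀ Pool.Agent.H628R4.TP.weylS σ, ∀ s : ℕ, H * (C (b.eval (s : ℂ)) * F ^ s) =
    P.sum fun m Q => ((s : ℂ) ^ m) • (Q : Module.End ℂ (MvPolynomial σ ℂ)) (F ^ (s + 1))

section Eval

variable (φ : MvPolynomial σ ℂ →ₐ[ℂ] L) (D : σ → Derivation ℂ L L) (F : MvPolynomial σ ℂ) (Gi : L)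
  (e : ℂ)

/-- the twisted derivative -/
noncomputable def nab (i : σ) : Module.End ℂ L :=
  ((D i : Derivation ℂ L L) : L →ₗ[ℂ] L) +
    LinearMap.mulLeft ℂ (algebraMap ℂ L e * (D i (φ F) * Gi))

theorem nab_apply (i : σ) (x : L) :
    nab φ D F Gi e i x = D i x + algebraMap ℂ L e * (D i (φ F) * Gi) * x := rfl

/-- the algebra generated by the multiplications by the `φ X_i` and the twisted derivatives -/
noncomputable def twAlg : Subalgebra ℂ (Module.End ℂ L) :=
  Algebra.adjoin ℂ (Set.range (fun i => LinearMap.mulLeft ℂ (φ (X i))) ∪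
    Set.range (fun i => nab φ D F Gi e i))

/-- the value of `r(s) F ^ (s - k)` at `s = e` -/
noncomputable def ev (k : ℕ) (r : Polynomial (MvPolynomial σ ℂ)) : L :=
  r.eval₂ (φ : MvPolynomial σ ℂ →+* L) (algebraMap ℂ L e) * Gi ^ k

theorem exists_deriv (hD : ∀ i p, D i (φ p) = φ (pderiv i p)) (i : σ)
    (r : Polynomial (MvPolynomial σ ℂ)) :
    ∃ p' : Polynomial (MvPolynomial σ ℂ), (∀ n : ℕ,
      pderiv i (r.eval (n : MvPolynomial σ ℂ)) = p'.eval (n : MvPolynomial σ ℂ)) ∧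
      D i (r.eval₂ (φ : MvPolynomial σ ℂ →+* L) (algebraMap ℂ L e))
        = p'.eval₂ (φ : MvPolynomial σ ℂ →+* L) (algebraMap ℂ L e) := by
  induction r using Polynomial.induction_on' with
  | add p q hp hq =>
    obtain ⟨p', hp, hp2⟩ := hp
    obtain ⟨q', hq, hq2⟩ := hq
    refine ⟨p' + q', fun n => by rw [Polynomial.eval_add, map_add, hp, hq, Polynomial.eval_add], ?_⟩
    rw [Polynomial.eval₂_add, map_add, hp2, hq2, Polynomial.eval₂_add]
  | monomial m a =>
    refine ⟨Polynomial.monomial m (pderiv i a), fun n => ?_, ?_⟩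
    · rw [Polynomial.eval_monomial, Polynomial.eval_monomial, ← Nat.cast_pow, mul_comm, mul_comm _
        (((n ^ m : ℕ)) : MvPolynomial σ ℂ), ← nsmul_eq_mul, ← nsmul_eq_mul]
      exact map_nsmul (pderiv i) _ _
    · rw [Polynomial.eval₂_monomial, Polynomial.eval₂_monomial, Derivation.leibniz, ← map_pow,
        Derivation.map_algebraMap, smul_zero, zero_add, smul_eq_mul]
      have h : D i ((φ : MvPolynomial σ ℂ →+* L) a) = φ (pderiv i a) := hD i a
      rw [h, mul_comm]
      rfl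

theorem ev_zero (r : Polynomial (MvPolynomial σ ℂ)) :
    ev φ Gi e 0 r = r.eval₂ (φ : MvPolynomial σ ℂ →+* L) (algebraMap ℂ L e) := by
  rw [ev, pow_zero, mul_one]

theorem D_Gi (hG : φ F * Gi = 1) (i : σ) : D i Gi = - (D i (φ F) * Gi * Gi) := by
  have h1 := congrArg (D i) hG
  rw [Derivation.leibniz, Derivation.map_one_eq_zero, smul_eq_mul, smul_eq_mul] at h1
  linear_combination Gi * h1 - D i Gi * hG

theorem D_Gi_pow (hG : φ F * Gi = 1) (i : σ) (k : ℕ) :
    D i (Gi ^ k) = - (k : L) * (D i (φ F) * Gi) * Gi ^ k := by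
  induction k with
  | zero => simp
  | succ k ih =>
    rw [pow_succ, Derivation.leibniz, ih, D_Gi φ D F Gi hG, smul_eq_mul, smul_eq_mul]
    push_cast
    ring

theorem lift_act (hD : ∀ i p, D i (φ p) = φ (pderiv i p)) (hG : φ F * Gi = 1)
    (Q : Module.End ℂ (MvPolynomial σ ℂ)) (hQ : Q ∈ Pool.Agent.H628R4.TP.weylS σ) :
    ∃ Qh ∈ twAlg φ D F Gi e, ∀ (k : ℕ) (r : Polynomial (MvPolynomial σ ℂ))
      (g : ℕ → MvPolynomial σ ℂ), (∀ n : ℕ, F ^ k * g n = r.eval (n : MvPolynomial σ ℂ) * F ^ n) →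
      ∃ (k' : ℕ) (r' : Polynomial (MvPolynomial σ ℂ)),
        (∀ n : ℕ, F ^ k' * Q (g n) = r'.eval (n : MvPolynomial σ ℂ) * F ^ n) ∧
        ev φ Gi e k' r' = Qh (ev φ Gi e k r) := by
  classical
  induction hQ using Algebra.adjoin_induction with
  | mem Q hQ =>
    rcases hQ with ⟨i, rfl⟩ | ⟨i, rfl⟩
    · refine ⟨LinearMap.mulLeft ℂ (φ (X i)), Algebra.subset_adjoin (Or.inl ⟨i, rfl⟩), ?_⟩
      intro k r g hr
      refine ⟨k, Polynomial.C (X i) * r, fun n => ?_, ?_⟩
      · change F ^ k * (X i * g n) = _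
        rw [Polynomial.eval_mul, Polynomial.eval_C]
        linear_combination X i * hr n
      · rw [ev, Polynomial.eval₂_mul, Polynomial.eval₂_C, LinearMap.mulLeft_apply, ev, mul_assoc]
        rfl
    · refine ⟨nab φ D F Gi e i, Algebra.subset_adjoin (Or.inr ⟨i, rfl⟩), ?_⟩
      intro k r g hr
      obtain ⟨p', hp', hp2⟩ := exists_deriv φ D e hD i r
      refine ⟨k + 1, Polynomial.C F * p' + Polynomial.X * r * Polynomial.C (pderiv i F) -
        Polynomial.C ((k : MvPolynomial σ ℂ) * pderiv i F) * r, fun n => ?_, ?_⟩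
      · have h1 := congrArg (pderiv i) (hr n)
        rw [Derivation.leibniz, Derivation.leibniz, Derivation.leibniz_pow, Derivation.leibniz_pow,
          smul_eq_mul, smul_eq_mul, hp', smul_eq_mul, smul_eq_mul, smul_eq_mul, smul_eq_mul,
          nsmul_eq_mul, nsmul_eq_mul] at h1
        have h2 : ∀ m : ℕ, F * ((m : MvPolynomial σ ℂ) * F ^ (m - 1)) = m * F ^ m := by
          intro m
          rcases m with _ | m
          · simp
          · rw [Nat.add_sub_cancel, pow_succ]; ring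
        change F ^ (k + 1) * pderiv i (g n) = _
        rw [Polynomial.eval_sub, Polynomial.eval_add, Polynomial.eval_mul, Polynomial.eval_mul,
          Polynomial.eval_mul, Polynomial.eval_mul, Polynomial.eval_C, Polynomial.eval_C,
          Polynomial.eval_C, Polynomial.eval_X, pow_succ]
        linear_combination F * h1 + (r.eval (n : MvPolynomial σ ℂ) * pderiv i F) * h2 n -
          g n * pderiv i F * h2 k - (k : MvPolynomial σ ℂ) * pderiv i F * hr n
      · rw [nab_apply, ev, ev, Derivation.leibniz, smul_eq_mul, smul_eq_mul, hp2,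
          D_Gi_pow φ D F Gi hG, hD, Polynomial.eval₂_sub, Polynomial.eval₂_add,
          Polynomial.eval₂_mul, Polynomial.eval₂_mul, Polynomial.eval₂_mul, Polynomial.eval₂_mul,
          Polynomial.eval₂_X, Polynomial.eval₂_C, Polynomial.eval₂_C, Polynomial.eval₂_C]
        have h3 : (φ : MvPolynomial σ ℂ →+* L) ((k : MvPolynomial σ ℂ) * pderiv i F)
            = (k : L) * φ (pderiv i F) := by
          rw [map_mul, map_natCast]; rfl
        have h4 : (φ : MvPolynomial σ ℂ →+* L) F = φ F := rfl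
        have h5 : (φ : MvPolynomial σ ℂ →+* L) (pderiv i F) = φ (pderiv i F) := rfl
        rw [h3, h4, h5]
        linear_combination (p'.eval₂ (φ : MvPolynomial σ ℂ →+* L) (algebraMap ℂ L e)
          * Gi ^ k) * hG
  | algebraMap c =>
    refine ⟨algebraMap ℂ _ c, Subalgebra.algebraMap_mem _ c, ?_⟩
    intro k r g hr
    refine ⟨k, Polynomial.C (C c) * r, fun n => ?_, ?_⟩
    · change F ^ k * (c • g n) = _
      rw [Polynomial.eval_mul, Polynomial.eval_C, ← C_mul']
      linear_combination C c * hr n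
    · rw [ev, Polynomial.eval₂_mul, Polynomial.eval₂_C, Module.algebraMap_end_apply, ev,
        Algebra.smul_def, mul_assoc]
      congr 1
      exact φ.commutes c
  | add Q1 Q2 _ _ h1 h2 =>
    obtain ⟨A1, hA1, h1⟩ := h1
    obtain ⟨A2, hA2, h2⟩ := h2
    refine ⟨A1 + A2, Subalgebra.add_mem _ hA1 hA2, ?_⟩
    intro k r g hr
    obtain ⟨k1, r1, h1, e1⟩ := h1 k r g hr
    obtain ⟨k2, r2, h2, e2⟩ := h2 k r g hr
    refine ⟨k1 + k2, Polynomial.C (F ^ k2) * r1 + Polynomial.C (F ^ k1) * r2, fun n => ?_, ?_⟩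
    · change F ^ (k1 + k2) * (Q1 (g n) + Q2 (g n)) = _
      rw [Polynomial.eval_add, Polynomial.eval_mul, Polynomial.eval_mul,
        Polynomial.eval_C, Polynomial.eval_C, pow_add]
      linear_combination F ^ k2 * h1 n + F ^ k1 * h2 n
    · rw [LinearMap.add_apply, ← e1, ← e2, ev, ev, ev, Polynomial.eval₂_add, Polynomial.eval₂_mul,
        Polynomial.eval₂_mul, Polynomial.eval₂_C, Polynomial.eval₂_C]
      have h3 : ∀ m : ℕ, (φ : MvPolynomial σ ℂ →+* L) (F ^ m) * Gi ^ m = 1 := by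
        intro m
        have h4 : (φ : MvPolynomial σ ℂ →+* L) (F ^ m) = (φ F) ^ m := map_pow _ _ _
        rw [h4, ← mul_pow, hG, one_pow]
      rw [pow_add]
      linear_combination (r1.eval₂ (φ : MvPolynomial σ ℂ →+* L) (algebraMap ℂ L e) * Gi ^ k1)
        * h3 k2 + (r2.eval₂ (φ : MvPolynomial σ ℂ →+* L) (algebraMap ℂ L e) * Gi ^ k2)
        * h3 k1
  | mul Q1 Q2 _ _ h1 h2 =>
    obtain ⟨A1, hA1, h1⟩ := h1
    obtain ⟨A2, hA2, h2⟩ := h2
    refine ⟨A1 * A2, Subalgebra.mul_mem _ hA1 hA2, ?_⟩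
    intro k r g hr
    obtain ⟨k2, r2, h2, e2⟩ := h2 k r g hr
    obtain ⟨k1, r1, h1, e1⟩ := h1 k2 r2 (fun n => Q2 (g n)) h2
    refine ⟨k1, r1, fun n => h1 n, ?_⟩
    rw [e1, e2]
    rfl

/-- **Evaluation at `s = e`.** -/
theorem eval_at (hD : ∀ i p, D i (φ p) = φ (pderiv i p)) (hG : φ F * Gi = 1) (hF : F ≠ 0)
    (H : MvPolynomial σ ℂ) (b : Polynomial ℂ) (hb : HEq H F b) :
    ∃ (S : Finset ℕ) (Qh : ℕ → Module.End ℂ L), (∀ m, Qh m ∈ twAlg φ D F Gi e) ∧
      φ H * algebraMap ℂ L (b.eval e) = ∑ m ∈ S, (e ^ m) • Qh m (φ F) := by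
  classical
  obtain ⟨P, hP⟩ := hb
  choose Qh hQ1 hQ2 using fun m : ℕ => lift_act φ D F Gi e hD hG (P m).1 (P m).2
  choose k r hr hev using fun m : ℕ => hQ2 m 0 (Polynomial.C F) (fun n => F ^ (n + 1))
    (fun n => by rw [pow_zero, one_mul, Polynomial.eval_C, pow_succ'])
  refine ⟨P.support, Qh, hQ1, ?_⟩
  set K := ∑ m ∈ P.support, k m with hK
  have hkK : ∀ m ∈ P.support, k m ≤ K := fun m hm =>
    Finset.single_le_sum (f := k) (fun _ _ => Nat.zero_le _) hm
  set G : Polynomial (MvPolynomial σ ℂ) :=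
    Polynomial.C (F ^ K * H) * (b.map C) -
      ∑ m ∈ P.support, Polynomial.X ^ m * (Polynomial.C (F ^ (K - k m)) * r m)
    with hG'
  have hbe : ∀ n : ℕ, (b.map (C : ℂ →+* MvPolynomial σ ℂ)).eval (n : MvPolynomial σ ℂ)
      = C (b.eval (n : ℂ)) := by
    intro n
    have h4 : ((n : ℕ) : MvPolynomial σ ℂ) = C (n : ℂ) := by simp
    rw [h4, Polynomial.eval_map, Polynomial.eval₂_at_apply]
  have h2 : ∀ n : ℕ, G.eval (n : MvPolynomial σ ℂ) = 0 := by
    intro n
    have h3 : G.eval (n : MvPolynomial σ ℂ) * F ^ n = 0 := by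
      rw [hG', Polynomial.eval_sub, Polynomial.eval_mul, Polynomial.eval_C, hbe,
        Polynomial.eval_finsetSum, sub_mul, sub_eq_zero]
      have h4 : F ^ K * H * C (b.eval (n : ℂ)) * F ^ n
          = F ^ K * (H * (C (b.eval (n : ℂ)) * F ^ n)) := by ring
      rw [h4, hP n, Finsupp.sum, Finset.mul_sum, Finset.sum_mul]
      refine Finset.sum_congr rfl fun m hm => ?_
      have h7 := hr m n
      have h8 : F ^ K = F ^ (K - k m) * F ^ k m := by
        rw [← pow_add, Nat.sub_add_cancel (hkK m hm)]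
      have h9 : ((n : ℕ) : MvPolynomial σ ℂ) = C (n : ℂ) := by simp
      rw [Polynomial.eval_mul, Polynomial.eval_mul, Polynomial.eval_pow, Polynomial.eval_X,
        Polynomial.eval_C, ← C_mul', C_pow, ← h9, h8]
      linear_combination F ^ (K - k m) * (n : MvPolynomial σ ℂ) ^ m * h7
    exact (mul_eq_zero.1 h3).resolve_right (pow_ne_zero n hF)
  have h5 : G = 0 := by
    apply Polynomial.eq_zero_of_infinite_isRoot
    refine Set.Infinite.mono ?_ (Set.infinite_range_of_injective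
      (f := fun n : ℕ => (n : MvPolynomial σ ℂ)) Nat.cast_injective)
    rintro _ ⟨n, rfl⟩
    exact h2 n
  have h6 := congrArg (Polynomial.eval₂ (φ : MvPolynomial σ ℂ →+* L) (algebraMap ℂ L e)) h5
  rw [hG', Polynomial.eval₂_sub, Polynomial.eval₂_mul, Polynomial.eval₂_C, Polynomial.eval₂_zero,
    Polynomial.eval₂_finsetSum, sub_eq_zero, Polynomial.eval₂_map] at h6
  have h7 : Polynomial.eval₂ ((φ : MvPolynomial σ ℂ →+* L).comp C) (algebraMap ℂ L e) b
      = algebraMap ℂ L (b.eval e) := by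
    have h8 : ((φ : MvPolynomial σ ℂ →+* L).comp C) = algebraMap ℂ L := by
      ext c
      exact φ.commutes c
    rw [h8, Polynomial.eval₂_at_apply]
  rw [h7] at h6
  have h9 : ∀ m : ℕ, (φ : MvPolynomial σ ℂ →+* L) (F ^ m) * Gi ^ m = 1 := by
    intro m
    have h4 : (φ : MvPolynomial σ ℂ →+* L) (F ^ m) = (φ F) ^ m := map_pow _ _ _
    rw [h4, ← mul_pow, hG, one_pow]
  have h10 : φ H * algebraMap ℂ L (b.eval e)
      = Gi ^ K * ((φ : MvPolynomial σ ℂ →+* L) (F ^ K * H) * algebraMap ℂ L (b.eval e)) := by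
    rw [map_mul (φ : MvPolynomial σ ℂ →+* L)]
    have h11 : (φ : MvPolynomial σ ℂ →+* L) H = φ H := rfl
    rw [h11]
    linear_combination (- φ H * algebraMap ℂ L (b.eval e)) * h9 K
  rw [h10, h6, Finset.mul_sum]
  refine Finset.sum_congr rfl fun m hm => ?_
  have h12 : φ F = ev φ Gi e 0 (Polynomial.C F) := by
    rw [ev_zero, Polynomial.eval₂_C]; rfl
  have h13 := hev m
  rw [← h12] at h13
  rw [← h13, ev, Polynomial.eval₂_mul, Polynomial.eval₂_mul, Polynomial.eval₂_pow,
    Polynomial.eval₂_X, Polynomial.eval₂_C, Algebra.smul_def, map_pow (algebraMap ℂ L)]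
  have h14 : Gi ^ K = Gi ^ (K - k m) * Gi ^ k m := by
    rw [← pow_add, Nat.sub_add_cancel (hkK m hm)]
  rw [h14]
  linear_combination (algebraMap ℂ L e ^ m * Gi ^ k m *
    (r m).eval₂ (φ : MvPolynomial σ ℂ →+* L) (algebraMap ℂ L e)) * h9 (K - k m)

/-- a subspace which is stable under the multiplications by the `φ X_i` and the twisted
derivatives, and which contains `φ F`, contains `b(e) φ H` -/
theorem mem_of_stable (hD : ∀ i p, D i (φ p) = φ (pderiv i p)) (hG : φ F * Gi = 1) (hF : F ≠ 0)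
    (H : MvPolynomial σ ℂ) (b : Polynomial ℂ) (hb : HEq H F b) (U : Submodule ℂ L)
    (h1 : ∀ i, ∀ x ∈ U, φ (X i) * x ∈ U) (h2 : ∀ i, ∀ x ∈ U, nab φ D F Gi e i x ∈ U)
    (h3 : φ F ∈ U) : algebraMap ℂ L (b.eval e) * φ H ∈ U := by
  obtain ⟨S, Qh, hQ1, hQ2⟩ := eval_at φ D F Gi e hD hG hF H b hb
  have hst : ∀ Q ∈ twAlg φ D F Gi e, ∀ x ∈ U, Q x ∈ U := by
    intro Q hQ
    induction hQ using Algebra.adjoin_induction with
    | mem Q hQ =>
      rcases hQ with ⟨i, rfl⟩ | ⟨i, rfl⟩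
      · exact h1 i
      · exact h2 i
    | algebraMap c =>
      intro x hx
      rw [Module.algebraMap_end_apply]
      exact U.smul_mem c hx
    | add Q1 Q2 _ _ hA hB => exact fun x hx => U.add_mem (hA x hx) (hB x hx)
    | mul Q1 Q2 _ _ hA hB => exact fun x hx => hA _ (hB x hx)
  rw [mul_comm, hQ2]
  exact U.sum_mem fun m _ => U.smul_mem _ (hst _ (hQ1 m) _ h3)

end Eval

end Pool.Agent.N103
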