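import Mathlib

set_option autoImplicit false
set_option linter.unusedSectionVars false
set_option linter.unusedVariables false

/-! # Laurent series over a domain, with derivations -/

namespace Pool.Agent.N103

attribute [-instance] HahnSeries.powerSeriesAlgebra

open HahnSeries

variable {B : Type} [CommRing B] [Algebra ℂ B]

/-- A derivation of the coefficients plus a multiple of the Euler derivation, as a function. -/
noncomputable def hdFun (δ : Derivation ℂ B B) (k : ℤ) (x : HahnSeries ℤ B) : HahnSeries ℤ B where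
  coeff g := δ (x.coeff g) + ((k * g : ℤ) : B) * x.coeff g
  isPWO_support' := x.isPWO_support.mono (by
    intro g hg
    rw [Function.mem_support] at hg
    rw [mem_support]
    intro h
    rw [h, map_zero, mul_zero, add_zero] at hg
    exact hg rfl)

theorem coeff_hdFun (δ : Derivation ℂ B B) (k : ℤ) (x : HahnSeries ℤ B) (g : ℤ) :
    (hdFun δ k x).coeff g = δ (x.coeff g) + ((k * g : ℤ) : B) * x.coeff g := rfl

theorem support_hdFun (δ : Derivation ℂ B B) (k : ℤ) (x : HahnSeries ℤ B) :
    (hdFun δ k x).support ⊆ x.support := by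
  intro g hg
  rw [mem_support, coeff_hdFun] at hg
  rw [mem_support]
  intro h
  rw [h, map_zero, mul_zero, add_zero] at hg
  exact hg rfl

/-- A derivation of the coefficients plus a multiple of the Euler derivation. -/
noncomputable def hd (δ : Derivation ℂ B B) (k : ℤ) :
    Derivation ℂ (HahnSeries ℤ B) (HahnSeries ℤ B) :=
  Derivation.mk' { toFun := hdFun δ k
                   map_add' := fun x y => by
                    ext g
                    simp only [coeff_add, coeff_hdFun, map_add]
                    ring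
                   map_smul' := fun c x => by
                    ext g
                    simp only [coeff_smul, coeff_hdFun, RingHom.id_apply, Derivation.map_smul,
                      smul_add, mul_smul_comm] }
    (fun x y => by
      ext g
      simp only [LinearMap.coe_mk, AddHom.coe_mk, smul_eq_mul, coeff_add, coeff_hdFun]
      rw [mul_comm y, coeff_mul_right' y.isPWO_support (support_hdFun δ k y),
        coeff_mul_left' x.isPWO_support (support_hdFun δ k x), coeff_mul,
        Finset.mul_sum, map_sum, ← Finset.sum_add_distrib, ← Finset.sum_add_distrib]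
      refine Finset.sum_congr rfl fun p hp => ?_
      rw [coeff_hdFun, coeff_hdFun, ← (Finset.mem_antidiagonal.1 hp).2.2, Derivation.leibniz]
      simp only [smul_eq_mul]
      push_cast
      ring)

theorem coeff_hd (δ : Derivation ℂ B B) (k : ℤ) (x : HahnSeries ℤ B) (g : ℤ) :
    (hd δ k x).coeff g = δ (x.coeff g) + ((k * g : ℤ) : B) * x.coeff g := rfl

theorem hd_C (δ : Derivation ℂ B B) (k : ℤ) (x : B) : hd δ k (C x) = C (δ x) := by
  ext g
  rw [coeff_hd, C_apply, C_apply, coeff_single, coeff_single]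
  split_ifs with h
  · rw [h, mul_zero, Int.cast_zero, zero_mul, add_zero]
  · rw [map_zero, mul_zero, add_zero]

theorem hd_single (δ : Derivation ℂ B B) (k n : ℤ) :
    hd δ k (single n (1 : B)) = ((k * n : ℤ) : HahnSeries ℤ B) * single n 1 := by
  ext g
  have h4 : ((k * n : ℤ) : HahnSeries ℤ B) = C ((k * n : ℤ) : B) := by rw [map_intCast]
  rw [coeff_hd, h4, C_mul_eq_smul, coeff_smul, coeff_single]
  split_ifs with h
  · rw [h, Derivation.map_one_eq_zero, zero_add, smul_eq_mul]
  · rw [map_zero, mul_zero, add_zero, smul_zero]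

theorem hd_comm (δ : Derivation ℂ B B) (x : HahnSeries ℤ B) :
    hd δ 0 (hd 0 1 x) = hd 0 1 (hd δ 0 x) := by
  ext g
  simp only [coeff_hd, Derivation.coe_zero, Pi.zero_apply, zero_add, zero_mul, Int.cast_zero,
    add_zero, one_mul]
  have h : ((g : ℤ) : B) = algebraMap ℂ B (g : ℂ) := by simp
  rw [h, Derivation.leibniz, Derivation.map_algebraMap, smul_zero, add_zero, smul_eq_mul]

theorem hd_comm' (δ ε : Derivation ℂ B B) (h : ∀ x, δ (ε x) = ε (δ x)) (x : HahnSeries ℤ B) :
    hd δ 0 (hd ε 0 x) = hd ε 0 (hd δ 0 x) := by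
  ext g
  simp only [coeff_hd, zero_mul, Int.cast_zero, add_zero]
  exact h _

/-- series of order at least `d` -/
def Ge (d : ℤ) (x : HahnSeries ℤ B) : Prop := ∀ g, g < d → x.coeff g = 0

theorem Ge.mono {d e : ℤ} (h : d ≤ e) {x : HahnSeries ℤ B} (hx : Ge e x) : Ge d x :=
  fun g hg => hx g (by omega)

theorem Ge_zero (d : ℤ) : Ge d (0 : HahnSeries ℤ B) := fun g _ => coeff_zero

theorem Ge.add {d : ℤ} {x y : HahnSeries ℤ B} (hx : Ge d x) (hy : Ge d y) : Ge d (x + y) :=
  fun g hg => by rw [coeff_add, hx g hg, hy g hg, add_zero]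

theorem Ge.mul {d e : ℤ} {x y : HahnSeries ℤ B} (hx : Ge d x) (hy : Ge e y) :
    Ge (d + e) (x * y) := by
  intro g hg
  rw [coeff_mul]
  refine Finset.sum_eq_zero fun p hp => ?_
  obtain ⟨h2, h3, h4⟩ := Finset.mem_antidiagonal.1 hp
  by_cases h : p.1 < d
  · rw [hx _ h, zero_mul]
  · rw [hy _ (by omega), mul_zero]

theorem coeff_mul_Ge {d e : ℤ} {x y : HahnSeries ℤ B} (hx : Ge d x) (hy : Ge e y) :
    (x * y).coeff (d + e) = x.coeff d * y.coeff e := by
  rw [coeff_mul]
  by_cases hd : x.coeff d = 0
  · rw [hd, zero_mul]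
    refine Finset.sum_eq_zero fun p hp => ?_
    obtain ⟨h2, h3, h4⟩ := Finset.mem_antidiagonal.1 hp
    by_cases h : p.1 < d
    · rw [hx _ h, zero_mul]
    · by_cases h' : p.2 < e
      · rw [hy _ h', mul_zero]
      · have h7 : p.1 = d := by omega
        rw [h7, hd, zero_mul]
  · by_cases he : y.coeff e = 0
    · rw [he, mul_zero]
      refine Finset.sum_eq_zero fun p hp => ?_
      obtain ⟨h2, h3, h4⟩ := Finset.mem_antidiagonal.1 hp
      by_cases h : p.1 < d
      · rw [hx _ h, zero_mul]
      · by_cases h' : p.2 < e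
        · rw [hy _ h', mul_zero]
        · have h7 : p.2 = e := by omega
          rw [h7, he, mul_zero]
    · rw [Finset.sum_eq_single (d, e)]
      · intro p hp hpne
        obtain ⟨h2, h3, h4⟩ := Finset.mem_antidiagonal.1 hp
        by_cases h : p.1 < d
        · rw [hx _ h, zero_mul]
        · by_cases h' : p.2 < e
          · rw [hy _ h', mul_zero]
          · exact absurd (Prod.ext (by simp only; omega) (by simp only; omega)) hpne
      · intro h
        exact absurd (Finset.mem_antidiagonal.2 ⟨hd, he, rfl⟩) h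

theorem Ge_C (x : B) : Ge 0 (C x : HahnSeries ℤ B) := fun g hg => by
  rw [C_apply, coeff_single_of_ne (by omega)]

theorem coeff_C0 (x : B) : (C x : HahnSeries ℤ B).coeff 0 = x := by
  rw [C_apply, coeff_single_same]

theorem Ge_single (n : ℤ) (x : B) : Ge n (single n x : HahnSeries ℤ B) := fun g hg => by
  rw [coeff_single_of_ne (by omega)]

theorem Ge_one : Ge 0 (1 : HahnSeries ℤ B) := by
  have := Ge_C (1 : B)
  rwa [map_one] at this

theorem Ge.hd (δ : Derivation ℂ B B) (k : ℤ) {d : ℤ} {x : HahnSeries ℤ B} (hx : Ge d x) :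
    Ge d (Pool.Agent.N103.hd δ k x) := fun g hg => by
  rw [coeff_hd, hx g hg, map_zero, mul_zero, add_zero]

theorem Ge.pow {x : HahnSeries ℤ B} (hx : Ge 0 x) (n : ℕ) : Ge 0 (x ^ n) := by
  induction n with
  | zero => rw [pow_zero]; exact Ge_one
  | succ n ih => rw [pow_succ]; simpa using ih.mul hx

theorem coeff_pow_Ge {x : HahnSeries ℤ B} (hx : Ge 0 x) (n : ℕ) :
    (x ^ n).coeff 0 = x.coeff 0 ^ n := by
  induction n with
  | zero => rw [pow_zero, pow_zero, coeff_one, if_pos rfl]
  | succ n ih =>
    have := coeff_mul_Ge (hx.pow n) hx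
    rw [add_zero] at this
    rw [pow_succ, this, ih, pow_succ]

variable [IsDomain B]

theorem order_of_Ge {d : ℤ} {u : HahnSeries ℤ B} (hu : Ge d u) (h : u.coeff d ≠ 0) :
    u.order = d := by
  apply le_antisymm
  · exact order_le_of_coeff_ne_zero h
  · by_contra hlt
    have h0 := hu u.order (not_le.1 hlt)
    rw [coeff_order_eq_zero] at h0
    rw [h0, coeff_zero] at h
    exact h rfl

theorem ne_of_coeff {d : ℤ} {u : HahnSeries ℤ B} (h : u.coeff d ≠ 0) : u ≠ 0 := by
  rintro rfl
  exact h coeff_zero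

/-- inverses -/
theorem exists_inv {d : ℤ} {u : HahnSeries ℤ B} (hu : Ge d u) (h : IsUnit (u.coeff d)) :
    ∃ v : HahnSeries ℤ B, u * v = 1 ∧ Ge (-d) v := by
  have hne := h.ne_zero
  have ho := order_of_Ge hu hne
  have h1 : IsUnit u := by
    rw [isUnit_iff, leadingCoeff_eq, ho]
    exact h
  obtain ⟨v, hv⟩ := h1.exists_right_inv
  refine ⟨v, hv, ?_⟩
  have hu0 := ne_of_coeff hne
  have hv0 : v ≠ 0 := by
    rintro rfl
    rw [mul_zero] at hv
    exact zero_ne_one hv
  have h2 := order_mul hu0 hv0
  rw [hv, order_one, ho] at h2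
  intro g hg
  by_contra hc
  have := order_le_of_coeff_ne_zero hc
  omega

theorem exists_root (w : HahnSeries ℤ B) (hw : Ge 0 w) (hw1 : w.coeff 0 = 1)
    (a : ℕ) (ha : a ≠ 0) :
    ∃ V : HahnSeries ℤ B, Ge 0 V ∧ V.coeff 0 = 1 ∧ V ^ a = w := by
  have hw0 : w.coeff 0 ≠ 0 := by rw [hw1]; exact one_ne_zero
  have hwo := order_of_Ge hw hw0
  have hwne := ne_of_coeff hw0
  have hv1 : 0 < (w - 1).orderTop := by
    rw [orderTop_self_sub_one_pos_iff]
    refine ⟨?_, ?_⟩
    · rw [← order_eq_orderTop_of_ne_zero hwne, hwo]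
      rfl
    · rw [leadingCoeff_eq, hwo, hw1]
  set x : HahnSeries ℤ B := w - 1 with hx
  set V : HahnSeries ℤ B := PowerSeries.heval x (PowerSeries.binomialSeries B ((a : ℂ)⁻¹)) with hV
  have hB : ∀ k : ℕ, (PowerSeries.binomialSeries B ((a : ℂ)⁻¹)) ^ k
      = PowerSeries.binomialSeries B (k * (a : ℂ)⁻¹) := by
    intro k
    induction k with
    | zero => rw [pow_zero, Nat.cast_zero, zero_mul, PowerSeries.binomialSeries_zero]
    | succ k ih =>
      rw [pow_succ, ih, ← PowerSeries.binomialSeries_add]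
      congr 1
      push_cast
      ring
  have hVw : V ^ a = w := by
    rw [hV, ← map_pow, hB, mul_inv_cancel₀ (Nat.cast_ne_zero.2 ha)]
    have h1 : PowerSeries.binomialSeries B (1 : ℂ) = 1 + PowerSeries.X := by
      have := PowerSeries.binomialSeries_nat (R := ℂ) (A := B) 1
      simpa using this
    rw [h1, map_add, map_one, PowerSeries.heval_X x hv1, hx]
    ring
  have hV1 : V.coeff 0 = 1 := by
    rw [hV, PowerSeries.coeff_heval_zero, PowerSeries.binomialSeries_constantCoeff]
  have hVo : V.order = 0 := by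
    have h1 : (V ^ a).order = 0 := by rw [hVw, hwo]
    rw [order_pow] at h1
    rcases smul_eq_zero.1 h1 with h2 | h2
    · exact absurd h2 ha
    · exact h2
  refine ⟨V, ?_, hV1, hVw⟩
  intro g hg
  by_contra hc
  have := order_le_of_coeff_ne_zero hc
  omega

end Pool.Agent.N103
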