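import Pool.Agent.N103.ZDefs
import Pool.Agent.W574.MO.Defs

set_option autoImplicit false

/-! # Global zeta functions of `h(x) (f₀(x) + ∑ y_j f_j(x)) ^ a`

Let `F = h(x) (f₀(x) + ∑ y_j f_j(x)) ^ a` with `x = (x₁, x₂)` and further variables `y_j`, `j ∈ κ`. Let
`X' → ℂ ^ 2` be a composition of blow-ups of points such that the pull-backs of `h` and of the ideal
`(f₀, f_j)` are monomial. On `X' × ℂ ^ κ` the divisor of `F` is the sum of a divisor with normal
crossings, which comes from `X'`, and of `a` times the smooth hypersurface `g₀ + ∑ y_j g_j = 0`, which is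
transversal to it, where the `g₀, g_j` have no common zero. Over a point `Q` of `X'` the fibre of this
hypersurface is empty, if `g_j(Q) = 0` for all `j ≠ 0`, and it is a hyperplane of `ℂ ^ κ` otherwise.
So the fibre `ℂ ^ κ` contributes `ℓ ^ |κ|` in the first case, and
`(ℓ ^ |κ| - ℓ ^ (|κ| - 1)) + ℓ ^ (|κ| - 1) Φ(a, 1)` in the second case, where `Φ(N, ν)` is the
local factor of a divisor with the numerical data `(N, ν)`, and `ℓ` is the class of the affine line;
all contributions below are divided by `ℓ ^ (|κ| - 1)`. -/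

namespace Pool.Agent.N103

open MvPolynomial Pool.Agent.W574.SM Pool.Agent.W574.MO

section Zeta

variable {κ R : Type} [CommRing R]

/-- The fibre over the origin (of the coordinates `u, v` of the surface) of the hypersurface
`g₀ + ∑ y_j g_j = 0`: it is empty (`t = false`), or it is a hyperplane (`t = true`). -/
def FibreType (g : Option κ → MvPolynomial (Fin 2) ℂ) : Bool → Prop
  | false => constantCoeff (g none) ≠ 0 ∧ ∀ j, constantCoeff (g (some j)) = 0
  | true => ∃ j, constantCoeff (g (some j)) ≠ 0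

/-- The contribution of the fibre, divided by `ℓ ^ (|κ| - 1)`. -/
def fibreFactor (Φ : ℕ → ℕ → R) (ℓ : R) (a : ℕ) : Bool → R
  | false => ℓ
  | true => Φ a 1 + (ℓ - 1)

/-- `FibreZeta Φ ℓ a h g a₀ n₀ a₁ n₁ Z`: as in `GermZeta`, the origin of the plane is a point of a
partial resolution, near which the polynomial is `u ^ a₀ v ^ a₁ h (g₀ + ∑ y_j g_j) ^ a` and the
canonical divisor is `(n₀ - 1) [u = 0] + (n₁ - 1) [v = 0]`. `Z` is the contribution of the whole
fibre `{(0, 0)} × ℂ ^ κ` to the zeta function, divided by `ℓ ^ (|κ| - 1)`: the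
sum `∑_I [E_I° ∩ π⁻¹({(0, 0)} × ℂ ^ κ)] ∏_{i ∈ I} Φ(N_i, ν_i)` over the strata of a log resolution `π`.
The rules are the same as in `GermZeta`, with `FibreType` and `fibreFactor`:

* `unit`: `h` does not vanish at the origin, and one of the `g₀`, `g_j` does not vanish there;
* `curveV`, `curveU`: near the origin, `h = q ^ mh kh` and `g_j = q ^ mg k_j` with the equation `q`
  of a curve which is smooth at the origin and transversal to the exceptional curve `u = 0` (resp.
  `v = 0`), the only one through the origin (if any), a unit `kh`, and one of the `k₀`, `k_j` is a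
  unit;
* `blowup`: the origin of the plane is blown up; at the points `c ∉ S` of the exceptional curve the
  transform of `h` is a unit, and `FibreType` holds with the same `t`. -/
inductive FibreZeta (Φ : ℕ → ℕ → R) (ℓ : R) (a : ℕ) :
    MvPolynomial (Fin 2) ℂ → (Option κ → MvPolynomial (Fin 2) ℂ) → ℕ → ℕ → ℕ → ℕ → R → Prop
  | unit (h : MvPolynomial (Fin 2) ℂ) (g : Option κ → MvPolynomial (Fin 2) ℂ) (a₀ n₀ a₁ n₁ : ℕ)
      (hh : constantCoeff h ≠ 0) (t : Bool) (ht : FibreType g t) :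
      FibreZeta Φ ℓ a h g a₀ n₀ a₁ n₁ (Φ a₀ n₀ * Φ a₁ n₁ * fibreFactor Φ ℓ a t)
  | curveV (h : MvPolynomial (Fin 2) ℂ) (g : Option κ → MvPolynomial (Fin 2) ℂ) (a₀ n₀ mh mg : ℕ)
      (hm : 1 ≤ mh + a * mg) (q kh : MvPolynomial (Fin 2) ℂ)
      (k : Option κ → MvPolynomial (Fin 2) ℂ) (hh : h = q ^ mh * kh)
      (hg : ∀ j, g j = q ^ mg * k j) (h0 : constantCoeff q = 0)
      (h1 : constantCoeff (pderiv 1 q) ≠ 0) (hkh : constantCoeff kh ≠ 0) (t : Bool)
      (ht : FibreType k t) :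
      FibreZeta Φ ℓ a h g a₀ n₀ 0 1 (Φ a₀ n₀ * Φ (mh + a * mg) 1 * fibreFactor Φ ℓ a t)
  | curveU (h : MvPolynomial (Fin 2) ℂ) (g : Option κ → MvPolynomial (Fin 2) ℂ) (a₁ n₁ mh mg : ℕ)
      (hm : 1 ≤ mh + a * mg) (q kh : MvPolynomial (Fin 2) ℂ)
      (k : Option κ → MvPolynomial (Fin 2) ℂ) (hh : h = q ^ mh * kh)
      (hg : ∀ j, g j = q ^ mg * k j) (h0 : constantCoeff q = 0)
      (h1 : constantCoeff (pderiv 0 q) ≠ 0) (hkh : constantCoeff kh ≠ 0) (t : Bool)
      (ht : FibreType k t) :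
      FibreZeta Φ ℓ a h g 0 1 a₁ n₁ (Φ a₁ n₁ * Φ (mh + a * mg) 1 * fibreFactor Φ ℓ a t)
  | blowup (h : MvPolynomial (Fin 2) ℂ) (g : Option κ → MvPolynomial (Fin 2) ℂ)
      (a₀ n₀ a₁ n₁ mh mg : ℕ) (hm : 1 ≤ mh + a * mg)
      (hc : ℂ → MvPolynomial (Fin 2) ℂ) (gc : ℂ → Option κ → MvPolynomial (Fin 2) ℂ)
      (hI : MvPolynomial (Fin 2) ℂ) (gI : Option κ → MvPolynomial (Fin 2) ℂ)
      (hhc : ∀ c, aeval (chart c) h = X 0 ^ mh * hc c)
      (hgc : ∀ c j, aeval (chart c) (g j) = X 0 ^ mg * gc c j)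
      (hhI : aeval chartI h = X 1 ^ mh * hI)
      (hgI : ∀ j, aeval chartI (g j) = X 1 ^ mg * gI j)
      (S : Finset ℂ) (h0S : 0 ∈ S) (t : Bool)
      (hS : ∀ c ∉ S, constantCoeff (hc c) ≠ 0 ∧ FibreType (gc c) t)
      (Zc : ℂ → R) (ZI : R)
      (h0 : FibreZeta Φ ℓ a (hc 0) (gc 0) (a₀ + a₁ + (mh + a * mg)) (n₀ + n₁) a₁ n₁ (Zc 0))
      (hcS : ∀ c ∈ S, c ≠ 0 →
        FibreZeta Φ ℓ a (hc c) (gc c) (a₀ + a₁ + (mh + a * mg)) (n₀ + n₁) 0 1 (Zc c))
      (hZI : FibreZeta Φ ℓ a hI gI a₀ n₀ (a₀ + a₁ + (mh + a * mg)) (n₀ + n₁) ZI) :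
      FibreZeta Φ ℓ a h g a₀ n₀ a₁ n₁ (ZI + ∑ c ∈ S, Zc c +
        (ℓ - (S.card : R)) * (Φ (a₀ + a₁ + (mh + a * mg)) (n₀ + n₁) * fibreFactor Φ ℓ a t))

/-- `q = 0` is an irreducible curve in the plane, over which `F = h (f₀ + ∑ y_j f_j) ^ a` vanishes with
the multiplicity `m ≥ 1`. -/
def IsCurveA (h : MvPolynomial (Fin 2) ℂ) (f : Option κ → MvPolynomial (Fin 2) ℂ) (a : ℕ)
    (q : MvPolynomial (Fin 2) ℂ) (m : ℕ) : Prop :=
  Irreducible q ∧ 1 ≤ m ∧ ∃ (mh mg : ℕ) (kh : MvPolynomial (Fin 2) ℂ)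
    (k : Option κ → MvPolynomial (Fin 2) ℂ), m = mh + a * mg ∧ h = q ^ mh * kh ∧ ¬ q ∣ kh ∧
      (∀ j, f j = q ^ mg * k j) ∧ ∃ j, ¬ q ∣ k j

end Zeta

section Mot

variable {κ M : Type} [CommRing M]

/-- `Z` is (of the form of) `L ^ (1 - |κ|)` times the sum `∑_I [E_I°] ∏_{i ∈ I} Φ(N_i, ν_i)` over all
the strata of a log resolution of `F = h (f₀ + ∑ y_j f_j) ^ a` on `ℂ ^ 2 × ℂ ^ κ`, with
`Φ(N, ν) = (L - 1) L ^ (-ν) T ^ N / (1 - L ^ (-ν) T ^ N)` (`mf L`).

Take for the `q i` the equations of all the irreducible curves in the plane over which `F` vanishes,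
for `S` a finite set of points which contains the points `P` such that `F` vanishes on
`{P} × ℂ ^ κ` and which are isolated, or singular on the union `Y` of these curves, or at which
`h` or the ideal `(f₀, f_j)` is not the product of powers of the `q i` times a unit, and the points
at which the `k_j`, `j ≠ 0`, (see `IsCurveA`) vanish together. The contributions are: `u true` and
`u false` are the classes of the sets of the points outside of `Y ∪ S` at which some `f_j`, `j ≠ 0`,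
does not vanish, respectively all `f_j`, `j ≠ 0`, vanish; `w i true` and `w i false` are the
classes of the sets of the points of the curve `q i = 0` outside of `S` at which some `k_j`, `j ≠ 0`,
does not vanish, respectively all vanish; and `ZP P` is the contribution of the point `P ∈ S`,
computed by blowing up points. The sum of the classes is `[ℂ ^ 2] = L ^ 2`. -/
def GlobZeta (L : Mˣ) (h : MvPolynomial (Fin 2) ℂ) (f : Option κ → MvPolynomial (Fin 2) ℂ)
    (a : ℕ) (Z : PowerSeries M) : Prop :=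
  ∃ (u : Bool → M) (r : ℕ) (q : Fin r → MvPolynomial (Fin 2) ℂ) (m : Fin r → ℕ)
    (w : Fin r → Bool → M) (S : Finset (Fin 2 → ℂ)) (ZP : (Fin 2 → ℂ) → PowerSeries M),
    (∀ i, IsCurveA h f a (q i) (m i)) ∧
    (∀ P ∈ S, FibreZeta (mf L) (PowerSeries.C (L : M)) a (translate P h)
      (fun j => translate P (f j)) 0 1 0 1 (ZP P)) ∧
    ∑ t, u t + ∑ i, ∑ t, w i t + (S.card : M) = (L : M) ^ 2 ∧
    Z = ∑ t, PowerSeries.C (u t) * fibreFactor (mf L) (PowerSeries.C (L : M)) a t +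
      ∑ i, ∑ t, PowerSeries.C (w i t) *
        (mf L (m i) 1 * fibreFactor (mf L) (PowerSeries.C (L : M)) a t) + ∑ P ∈ S, ZP P

end Mot

end Pool.Agent.N103
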