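import Pool.Agent.R852.MC.Defs
import Pool.Agent.N103.GDefs

set_option autoImplicit false

/-! # Ideals with the polynomials `h(x) (f₀ + ∑ y_j f_j) ^ a` -/

namespace Pool.Agent.N103

open MvPolynomial Pool.Agent.W574.SM Pool.Agent.W574.MO Pool.Agent.W574.CN Pool.Agent.W574.RO
open Pool.Agent.Y229 Pool.Agent.R852.TP Pool.Agent.R852.MC

variable {M : Type} [CommRing M]

/-- `GlobLin L A Z`: the ideal `I` generated by the family `A` is in the least class with the
following properties, and `Z` is its (global) motivic zeta function `∫ T^(ord I) dμ`, where the set of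
all arcs of the affine space has the volume `1`. -/
inductive GlobLin (L : Mˣ) : Fam → PowerSeries M → Prop
  /-- the ideals in `MG`: the unit ideal, powers of a variable, ideals of `ℂ[x₁, x₂]`, certain ideals
  generated by forms of the same degree, and what is obtained from them by the operations below -/
  | old (A : Fam) (Z : PowerSeries M) (h : MG L A Z) : GlobLin L A Z
  /-- the principal ideal generated by `F = h(x₁, x₂) (f₀(x₁, x₂) + ∑ y_j f_j(x₁, x₂)) ^ a ≠ 0`, with
  arbitrary polynomials `h`, `f₀`, `f_j`, not all `f_j`, `j ≠ 0`, being zero, and further variables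
  `y_j`. If there are `k` variables `y_j`, then `Z = L ^ (1 - k) ∑_I [E_I°] ∏_{i ∈ I} Φ(N_i, ν_i)`,
  see `GlobZeta`, and the motivic zeta function is `L ^ (-k - 2)` times the sum. -/
  | lin (κ : Type) [Fintype κ] (h : MvPolynomial (Fin 2) ℂ)
      (f : Option κ → MvPolynomial (Fin 2) ℂ) (a : ℕ) (ha : 1 ≤ a) (hF : FF h f a ≠ 0)
      (hf : ∃ j : κ, f (some j) ≠ 0) (Z : PowerSeries M) (hZ : GlobZeta L h f a Z) :
      GlobLin L ⟨Fin 2 ⊕ κ, Fin 1, fun _ => FF h f a⟩ (PowerSeries.C ((L⁻¹ ^ 3 : Mˣ) : M) * Z)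
  /-- the sum of two ideals in disjoint sets of variables: the order is the minimum of the orders -/
  | sum (A B : Fam) (Z W : PowerSeries M) (hA : GlobLin L A Z) (hB : GlobLin L B W) :
      GlobLin L (A.sum B) (sumSeries Z W)
  /-- the product of two ideals in disjoint sets of variables: the orders are added -/
  | mul (A B : Fam) (Z W : PowerSeries M) (hA : GlobLin L A Z) (hB : GlobLin L B W) :
      GlobLin L (A.mul B) (Z * W)
  /-- the hypersurface `h(x) ∏_t (∑_j y_{t, j} f_{t, j}(x)) ^ a_t = 0`, if the ideal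
  `h ∏_t (f_{t, j})_j ^ a_t` is in the class -/
  | form (σ τ : Type) [Fintype τ] [DecidableEq τ] [Nonempty τ] (κ : τ → Type)
      [∀ t, Fintype (κ t)] (a : τ → ℕ) (ha : ∀ t, 0 < a t) (h : MvPolynomial σ ℂ)
      (f : (t : τ) → κ t → MvPolynomial σ ℂ) (Z : PowerSeries M)
      (hA : GlobLin L (genFam a h f) Z) :
      GlobLin L (formFam a h f) (Z * ∏ t, (PowerSeries.C (1 - ((L⁻¹ : Mˣ) : M)) * geo L (a t) 1))
  /-- the powers of a principal ideal: the orders are multiplied by `k` -/
  | pow (σ : Type) (g : MvPolynomial σ ℂ) (k : ℕ) (hk : k ≠ 0) (Z : PowerSeries M)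
      (hA : GlobLin L ⟨σ, Fin 1, fun _ => g⟩ Z) :
      GlobLin L ⟨σ, Fin 1, fun _ => g ^ k⟩ (PowerSeries.expand k hk Z)
  /-- the variables and the generators may be indexed differently -/
  | equiv (A B : Fam) (i : A.σ ≃ B.σ) (k : A.ι ≃ B.ι) (h : ∀ j, B.f (k j) = rename i (A.f j))
      (Z : PowerSeries M) (hA : GlobLin L A Z) : GlobLin L B Z

end Pool.Agent.N103
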