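import Pool.Agent.N103.PartB
import Pool.Agent.N103.Codim1

set_option autoImplicit false
set_option linter.unusedSectionVars false
set_option linter.unusedVariables false
set_option linter.unusedSimpArgs false

/-! # The geometry of the nodes -/

namespace Pool.Agent.N103

open Pool.Agent.W574.SM

open Polynomial

variable {κ : Type} [Fintype κ] [DecidableEq κ]

/-- the geometry of a node -/
structure GeomD (h : MP) (f : Option κ → MP) (a : ℕ) (c : κ → ℂ) (Pt : Fin 2 → ℂ)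
    (h' : MP) (g : Option κ → MP) (a0 n0 a1 n1 : ℕ) : Type where
  ξ : Fin 2 → MP
  b0 : ℕ
  c0 : ℕ
  b1 : ℕ
  c1 : ℕ
  Wh : MP
  Wf : MP
  W' : MP
  hWh : MvPolynomial.constantCoeff Wh ≠ 0
  hWf : MvPolynomial.constantCoeff Wf ≠ 0
  hW' : MvPolynomial.constantCoeff W' ≠ 0
  eh : MvPolynomial.aeval ξ h = MvPolynomial.X 0 ^ b0 * MvPolynomial.X 1 ^ b1 * Wh * h'
  ef : ∀ j, MvPolynomial.aeval ξ (fc c f j)
    = MvPolynomial.X 0 ^ c0 * MvPolynomial.X 1 ^ c1 * Wf * g j
  ea0 : a0 = b0 + a * c0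
  ea1 : a1 = b1 + a * c1
  eJ : jac ξ = MvPolynomial.X 0 ^ (n0 - 1) * MvPolynomial.X 1 ^ (n1 - 1) * W'
  eP : ∀ i, MvPolynomial.constantCoeff (ξ i) = Pt i
  eK0 : 1 ≤ a0 → ∀ i, res0 (ξ i) = C (Pt i)
  eK1 : 1 ≤ a1 → ∀ i, res1 (ξ i) = C (Pt i)

section Child

variable {h : MP} {f : Option κ → MP} {a : ℕ} {c : κ → ℂ} {Pt : Fin 2 → ℂ}
  {h' : MP} {g : Option κ → MP} {a0 n0 a1 n1 : ℕ}

/-- the chart of the direction `v = z u` -/
theorem chart_eh (G : GeomD h f a c Pt h' g a0 n0 a1 n1) (mh : ℕ) (z : ℂ) (k : MP)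
    (hk : MvPolynomial.aeval (chart z) h' = MvPolynomial.X 0 ^ mh * k) :
    MvPolynomial.aeval (fun i => MvPolynomial.aeval (chart z) (G.ξ i)) h
      = MvPolynomial.X 0 ^ (G.b0 + G.b1 + mh) * ((MvPolynomial.X 1 + MvPolynomial.C z) ^ G.b1 *
        MvPolynomial.aeval (chart z) G.Wh * k) := by
  rw [aeval_comp, G.eh, map_mul, map_mul, map_mul, map_pow, map_pow, chart_X0, chart_X1, hk,
    mul_pow]
  ring

theorem chart_ef (G : GeomD h f a c Pt h' g a0 n0 a1 n1) (mg : ℕ) (z : ℂ) (k : Option κ → MP)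
    (hk : ∀ j, MvPolynomial.aeval (chart z) (g j) = MvPolynomial.X 0 ^ mg * k j) (j : Option κ) :
    MvPolynomial.aeval (fun i => MvPolynomial.aeval (chart z) (G.ξ i)) (fc c f j)
      = MvPolynomial.X 0 ^ (G.c0 + G.c1 + mg) * ((MvPolynomial.X 1 + MvPolynomial.C z) ^ G.c1 *
        MvPolynomial.aeval (chart z) G.Wf * k j) := by
  rw [aeval_comp, G.ef, map_mul, map_mul, map_mul, map_pow, map_pow, chart_X0, chart_X1, hk,
    mul_pow]
  ring

theorem chart_eJ (G : GeomD h f a c Pt h' g a0 n0 a1 n1) (hn0 : 1 ≤ n0) (hn1 : 1 ≤ n1) (z : ℂ) :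
    jac (fun i => MvPolynomial.aeval (chart z) (G.ξ i))
      = MvPolynomial.X 0 ^ (n0 + n1 - 1) * ((MvPolynomial.X 1 + MvPolynomial.C z) ^ (n1 - 1) *
        MvPolynomial.aeval (chart z) G.W') := by
  rw [jac_comp, G.eJ, map_mul, map_mul, map_pow, map_pow, chart_X0, chart_X1, jac_chart, mul_pow]
  have h : n0 + n1 - 1 = 1 + (n0 - 1) + (n1 - 1) := by omega
  rw [h]
  ring

theorem chart_eK (G : GeomD h f a c Pt h' g a0 n0 a1 n1) (z : ℂ) (i : Fin 2) :
    res0 (MvPolynomial.aeval (chart z) (G.ξ i)) = C (Pt i) := by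
  rw [res0_chart_const, G.eP]

/-- the child in the chart at `0` -/
noncomputable def GeomD.child0 (G : GeomD h f a c Pt h' g a0 n0 a1 n1) (hn0 : 1 ≤ n0)
    (hn1 : 1 ≤ n1) (mh mg : ℕ) (k : MP) (l : Option κ → MP)
    (hk : MvPolynomial.aeval (chart 0) h' = MvPolynomial.X 0 ^ mh * k)
    (hl : ∀ j, MvPolynomial.aeval (chart 0) (g j) = MvPolynomial.X 0 ^ mg * l j) :
    GeomD h f a c Pt k l (a0 + a1 + (mh + a * mg)) (n0 + n1) a1 n1 where
  ξ := fun i => MvPolynomial.aeval (chart 0) (G.ξ i)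
  b0 := G.b0 + G.b1 + mh
  c0 := G.c0 + G.c1 + mg
  b1 := G.b1
  c1 := G.c1
  Wh := MvPolynomial.aeval (chart 0) G.Wh
  Wf := MvPolynomial.aeval (chart 0) G.Wf
  W' := MvPolynomial.aeval (chart 0) G.W'
  hWh := by rw [cc_chart]; exact G.hWh
  hWf := by rw [cc_chart]; exact G.hWf
  hW' := by rw [cc_chart]; exact G.hW'
  eh := by rw [chart_eh G mh 0 k hk, map_zero, add_zero]; ring
  ef := fun j => by rw [chart_ef G mg 0 l hl, map_zero, add_zero]; ring
  ea0 := by
    have e0 := G.ea0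
    have e1 := G.ea1
    rw [Nat.mul_add, Nat.mul_add]
    omega
  ea1 := G.ea1
  eJ := by rw [chart_eJ G hn0 hn1 0, map_zero, add_zero]; ring
  eP := fun i => by rw [cc_chart, G.eP]
  eK0 := fun _ i => chart_eK G 0 i
  eK1 := fun ha i => by rw [res1_chart0]; exact G.eK1 ha i

/-- the child in the chart at `z ≠ 0` -/
noncomputable def GeomD.child (G : GeomD h f a c Pt h' g a0 n0 a1 n1) (hn0 : 1 ≤ n0)
    (hn1 : 1 ≤ n1) (mh mg : ℕ) (z : ℂ) (hz : z ≠ 0) (k : MP) (l : Option κ → MP)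
    (hk : MvPolynomial.aeval (chart z) h' = MvPolynomial.X 0 ^ mh * k)
    (hl : ∀ j, MvPolynomial.aeval (chart z) (g j) = MvPolynomial.X 0 ^ mg * l j) :
    GeomD h f a c Pt k l (a0 + a1 + (mh + a * mg)) (n0 + n1) 0 1 where
  ξ := fun i => MvPolynomial.aeval (chart z) (G.ξ i)
  b0 := G.b0 + G.b1 + mh
  c0 := G.c0 + G.c1 + mg
  b1 := 0
  c1 := 0
  Wh := (MvPolynomial.X 1 + MvPolynomial.C z) ^ G.b1 * MvPolynomial.aeval (chart z) G.Wh
  Wf := (MvPolynomial.X 1 + MvPolynomial.C z) ^ G.c1 * MvPolynomial.aeval (chart z) G.Wf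
  W' := (MvPolynomial.X 1 + MvPolynomial.C z) ^ (n1 - 1) * MvPolynomial.aeval (chart z) G.W'
  hWh := by
    rw [map_mul, map_pow, map_add, MvPolynomial.constantCoeff_X, MvPolynomial.constantCoeff_C,
      zero_add, cc_chart]
    exact mul_ne_zero (pow_ne_zero _ hz) G.hWh
  hWf := by
    rw [map_mul, map_pow, map_add, MvPolynomial.constantCoeff_X, MvPolynomial.constantCoeff_C,
      zero_add, cc_chart]
    exact mul_ne_zero (pow_ne_zero _ hz) G.hWf
  hW' := by
    rw [map_mul, map_pow, map_add, MvPolynomial.constantCoeff_X, MvPolynomial.constantCoeff_C,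
      zero_add, cc_chart]
    exact mul_ne_zero (pow_ne_zero _ hz) G.hW'
  eh := by rw [chart_eh G mh z k hk]; ring
  ef := fun j => by rw [chart_ef G mg z l hl]; ring
  ea0 := by
    have e0 := G.ea0
    have e1 := G.ea1
    rw [Nat.mul_add, Nat.mul_add]
    omega
  ea1 := by simp
  eJ := by rw [chart_eJ G hn0 hn1 z, Nat.sub_self]; ring
  eP := fun i => by rw [cc_chart, G.eP]
  eK0 := fun _ i => chart_eK G z i
  eK1 := fun ha => absurd ha (by omega)

theorem res1_chartI_const (q : MP) : res1 (MvPolynomial.aeval chartI q)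
    = C (MvPolynomial.constantCoeff q) := by
  induction q using MvPolynomial.induction_on with
  | C a =>
    rw [MvPolynomial.aeval_C, MvPolynomial.constantCoeff_C]
    exact res1.commutes a
  | add p q hp hq => rw [map_add, map_add, hp, hq, map_add, map_add]
  | mul_X p i hp =>
    rw [map_mul, map_mul, hp, map_mul, map_mul]
    have hi : i = 0 ∨ i = 1 := by omega
    rcases hi with rfl | rfl
    · rw [chartI_X0, map_mul, res1_X1]; simp
    · rw [chartI_X1, res1_X1]; simp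

/-- the child in the chart at infinity -/
noncomputable def GeomD.childI (G : GeomD h f a c Pt h' g a0 n0 a1 n1) (hn0 : 1 ≤ n0)
    (hn1 : 1 ≤ n1) (mh mg : ℕ) (k : MP) (l : Option κ → MP)
    (hk : MvPolynomial.aeval chartI h' = MvPolynomial.X 1 ^ mh * k)
    (hl : ∀ j, MvPolynomial.aeval chartI (g j) = MvPolynomial.X 1 ^ mg * l j) :
    GeomD h f a c Pt k l a0 n0 (a0 + a1 + (mh + a * mg)) (n0 + n1) where
  ξ := fun i => MvPolynomial.aeval chartI (G.ξ i)
  b0 := G.b0
  c0 := G.c0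
  b1 := G.b0 + G.b1 + mh
  c1 := G.c0 + G.c1 + mg
  Wh := MvPolynomial.aeval chartI G.Wh
  Wf := MvPolynomial.aeval chartI G.Wf
  W' := MvPolynomial.aeval chartI G.W'
  hWh := by rw [cc_chartI]; exact G.hWh
  hWf := by rw [cc_chartI]; exact G.hWf
  hW' := by rw [cc_chartI]; exact G.hW'
  eh := by
    rw [aeval_comp, G.eh, map_mul, map_mul, map_mul, map_pow, map_pow, chartI_X0, chartI_X1, hk,
      mul_pow]
    ring
  ef := fun j => by
    rw [aeval_comp, G.ef, map_mul, map_mul, map_mul, map_pow, map_pow, chartI_X0, chartI_X1, hl,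
      mul_pow]
    ring
  ea0 := G.ea0
  ea1 := by
    have e0 := G.ea0
    have e1 := G.ea1
    rw [Nat.mul_add, Nat.mul_add]
    omega
  eJ := by
    rw [jac_comp, G.eJ, map_mul, map_mul, map_pow, map_pow, chartI_X0, chartI_X1, jac_chartI,
      mul_pow]
    have h : n0 + n1 - 1 = 1 + (n0 - 1) + (n1 - 1) := by omega
    rw [h]
    ring
  eP := fun i => by rw [cc_chartI, G.eP]
  eK0 := fun ha i => by rw [res0_chartI]; exact G.eK0 ha i
  eK1 := fun _ i => by rw [res1_chartI_const, G.eP]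

theorem res0_sw (q : MP) : res0 (sw q) = res1 q := by
  have h2 : res0.comp sw = res1 := by
    apply ext2
    · rw [AlgHom.comp_apply, sw_X0, res0_X1, res1_X0]
    · rw [AlgHom.comp_apply, sw_X1, res0_X0, res1_X1]
  exact congrArg (fun φ : MP →ₐ[ℂ] ℂ[X] => φ q) h2

theorem res1_sw (q : MP) : res1 (sw q) = res0 q := by
  rw [← res0_sw, sw_sw]

/-- exchange of the coordinates -/
noncomputable def GeomD.swap (G : GeomD h f a c Pt h' g a0 n0 a1 n1) :
    GeomD h f a c Pt (sw h') (fun j => sw (g j)) a1 n1 a0 n0 where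
  ξ := fun i => sw (G.ξ i)
  b0 := G.b1
  c0 := G.c1
  b1 := G.b0
  c1 := G.c0
  Wh := sw G.Wh
  Wf := sw G.Wf
  W' := - sw G.W'
  hWh := by rw [cc_sw]; exact G.hWh
  hWf := by rw [cc_sw]; exact G.hWf
  hW' := by rw [map_neg, cc_sw]; exact neg_ne_zero.2 G.hW'
  eh := by
    rw [aeval_sw, G.eh, map_mul, map_mul, map_mul, map_pow, map_pow, sw_X0, sw_X1]
    ring
  ef := fun j => by
    rw [aeval_sw, G.ef, map_mul, map_mul, map_mul, map_pow, map_pow, sw_X0, sw_X1]
    ring
  ea0 := G.ea1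
  ea1 := G.ea0
  eJ := by
    rw [jac_sw, G.eJ, map_mul, map_mul, map_pow, map_pow, sw_X0, sw_X1]
    ring
  eP := fun i => by rw [cc_sw, G.eP]
  eK0 := fun ha i => by rw [res0_sw]; exact G.eK1 ha i
  eK1 := fun ha i => by rw [res1_sw]; exact G.eK0 ha i

end Child

section Roots

variable {h : MP} {f : Option κ → MP} {a : ℕ} {c : κ → ℂ} {Pt : Fin 2 → ℂ}
  {h' : MP} {g : Option κ → MP} {a0 n0 a1 n1 : ℕ}

theorem cc_Xi (c : κ → ℂ) (ξ : Fin 2 → MP) (Pt : Fin 2 → ℂ)
    (hP : ∀ i, MvPolynomial.constantCoeff (ξ i) = Pt i) (H : MvPolynomial (Fin 2 ⊕ κ) ℂ) :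
    MvPolynomial.constantCoeff (Xi c ξ H) = MvPolynomial.eval (Sum.elim Pt c) H := by
  induction H using MvPolynomial.induction_on with
  | C a =>
    rw [MvPolynomial.eval_C, Xi, MvPolynomial.aeval_C]
    exact MvPolynomial.constantCoeff_C _ a
  | add p q hp hq => rw [map_add, map_add, hp, hq, map_add]
  | mul_X p i hp =>
    rw [map_mul, map_mul, hp, map_mul, MvPolynomial.eval_X]
    rcases i with i | j
    · rw [Xi_x, MvPolynomial.constantCoeff_rename, hP]; rfl
    · rw [Xi_y]; simp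

theorem Xi_rename (c : κ → ℂ) (ξ : Fin 2 → MP) (p : MP) :
    Xi c ξ (MvPolynomial.rename Sum.inl p)
      = MvPolynomial.rename Sum.inl (MvPolynomial.aeval ξ p) := by
  induction p using MvPolynomial.induction_on with
  | C a =>
    rw [MvPolynomial.rename_C, MvPolynomial.aeval_C, Xi, MvPolynomial.aeval_C]
    exact (MvPolynomial.rename_C _ _).symm
  | add p q hp hq => rw [map_add, map_add, hp, hq, map_add, map_add]
  | mul_X p i hp =>
    rw [map_mul, map_mul, hp, MvPolynomial.rename_X, Xi_x, map_mul, map_mul, MvPolynomial.aeval_X]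

theorem Xi_lin (c : κ → ℂ) (ξ : Fin 2 → MP) (f : Option κ → MP) :
    Xi c ξ (lin f) = lin (fun j => MvPolynomial.aeval ξ (fc c f j)) := by
  have h0 : (MvPolynomial.aeval ξ) (fc c f none) = MvPolynomial.aeval ξ (f none)
      + ∑ j, MvPolynomial.C (c j) * MvPolynomial.aeval ξ (f (some j)) := by
    change (MvPolynomial.aeval ξ) (f none + ∑ j, MvPolynomial.C (c j) * f (some j)) = _
    rw [map_add, map_sum]
    congr 1
    refine Finset.sum_congr rfl fun j _ => ?_
    rw [map_mul]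
    congr 1
    exact MvPolynomial.aeval_C _ _
  rw [lin, lin, h0, map_add, map_sum, Xi_rename, map_add, map_sum, add_assoc,
    ← Finset.sum_add_distrib]
  congr 1
  refine Finset.sum_congr rfl fun j _ => ?_
  have h1 : (MvPolynomial.aeval ξ) (fc c f (some j)) = MvPolynomial.aeval ξ (f (some j)) := rfl
  rw [map_mul, Xi_y, Xi_rename, h1, map_mul, MvPolynomial.rename_C]
  ring

theorem lin_mul (x : MP) (f : Option κ → MP) :
    lin (fun j => x * f j) = MvPolynomial.rename Sum.inl x * lin f := by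
  rw [lin, lin, mul_add, Finset.mul_sum, map_mul]
  congr 1
  refine Finset.sum_congr rfl fun j _ => ?_
  rw [map_mul]
  ring

theorem cc_lin (f : Option κ → MP) :
    MvPolynomial.constantCoeff (lin f) = MvPolynomial.constantCoeff (f none) := by
  rw [lin, map_add, map_sum, MvPolynomial.constantCoeff_rename]
  simp

theorem pderiv_lin (f : Option κ → MP) (j : κ) :
    MvPolynomial.pderiv (Sum.inr j) (lin f) = MvPolynomial.rename Sum.inl (f (some j)) := by
  rw [lin, map_add, map_sum, pderiv_inr_rename, zero_add, Finset.sum_eq_single j]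
  · rw [Derivation.leibniz, pderiv_inr_rename, MvPolynomial.pderiv_X_self]
    simp
  · intro i _ hij
    rw [Derivation.leibniz, pderiv_inr_rename, MvPolynomial.pderiv_X_of_ne
      (fun h => hij (Sum.inr_injective h))]
    simp
  · intro h; exact absurd (Finset.mem_univ j) h

/-- the pull-back of `F` -/
theorem Xi_FF (G : GeomD h f a c Pt h' g a0 n0 a1 n1) : Xi c G.ξ (FF h f a)
    = MvPolynomial.X (Sum.inl 0) ^ a0 * MvPolynomial.X (Sum.inl 1) ^ a1 *
      (MvPolynomial.rename Sum.inl (G.Wh * G.Wf ^ a * h') * lin g ^ a) := by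
  have h1 : (fun j => MvPolynomial.aeval G.ξ (fc c f j))
      = fun j => (MvPolynomial.X 0 ^ G.c0 * MvPolynomial.X 1 ^ G.c1 * G.Wf) * g j := by
    funext j
    exact G.ef j
  rw [FF, map_mul, map_pow, Xi_rename, Xi_lin, h1, lin_mul, G.eh]
  simp only [map_mul, map_pow, MvPolynomial.rename_X]
  have e0 := congrArg (fun n => (MvPolynomial.X (Sum.inl 0) : MvPolynomial (Fin 2 ⊕ κ) ℂ) ^ n) G.ea0
  have e1 := congrArg (fun n => (MvPolynomial.X (Sum.inl 1) : MvPolynomial (Fin 2 ⊕ κ) ℂ) ^ n) G.ea1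
  rw [e0, e1, pow_add, pow_add, pow_mul', pow_mul']
  ring

end Roots

end Pool.Agent.N103
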