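import Pool.Agent.N103.NodeB

set_option autoImplicit false
set_option linter.unusedSectionVars false
set_option linter.unusedVariables false
set_option linter.unusedSimpArgs false

/-! # Families of polynomials on the projective line -/

namespace Pool.Agent.N103

open Pool.Agent.W574.SM

open Polynomial

/-- the expansion at a place -/
noncomputable def loc (m : ℕ) (Q : Option ℂ) (p : ℂ[X]) : ℂ[X] :=
  match Q with
  | some z => p.comp (X + C z)
  | none => p.reflect m

theorem loc_add (m : ℕ) (Q : Option ℂ) (p q : ℂ[X]) : loc m Q (p + q) = loc m Q p + loc m Q q := by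
  rcases Q with _ | z
  · exact reflect_add p q m
  · exact add_comp

theorem loc_C_mul (m : ℕ) (Q : Option ℂ) (s : ℂ) (p : ℂ[X]) :
    loc m Q (C s * p) = C s * loc m Q p := by
  rcases Q with _ | z
  · exact reflect_C_mul p s m
  · change (C s * p).comp (X + C z) = _
    rw [mul_comp, C_comp]
    rfl

theorem loc_zero (m : ℕ) (Q : Option ℂ) : loc m Q 0 = 0 := by
  rcases Q with _ | z
  · exact reflect_zero
  · exact zero_comp

theorem loc_ne (m : ℕ) (Q : Option ℂ) (p : ℂ[X]) (hp : p ≠ 0) : loc m Q p ≠ 0 := by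
  rcases Q with _ | z
  · change p.reflect m ≠ 0
    rwa [Ne, reflect_eq_zero_iff]
  · intro h
    have h1 := (ord_comp p hp z).2
    change p.comp (X + C z) = 0 at h
    rw [h, coeff_zero] at h1
    exact h1 rfl

theorem OrdP_loc_some (m : ℕ) (z : ℂ) (p : ℂ[X]) (hp : p ≠ 0) :
    OrdP (loc m (some z) p) (p.rootMultiplicity z) := ord_comp p hp z

theorem OrdP_loc_none (m : ℕ) (p : ℂ[X]) (hp : p ≠ 0) (hm : p.natDegree ≤ m) :
    OrdP (loc m none p) (m - p.natDegree) := by
  change OrdP (p.reflect m) _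
  constructor
  · intro i hi
    rw [coeff_reflect, revAt_le (by omega)]
    exact coeff_eq_zero_of_natDegree_lt (by omega)
  · rw [coeff_reflect, revAt_le (by omega)]
    have : m - (m - p.natDegree) = p.natDegree := by omega
    rw [this]
    exact leadingCoeff_ne_zero.2 hp

/-- the degree formula -/
theorem sum_ord (m : ℕ) (p : ℂ[X]) (hp : p ≠ 0) (hm : p.natDegree ≤ m) (o : Option ℂ → ℕ)
    (ho : ∀ Q, OrdP (loc m Q p) (o Q)) (S : Finset ℂ) (hS : ∀ z ∉ S, p.eval z ≠ 0) :
    ∑ Q ∈ Finset.insertNone S, o Q = m := by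
  classical
  have h1 : ∀ z, o (some z) = p.rootMultiplicity z := fun z =>
    (ho (some z)).unique (OrdP_loc_some m z p hp)
  have h2 : o none = m - p.natDegree := (ho none).unique (OrdP_loc_none m p hp hm)
  rw [Finset.sum_insertNone, h2, Finset.sum_congr rfl fun z _ => h1 z]
  have h3 : ∑ z ∈ S, p.rootMultiplicity z = p.natDegree := by
    have h4 : ∑ z ∈ S, p.roots.count z = p.roots.card := by
      apply Multiset.sum_count_eq_card
      intro z hz
      by_contra hzS
      exact hS z hzS (isRoot_of_mem_roots hz)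
    rw [← Finset.sum_congr rfl fun z _ => count_roots p, h4]
    exact (splits_iff_card_roots.1 (IsAlgClosed.splits p))
  rw [h3]
  omega

section Fam

variable {κ : Type} [Fintype κ]

/-- the member `P₀ + ∑ c_j P_j` -/
noncomputable def PC (P : Option κ → ℂ[X]) (c : κ → ℂ) : ℂ[X] :=
  P none + ∑ j, C (c j) * P (some j)

theorem PC_zero (P : Option κ → ℂ[X]) : PC P 0 = P none := by
  simp [PC]

theorem PC_add (P : Option κ → ℂ[X]) (c : κ → ℂ) [DecidableEq κ] (i : κ) (s : ℂ) :
    PC P (c + Pi.single i s) = PC P c + C s * P (some i) := by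
  rw [PC, PC, add_assoc]
  congr 1
  have h1 : ∀ j, C ((c + Pi.single i s : κ → ℂ) j) * P (some j) = C (c j) * P (some j) +
      C ((Pi.single i s : κ → ℂ) j) * P (some j) := by
    intro j
    rw [Pi.add_apply, map_add, add_mul]
  rw [Finset.sum_congr rfl fun j _ => h1 j, Finset.sum_add_distrib]
  congr 1
  rw [Finset.sum_eq_single i]
  · rw [Pi.single_eq_same]
  · intro j _ hj
    rw [Pi.single_eq_of_ne hj, map_zero, zero_mul]
  · intro h
    exact absurd (Finset.mem_univ i) h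

theorem loc_PC (m : ℕ) (Q : Option ℂ) (P : Option κ → ℂ[X]) (c : κ → ℂ) :
    loc m Q (PC P c) = PC (fun j => loc m Q (P j)) c := by
  classical
  rw [PC, PC, loc_add]
  congr 1
  have : ∀ s : Finset κ, loc m Q (∑ j ∈ s, C (c j) * P (some j)) =
      ∑ j ∈ s, C (c j) * loc m Q (P (some j)) := by
    intro s
    induction s using Finset.induction_on with
    | empty => rw [Finset.sum_empty, Finset.sum_empty, loc_zero]
    | insert i s hi ih => rw [Finset.sum_insert hi, Finset.sum_insert hi, loc_add, ih, loc_C_mul]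
  exact this _

theorem PC_deg (m : ℕ) (P : Option κ → ℂ[X]) (hP : ∀ j, (P j).natDegree ≤ m) (c : κ → ℂ) :
    (PC P c).natDegree ≤ m := by
  rw [PC]
  refine natDegree_add_le_of_degree_le (hP none) (natDegree_sum_le_of_forall_le _ _ fun j _ => ?_)
  exact (natDegree_C_mul_le _ _).trans (hP _)

theorem OrdP.eval_zero {m : ℕ} {z : ℂ} {p : ℂ[X]} {k : ℕ} (h : OrdP (loc m (some z) p) k)
    (hp : p.eval z = 0) : 1 ≤ k := by
  by_contra hk
  have : k = 0 := by omega
  subst this
  apply h.2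
  change (p.comp (X + C z)).coeff 0 = 0
  rw [coeff_zero_eq_eval_zero, eval_comp]
  simpa using hp

theorem OrdP_of_eval {m : ℕ} {z : ℂ} {p : ℂ[X]} (hp : p.eval z ≠ 0) :
    OrdP (loc m (some z) p) 0 := by
  refine ⟨fun i hi => absurd hi (by omega), ?_⟩
  change (p.comp (X + C z)).coeff 0 ≠ 0
  rw [coeff_zero_eq_eval_zero, eval_comp]
  simpa using hp

theorem exists_OrdP_ge {p : ℂ[X]} (hp : p ≠ 0) {k : ℕ} (h : ∀ i < k, p.coeff i = 0) :
    ∃ l, k ≤ l ∧ OrdP p l := by
  obtain ⟨l, hl⟩ := exists_OrdP p hp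
  refine ⟨l, ?_, hl⟩
  by_contra hlt
  exact hl.2 (h l (by omega))

theorem exists_eval_ne (p : ℂ[X]) (hp : p ≠ 0) (Q : Option ℂ) (S : Finset ℂ) :
    ∃ z, z ∉ S ∧ some z ≠ Q ∧ p.eval z ≠ 0 := by
  classical
  obtain ⟨z, hz⟩ := Infinite.exists_notMem_finset
    (S ∪ p.roots.toFinset ∪ (Q.elim ∅ fun q => {q}))
  simp only [Finset.mem_union, not_or, Multiset.mem_toFinset] at hz
  refine ⟨z, hz.1.1, ?_, fun h => hz.1.2 ((mem_roots hp).2 h)⟩
  rintro rfl
  exact hz.2 (by simp)

/-- **Lemma M.** -/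
theorem lemM [DecidableEq κ] (m : ℕ) (P : Option κ → ℂ[X]) (hdeg : ∀ j, (P j).natDegree ≤ m)
    (hM1 : ∀ c, PC P c ≠ 0) (j : κ) (hj : P (some j) ≠ 0) (T : Option ℂ → (κ → ℂ) → Prop)
    (hT : ∀ Q c (i : κ) p0 pi, OrdP (loc m Q (PC P c)) p0 → OrdP (loc m Q (P (some i))) pi →
      pi < p0 → T Q c ∧ pi = 0 ∧ p0 = 1)
    (hT2 : ∀ c Q Q', T Q c → T Q' c → Q = Q') :
    ∃ Q1, (∀ Q, Q ≠ Q1 → (loc m Q (P (some j))).coeff 0 ≠ 0) ∧ 1 ≤ m ∧
      OrdP (loc m Q1 (P none)) (m - 1) ∧
      ∀ i : κ, ∀ k < m, (loc m Q1 (P (some i))).coeff k = 0 := by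
  classical
  set p := P (some j) with hp
  obtain ⟨z1, -, -, hz1⟩ := exists_eval_ne p hj none ∅
  set t1 : ℂ := -(P none).eval z1 / p.eval z1 with ht1
  set c1 : κ → ℂ := 0 + Pi.single j t1 with hc1
  set r := PC P c1 with hr
  have hr' : r = P none + C t1 * p := by rw [hr, hc1, PC_add, PC_zero]
  have hr0 : r ≠ 0 := hM1 c1
  have hrd : r.natDegree ≤ m := PC_deg m P hdeg c1
  have hrz : r.eval z1 = 0 := by
    rw [hr', eval_add, eval_mul, eval_C, ht1, div_mul_cancel₀ _ hz1, add_neg_cancel]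
  choose op hop using fun Q => exists_OrdP _ (loc_ne m Q p hj)
  choose or hor using fun Q => exists_OrdP _ (loc_ne m Q r hr0)
  have hopz : op (some z1) = 0 := (hop (some z1)).unique (OrdP_of_eval hz1)
  obtain ⟨hTz, -, horz⟩ := hT (some z1) c1 j _ _ (hor (some z1)) (hop (some z1))
    (by rw [hopz]; exact (hor (some z1)).eval_zero hrz)
  have hle : ∀ Q, Q ≠ some z1 → or Q ≤ op Q := by
    intro Q hQ
    by_contra hlt
    exact hQ (hT2 c1 Q (some z1) (hT Q c1 j _ _ (hor Q) (hop Q) (by omega)).1 hTz)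
  set S : Finset ℂ := r.roots.toFinset ∪ p.roots.toFinset ∪ {z1} with hS
  have hSr : ∀ z ∉ S, r.eval z ≠ 0 := by
    intro z hz h0
    apply hz
    rw [hS]
    simp only [Finset.mem_union, Multiset.mem_toFinset]
    exact Or.inl (Or.inl ((mem_roots hr0).2 h0))
  have hSp : ∀ z ∉ S, p.eval z ≠ 0 := by
    intro z hz h0
    apply hz
    rw [hS]
    simp only [Finset.mem_union, Multiset.mem_toFinset]
    exact Or.inl (Or.inr ((mem_roots hj).2 h0))
  have sr := sum_ord m r hr0 hrd or hor S hSr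
  have sp := sum_ord m p hj (hdeg _) op hop S hSp
  have hz1S : some z1 ∈ Finset.insertNone S := by
    rw [Finset.some_mem_insertNone, hS]
    simp
  rw [← Finset.add_sum_erase _ _ hz1S, horz] at sr
  rw [← Finset.add_sum_erase _ _ hz1S, hopz] at sp
  set I := (Finset.insertNone S).erase (some z1) with hI
  have hleI : ∀ Q ∈ I, or Q ≤ op Q := fun Q hQ => hle Q (Finset.ne_of_mem_erase hQ)
  obtain ⟨Q1, hQ1I, hQ1⟩ : ∃ Q1 ∈ I, or Q1 < op Q1 := by
    by_contra hcon
    push Not at hcon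
    have : ∑ Q ∈ I, op Q ≤ ∑ Q ∈ I, or Q := Finset.sum_le_sum hcon
    omega
  have hQ1z : Q1 ≠ some z1 := Finset.ne_of_mem_erase hQ1I
  rw [← Finset.add_sum_erase _ _ hQ1I] at sr sp
  have hle2 : ∑ Q ∈ I.erase Q1, or Q ≤ ∑ Q ∈ I.erase Q1, op Q :=
    Finset.sum_le_sum fun Q hQ => hleI Q (Finset.mem_of_mem_erase hQ)
  have heq : op Q1 = or Q1 + 1 := by omega
  have heq2 : ∀ Q ∈ I.erase Q1, or Q = op Q :=
    (Finset.sum_eq_sum_iff_of_le fun Q hQ => hleI Q (Finset.mem_of_mem_erase hQ)).1 (by omega)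
  have heq3 : ∀ Q, Q ≠ some z1 → Q ≠ Q1 → or Q = op Q := by
    intro Q hQ hQ'
    by_cases hmem : Q ∈ Finset.insertNone S
    · exact heq2 Q (Finset.mem_erase.2 ⟨hQ', Finset.mem_erase.2 ⟨hQ, hmem⟩⟩)
    · rcases Q with _ | z
      · exact absurd (Finset.none_mem_insertNone) hmem
      · rw [Finset.some_mem_insertNone] at hmem
        rw [(hor (some z)).unique (OrdP_of_eval (hSr z hmem)),
          (hop (some z)).unique (OrdP_of_eval (hSp z hmem))]
  -- the order of `p` is zero outside of `Q1`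
  have hop0 : ∀ Q, Q ≠ Q1 → op Q = 0 := by
    intro Q hQ
    by_cases hQz : Q = some z1
    · rw [hQz, hopz]
    have he := heq3 Q hQz hQ
    set t : ℂ := -(loc m Q r).coeff (op Q) / (loc m Q p).coeff (op Q) with ht
    have h1 : PC P (c1 + Pi.single j t) = r + C t * p := PC_add P c1 j t
    have h2 : ∀ i < op Q + 1, (loc m Q (PC P (c1 + Pi.single j t))).coeff i = 0 := by
      intro i hi
      rw [h1, loc_add, loc_C_mul, coeff_add, coeff_C_mul]
      by_cases hi' : i < op Q
      · rw [(hop Q).1 i hi', (hor Q).1 i (by omega), mul_zero, add_zero]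
      · have : i = op Q := by omega
        rw [this, ht, div_mul_cancel₀ _ (hop Q).2, add_neg_cancel]
    obtain ⟨l, hl, hol⟩ := exists_OrdP_ge (loc_ne m Q _ (hM1 _)) h2
    exact (hT Q _ j _ _ hol (hop Q) (by omega)).2.1
  have hsum0 : ∑ Q ∈ I.erase Q1, op Q = 0 := Finset.sum_eq_zero fun Q hQ =>
    hop0 Q (Finset.ne_of_mem_erase hQ)
  have hopQ1 : op Q1 = m := by omega
  have horQ1 : or Q1 + 1 = m := by omega
  have hfin : ∀ i : κ, ∀ k < m, (loc m Q1 (P (some i))).coeff k = 0 := by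
    intro i
    by_cases hi0 : P (some i) = 0
    · intro k _
      rw [hi0, loc_zero, coeff_zero]
    obtain ⟨pi, hpi⟩ := exists_OrdP _ (loc_ne m Q1 _ hi0)
    by_cases hlt : m ≤ pi
    · exact fun k hk => hpi.1 k (by omega)
    exfalso
    by_cases hlt2 : pi < or Q1
    · exact hQ1z (hT2 c1 Q1 (some z1) (hT Q1 c1 i _ _ (hor Q1) hpi hlt2).1 hTz)
    have hpi' : pi = or Q1 := by omega
    set s : ℂ := -(loc m Q1 r).coeff pi / (loc m Q1 (P (some i))).coeff pi with hs
    obtain ⟨z2, -, hz2, hz2p⟩ := exists_eval_ne p hj Q1 ∅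
    set r2 := PC P (c1 + Pi.single i s) with hr2
    have hr2' : r2 = r + C s * P (some i) := PC_add P c1 i s
    set t : ℂ := -r2.eval z2 / p.eval z2 with ht
    set c2 : κ → ℂ := c1 + Pi.single i s + Pi.single j t with hc2
    have h1 : PC P c2 = r2 + C t * p := PC_add P _ j t
    have h2 : ∀ k < m, (loc m Q1 (PC P c2)).coeff k = 0 := by
      intro k hk
      rw [h1, hr2', loc_add, loc_add, loc_C_mul, loc_C_mul, coeff_add, coeff_add, coeff_C_mul,
        coeff_C_mul, (hop Q1).1 k (by omega), mul_zero, add_zero]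
      by_cases hk' : k < pi
      · rw [hpi.1 k hk', (hor Q1).1 k (by omega), mul_zero, add_zero]
      · have : k = pi := by omega
        rw [this, hs, div_mul_cancel₀ _ hpi.2, add_neg_cancel]
    obtain ⟨l, hl, hol⟩ := exists_OrdP_ge (loc_ne m Q1 _ (hM1 c2)) h2
    have hTQ := (hT Q1 c2 i _ _ hol hpi (by omega)).1
    have h3 : (PC P c2).eval z2 = 0 := by
      rw [h1, eval_add, eval_mul, eval_C, ht, div_mul_cancel₀ _ hz2p, add_neg_cancel]
    obtain ⟨l', hol'⟩ := exists_OrdP _ (loc_ne m (some z2) _ (hM1 c2))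
    have hTz2 := (hT (some z2) c2 j _ _ hol' (OrdP_of_eval hz2p) (hol'.eval_zero h3)).1
    exact hz2 (hT2 c2 _ _ hTz2 hTQ)
  refine ⟨Q1, fun Q hQ => ?_, by omega, ?_, hfin⟩
  · have h1 := (hop Q).2
    rwa [hop0 Q hQ] at h1
  · have h1 : P none = r + C (-t1) * p := by
      rw [hr', map_neg]
      ring
    rw [h1, loc_add, loc_C_mul]
    have h2 : or Q1 = m - 1 := by omega
    constructor
    · intro i hi
      rw [coeff_add, coeff_C_mul, (hor Q1).1 i (by omega), (hop Q1).1 i (by omega), mul_zero,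
        add_zero]
    · rw [coeff_add, coeff_C_mul, (hop Q1).1 (m - 1) (by omega), mul_zero, add_zero, ← h2]
      exact (hor Q1).2

end Fam

end Pool.Agent.N103
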