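import Pool.Agent.N103.GlB

set_option autoImplicit false
set_option linter.unusedSectionVars false
set_option linter.unusedVariables false
set_option linter.unusedSimpArgs false

/-! # The fibres over the points: the leaves -/

namespace Pool.Agent.N103

open Pool.Agent.W574.SM

open Polynomial

section Ord

variable {κ : Type}

/-- the order at the origin of a family -/
def MOrd (P : Option κ → ℂ[X]) (m : ℕ) : Prop :=
  (∀ j, ∀ k < m, (P j).coeff k = 0) ∧ ∃ j, (P j).coeff m ≠ 0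

theorem MOrd.unique {P : Option κ → ℂ[X]} {k l : ℕ} (hk : MOrd P k) (hl : MOrd P l) : k = l := by
  obtain ⟨j, hj⟩ := hk.2
  obtain ⟨i, hi⟩ := hl.2
  by_contra hne
  rcases Nat.lt_or_gt_of_ne hne with h | h
  · exact hj (hl.1 j k h)
  · exact hi (hk.1 i l h)

open Classical in
/-- the hypersurface meets the fibre -/
noncomputable def bt (P : Option κ → ℂ[X]) : Bool :=
  decide (∃ m, MOrd P m ∧ ∃ j : κ, (P (some j)).coeff m ≠ 0)

theorem bt_iff {P : Option κ → ℂ[X]} : bt P = true ↔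
    ∃ m, MOrd P m ∧ ∃ j : κ, (P (some j)).coeff m ≠ 0 := by
  classical
  unfold bt
  exact decide_eq_true_iff

theorem bt_true {P : Option κ → ℂ[X]} {m : ℕ} (h : MOrd P m) (j : κ)
    (hj : (P (some j)).coeff m ≠ 0) : bt P = true :=
  bt_iff.2 ⟨m, h, j, hj⟩

theorem bt_false {P : Option κ → ℂ[X]} {m : ℕ} (h : MOrd P m)
    (hj : ∀ j, (P (some j)).coeff m = 0) : bt P = false := by
  rw [← Bool.not_eq_true, bt_iff]
  rintro ⟨m', h', j, hj'⟩
  rw [← h.unique h'] at hj'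
  exact hj' (hj j)

theorem OrdP.coeff_mul {x y : ℂ[X]} {d : ℕ} (hx : OrdP x d) (k : ℕ) (hy : ∀ i < k, y.coeff i = 0) :
    (∀ i < d + k, (x * y).coeff i = 0) ∧ (x * y).coeff (d + k) = x.coeff d * y.coeff k := by
  obtain ⟨x', hx'⟩ := X_pow_dvd_iff.2 hx.1
  obtain ⟨y', hy'⟩ := X_pow_dvd_iff.2 hy
  have e : x * y = X ^ (d + k) * (x' * y') := by rw [hx', hy']; ring
  have e1 : x.coeff d = x'.coeff 0 := by
    have h2 := coeff_X_pow_mul x' d 0
    rw [zero_add] at h2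
    rw [hx', h2]
  have e2 : y.coeff k = y'.coeff 0 := by
    have h2 := coeff_X_pow_mul y' k 0
    rw [zero_add] at h2
    rw [hy', h2]
  constructor
  · rw [← X_pow_dvd_iff, e]
    exact dvd_mul_right _ _
  · have h2 := coeff_X_pow_mul (x' * y') (d + k) 0
    rw [zero_add] at h2
    rw [e, h2, mul_coeff_zero, e1, e2]

theorem MOrd.shift {P P' : Option κ → ℂ[X]} {x : ℂ[X]} {d : ℕ} (hx : OrdP x d)
    (hP : ∀ j, P j = x * P' j) {m : ℕ} (h : MOrd P' m) : MOrd P (d + m) := by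
  constructor
  · intro j k hk
    rw [hP]
    exact (hx.coeff_mul m (h.1 j)).1 k hk
  · obtain ⟨j, hj⟩ := h.2
    refine ⟨j, ?_⟩
    rw [hP, (hx.coeff_mul m (h.1 j)).2]
    exact mul_ne_zero hx.2 hj

theorem exists_MOrd {P : Option κ → ℂ[X]} (h : ∃ j, P j ≠ 0) : ∃ m, MOrd P m := by
  classical
  have hex : ∃ m, ∃ j, (P j).coeff m ≠ 0 := by
    obtain ⟨j, hj⟩ := h
    obtain ⟨k, hk⟩ := exists_OrdP _ hj
    exact ⟨k, j, hk.2⟩
  refine ⟨Nat.find hex, fun j k hk => ?_, Nat.find_spec hex⟩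
  by_contra hne
  exact Nat.find_min hex hk ⟨j, hne⟩

theorem MOrd.unshift {P P' : Option κ → ℂ[X]} {x : ℂ[X]} {d : ℕ} (hx : OrdP x d)
    (hP : ∀ j, P j = x * P' j) {m : ℕ} (h : MOrd P m) : ∃ m', m = d + m' ∧ MOrd P' m' := by
  have hex : ∃ j, P' j ≠ 0 := by
    by_contra hcon
    push Not at hcon
    obtain ⟨j, hj⟩ := h.2
    rw [hP, hcon, mul_zero, coeff_zero] at hj
    exact hj rfl
  obtain ⟨m', hm'⟩ := exists_MOrd hex
  exact ⟨m', h.unique (hm'.shift hx hP), hm'⟩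

theorem bt_shift {P P' : Option κ → ℂ[X]} {x : ℂ[X]} {d : ℕ} (hx : OrdP x d)
    (hP : ∀ j, P j = x * P' j) : bt P = bt P' := by
  by_cases hex : ∃ j, P' j ≠ 0
  · obtain ⟨m, hm⟩ := exists_MOrd hex
    have hm2 := hm.shift hx hP
    by_cases hj : ∃ j : κ, (P' (some j)).coeff m ≠ 0
    · obtain ⟨j, hj⟩ := hj
      rw [bt_true hm j hj, bt_true hm2 j]
      rw [hP, (hx.coeff_mul m (hm.1 _)).2]
      exact mul_ne_zero hx.2 hj
    · push Not at hj
      rw [bt_false hm hj, bt_false hm2]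
      intro j
      rw [hP, (hx.coeff_mul m (hm.1 _)).2, hj, mul_zero]
  · push Not at hex
    have h1 : P = P' := by
      funext j
      rw [hP, hex, mul_zero]
    rw [h1]

theorem MOrd_of_type {g : Option κ → MP} {t : Bool} (ht : FibreType g t) :
    MOrd (fun j => res0 (g j)) 0 ∧ bt (fun j => res0 (g j)) = t := by
  rcases t with _ | _
  · have h1 : MvPolynomial.constantCoeff (g none) ≠ 0 ∧ ∀ j,
      MvPolynomial.constantCoeff (g (some j)) = 0 := ht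
    have h2 : MOrd (fun j => res0 (g j)) 0 := ⟨fun j k hk => absurd hk (by omega), none, by
      rw [coeff_res0]; exact h1.1⟩
    refine ⟨h2, bt_false h2 fun j => ?_⟩
    rw [coeff_res0]
    exact h1.2 j
  · obtain ⟨j, hj⟩ : ∃ j, MvPolynomial.constantCoeff (g (some j)) ≠ 0 := ht
    have h2 : MOrd (fun j => res0 (g j)) 0 := ⟨fun j k hk => absurd hk (by omega), some j, by
      rw [coeff_res0]; exact hj⟩
    exact ⟨h2, bt_true h2 j (by rw [coeff_res0]; exact hj)⟩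

theorem FibreType_sw {g : Option κ → MP} {t : Bool} (ht : FibreType g t) :
    FibreType (fun j => sw (g j)) t := by
  rcases t with _ | _
  · have h1 : MvPolynomial.constantCoeff (g none) ≠ 0 ∧ ∀ j,
      MvPolynomial.constantCoeff (g (some j)) = 0 := ht
    exact ⟨by rw [cc_sw]; exact h1.1, fun j => by rw [cc_sw]; exact h1.2 j⟩
  · obtain ⟨j, hj⟩ : ∃ j, MvPolynomial.constantCoeff (g (some j)) ≠ 0 := ht
    exact ⟨j, by rw [cc_sw]; exact hj⟩

theorem FibreType_some {g : Option κ → MP} {t : Bool} (ht : FibreType g t) :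
    ∃ j, MvPolynomial.constantCoeff (g j) ≠ 0 := by
  rcases t with _ | _
  · have h1 : MvPolynomial.constantCoeff (g none) ≠ 0 ∧ ∀ j,
      MvPolynomial.constantCoeff (g (some j)) = 0 := ht
    exact ⟨none, h1.1⟩
  · obtain ⟨j, hj⟩ : ∃ j, MvPolynomial.constantCoeff (g (some j)) ≠ 0 := ht
    exact ⟨some j, hj⟩

variable [Fintype κ] [DecidableEq κ]

/-- a generic member -/
theorem exists_c {P : Option κ → ℂ[X]} {m : ℕ} (h : MOrd P m) : ∃ c : κ → ℂ, OrdP (PC P c) m := by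
  have hlow : ∀ c : κ → ℂ, ∀ k < m, (PC P c).coeff k = 0 := by
    intro c k hk
    rw [PC, coeff_add, h.1 none k hk, finsetSum_coeff, zero_add]
    exact Finset.sum_eq_zero fun j _ => by rw [coeff_C_mul, h.1 (some j) k hk, mul_zero]
  by_cases h0 : (P none).coeff m ≠ 0
  · exact ⟨0, hlow 0, by rw [PC_zero]; exact h0⟩
  · push Not at h0
    obtain ⟨j, hj⟩ := h.2
    rcases j with _ | j
    · exact absurd h0 hj
    · refine ⟨0 + Pi.single j 1, hlow _, ?_⟩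
      rw [PC_add, PC_zero, coeff_add, h0, coeff_C_mul, one_mul, zero_add]
      exact hj

theorem fc_none (c : κ → ℂ) (g : Option κ → MP) : fc c g none =
    g none + ∑ j, MvPolynomial.C (c j) * g (some j) := rfl

theorem map_fc {B : Type} [CommRing B] [Algebra ℂ B] (φ : MP →ₐ[ℂ] B) (c : κ → ℂ)
    (g : Option κ → MP) : φ (fc c g none) = φ (g none) + ∑ j, algebraMap ℂ B (c j) *
      φ (g (some j)) := by
  rw [fc_none, map_add, map_sum]
  congr 1
  refine Finset.sum_congr rfl fun j _ => ?_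
  rw [map_mul, MvPolynomial.algHom_C]

theorem res0_fc (c : κ → ℂ) (g : Option κ → MP) :
    res0 (fc c g none) = PC (fun j => res0 (g j)) c := map_fc res0 c g

theorem res1_fc (c : κ → ℂ) (g : Option κ → MP) :
    res1 (fc c g none) = PC (fun j => res1 (g j)) c := map_fc res1 c g

theorem fc_mul (φ : MP →ₐ[ℂ] MP) (c : κ → ℂ) (g g1 : Option κ → MP) (x : MP)
    (hg : ∀ j, φ (g j) = x * g1 j) (j : Option κ) : φ (fc c g j) = x * fc c g1 j := by
  rcases j with _ | j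
  · rw [map_fc, hg, fc_none, mul_add, Finset.mul_sum]
    congr 1
    refine Finset.sum_congr rfl fun j _ => ?_
    rw [hg, MvPolynomial.algebraMap_eq]
    ring
  · exact hg (some j)

theorem fc_sw (c : κ → ℂ) (g : Option κ → MP) : fc c (fun j => sw (g j)) =
    fun j => sw (fc c g j) := by
  funext j
  rcases j with _ | j
  · rw [fc_none, fc_none, map_add, map_sum]
    congr 1
    refine Finset.sum_congr rfl fun j _ => ?_
    rw [map_mul, MvPolynomial.algHom_C]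
    rfl
  · rfl

theorem Ord1_false {a : ℕ} {h : MP} {g : Option κ → MP} {ph pg : ℕ} (oh : OrdP (res1 h) ph)
    (og : OrdP (res1 (g none)) pg) : Ord1 (fam false a h g) (ph + a * pg) := by
  apply Ord_sw'
  exact Ord0_false (by rw [res0_sw]; exact oh) (by rw [res0_sw]; exact og)

end Ord

section Node

variable {κ : Type} [Fintype κ] [DecidableEq κ]
variable (h : MP) (f : Option κ → MP) (a : ℕ) (Pt : Fin 2 → ℂ)

/-- the induction hypothesis at a node, for all members of the family -/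
def InvG (s0 : ℂ) (h' : MP) (g : Option κ → MP) (a0 n0 a1 n1 : ℕ) : Prop :=
  ∀ c : κ → ℂ, InvA h f a c Pt s0 h' (fc c g) a0 n0 a1 n1

variable {R : Type} [CommRing R]

/-- the conclusion at a node -/
def GoodG (a : ℕ) (D : Subring R) (s0 : ℂ) (Φ : ℕ → ℕ → R) (l : R) (h' : MP)
    (g : Option κ → MP) (a0 n0 a1 n1 : ℕ) (Z : R) : Prop :=
  ∃ c0 ∈ D, ∃ c1 ∈ D,
    ((n0 : ℂ) + a0 * s0 = 0 → ∀ ph pg, OrdP (res0 h') ph → MOrd (fun j => res0 (g j)) pg →
      c0 = Φ (a1 + (ph + a * pg)) n1 * fibreFactor Φ l a (bt fun j => res0 (g j))) ∧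
    ((n1 : ℂ) + a1 * s0 = 0 → ∀ ph pg, OrdP (res1 h') ph → MOrd (fun j => res1 (g j)) pg →
      c1 = Φ (a0 + (ph + a * pg)) n0 * fibreFactor Φ l a (bt fun j => res1 (g j))) ∧
    Z - c0 * Φ a0 n0 - c1 * Φ a1 n1 ∈ D

variable {h f a Pt}

theorem bf_mem {D : Subring R} {s0 : ℂ} {Φ : ℕ → ℕ → R} {l : R} (hD : ZData D s0 Φ l)
    (h1a : (1 : ℂ) + a * s0 ≠ 0) (t : Bool) : fibreFactor Φ l a t ∈ D := by
  rcases t with _ | _
  · exact hD.ell
  · exact D.add_mem (hD.reg a 1 le_rfl (by rw [Nat.cast_one]; exact h1a))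
      (D.sub_mem hD.ell D.one_mem)

theorem crit0 {s0 : ℂ} {h' : MP} {g : Option κ → MP} {a0 n0 a1 n1 : ℕ}
    (inv : InvG h f a Pt s0 h' g a0 n0 a1 n1) (hA : (n0 : ℂ) + a0 * s0 = 0) {ph pg : ℕ}
    (oh : OrdP (res0 h') ph) (og : MOrd (fun j => res0 (g j)) pg) :
    (n1 : ℂ) + s0 * ((a1 + (ph + a * pg) : ℕ) : ℂ) ≠ 0 := by
  obtain ⟨c, hc⟩ := exists_c og
  rw [← res0_fc] at hc
  have ht : t0 (fc c g) = false := t0_false.2 fun h0 => hc.2 (by rw [h0, coeff_zero])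
  exact (inv c).hH0 hA _ (by rw [ht]; exact Ord0_false oh hc)

theorem crit1 {s0 : ℂ} {h' : MP} {g : Option κ → MP} {a0 n0 a1 n1 : ℕ}
    (inv : InvG h f a Pt s0 h' g a0 n0 a1 n1) (hA : (n1 : ℂ) + a1 * s0 = 0) {ph pg : ℕ}
    (oh : OrdP (res1 h') ph) (og : MOrd (fun j => res1 (g j)) pg) :
    (n0 : ℂ) + s0 * ((a0 + (ph + a * pg) : ℕ) : ℂ) ≠ 0 := by
  obtain ⟨c, hc⟩ := exists_c og
  rw [← res1_fc] at hc
  have ht : t1 (fc c g) = false := t1_false.2 fun h0 => hc.2 (by rw [h0, coeff_zero])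
  exact (inv c).hH1 hA _ (by rw [ht]; exact Ord1_false oh hc)

variable {b : ℂ[X]} {s0 : ℂ} {D : Subring R} {Φ : ℕ → ℕ → R} {l : R}

/-- the leaf `unit` -/
theorem goodG_unit (h1a : (1 : ℂ) + a * s0 ≠ 0) (hD : ZData D s0 Φ l) {h' : MP}
    {g : Option κ → MP} {a0 n0 a1 n1 : ℕ} (inv : InvG h f a Pt s0 h' g a0 n0 a1 n1)
    (hh : MvPolynomial.constantCoeff h' ≠ 0) (t : Bool) (ht : FibreType g t) :
    GoodG a D s0 Φ l h' g a0 n0 a1 n1 (Φ a0 n0 * Φ a1 n1 * fibreFactor Φ l a t) := by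
  have htf := bf_mem (a := a) hD h1a t
  have hn0 := (inv 0).hn0
  have hn1 := (inv 0).hn1
  have oh : OrdP (res0 h') 0 := OrdP_of_cc hh
  have oh1 : OrdP (res1 h') 0 := by
    rw [← res0_sw]
    exact OrdP_of_cc (by rwa [cc_sw])
  obtain ⟨og, ebt⟩ := MOrd_of_type ht
  obtain ⟨og1, ebt1⟩ := MOrd_of_type (FibreType_sw ht)
  simp only [res0_sw] at og1 ebt1
  by_cases hA0 : (n0 : ℂ) + a0 * s0 = 0
  · have h2 := crit0 inv hA0 oh og
    simp only [mul_zero, add_zero] at h2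
    have hA1 : (n1 : ℂ) + a1 * s0 ≠ 0 := by rwa [mul_comm]
    refine ⟨Φ a1 n1 * fibreFactor Φ l a t, D.mul_mem (hD.reg a1 n1 hn1 hA1) htf, 0, D.zero_mem,
      fun _ ph pg hph hpg => ?_, fun h => absurd h hA1, ?_⟩
    · rw [← oh.unique hph, ← og.unique hpg, ebt, mul_zero, add_zero, add_zero]
    · have : Φ a0 n0 * Φ a1 n1 * fibreFactor Φ l a t - Φ a1 n1 * fibreFactor Φ l a t * Φ a0 n0
          - 0 * Φ a1 n1 = 0 := by ring
      rw [this]
      exact D.zero_mem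
  · by_cases hA1 : (n1 : ℂ) + a1 * s0 = 0
    · refine ⟨0, D.zero_mem, Φ a0 n0 * fibreFactor Φ l a t,
        D.mul_mem (hD.reg a0 n0 hn0 hA0) htf, fun h => absurd h hA0, fun _ ph pg hph hpg => ?_, ?_⟩
      · rw [← oh1.unique hph, ← og1.unique hpg, ebt1, mul_zero, add_zero, add_zero]
      · have : Φ a0 n0 * Φ a1 n1 * fibreFactor Φ l a t - 0 * Φ a0 n0
            - Φ a0 n0 * fibreFactor Φ l a t * Φ a1 n1 = 0 := by ring
        rw [this]
        exact D.zero_mem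
    · refine ⟨0, D.zero_mem, 0, D.zero_mem, fun h => absurd h hA0, fun h => absurd h hA1, ?_⟩
      rw [zero_mul, zero_mul, sub_zero, sub_zero]
      exact D.mul_mem (D.mul_mem (hD.reg a0 n0 hn0 hA0) (hD.reg a1 n1 hn1 hA1)) htf

theorem curve_ords {h' : MP} {g : Option κ → MP} (mh mg : ℕ) (q kh : MP)
    (k : Option κ → MP) (hh : h' = q ^ mh * kh) (hg : ∀ j, g j = q ^ mg * k j)
    (h0 : MvPolynomial.constantCoeff q = 0)
    (h1 : MvPolynomial.constantCoeff (MvPolynomial.pderiv 1 q) ≠ 0)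
    (hkh : MvPolynomial.constantCoeff kh ≠ 0) (t : Bool) (ht : FibreType k t) :
    OrdP (res0 h') mh ∧ MOrd (fun j => res0 (g j)) mg ∧ bt (fun j => res0 (g j)) = t := by
  have oq := OrdP_curve h0 h1
  have oh : OrdP (res0 h') mh := by
    rw [hh, map_mul, map_pow]
    simpa using (oq.pow mh).mul (OrdP_of_cc hkh)
  have oqm : OrdP (res0 q ^ mg) mg := by simpa using oq.pow mg
  obtain ⟨ok, ebt⟩ := MOrd_of_type ht
  have hP : ∀ j, res0 (g j) = res0 q ^ mg * res0 (k j) := fun j => by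
    rw [hg, map_mul, map_pow]
  refine ⟨oh, ?_, ?_⟩
  · have := ok.shift (P := fun j => res0 (g j)) oqm hP
    rwa [add_zero] at this
  · rw [bt_shift (P := fun j => res0 (g j)) (P' := fun j => res0 (k j)) oqm hP]
    exact ebt

theorem curve_ne {H : MvPolynomial (Fin 2 ⊕ κ) ℂ} (hb : HEq H (FF h f a) b)
    (hF : FF h f a ≠ 0) (hH : ∀ x, MvPolynomial.eval x H ≠ 0) (hs0 : b.eval s0 ≠ 0)
    {h' : MP} {g : Option κ → MP} {a0 n0 : ℕ}
    (G : GeomD h f a 0 Pt h' (fc 0 g) a0 n0 0 1) (mh mg : ℕ) (hm : 1 ≤ mh + a * mg) (q kh : MP)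
    (k : Option κ → MP) (hh : h' = q ^ mh * kh) (hg : ∀ j, g j = q ^ mg * k j)
    (h0 : MvPolynomial.constantCoeff q = 0)
    (h1 : MvPolynomial.constantCoeff (MvPolynomial.pderiv 1 q) ≠ 0)
    (hkh : MvPolynomial.constantCoeff kh ≠ 0) (t : Bool) (ht : FibreType k t) :
    (1 : ℂ) + ((mh + a * mg : ℕ) : ℂ) * s0 ≠ 0 := by
  obtain ⟨j, hj⟩ := FibreType_some ht
  have hfc : ∀ j, fc 0 g j = q ^ mg * fc 0 k j := fun j =>
    fc_mul (AlgHom.id ℂ MP) 0 g k (q ^ mg) (fun j => hg j) j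
  have hj' : MvPolynomial.constantCoeff (fc 0 k j) ≠ 0 := by
    rcases j with _ | j
    · rw [fc_none]
      simpa using hj
    · exact hj
  exact ne_of_root hs0 hm (curve_rootA hb hF (hH _) G mh mg hm q kh (fc 0 k) hh hfc h0 h1 hkh j hj')

/-- the leaf `curveV` -/
theorem goodG_curveV {H : MvPolynomial (Fin 2 ⊕ κ) ℂ} (hb : HEq H (FF h f a) b)
    (hF : FF h f a ≠ 0) (hH : ∀ x, MvPolynomial.eval x H ≠ 0) (hs0 : b.eval s0 ≠ 0)
    (h1a : (1 : ℂ) + a * s0 ≠ 0) (hD : ZData D s0 Φ l) {h' : MP}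
    {g : Option κ → MP} {a0 n0 : ℕ} (inv : InvG h f a Pt s0 h' g a0 n0 0 1)
    (mh mg : ℕ) (hm : 1 ≤ mh + a * mg) (q kh : MP)
    (k : Option κ → MP) (hh : h' = q ^ mh * kh) (hg : ∀ j, g j = q ^ mg * k j)
    (h0 : MvPolynomial.constantCoeff q = 0)
    (h1 : MvPolynomial.constantCoeff (MvPolynomial.pderiv 1 q) ≠ 0)
    (hkh : MvPolynomial.constantCoeff kh ≠ 0) (t : Bool) (ht : FibreType k t) :
    GoodG a D s0 Φ l h' g a0 n0 0 1 (Φ a0 n0 * Φ (mh + a * mg) 1 * fibreFactor Φ l a t) := by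
  have htf := bf_mem (a := a) hD h1a t
  have hn0 := (inv 0).hn0
  obtain ⟨G⟩ := (inv 0).geom
  have hm1 := curve_ne hb hF hH hs0 G mh mg hm q kh k hh hg h0 h1 hkh t ht
  have hfm : Φ (mh + a * mg) 1 ∈ D := hD.reg _ 1 le_rfl (by rw [Nat.cast_one]; exact hm1)
  have hA1 : ((1 : ℕ) : ℂ) + ((0 : ℕ) : ℂ) * s0 ≠ 0 := by simp
  obtain ⟨oh, og, ebt⟩ := curve_ords mh mg q kh k hh hg h0 h1 hkh t ht
  by_cases hA0 : (n0 : ℂ) + a0 * s0 = 0
  · refine ⟨Φ (mh + a * mg) 1 * fibreFactor Φ l a t, D.mul_mem hfm htf, 0, D.zero_mem,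
      fun _ ph pg hph hpg => ?_, fun h => absurd h hA1, ?_⟩
    · rw [← oh.unique hph, ← og.unique hpg, ebt, zero_add]
    · have : Φ a0 n0 * Φ (mh + a * mg) 1 * fibreFactor Φ l a t
          - Φ (mh + a * mg) 1 * fibreFactor Φ l a t * Φ a0 n0 - 0 * Φ 0 1 = 0 := by ring
      rw [this]
      exact D.zero_mem
  · refine ⟨0, D.zero_mem, 0, D.zero_mem, fun h => absurd h hA0, fun h => absurd h hA1, ?_⟩
    rw [zero_mul, zero_mul, sub_zero, sub_zero]
    exact D.mul_mem (D.mul_mem (hD.reg a0 n0 hn0 hA0) hfm) htf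

/-- the leaf `curveU` -/
theorem goodG_curveU {H : MvPolynomial (Fin 2 ⊕ κ) ℂ} (hb : HEq H (FF h f a) b)
    (hF : FF h f a ≠ 0) (hH : ∀ x, MvPolynomial.eval x H ≠ 0) (hs0 : b.eval s0 ≠ 0)
    (h1a : (1 : ℂ) + a * s0 ≠ 0) (hD : ZData D s0 Φ l) {h' : MP}
    {g : Option κ → MP} {a1 n1 : ℕ} (inv : InvG h f a Pt s0 h' g 0 1 a1 n1)
    (mh mg : ℕ) (hm : 1 ≤ mh + a * mg) (q kh : MP)
    (k : Option κ → MP) (hh : h' = q ^ mh * kh) (hg : ∀ j, g j = q ^ mg * k j)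
    (h0 : MvPolynomial.constantCoeff q = 0)
    (h1 : MvPolynomial.constantCoeff (MvPolynomial.pderiv 0 q) ≠ 0)
    (hkh : MvPolynomial.constantCoeff kh ≠ 0) (t : Bool) (ht : FibreType k t) :
    GoodG a D s0 Φ l h' g 0 1 a1 n1 (Φ a1 n1 * Φ (mh + a * mg) 1 * fibreFactor Φ l a t) := by
  have htf := bf_mem (a := a) hD h1a t
  have hn1 := (inv 0).hn1
  obtain ⟨G⟩ := (inv 0).geom
  have hh2 : sw h' = sw q ^ mh * sw kh := by rw [hh, map_mul, map_pow]
  have hg2 : ∀ j, sw (g j) = sw q ^ mg * sw (k j) := fun j => by rw [hg, map_mul, map_pow]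
  have h02 : MvPolynomial.constantCoeff (sw q) = 0 := by rwa [cc_sw]
  have h12 : MvPolynomial.constantCoeff (MvPolynomial.pderiv 1 (sw q)) ≠ 0 := by
    rw [(pderiv_sw q).2, cc_sw]
    exact h1
  have hkh2 : MvPolynomial.constantCoeff (sw kh) ≠ 0 := by rwa [cc_sw]
  have ht2 := FibreType_sw ht
  have Gs := G.swap
  rw [← fc_sw] at Gs
  have hm1 := curve_ne hb hF hH hs0 Gs mh mg hm (sw q) (sw kh) (fun j => sw (k j)) hh2 hg2 h02 h12
    hkh2 t ht2
  have hfm : Φ (mh + a * mg) 1 ∈ D := hD.reg _ 1 le_rfl (by rw [Nat.cast_one]; exact hm1)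
  have hA0 : ((1 : ℕ) : ℂ) + ((0 : ℕ) : ℂ) * s0 ≠ 0 := by simp
  obtain ⟨oh, og, ebt⟩ := curve_ords mh mg (sw q) (sw kh) (fun j => sw (k j)) hh2 hg2 h02 h12 hkh2
    t ht2
  simp only [res0_sw] at oh og ebt
  by_cases hA1 : (n1 : ℂ) + a1 * s0 = 0
  · refine ⟨0, D.zero_mem, Φ (mh + a * mg) 1 * fibreFactor Φ l a t, D.mul_mem hfm htf,
      fun h => absurd h hA0, fun _ ph pg hph hpg => ?_, ?_⟩
    · rw [← oh.unique hph, ← og.unique hpg, ebt, zero_add]
    · have : Φ a1 n1 * Φ (mh + a * mg) 1 * fibreFactor Φ l a t - 0 * Φ 0 1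
        - Φ (mh + a * mg) 1 * fibreFactor Φ l a t * Φ a1 n1 = 0 := by ring
      rw [this]
      exact D.zero_mem
  · refine ⟨0, D.zero_mem, 0, D.zero_mem, fun h => absurd h hA0, fun h => absurd h hA1, ?_⟩
    rw [zero_mul, zero_mul, sub_zero, sub_zero]
    exact D.mul_mem (D.mul_mem (hD.reg a1 n1 hn1 hA1) hfm) htf

end Node

end Pool.Agent.N103
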