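import Pool.Agent.N103.GlC

set_option autoImplicit false
set_option linter.unusedSectionVars false
set_option linter.unusedVariables false
set_option linter.unusedSimpArgs false

/-! # The fibres over the points: the critical curves -/

namespace Pool.Agent.N103

open Pool.Agent.W574.SM

open Polynomial

section Data

variable {κ : Type} [Fintype κ] [DecidableEq κ]

/-- the data of a blow-up -/
structure BDat (h' : MP) (g : Option κ → MP) (mh mg : ℕ) (hc : ℂ → MP) (gc : ℂ → Option κ → MP)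
    (hI : MP) (gI : Option κ → MP) : Prop where
  hhc : ∀ z, MvPolynomial.aeval (chart z) h' = MvPolynomial.X 0 ^ mh * hc z
  hgc : ∀ z j, MvPolynomial.aeval (chart z) (g j) = MvPolynomial.X 0 ^ mg * gc z j
  hhI : MvPolynomial.aeval chartI h' = MvPolynomial.X 1 ^ mh * hI
  hgI : ∀ j, MvPolynomial.aeval chartI (g j) = MvPolynomial.X 1 ^ mg * gI j

variable {h' : MP} {g : Option κ → MP} {mh mg : ℕ} {hc : ℂ → MP} {gc : ℂ → Option κ → MP}
  {hI : MP} {gI : Option κ → MP}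

theorem BDat.fc (B : BDat h' g mh mg hc gc hI gI) (c : κ → ℂ) :
    BDat h' (fc c g) mh mg hc (fun z => fc c (gc z)) hI (fc c gI) :=
  ⟨B.hhc, fun z => fc_mul _ c g (gc z) _ (B.hgc z), B.hhI, fc_mul _ c g gI _ B.hgI⟩

/-- the multiplicities of the other divisors at the places -/
noncomputable def AQ (a0 a1 : ℕ) (Q : Option ℂ) : ℕ :=
  open Classical in Q.elim a0 fun z => if z = 0 then a1 else 0

/-- the log discrepancies of the other divisors at the places -/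
noncomputable def NQ (n0 n1 : ℕ) (Q : Option ℂ) : ℕ :=
  open Classical in Q.elim n0 fun z => if z = 0 then n1 else 1

theorem AQ_none (a0 a1 : ℕ) : AQ a0 a1 none = a0 := rfl
theorem NQ_none (a0 a1 : ℕ) : NQ a0 a1 none = a0 := rfl
theorem AQ_zero (a0 a1 : ℕ) : AQ a0 a1 (some 0) = a1 := by simp [AQ]
theorem NQ_zero (a0 a1 : ℕ) : NQ a0 a1 (some 0) = a1 := by simp [NQ]
theorem AQ_ne (a0 a1 : ℕ) {z : ℂ} (hz : z ≠ 0) : AQ a0 a1 (some z) = 0 := by simp [AQ, hz]
theorem NQ_ne (a0 a1 : ℕ) {z : ℂ} (hz : z ≠ 0) : NQ a0 a1 (some z) = 1 := by simp [NQ, hz]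

/-- the child at a place, the new exceptional curve is `u = 0` -/
noncomputable def hQ (hc : ℂ → MP) (hI : MP) (Q : Option ℂ) : MP := Q.elim (sw hI) hc

/-- the child at a place, the new exceptional curve is `u = 0` -/
noncomputable def gQ (gc : ℂ → Option κ → MP) (gI : Option κ → MP) (Q : Option ℂ) :
    Option κ → MP := Q.elim (fun j => sw (gI j)) gc

theorem reflect_eq {P R : ℂ[X]} {m : ℕ} (h1 : P.natDegree ≤ m) (h2 : R.natDegree ≤ m)
    (h3 : ∀ k ≤ m, R.coeff k = P.coeff (m - k)) : R = P.reflect m := by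
  ext k
  rw [coeff_reflect]
  by_cases hk : k ≤ m
  · rw [revAt_le hk]
    exact h3 k hk
  · rw [revAt_eq_self_of_lt (by omega), coeff_eq_zero_of_natDegree_lt (by omega),
      coeff_eq_zero_of_natDegree_lt (by omega)]

theorem BDat.locH (B : BDat h' g mh mg hc gc hI gI) (Q : Option ℂ) :
    res0 (hQ hc hI Q) = loc mh Q (res0 (hc 0)) := by
  rcases Q with _ | z
  · show res0 (sw hI) = (res0 (hc 0)).reflect mh
    rw [res0_sw]
    obtain ⟨h1, h2, h3⟩ := coeff_resI h' (hc 0) hI mh (B.hhc 0) B.hhI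
    exact reflect_eq h1 h2 h3
  · exact res0_chart h' (hc 0) (hc z) mh z (B.hhc 0) (B.hhc z)

theorem BDat.locG (B : BDat h' g mh mg hc gc hI gI) (Q : Option ℂ) (j : Option κ) :
    res0 (gQ gc gI Q j) = loc mg Q (res0 (gc 0 j)) := by
  rcases Q with _ | z
  · show res0 (sw (gI j)) = (res0 (gc 0 j)).reflect mg
    rw [res0_sw]
    obtain ⟨h1, h2, h3⟩ := coeff_resI (g j) (gc 0 j) (gI j) mg (B.hgc 0 j) (B.hgI j)
    exact reflect_eq h1 h2 h3
  · exact res0_chart (g j) (gc 0 j) (gc z j) mg z (B.hgc 0 j) (B.hgc z j)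

theorem BDat.ccH (B : BDat h' g mh mg hc gc hI gI) (z : ℂ) :
    MvPolynomial.constantCoeff (hc z) = (res0 (hc 0)).eval z := by
  rw [← coeff_res0, res0_chart h' (hc 0) (hc z) mh z (B.hhc 0) (B.hhc z),
    coeff_zero_eq_eval_zero, eval_comp]
  simp

theorem BDat.ccG (B : BDat h' g mh mg hc gc hI gI) (z : ℂ) (j : Option κ) :
    MvPolynomial.constantCoeff (gc z j) = (res0 (gc 0 j)).eval z := by
  rw [← coeff_res0, res0_chart (g j) (gc 0 j) (gc z j) mg z (B.hgc 0 j) (B.hgc z j),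
    coeff_zero_eq_eval_zero, eval_comp]
  simp

theorem cc_fc (c : κ → ℂ) (g : Option κ → MP) : MvPolynomial.constantCoeff (fc c g none)
    = MvPolynomial.constantCoeff (g none) + ∑ j, c j * MvPolynomial.constantCoeff (g (some j)) := by
  rw [fc_none, map_add, map_sum]
  congr 1
  refine Finset.sum_congr rfl fun j _ => ?_
  rw [map_mul, MvPolynomial.constantCoeff_C]

theorem PC_eval (P : Option κ → ℂ[X]) (c : κ → ℂ) (z : ℂ) : (PC P c).eval z
    = (P none).eval z + ∑ j, c j * (P (some j)).eval z := by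
  rw [PC, eval_add, eval_finsetSum]
  congr 1
  refine Finset.sum_congr rfl fun j _ => ?_
  rw [eval_mul, eval_C]

variable {S : Finset ℂ} {t : Bool}

theorem local_zero (B : BDat h' g mh mg hc gc hI gI)
    (hS : ∀ z ∉ S, MvPolynomial.constantCoeff (hc z) ≠ 0 ∧ FibreType (gc z) t) (c : κ → ℂ)
    (h0 : PC (fun j => res0 (gc 0 j)) c = 0) :
    t = true ∧ ∀ z ∉ S, MvPolynomial.constantCoeff (hc z) ≠ 0 ∧ HasType (fc c (gc z)) true := by
  have hcc : ∀ z, MvPolynomial.constantCoeff (fc c (gc z) none) = 0 := by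
    intro z
    rw [(B.fc c).ccG z none]
    show (res0 (fc c (gc 0) none)).eval z = 0
    rw [res0_fc, h0, eval_zero]
  have ht : t = true := by
    by_contra hne
    rw [Bool.not_eq_true] at hne
    subst hne
    obtain ⟨z1, hz1S⟩ := Infinite.exists_notMem_finset S
    have h1 : MvPolynomial.constantCoeff (gc z1 none) ≠ 0 ∧ ∀ j,
      MvPolynomial.constantCoeff (gc z1 (some j)) = 0 := (hS z1 hz1S).2
    apply h1.1
    have h2 := hcc z1
    rw [cc_fc, Finset.sum_eq_zero fun j _ => by rw [h1.2 j, mul_zero], add_zero] at h2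
    exact h2
  refine ⟨ht, fun z hz => ⟨(hS z hz).1, hcc z, ?_⟩⟩
  subst ht
  have h1 : ∃ j, MvPolynomial.constantCoeff (gc z (some j)) ≠ 0 := (hS z hz).2
  exact h1

open Classical in
theorem local_ne (B : BDat h' g mh mg hc gc hI gI)
    (hS : ∀ z ∉ S, MvPolynomial.constantCoeff (hc z) ≠ 0 ∧ FibreType (gc z) t) (c : κ → ℂ)
    (h0 : PC (fun j => res0 (gc 0 j)) c ≠ 0) :
    ∀ z ∉ S ∪ (PC (fun j => res0 (gc 0 j)) c).roots.toFinset,
      MvPolynomial.constantCoeff (hc z) ≠ 0 ∧ HasType (fc c (gc z)) false := by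
  intro z hz
  rw [Finset.mem_union, not_or, Multiset.mem_toFinset] at hz
  refine ⟨(hS z hz.1).1, ?_⟩
  show MvPolynomial.constantCoeff (fc c (gc z) none) ≠ 0
  rw [(B.fc c).ccG z none]
  show (res0 (fc c (gc 0) none)).eval z ≠ 0
  rw [res0_fc]
  intro h1
  exact hz.2 ((mem_roots h0).2 h1)

theorem local_any (B : BDat h' g mh mg hc gc hI gI) (h0S : 0 ∈ S)
    (hS : ∀ z ∉ S, MvPolynomial.constantCoeff (hc z) ≠ 0 ∧ FibreType (gc z) t) (c : κ → ℂ) :
    ∃ (S' : Finset ℂ) (t' : Bool), 0 ∈ S' ∧ ∀ z ∉ S', MvPolynomial.constantCoeff (hc z) ≠ 0 ∧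
      HasType (fc c (gc z)) t' := by
  classical
  by_cases h0 : PC (fun j => res0 (gc 0 j)) c = 0
  · exact ⟨S, true, h0S, (local_zero B hS c h0).2⟩
  · exact ⟨_, false, Finset.mem_union_left _ h0S, local_ne B hS c h0⟩

theorem hPh_ne (B : BDat h' g mh mg hc gc hI gI)
    (hS : ∀ z ∉ S, MvPolynomial.constantCoeff (hc z) ≠ 0 ∧ FibreType (gc z) t) :
    res0 (hc 0) ≠ 0 := by
  obtain ⟨z1, hz1S⟩ := Infinite.exists_notMem_finset S
  intro h0
  apply (hS z1 hz1S).1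
  rw [B.ccH, h0, eval_zero]

theorem hPg_ne (B : BDat h' g mh mg hc gc hI gI)
    (hS : ∀ z ∉ S, MvPolynomial.constantCoeff (hc z) ≠ 0 ∧ FibreType (gc z) t) :
    ∃ j, res0 (gc 0 j) ≠ 0 := by
  obtain ⟨z1, hz1S⟩ := Infinite.exists_notMem_finset S
  obtain ⟨j, hj⟩ := FibreType_some (hS z1 hz1S).2
  refine ⟨j, fun h0 => hj ?_⟩
  rw [B.ccG, h0, eval_zero]

theorem Ord0_tr {a : ℕ} {h : MP} {g : Option κ → MP} {ph pg : ℕ} {c : κ → ℂ}
    (oh : OrdP (res0 h) ph) (og : MOrd (fun j => res0 (g j)) pg) (h0 : res0 (fc c g none) = 0) :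
    Ord0 (fam true a h (fc c g)) (ph + a * pg) ∧ bt (fun j => res0 (g j)) = true := by
  obtain ⟨j, hj⟩ : ∃ j : κ, (res0 (g (some j))).coeff pg ≠ 0 := by
    by_contra hcon
    push Not at hcon
    obtain ⟨j, hj⟩ := og.2
    rcases j with _ | j
    · apply hj
      rw [res0_fc, PC] at h0
      have h1 := congrArg (coeff · pg) h0
      simp only [coeff_add, finsetSum_coeff, coeff_C_mul, hcon, mul_zero, Finset.sum_const_zero,
        add_zero, coeff_zero] at h1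
      exact h1
    · exact hj (hcon j)
  refine ⟨?_, bt_true og j hj⟩
  refine Ord0_of oh (fun i k hk => ?_) (some j) ?_
  · simp only [if_true]
    rcases i with _ | i
    · rw [h0, coeff_zero]
    · exact og.1 (some i) k hk
  · simp only [if_true]
    exact ⟨fun k hk => og.1 (some j) k hk, hj⟩

end Data

section Crit

variable {κ : Type} [Fintype κ] [DecidableEq κ]
variable {h : MP} {f : Option κ → MP} {a : ℕ} {Pt : Fin 2 → ℂ}
variable {b : ℂ[X]} {H : MvPolynomial (Fin 2 ⊕ κ) ℂ} {s0 : ℂ}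
variable {h' : MP} {g : Option κ → MP} {mh mg : ℕ} {hc : ℂ → MP} {gc : ℂ → Option κ → MP}
  {hI : MP} {gI : Option κ → MP} {a0 n0 a1 n1 : ℕ} {S : Finset ℂ} {t : Bool}

/-- the invariants of the children, for all the members -/
theorem InvG.children (hb : HEq H (FF h f a) b) (hF : FF h f a ≠ 0)
    (hH : ∀ x, MvPolynomial.eval x H ≠ 0) (ha : 1 ≤ a) (hs0 : b.eval s0 ≠ 0)
    (inv : InvG h f a Pt s0 h' g a0 n0 a1 n1) (hm : 1 ≤ mh + a * mg)
    (B : BDat h' g mh mg hc gc hI gI) (h0S : 0 ∈ S)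
    (hS : ∀ z ∉ S, MvPolynomial.constantCoeff (hc z) ≠ 0 ∧ FibreType (gc z) t) :
    InvG h f a Pt s0 (hc 0) (gc 0) (a0 + a1 + (mh + a * mg)) (n0 + n1) a1 n1 ∧
    (∀ z, z ≠ 0 → InvG h f a Pt s0 (hc z) (gc z) (a0 + a1 + (mh + a * mg)) (n0 + n1) 0 1) ∧
    InvG h f a Pt s0 hI gI a0 n0 (a0 + a1 + (mh + a * mg)) (n0 + n1) := by
  have key : ∀ c : κ → ℂ,
      InvA h f a c Pt s0 (hc 0) (fc c (gc 0)) (a0 + a1 + (mh + a * mg)) (n0 + n1) a1 n1 ∧
      (∀ z, z ≠ 0 → InvA h f a c Pt s0 (hc z) (fc c (gc z)) (a0 + a1 + (mh + a * mg)) (n0 + n1)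
        0 1) ∧
      InvA h f a c Pt s0 hI (fc c gI) a0 n0 (a0 + a1 + (mh + a * mg)) (n0 + n1) := by
    intro c
    obtain ⟨S', t', h1, h2⟩ := local_any B h0S hS c
    exact child_invs hb hF (hH _) ha hs0 (inv c) mh mg hm hc (fun z => fc c (gc z)) hI (fc c gI)
      (B.fc c).hhc (B.fc c).hgc (B.fc c).hhI (B.fc c).hgI S' h1 t' h2
  exact ⟨fun c => (key c).1, fun z hz c => (key c).2.1 z hz, fun c => (key c).2.2⟩

/-- the analysis of a critical exceptional curve in terms of the places -/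
theorem blowQ {c : κ → ℂ} (hb : HEq H (FF h f a) b) (hF : FF h f a ≠ 0)
    (hH : ∀ x, MvPolynomial.eval x H ≠ 0) (ha : 1 ≤ a) (hs0 : b.eval s0 ≠ 0)
    (inv : InvA h f a c Pt s0 h' g a0 n0 a1 n1) (hm : 1 ≤ mh + a * mg)
    (B : BDat h' g mh mg hc gc hI gI) (h0S : 0 ∈ S)
    (hS : ∀ z ∉ S, MvPolynomial.constantCoeff (hc z) ≠ 0 ∧ HasType (gc z) t)
    (hA : ((n0 + n1 : ℕ) : ℂ) + ((a0 + a1 + (mh + a * mg) : ℕ) : ℂ) * s0 = 0) :
    ∃ u1 k1 u2 k2 : ℕ, u1 + u2 = a0 + a1 + (mh + a * mg) ∧ k1 + k2 = n0 + n1 ∧ 1 ≤ k1 ∧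
        1 ≤ k2 ∧ (u1 = 0 → k1 = 1) ∧ (u2 = 0 → k2 = 1) ∧ (k1 : ℂ) + s0 * (u1 : ℂ) ≠ 0 ∧
        (k2 : ℂ) + s0 * (u2 : ℂ) ≠ 0 ∧
        ∀ μ : Option ℂ → ℕ, (∀ Q, Ord0 (fam t a (hQ hc hI Q) (gQ gc gI Q)) (μ Q)) →
        ∀ (R : Type) [CommRing R] (Φ : ℕ → ℕ → R) (ell : R), Φ 0 1 = 1 →
          ∑ Q ∈ Finset.insertNone S, Φ (AQ a0 a1 Q + μ Q) (NQ n0 n1 Q) + (ell - S.card)
          = Φ u1 k1 + Φ u2 k2 + (ell - 1) := by
  obtain ⟨G⟩ := inv.geom
  have hmultH : IsMult (fun _ : Unit => h') mh := ⟨⟨fun _ => hc 0, fun _ => B.hhc 0⟩,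
    ⟨fun _ => hI, fun _ => B.hhI⟩⟩
  have hmultG : IsMult g mg := ⟨⟨gc 0, B.hgc 0⟩, ⟨gI, B.hgI⟩⟩
  obtain ⟨μ', μI, hμ, hμI, -, -, -, u1, k1, u2, k2, h5, h6, h7, h8, h9, h10, h11, h12, h13⟩ :=
    blowA hb hF (hH _) ha G inv.hn0 inv.hn1 mh mg hm hc gc hI gI B.hhc B.hgc B.hhI B.hgI S h0S t hS
      (inv.hJ1 mh mg hmultH hmultG) inv.hJ2 inv.hJ2' inv.hz0 inv.hz1 s0 hs0 hA
  refine ⟨u1, k1, u2, k2, h5, h6, h7, h8, h9, h10, h11, h12, fun μ hμQ R _ Φ ell h1 => ?_⟩
  have e1 : ∀ z, μ (some z) = μ' z := fun z => (hμQ (some z)).unique (hμ z)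
  have e2 : μ none = μI := (hμQ none).unique (Ord_sw hμI)
  rw [← h13 R Φ ell h1, Finset.sum_insertNone, ← Finset.add_sum_erase S _ h0S, AQ_none, NQ_none,
    AQ_zero, NQ_zero, e1, e2]
  have e3 : ∀ z ∈ S.erase 0, Φ (AQ a0 a1 (some z) + μ (some z)) (NQ n0 n1 (some z)) = Φ (μ' z) 1 := by
    intro z hz
    rw [AQ_ne a0 a1 (Finset.ne_of_mem_erase hz), NQ_ne n0 n1 (Finset.ne_of_mem_erase hz), e1,
      zero_add]
  rw [Finset.sum_congr rfl e3]
  ring

/-- the places where some `g_j` has smaller order than `g_0 + ∑ c_j g_j` -/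
theorem nodeQ {c : κ → ℂ} (hb : HEq H (FF h f a) b) (hF : FF h f a ≠ 0)
    (hH : ∀ x, MvPolynomial.eval x H ≠ 0) (ha : 1 ≤ a) (hs0 : b.eval s0 ≠ 0)
    (inv0 : InvA h f a c Pt s0 (hc 0) (gc 0) (a0 + a1 + (mh + a * mg)) (n0 + n1) a1 n1)
    (invc : ∀ z, z ≠ 0 → InvA h f a c Pt s0 (hc z) (gc z) (a0 + a1 + (mh + a * mg)) (n0 + n1) 0 1)
    (invI : InvA h f a c Pt s0 hI gI a0 n0 (a0 + a1 + (mh + a * mg)) (n0 + n1))
    (hA : ((n0 + n1 : ℕ) : ℂ) + ((a0 + a1 + (mh + a * mg) : ℕ) : ℂ) * s0 = 0) (Q : Option ℂ)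
    (j : κ) (ph p0 pj : ℕ) (oh : OrdP (res0 (hQ hc hI Q)) ph)
    (o0 : OrdP (res0 (gQ gc gI Q none)) p0) (oj : OrdP (res0 (gQ gc gI Q (some j))) pj)
    (hlt : pj < p0) : AQ a0 a1 Q + ph + a * pj = 0 ∧ NQ n0 n1 Q = 1 ∧ p0 = pj + 1 := by
  rcases Q with _ | z
  · obtain ⟨G⟩ := invI.geom
    exact nodeT' hb hF (hH _) ha G.swap invI.hn1 invI.hn0 invI.hz1 invI.hz0 invI.hJ2 s0 hs0 hA j
      ph p0 pj oh o0 oj hlt
  · by_cases hz : z = 0
    · subst hz
      rw [AQ_zero, NQ_zero]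
      obtain ⟨G⟩ := inv0.geom
      exact nodeT' hb hF (hH _) ha G inv0.hn0 inv0.hn1 inv0.hz0 inv0.hz1 inv0.hJ2' s0 hs0 hA j
        ph p0 pj oh o0 oj hlt
    · rw [AQ_ne a0 a1 hz, NQ_ne n0 n1 hz]
      obtain ⟨G⟩ := (invc z hz).geom
      exact nodeT' hb hF (hH _) ha G (invc z hz).hn0 (invc z hz).hn1 (invc z hz).hz0
        (invc z hz).hz1 (invc z hz).hJ2' s0 hs0 hA j ph p0 pj oh o0 oj hlt

theorem AQ_sum (a0 a1 : ℕ) (Q1 : Option ℂ) (h : ∀ Q, Q ≠ Q1 → AQ a0 a1 Q = 0) :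
    AQ a0 a1 Q1 = a0 + a1 := by
  rcases Q1 with _ | z
  · have h1 := h (some 0) (by simp)
    rw [AQ_zero] at h1
    rw [AQ_none, h1, add_zero]
  · have h1 := h none (by simp)
    rw [AQ_none] at h1
    by_cases hz : z = 0
    · rw [hz, AQ_zero, h1, zero_add]
    · have h2 := h (some 0) (by simpa using fun h => hz h.symm)
      rw [AQ_zero] at h2
      rw [AQ_ne a0 a1 hz, h1, h2]

theorem NQ_sum (n0 n1 : ℕ) (Q1 : Option ℂ) (h : ∀ Q, Q ≠ Q1 → NQ n0 n1 Q = 1) :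
    NQ n0 n1 Q1 + 1 = n0 + n1 := by
  rcases Q1 with _ | z
  · have h1 := h (some 0) (by simp)
    rw [NQ_zero] at h1
    rw [NQ_none, h1]
  · have h1 := h none (by simp)
    rw [NQ_none] at h1
    by_cases hz : z = 0
    · rw [hz, NQ_zero, h1, add_comm]
    · have h2 := h (some 0) (by simpa using fun h => hz h.symm)
      rw [NQ_zero] at h2
      rw [NQ_ne n0 n1 hz, h1, h2]

variable {R : Type} [CommRing R] {D : Subring R} {Φ : ℕ → ℕ → R} {l : R}

/-- **The critical curves.** -/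
theorem crit_beta (hb : HEq H (FF h f a) b) (hF : FF h f a ≠ 0)
    (hH : ∀ x, MvPolynomial.eval x H ≠ 0) (ha : 1 ≤ a) (hs0 : b.eval s0 ≠ 0)
    (h1a : (1 : ℂ) + a * s0 ≠ 0) (hD : ZData D s0 Φ l)
    (inv : InvG h f a Pt s0 h' g a0 n0 a1 n1) (hm : 1 ≤ mh + a * mg)
    (B : BDat h' g mh mg hc gc hI gI) (h0S : 0 ∈ S)
    (hS : ∀ z ∉ S, MvPolynomial.constantCoeff (hc z) ≠ 0 ∧ FibreType (gc z) t)
    (hA : ((n0 + n1 : ℕ) : ℂ) + ((a0 + a1 + (mh + a * mg) : ℕ) : ℂ) * s0 = 0)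
    (cQ : Option ℂ → R)
    (hcQ : ∀ Q ∈ Finset.insertNone S, ∀ ph pg, OrdP (res0 (hQ hc hI Q)) ph →
      MOrd (fun j => res0 (gQ gc gI Q j)) pg → cQ Q = Φ (AQ a0 a1 Q + (ph + a * pg)) (NQ n0 n1 Q)
        * fibreFactor Φ l a (bt fun j => res0 (gQ gc gI Q j))) :
    (∑ Q ∈ Finset.insertNone S, cQ Q + (l - (S.card : R)) * fibreFactor Φ l a t)
      * Φ (a0 + a1 + (mh + a * mg)) (n0 + n1) ∈ D := by
  classical
  obtain ⟨inv0, invc, invI⟩ := inv.children hb hF hH ha hs0 hm B h0S hS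
  have hPh := hPh_ne B hS
  obtain ⟨j0, hj0⟩ := hPg_ne B hS
  set Ph := res0 (hc 0) with hPhd
  set P : Option κ → ℂ[X] := fun j => res0 (gc 0 j) with hPd
  have hdegH : Ph.natDegree ≤ mh := (coeff_resI h' (hc 0) hI mh (B.hhc 0) B.hhI).1
  have hdegG : ∀ j, (P j).natDegree ≤ mg := fun j =>
    (coeff_resI (g j) (gc 0 j) (gI j) mg (B.hgc 0 j) (B.hgI j)).1
  have locH := B.locH
  have locG : ∀ Q, (fun j => res0 (gQ gc gI Q j)) = fun j => loc mg Q (P j) := fun Q =>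
    funext fun j => B.locG Q j
  choose oh hoh using fun Q => exists_OrdP _ (loc_ne mh Q Ph hPh)
  choose og hog using fun Q => exists_MOrd (P := fun j => loc mg Q (P j))
    ⟨j0, loc_ne mg Q (P j0) hj0⟩
  have hoh' : ∀ Q, OrdP (res0 (hQ hc hI Q)) (oh Q) := fun Q => by rw [locH]; exact hoh Q
  have hog' : ∀ Q, MOrd (fun j => res0 (gQ gc gI Q j)) (og Q) := fun Q => by
    rw [locG]; exact hog Q
  have hval : ∀ Q ∈ Finset.insertNone S, cQ Q = Φ (AQ a0 a1 Q + (oh Q + a * og Q)) (NQ n0 n1 Q)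
        * fibreFactor Φ l a (bt fun j => loc mg Q (P j)) := by
    intro Q hQ'
    rw [hcQ Q hQ' _ _ (hoh' Q) (hog' Q), locG]
  -- the conclusion from the members
  have hfin : ∀ (c : κ → ℂ) (t' : Bool), (∀ z ∉ S, MvPolynomial.constantCoeff (hc z) ≠ 0 ∧
      HasType (fc c (gc z)) t') →
      (∀ Q, Ord0 (fam t' a (hQ hc hI Q) (gQ (fun z => fc c (gc z)) (fc c gI) Q))
        (oh Q + a * og Q)) → (∀ Q, bt (fun j => loc mg Q (P j)) = t) →
      (∑ Q ∈ Finset.insertNone S, cQ Q + (l - (S.card : R)) * fibreFactor Φ l a t)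
        * Φ (a0 + a1 + (mh + a * mg)) (n0 + n1) ∈ D := by
    intro c t' h1 h2 h3
    obtain ⟨u1, k1, u2, k2, h5, h6, h7, h8, h9, h10, h11, h12, h13⟩ :=
      blowQ hb hF hH ha hs0 (inv c) hm (B.fc c) h0S h1 hA
    have e1 := h13 _ h2 R Φ l hD.one
    have e2 : ∑ Q ∈ Finset.insertNone S, cQ Q = (∑ Q ∈ Finset.insertNone S,
        Φ (AQ a0 a1 Q + (oh Q + a * og Q)) (NQ n0 n1 Q)) * fibreFactor Φ l a t := by
      rw [Finset.sum_mul]
      refine Finset.sum_congr rfl fun Q hQ' => ?_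
      rw [hval Q hQ', h3]
    have e3 : (∑ Q ∈ Finset.insertNone S, cQ Q + (l - (S.card : R)) * fibreFactor Φ l a t)
        * Φ (a0 + a1 + (mh + a * mg)) (n0 + n1)
        = (Φ u1 k1 + Φ u2 k2 + (l - 1)) * Φ (u1 + u2) (k1 + k2) * fibreFactor Φ l a t := by
      rw [e2, ← e1, h5, h6]
      ring
    rw [e3]
    exact D.mul_mem (hD.beta u1 k1 u2 k2 (by omega) h7 h8 h9 h10 h11 h12) (bf_mem hD h1a t)
  by_cases hPj : ∀ j : κ, P (some j) = 0
  · -- the hypersurface does not meet the generic fibre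
    have hbt : ∀ Q, bt (fun j => loc mg Q (P j)) = false := fun Q =>
      bt_false (hog Q) fun j => by rw [hPj, loc_zero, coeff_zero]
    have ht : t = false := by
      by_contra hne
      rw [Bool.not_eq_false] at hne
      subst hne
      obtain ⟨z1, hz1S⟩ := Infinite.exists_notMem_finset S
      obtain ⟨j, hj⟩ : ∃ j, MvPolynomial.constantCoeff (gc z1 (some j)) ≠ 0 := (hS z1 hz1S).2
      rw [B.ccG] at hj
      apply hj
      have : res0 (gc 0 (some j)) = 0 := hPj j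
      rw [this, eval_zero]
    subst ht
    refine hfin 0 false (fun z hz => ⟨(hS z hz).1, ?_⟩) (fun Q => ?_) hbt
    · have h1 : MvPolynomial.constantCoeff (gc z none) ≠ 0 ∧ ∀ j,
        MvPolynomial.constantCoeff (gc z (some j)) = 0 := (hS z hz).2
      show MvPolynomial.constantCoeff (fc 0 (gc z) none) ≠ 0
      rw [cc_fc]
      simpa using h1.1
    · refine Ord0_false (hoh' Q) ?_
      rw [(B.fc 0).locG Q none]
      show OrdP (loc mg Q (res0 (fc 0 (gc 0) none))) (og Q)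
      rw [res0_fc, PC_zero]
      show OrdP (loc mg Q (P none)) (og Q)
      refine ⟨fun k hk => (hog Q).1 none k hk, ?_⟩
      obtain ⟨j, hj⟩ := (hog Q).2
      rcases j with _ | j
      · exact hj
      · exfalso
        apply hj
        show (loc mg Q (P (some j))).coeff (og Q) = 0
        rw [hPj, loc_zero, coeff_zero]
  push Not at hPj
  obtain ⟨j, hj⟩ := hPj
  by_cases hC : ∃ c, PC P c = 0
  · -- the hypersurface is a product
    obtain ⟨c, hc0⟩ := hC
    obtain ⟨rfl, hS'⟩ := local_zero B hS c hc0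
    have h3 : ∀ Q, Ord0 (fam true a (hQ hc hI Q) (gQ (fun z => fc c (gc z)) (fc c gI) Q))
        (oh Q + a * og Q) ∧ bt (fun j => loc mg Q (P j)) = true := by
      intro Q
      have e1 : gQ (fun z => fc c (gc z)) (fc c gI) Q = fc c (gQ gc gI Q) := by
        rcases Q with _ | z
        · exact (fc_sw c gI).symm
        · rfl
      have e2 : res0 (fc c (gQ gc gI Q) none) = 0 := by
        rw [← e1, (B.fc c).locG Q none]
        show loc mg Q (res0 (fc c (gc 0) none)) = 0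
        rw [res0_fc]
        show loc mg Q (PC P c) = 0
        rw [hc0, loc_zero]
      have h4 := Ord0_tr (a := a) (hoh' Q) (hog' Q) e2
      rw [← e1, locG] at h4
      exact h4
    exact hfin c true hS' (fun Q => (h3 Q).1) fun Q => (h3 Q).2
  push Not at hC
  -- the remaining case
  have ht : t = true := by
    by_contra hne
    rw [Bool.not_eq_true] at hne
    subst hne
    apply hj
    refine poly_zero_of_compl _ S fun z hz => ?_
    have h1 : MvPolynomial.constantCoeff (gc z none) ≠ 0 ∧ ∀ j,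
        MvPolynomial.constantCoeff (gc z (some j)) = 0 := (hS z hz).2
    rw [← B.ccG]
    exact h1.2 j
  subst ht
  set T : Option ℂ → (κ → ℂ) → Prop := fun Q c => AQ a0 a1 Q = 0 ∧ oh Q = 0 ∧ NQ n0 n1 Q = 1 ∧
    OrdP (loc mg Q (PC P c)) 1 with hTd
  have hT : ∀ Q c (i : κ) p0 pi, OrdP (loc mg Q (PC P c)) p0 → OrdP (loc mg Q (P (some i))) pi →
      pi < p0 → T Q c ∧ pi = 0 ∧ p0 = 1 := by
    intro Q c i p0 pi o0 oi hlt
    have e1 : res0 (gQ (fun z => fc c (gc z)) (fc c gI) Q none) = loc mg Q (PC P c) := by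
      rw [(B.fc c).locG Q none]
      show loc mg Q (res0 (fc c (gc 0) none)) = _
      rw [res0_fc]
    have e2 : res0 (gQ (fun z => fc c (gc z)) (fc c gI) Q (some i)) = loc mg Q (P (some i)) :=
      (B.fc c).locG Q (some i)
    obtain ⟨r1, r2, r3⟩ := nodeQ hb hF hH ha hs0 (inv0 c) (fun z hz => invc z hz c) (invI c) hA Q i
      (oh Q) p0 pi (hoh' Q) (by rw [e1]; exact o0) (by rw [e2]; exact oi) hlt
    have hpi : pi = 0 := by
      rcases Nat.eq_zero_or_pos pi with h1 | h1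
      · exact h1
      · have := Nat.mul_pos ha h1
        omega
    subst hpi
    subst r3
    exact ⟨⟨by omega, by omega, r2, o0⟩, rfl, rfl⟩
  have hT2 : ∀ c Q Q', T Q c → T Q' c → Q = Q' := by
    intro c Q Q' h1 h2
    by_contra hne
    have hne0 := hC c
    obtain ⟨S', hS'⟩ : ∃ S', S' = S ∪ (PC P c).roots.toFinset := ⟨_, rfl⟩
    have hS'h : ∀ z ∉ S', MvPolynomial.constantCoeff (hc z) ≠ 0 ∧
        HasType (fc c (gc z)) false := by
      rw [hS']
      exact local_ne B hS c hne0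
    have h0S' : 0 ∈ S' := by
      rw [hS']
      exact Finset.mem_union_left _ h0S
    choose oc hoc using fun Q => exists_OrdP _ (loc_ne mg Q _ hne0)
    obtain ⟨u1, k1, u2, k2, h5, h6, h7, h8, h9, h10, h11, h12, h13⟩ :=
      blowQ hb hF hH ha hs0 (inv c) hm (B.fc c) h0S' hS'h hA
    have h14 := h13 (fun Q => oh Q + a * oc Q) (fun Q => by
      refine Ord0_false (hoh' Q) ?_
      rw [(B.fc c).locG Q none]
      show OrdP (loc mg Q (res0 (fc c (gc 0) none))) (oc Q)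
      rw [res0_fc]
      exact hoc Q) ℤ (fun x k => if x = a ∧ k = 1 then 2 else 1) 0 (by
        rw [if_neg]
        omega)
    have hmem : ∀ Q, T Q c → Q ∈ Finset.insertNone S' ∧
        (if AQ a0 a1 Q + (oh Q + a * oc Q) = a ∧ NQ n0 n1 Q = 1 then (2 : ℤ) else 1) = 2 := by
      intro Q hTQ
      obtain ⟨r1, r2, r3, r4⟩ := hTQ
      constructor
      · rcases Q with _ | z
        · exact Finset.none_mem_insertNone
        · rw [Finset.some_mem_insertNone, hS', Finset.mem_union, Multiset.mem_toFinset,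
            mem_roots hne0]
          right
          by_contra hz
          exact absurd (r4.unique (OrdP_of_eval hz)) one_ne_zero
      · rw [if_pos]
        rw [(hoc Q).unique r4, r1, r2, r3]
        exact ⟨by omega, rfl⟩
    obtain ⟨m1, v1⟩ := hmem Q h1
    obtain ⟨m2, v2⟩ := hmem Q' h2
    have m2' : Q' ∈ (Finset.insertNone S').erase Q := Finset.mem_erase.2 ⟨fun h => hne h.symm, m2⟩
    rw [← Finset.add_sum_erase _ _ m1, ← Finset.add_sum_erase _ _ m2', v1, v2] at h14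
    have hge : ((((Finset.insertNone S').erase Q).erase Q').card : ℤ) ≤
        ∑ x ∈ ((Finset.insertNone S').erase Q).erase Q',
          (if AQ a0 a1 x + (oh x + a * oc x) = a ∧ NQ n0 n1 x = 1 then (2 : ℤ) else 1) := by
      rw [Finset.card_eq_sum_ones, Nat.cast_sum]
      refine Finset.sum_le_sum fun x _ => ?_
      split_ifs <;> norm_num
    rw [Finset.card_erase_of_mem m2', Finset.card_erase_of_mem m1, Finset.card_insertNone] at hge
    have hpos : 1 ≤ S'.card := Finset.card_pos.2 ⟨0, h0S'⟩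
    have hcast : ((S'.card + 1 - 1 - 1 : ℕ) : ℤ) = (S'.card : ℤ) - 1 := by omega
    rw [hcast] at hge
    by_cases q1 : u1 = a ∧ k1 = 1
    · by_cases q2 : u2 = a ∧ k2 = 1
      · apply h1a
        have h15 : ((k1 : ℂ) + k2) + ((u1 : ℂ) + u2) * s0 = 0 := by
          have : ((k1 + k2 : ℕ) : ℂ) + ((u1 + u2 : ℕ) : ℂ) * s0 = 0 := by rw [h5, h6]; exact hA
          push_cast at this
          exact this
        rw [q1.1, q1.2, q2.1, q2.2] at h15
        push_cast at h15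
        linear_combination h15 / 2
      · rw [if_pos q1, if_neg q2] at h14
        omega
    · rw [if_neg q1] at h14
      split_ifs at h14 <;> omega
  obtain ⟨Q1, hL1, hL2, hL3, hL4⟩ := lemM mg P hdegG hC j hj T hT hT2
  -- the other places are trivial
  have htriv : ∀ Q, Q ≠ Q1 → AQ a0 a1 Q = 0 ∧ oh Q = 0 ∧ NQ n0 n1 Q = 1 := by
    intro Q hQ'
    set s : ℂ := -(loc mg Q (P none)).coeff 0 / (loc mg Q (P (some j))).coeff 0 with hs
    have h1 : (loc mg Q (PC P (0 + Pi.single j s))).coeff 0 = 0 := by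
      rw [PC_add, PC_zero, loc_add, loc_C_mul, coeff_add, coeff_C_mul, hs,
        div_mul_cancel₀ _ (hL1 Q hQ'), add_neg_cancel]
    obtain ⟨p0, hp0⟩ := exists_OrdP _ (loc_ne mg Q _ (hC (0 + Pi.single j s)))
    have hp0' : 0 < p0 := by
      rcases Nat.eq_zero_or_pos p0 with h2 | h2
      · subst h2
        exact absurd h1 hp0.2
      · exact h2
    obtain ⟨⟨r1, r2, r3, -⟩, -, -⟩ := hT Q _ j p0 0 hp0
      ⟨fun i hi => absurd hi (by omega), hL1 Q hQ'⟩ hp0'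
    exact ⟨r1, r2, r3⟩
  have hogQ : ∀ Q, Q ≠ Q1 → og Q = 0 ∧ bt (fun j => loc mg Q (P j)) = true := by
    intro Q hQ'
    have h1 : MOrd (fun j => loc mg Q (P j)) 0 :=
      ⟨fun i k hk => absurd hk (by omega), some j, hL1 Q hQ'⟩
    exact ⟨(hog Q).unique h1, bt_true h1 j (hL1 Q hQ')⟩
  have h1 : MOrd (fun j => loc mg Q1 (P j)) (mg - 1) := by
    refine ⟨fun i k hk => ?_, none, hL3.2⟩
    rcases i with _ | i
    · exact hL3.1 k hk
    · exact hL4 i k (by omega)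
  have hog1 : og Q1 = mg - 1 := (hog Q1).unique h1
  have hbt1 : bt (fun j => loc mg Q1 (P j)) = false := bt_false h1 fun i => hL4 i _ (by omega)
  have hQ1S : Q1 ∈ Finset.insertNone S := by
    rcases Q1 with _ | z
    · exact Finset.none_mem_insertNone
    · rw [Finset.some_mem_insertNone]
      by_contra hz
      obtain ⟨i, hi⟩ : ∃ j, MvPolynomial.constantCoeff (gc z (some j)) ≠ 0 := (hS z hz).2
      apply hi
      rw [B.ccG]
      have h2 := hL4 i 0 (by omega)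
      change ((res0 (gc 0 (some i))).comp (X + C z)).coeff 0 = 0 at h2
      rw [coeff_zero_eq_eval_zero, eval_comp] at h2
      simpa using h2
  have hoh1 : oh Q1 = mh := by
    have h2 := sum_ord mh Ph hPh hdegH oh hoh S fun z hz => by
      rw [hPhd, ← B.ccH]
      exact (hS z hz).1
    rw [← Finset.add_sum_erase _ _ hQ1S, Finset.sum_eq_zero fun Q hQ' =>
      (htriv Q (Finset.ne_of_mem_erase hQ')).2.1, add_zero] at h2
    exact h2
  have hAQ := AQ_sum a0 a1 Q1 fun Q hQ' => (htriv Q hQ').1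
  have hNQ := NQ_sum n0 n1 Q1 fun Q hQ' => (htriv Q hQ').2.2
  have hsum : ∑ Q ∈ Finset.insertNone S, cQ Q + (l - (S.card : R)) * fibreFactor Φ l a true
      = l * (Φ (AQ a0 a1 Q1 + (mh + a * (mg - 1))) (NQ n0 n1 Q1) + Φ a 1 + (l - 1)) := by
    have e1 : ∀ Q ∈ (Finset.insertNone S).erase Q1, cQ Q = fibreFactor Φ l a true := by
      intro Q hQ'
      rw [Finset.mem_erase] at hQ'
      rw [hval Q hQ'.2, (htriv Q hQ'.1).1, (htriv Q hQ'.1).2.1, (htriv Q hQ'.1).2.2,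
        (hogQ Q hQ'.1).1, (hogQ Q hQ'.1).2, mul_zero, add_zero, add_zero, hD.one, one_mul]
    rw [← Finset.add_sum_erase _ _ hQ1S, Finset.sum_congr rfl e1, Finset.sum_const,
      Finset.card_erase_of_mem hQ1S, Finset.card_insertNone, hval Q1 hQ1S, hbt1, hog1, hoh1,
      nsmul_eq_mul, Nat.add_sub_cancel]
    simp only [fibreFactor]
    ring
  rw [hsum]
  have hmul : AQ a0 a1 Q1 + (mh + a * (mg - 1)) + a = a0 + a1 + (mh + a * mg) := by
    obtain ⟨mg', rfl⟩ : ∃ mg', mg = mg' + 1 := ⟨mg - 1, by omega⟩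
    rw [hAQ, Nat.add_sub_cancel, Nat.mul_add]
    omega
  have hn0 := (inv 0).hn0
  have hn1 := (inv 0).hn1
  have hz0 := (inv 0).hz0
  have hz1 := (inv 0).hz1
  have hβ := hD.beta (AQ a0 a1 Q1 + (mh + a * (mg - 1))) (NQ n0 n1 Q1) a 1 (by omega) (by omega)
    le_rfl (fun h => by
      have h2 : a0 = 0 := by omega
      have h3 : a1 = 0 := by omega
      have h4 := hz0 h2
      have h5 := hz1 h3
      omega) (fun h => by omega) (by
      intro h2
      apply h1a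
      have h3 : (((NQ n0 n1 Q1 + 1 : ℕ) : ℂ)) + ((AQ a0 a1 Q1 + (mh + a * (mg - 1)) + a : ℕ) : ℂ)
        * s0 = 0 := by rw [hNQ, hmul]; exact hA
      rw [Nat.cast_add, Nat.cast_add _ a] at h3
      rw [Nat.cast_one] at h3
      linear_combination h3 - h2) (by rw [Nat.cast_one, mul_comm]; exact h1a)
  rw [hNQ, hmul] at hβ
  rw [mul_assoc]
  exact D.mul_mem hD.ell hβ

end Crit

end Pool.Agent.N103
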