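import Pool.Agent.N103.PointA
import Pool.Agent.W574.HS.Flat

set_option autoImplicit false
set_option linter.unusedSectionVars false
set_option linter.unusedVariables false

/-! # Functional equations of `F` -/

namespace Pool.Agent.N103

open Pool.Agent.W574.SM Pool.Agent.H628R4.TP Pool.Agent.W574.HS Pool.Agent.W574.MO

open Polynomial

theorem heq_of_bfun {σ : Type} (F : MvPolynomial σ ℂ) (b : ℂ[X]) (hb : IsBFunction F b) :
    HEq 1 F b := by
  obtain ⟨P, hP⟩ := hb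
  exact ⟨P, fun s => by rw [one_mul]; exact hP s⟩

theorem heq_of_local {σ : Type} [Finite σ] (F : MvPolynomial σ ℂ) (hF : F ≠ 0) (b : ℂ[X])
    (hb : IsLocalBFunction F b) :
    ∃ H : MvPolynomial σ ℂ, MvPolynomial.constantCoeff H ≠ 0 ∧ HEq H F b := by
  obtain ⟨H, P, hH, hP⟩ := algebraic_of_local F hF b hb
  exact ⟨H, hH, P, hP⟩

theorem eval_elim_zero {κ : Type} (H : MvPolynomial (Fin 2 ⊕ κ) ℂ) :
    MvPolynomial.eval (Sum.elim (0 : Fin 2 → ℂ) (0 : κ → ℂ)) H = MvPolynomial.constantCoeff H := by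
  have : (Sum.elim (0 : Fin 2 → ℂ) (0 : κ → ℂ)) = 0 := by
    funext i
    rcases i with i | i <;> rfl
  rw [this, MvPolynomial.eval_zero]

section

variable {κ : Type} [Fintype κ] [DecidableEq κ]

/-- the global topological zeta function -/
theorem global_top (h : MP) (f : Option κ → MP) (a : ℕ) (ha : 1 ≤ a) (hF : FF h f a ≠ 0)
    (b : ℂ[X]) (hb : IsBFunction (FF h f a) b) (e : ℕ) (he : 1 ≤ e) {ι : Type} [Fintype ι]
    (χ : ι → ℤ) (P : ι → Fin 2 → ℂ) (c : ι → κ → ℂ) (Z : ι → RatFunc ℂ)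
    (hZ : ∀ i, PointZeta (facT e) 1 h f a (P i) (c i) (Z i)) (χ0 : ℤ)
    (s₀ : ℂ) (hs₀ : ((χ0 : RatFunc ℂ) + ∑ i, (χ i : RatFunc ℂ) * Z i).denom.eval s₀ = 0) :
    b.eval s₀ = 0 := by
  by_contra hne
  refine Reg_denom s₀ _ ?_ hs₀
  refine (Reg s₀).add_mem (intCast_mem _ _) (Subring.sum_mem _ fun i _ => ?_)
  refine (Reg s₀).mul_mem (intCast_mem _ _) ?_
  exact point_reg (heq_of_bfun _ b hb) hF (by rw [map_one]; exact one_ne_zero) ha hne
    (zdata_tw e he s₀) (hZ i)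

theorem facT_one : facT 1 = fac := by
  funext a n
  rw [facT, if_pos (one_dvd a)]

/-- the local motivic zeta function at the origin -/
theorem local_mot {M : Type} [CommRing M] (L : Mˣ) (h : MP) (f : Option κ → MP) (a : ℕ)
    (ha : 1 ≤ a) (hF : FF h f a ≠ 0) (b : ℂ[X]) (hb : IsLocalBFunction (FF h f a) b)
    (Z : PowerSeries M) (hZ : PointZeta (mf L) (PowerSeries.C (L : M)) h f a 0 0 Z) :
    Z ∈ DenRing L (Kb b) := by
  obtain ⟨H, hH, hHb⟩ := heq_of_local _ hF b hb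
  exact point_motA L hHb hF (by rw [eval_elim_zero]; exact hH) ha Z hZ

end

end Pool.Agent.N103
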