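import Pool.Agent.N103.NodeB
import Pool.Agent.W574.MO.Point

set_option autoImplicit false
set_option linter.unusedSectionVars false
set_option linter.unusedVariables false
set_option linter.unusedSimpArgs false

/-! # The zeta function of a point -/

namespace Pool.Agent.N103

open Pool.Agent.W574.SM

open Polynomial

section Point

variable {κ : Type} [Fintype κ] [DecidableEq κ]

/-- the initial data -/
noncomputable def geomInit (h : MP) (f : Option κ → MP) (a : ℕ) (c : κ → ℂ) (Pt : Fin 2 → ℂ) :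
    GeomD h f a c Pt (translate Pt h) (fun j => translate Pt (fc c f j)) 0 1 0 1 where
  ξ := fun i => MvPolynomial.X i + MvPolynomial.C (Pt i)
  b0 := 0
  c0 := 0
  b1 := 0
  c1 := 0
  Wh := 1
  Wf := 1
  W' := 1
  hWh := by simp
  hWf := by simp
  hW' := by simp
  eh := by
    rw [pow_zero, pow_zero, mul_one, mul_one, one_mul]
    rfl
  ef := fun j => by
    rw [pow_zero, pow_zero, mul_one, mul_one, one_mul]
    rfl
  ea0 := by simp
  ea1 := by simp
  eJ := by
    rw [jac, Matrix.det_fin_two]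
    simp only [Matrix.of_apply, map_add, MvPolynomial.pderiv_C]
    rw [MvPolynomial.pderiv_X_self, MvPolynomial.pderiv_X_self,
      MvPolynomial.pderiv_X_of_ne (by decide), MvPolynomial.pderiv_X_of_ne (by decide)]
    ring
  eP := fun i => by simp
  eK0 := fun h => absurd h (by omega)
  eK1 := fun h => absurd h (by omega)

theorem inv_init (h : MP) (f : Option κ → MP) (a : ℕ) (c : κ → ℂ) (Pt : Fin 2 → ℂ) (s0 : ℂ) :
    InvA h f a c Pt s0 (translate Pt h) (fun j => translate Pt (fc c f j)) 0 1 0 1 where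
  geom := ⟨geomInit h f a c Pt⟩
  hn0 := le_rfl
  hn1 := le_rfl
  hz0 := fun _ => rfl
  hz1 := fun _ => rfl
  hJ1 := fun mh mg _ _ => by simp
  hJ2 := fun h => absurd h (lt_irrefl 0)
  hJ2' := fun h => absurd h (lt_irrefl 0)
  hH0 := fun h => by simp at h
  hH1 := fun h => by simp at h
  hT0 := fun h => by simp at h
  hT1 := fun h => by simp at h

variable {h : MP} {f : Option κ → MP} {a : ℕ} {c : κ → ℂ} {Pt : Fin 2 → ℂ}
variable {R : Type} [CommRing R]
variable {b : ℂ[X]} {H : MvPolynomial (Fin 2 ⊕ κ) ℂ} {s0 : ℂ}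
variable {D : Subring R} {Φ : ℕ → ℕ → R} {l : R}

/-- **The zeta function of a point is regular at `s0`** if `b(s0) ≠ 0`. -/
theorem point_reg (hb : HEq H (FF h f a) b) (hF : FF h f a ≠ 0)
    (hH : MvPolynomial.eval (Sum.elim Pt c) H ≠ 0) (ha : 1 ≤ a) (hs0 : b.eval s0 ≠ 0)
    (hD : ZData D s0 Φ l) {Z : R} (hZ : PointZeta Φ l h f a Pt c Z) : Z ∈ D := by
  obtain ⟨c0, m0, c1, m1, _, _, h1⟩ := good_all hb hF hH ha hs0 hD hZ (inv_init h f a c Pt s0)
  rw [hD.one, mul_one, mul_one] at h1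
  have h2 := D.add_mem (D.add_mem h1 m1) m0
  rwa [sub_add_cancel, sub_add_cancel] at h2

end Point

section Top

/-- the local factors of the twisted topological zeta function -/
noncomputable def facT (e a n : ℕ) : RatFunc ℂ := if e ∣ a then fac a n else 0

theorem inv_add_mul {K : Type} [Field K] {A B E : K} (hA : A ≠ 0) (hB : B ≠ 0) (hE : E ≠ 0)
    (h : E = A + B) : (1 / A + 1 / B) * (1 / E) = 1 / A * (1 / B) := by
  subst h
  field_simp
  ring

theorem inv_sub_mul {K : Type} [Field K] {A B E : K} (hA : A ≠ 0) (hB : B ≠ 0) (hE : E ≠ 0)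
    (h : E = A + B) : (1 / E - 1 / B) * (1 / A) = - (1 / E * (1 / B)) := by
  subst h
  field_simp
  ring

theorem fac_add (u1 k1 u2 k2 : ℕ) (s0 : ℂ) (h1 : (k1 : ℂ) + s0 * u1 ≠ 0)
    (h2 : (k2 : ℂ) + s0 * u2 ≠ 0) (h3 : 1 ≤ u1 + u2) :
    (fac u1 k1 + fac u2 k2) * fac (u1 + u2) (k1 + k2) = fac u1 k1 * fac u2 k2 := by
  have e1 : (C (k1 : ℂ) + C (u1 : ℂ) * X : ℂ[X]) ≠ 0 := by
    intro h
    have := congrArg (eval s0) h
    simp at this
    apply h1
    linear_combination this
  have e2 : (C (k2 : ℂ) + C (u2 : ℂ) * X : ℂ[X]) ≠ 0 := by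
    intro h
    have := congrArg (eval s0) h
    simp at this
    apply h2
    linear_combination this
  have e3 : (C ((k1 + k2 : ℕ) : ℂ) + C ((u1 + u2 : ℕ) : ℂ) * X : ℂ[X]) ≠ 0 := by
    intro h
    have := congrArg (coeff · 1) h
    simp at this
    have h4 : ((u1 + u2 : ℕ) : ℂ) = 0 := by
      push_cast
      exact this
    rw [Nat.cast_eq_zero] at h4
    omega
  have e4 : (C ((k1 + k2 : ℕ) : ℂ) + C ((u1 + u2 : ℕ) : ℂ) * X : ℂ[X])
      = (C (k1 : ℂ) + C (u1 : ℂ) * X) + (C (k2 : ℂ) + C (u2 : ℂ) * X) := by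
    simp only [Nat.cast_add, map_add]
    ring
  rw [fac_eq, fac_eq, fac_eq]
  have f1 := RatFunc.algebraMap_ne_zero e1
  have f2 := RatFunc.algebraMap_ne_zero e2
  have f3 := RatFunc.algebraMap_ne_zero e3
  have f4 := congrArg (algebraMap ℂ[X] (RatFunc ℂ)) e4
  rw [map_add _ (C (k1 : ℂ) + C (u1 : ℂ) * X)] at f4
  exact inv_add_mul f1 f2 f3 f4

theorem zdata_tw (e : ℕ) (he : 1 ≤ e) (s0 : ℂ) : ZData (Reg s0) s0 (facT e) 1 where
  one := by
    rw [facT, if_pos (dvd_zero e), fac_zero_one]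
  ell := (Reg s0).one_mem
  reg := by
    intro a n hn h
    rw [facT]
    split_ifs
    · exact fac_mem a n s0 h
    · exact (Reg s0).zero_mem
  beta := by
    intro u1 k1 u2 k2 h0 hk1 hk2 hz1 hz2 h1 h2
    rw [sub_self, add_zero]
    simp only [facT]
    by_cases hd : e ∣ u1 + u2
    · by_cases hd1 : e ∣ u1
      · have hd2 : e ∣ u2 := (Nat.dvd_add_right hd1).1 hd
        rw [if_pos hd, if_pos hd1, if_pos hd2, fac_add u1 k1 u2 k2 s0 h1 h2 h0]
        exact (Reg s0).mul_mem (fac_mem _ _ _ (by rw [mul_comm]; exact h1))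
          (fac_mem _ _ _ (by rw [mul_comm]; exact h2))
      · have hd2 : ¬ e ∣ u2 := fun h => hd1 ((Nat.dvd_add_left h).1 hd)
        rw [if_neg hd1, if_neg hd2, add_zero, zero_mul]
        exact (Reg s0).zero_mem
    · rw [if_neg hd, mul_zero]
      exact (Reg s0).zero_mem
  pass := by
    intro a n u k ha hu hn hk h0 h1
    simp only [facT]
    by_cases hd : e ∣ a
    · by_cases hd1 : e ∣ u
      · have hd2 : e ∣ a + u := (Nat.dvd_add_right hd).2 hd1
        rw [if_pos hd, if_pos hd1, if_pos hd2]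
        have h2 : ((n + k : ℕ) : ℂ) + ((a + u : ℕ) : ℂ) * s0 ≠ 0 := by
          intro h3
          apply h1
          push_cast at h3
          linear_combination h3 - h0
        have e1 : (C (n : ℂ) + C (a : ℂ) * X : ℂ[X]) ≠ 0 := by
          intro h
          have := congrArg (coeff · 1) h
          simp at this
          omega
        have e2 : (C (k : ℂ) + C (u : ℂ) * X : ℂ[X]) ≠ 0 := by
          intro h
          have := congrArg (coeff · 1) h
          simp at this
          omega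
        have e3 : (C ((n + k : ℕ) : ℂ) + C ((a + u : ℕ) : ℂ) * X : ℂ[X]) ≠ 0 := by
          intro h
          have := congrArg (eval s0) h
          simp at this
          apply h2
          push_cast
          linear_combination this
        have e4 : (C ((n + k : ℕ) : ℂ) + C ((a + u : ℕ) : ℂ) * X : ℂ[X])
            = (C (n : ℂ) + C (a : ℂ) * X) + (C (k : ℂ) + C (u : ℂ) * X) := by
          simp only [Nat.cast_add, map_add]
          ring
        have key : (fac (a + u) (n + k) - fac u k) * fac a n = - (fac (a + u) (n + k) * fac u k)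
            := by
          rw [fac_eq, fac_eq, fac_eq]
          have f1 := RatFunc.algebraMap_ne_zero e1
          have f2 := RatFunc.algebraMap_ne_zero e2
          have f3 := RatFunc.algebraMap_ne_zero e3
          have f4 := congrArg (algebraMap ℂ[X] (RatFunc ℂ)) e4
          rw [map_add _ (C (n : ℂ) + C (a : ℂ) * X)] at f4
          exact inv_sub_mul f1 f2 f3 f4
        rw [key]
        exact (Reg s0).neg_mem ((Reg s0).mul_mem (fac_mem _ _ _ h2)
          (fac_mem _ _ _ (by rw [mul_comm]; exact h1)))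
      · have hd2 : ¬ e ∣ a + u := fun h => hd1 ((Nat.dvd_add_right hd).1 h)
        rw [if_neg hd1, if_neg hd2, sub_zero, zero_mul]
        exact (Reg s0).zero_mem
    · rw [if_neg hd, mul_zero]
      exact (Reg s0).zero_mem

theorem zdata_top (s0 : ℂ) : ZData (Reg s0) s0 fac 1 := by
  have h := zdata_tw 1 le_rfl s0
  have e : facT 1 = fac := by
    funext a n
    rw [facT, if_pos (one_dvd a)]
  rwa [e] at h

end Top

section Mot

open Pool.Agent.W574.MO

variable {M : Type} [CommRing M] (L : Mˣ)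

theorem zdata_mot (s0 : ℂ) : ZData (DenRing L (Kn s0)) s0 (mf L) (PowerSeries.C (L : M)) where
  one := mf_zero L 1
  ell := C_mem _
  reg := fun a n hn h => mf_mem hn fun _ => h
  beta := by
    intro u1 k1 u2 k2 h0 hk1 hk2 hz1 hz2 h1 h2
    have e : (PowerSeries.C (L : M) - 1 : PowerSeries M) = PowerSeries.C ((L : M) - 1) := by
      rw [map_sub, map_one]
    rw [e]
    refine beta_mem rfl rfl h0 hk1 hk2 hz1 hz2 (fun _ => ?_) (fun _ => ?_)
    · rw [Kn, mul_comm]
      exact h1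
    · rw [Kn, mul_comm]
      exact h2
  pass := by
    intro a n u k ha hu hn hk h0 h1
    refine pass_mem ha hu hn hk ?_ ?_
    · rw [Kn, mul_comm]
      exact h1
    · rw [Kn]
      intro h3
      apply h1
      push_cast at h3
      linear_combination h3 - h0

variable {κ : Type}

theorem Phi_tf (a : ℕ) (t : Bool) :
    Phi L (typeFactor (mf LL) a t) = typeFactor (mf L) a t := by
  rcases t with _ | _
  · exact map_one _
  · exact Phi_mf L a 1

/-- the contribution of a point comes from the ring `ℤ[L, L⁻¹]` -/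
theorem exists_univA {a : ℕ} {h : MP} {g : Option κ → MP} {a0 n0 a1 n1 : ℕ} {Z : PowerSeries M}
    (hZ : GermZeta (mf L) (PowerSeries.C (L : M)) a h g a0 n0 a1 n1 Z) :
    ∃ Z0 : PowerSeries AA,
      GermZeta (mf LL) (PowerSeries.C ((LL : AAˣ) : AA)) a h g a0 n0 a1 n1 Z0 ∧ Phi L Z0 = Z := by
  classical
  induction hZ with
  | unit h g a0 n0 a1 n1 hh t ht =>
    exact ⟨_, GermZeta.unit h g a0 n0 a1 n1 hh t ht, by
      rw [map_mul, map_mul, Phi_mf, Phi_mf, Phi_tf]⟩
  | curveV h g a0 n0 mh mg hm q kh k hh hg h0 h1 hkh t ht =>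
    exact ⟨_, GermZeta.curveV h g a0 n0 mh mg hm q kh k hh hg h0 h1 hkh t ht, by
      rw [map_mul, map_mul, Phi_mf, Phi_mf, Phi_tf]⟩
  | curveU h g a1 n1 mh mg hm q kh k hh hg h0 h1 hkh t ht =>
    exact ⟨_, GermZeta.curveU h g a1 n1 mh mg hm q kh k hh hg h0 h1 hkh t ht, by
      rw [map_mul, map_mul, Phi_mf, Phi_mf, Phi_tf]⟩
  | blowup h g a0 n0 a1 n1 mh mg hm hc gc hI gI hhc hgc hhI hgI S h0S t hS Zc ZI hz0 hcS hZI
      ih0 ihc ihI =>
    obtain ⟨Y0, hY0, e0⟩ := ih0
    obtain ⟨YI, hYI, eI⟩ := ihI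
    have hch : ∀ c : ℂ, ∃ Y : PowerSeries AA, (c ∈ S → c ≠ 0 →
        GermZeta (mf LL) (PowerSeries.C ((LL : AAˣ) : AA)) a (hc c) (gc c)
          (a0 + a1 + (mh + a * mg)) (n0 + n1) 0 1 Y ∧ Phi L Y = Zc c) := by
      intro c
      by_cases hcS : c ∈ S ∧ c ≠ 0
      · obtain ⟨Y, hY, e⟩ := ihc c hcS.1 hcS.2
        exact ⟨Y, fun _ _ => ⟨hY, e⟩⟩
      · exact ⟨0, fun h1 h2 => absurd ⟨h1, h2⟩ hcS⟩
    choose Y hY using hch
    let Yc : ℂ → PowerSeries AA := fun c => if c = 0 then Y0 else Y c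
    have hYc : ∀ c ∈ S, Phi L (Yc c) = Zc c := by
      intro c hcS
      by_cases h : c = 0
      · simp only [Yc, if_pos h]
        rw [h]
        exact e0
      · simp only [Yc, if_neg h]
        exact (hY c hcS h).2
    refine ⟨_, GermZeta.blowup h g a0 n0 a1 n1 mh mg hm hc gc hI gI hhc hgc hhI hgI S h0S t hS Yc
      YI ?_ ?_ hYI, ?_⟩
    · simp only [Yc, if_pos]
      exact hY0
    · intro c hcS h
      simp only [Yc, if_neg h]
      exact (hY c hcS h).1
    · rw [map_add, map_add, map_sum, eI, Finset.sum_congr rfl hYc, map_mul, map_mul, Phi_mf,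
        Phi_tf, map_sub, Phi_C, phi_LL, map_natCast]

theorem mem_allA {a : ℕ} {h : MP} {g : Option κ → MP} {a0 n0 a1 n1 : ℕ} {Z : PowerSeries M}
    (hZ : GermZeta (mf L) (PowerSeries.C (L : M)) a h g a0 n0 a1 n1 Z) (hn0 : 1 ≤ n0)
    (hn1 : 1 ≤ n1) : Z ∈ DenRing L (fun _ _ => True) := by
  classical
  have hmf : ∀ {a n : ℕ}, 1 ≤ n → mf L a n ∈ DenRing L (fun _ _ => True) :=
    fun hn => mf_mem hn fun _ => trivial
  have htf : ∀ (a : ℕ) (t : Bool), typeFactor (mf L) a t ∈ DenRing L (fun _ _ => True) := by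
    intro a t
    rcases t with _ | _
    · exact Subring.one_mem _
    · exact hmf le_rfl
  induction hZ with
  | unit h g a0 n0 a1 n1 hh t ht =>
    exact Subring.mul_mem _ (Subring.mul_mem _ (hmf hn0) (hmf hn1)) (htf _ _)
  | curveV h g a0 n0 mh mg hm q kh k hh hg h0 h1 hkh t ht =>
    exact Subring.mul_mem _ (Subring.mul_mem _ (hmf hn0) (hmf le_rfl)) (htf _ _)
  | curveU h g a1 n1 mh mg hm q kh k hh hg h0 h1 hkh t ht =>
    exact Subring.mul_mem _ (Subring.mul_mem _ (hmf hn1) (hmf le_rfl)) (htf _ _)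
  | blowup h g a0 n0 a1 n1 mh mg hm hc gc hI gI hhc hgc hhI hgI S h0S t hS Zc ZI hz0 hcS hZI
      ih0 ihc ihI =>
    refine Subring.add_mem _ (Subring.add_mem _ (ihI hn0 (by omega)) ?_)
      (Subring.mul_mem _ (Subring.sub_mem _ (C_mem _) (natCast_mem _ _))
        (Subring.mul_mem _ (hmf (by omega)) (htf _ _)))
    refine Subring.sum_mem _ fun c hcS => ?_
    by_cases h : c = 0
    · rw [h]
      exact ih0 (by omega) hn1
    · exact ihc c hcS h (by omega) le_rfl

variable [Fintype κ] [DecidableEq κ]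
variable {h : MP} {f : Option κ → MP} {a : ℕ} {c : κ → ℂ} {Pt : Fin 2 → ℂ}
variable {b : ℂ[X]} {H : MvPolynomial (Fin 2 ⊕ κ) ℂ}

/-- **The denominators of the local motivic zeta function** belong to roots of `b`. -/
theorem point_motA (hb : HEq H (FF h f a) b) (hF : FF h f a ≠ 0)
    (hH : MvPolynomial.eval (Sum.elim Pt c) H ≠ 0) (ha : 1 ≤ a) (Z : PowerSeries M)
    (hZ : PointZeta (mf L) (PowerSeries.C (L : M)) h f a Pt c Z) : Z ∈ DenRing L (Kb b) := by
  classical
  obtain ⟨Z0, hZ0, rfl⟩ := exists_univA L hZ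
  apply Phi_mem
  obtain ⟨s, hs, Q, hQ⟩ := exists_denom (mem_allA LL hZ0 le_rfl le_rfl)
  refine descent (Kb b) Z0 s (fun p hp => ⟨(hs p hp).1, (hs p hp).2.1⟩) ?_ Q hQ
  intro a' n ha' hn hne
  have hac : (a' : ℂ) ≠ 0 := Nat.cast_ne_zero.2 (by omega)
  have h2 := point_reg hb hF hH ha hne (zdata_mot LL (-(n : ℂ) / a')) hZ0
  refine Subring.closure_mono (Set.union_subset_union_right _ ?_) h2
  rintro u ⟨a1, n1, ha1, hn1, hK, hu⟩
  refine ⟨a1, n1, ha1, hn1, ?_, hu⟩
  intro h3
  apply hK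
  have h4 : (n : ℂ) * a1 = n1 * a' := by exact_mod_cast h3
  field_simp
  linear_combination -h4

end Mot

end Pool.Agent.N103
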