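import Pool.Agent.N103.GlD
import Pool.Agent.N103.PointA
import Pool.Agent.N103.Main
import Pool.Agent.W574.SM.PlaneMain

set_option autoImplicit false
set_option linter.unusedSectionVars false
set_option linter.unusedVariables false
set_option linter.unusedSimpArgs false

/-! # The global motivic zeta function -/

namespace Pool.Agent.N103

open Pool.Agent.W574.SM

open Polynomial

section Ind

variable {κ : Type} [Fintype κ] [DecidableEq κ]
variable {h : MP} {f : Option κ → MP} {a : ℕ} {Pt : Fin 2 → ℂ}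
variable {b : ℂ[X]} {H : MvPolynomial (Fin 2 ⊕ κ) ℂ} {s0 : ℂ}
variable {R : Type} [CommRing R] {D : Subring R} {Φ : ℕ → ℕ → R} {l : R}

theorem OrdP.unshift {p p' : ℂ[X]} {m k : ℕ} (hp : p = X ^ m * p') (h : OrdP p k) :
    ∃ k', k = m + k' ∧ OrdP p' k' := by
  have h0 : p' ≠ 0 := by
    rintro rfl
    rw [mul_zero] at hp
    rw [hp] at h
    exact h.2 (coeff_zero _)
  obtain ⟨k', hk'⟩ := exists_OrdP p' h0
  refine ⟨k', ?_, hk'⟩
  have h1 := (OrdP_X_pow m).mul hk'
  rw [← hp] at h1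
  exact h.unique h1

/-- **The poles of the contribution of a fibre.** -/
theorem goodG_all (hb : HEq H (FF h f a) b) (hF : FF h f a ≠ 0)
    (hH : ∀ x, MvPolynomial.eval x H ≠ 0) (ha : 1 ≤ a) (hs0 : b.eval s0 ≠ 0)
    (h1a : (1 : ℂ) + a * s0 ≠ 0) (hD : ZData D s0 Φ l) {h' : MP} {g : Option κ → MP}
    {a0 n0 a1 n1 : ℕ} {Z : R} (hZ : FibreZeta Φ l a h' g a0 n0 a1 n1 Z) :
    InvG h f a Pt s0 h' g a0 n0 a1 n1 → GoodG a D s0 Φ l h' g a0 n0 a1 n1 Z := by
  classical
  induction hZ with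
  | unit h' g a0 n0 a1 n1 hh t ht =>
    intro inv
    exact goodG_unit h1a hD inv hh t ht
  | curveV h' g a0 n0 mh mg hm q kh k hh hg h0 h1 hkh t ht =>
    intro inv
    exact goodG_curveV hb hF hH hs0 h1a hD inv mh mg hm q kh k hh hg h0 h1 hkh t ht
  | curveU h' g a1 n1 mh mg hm q kh k hh hg h0 h1 hkh t ht =>
    intro inv
    exact goodG_curveU hb hF hH hs0 h1a hD inv mh mg hm q kh k hh hg h0 h1 hkh t ht
  | blowup h' g a0 n0 a1 n1 mh mg hm hc gc hI gI hhc hgc hhI hgI S h0S t hS Zc ZI hz0 hcS hZI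
      ih0 ihc ihI =>
    intro inv
    have B : BDat h' g mh mg hc gc hI gI := ⟨hhc, hgc, hhI, hgI⟩
    have hn0 := (inv 0).hn0
    have hn1 := (inv 0).hn1
    have hiz0 := (inv 0).hz0
    have hiz1 := (inv 0).hz1
    obtain ⟨inv0, invc, invI⟩ := inv.children hb hF hH ha hs0 hm B h0S hS
    have hcb := fun hA => crit_beta hb hF hH ha hs0 h1a hD inv hm B h0S hS hA
    have htf : fibreFactor Φ l a t ∈ D := bf_mem hD h1a t
    have hresIh : res0 h' = X ^ mh * res0 hI := res0_of_chartI hhI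
    have hresIg : ∀ j, res0 (g j) = X ^ mg * res0 (gI j) := fun j => res0_of_chartI (hgI j)
    have hres0h : res1 h' = X ^ mh * res1 (hc 0) := res1_of_chart0 (hhc 0)
    have hres0g : ∀ j, res1 (g j) = X ^ mg * res1 (gc 0 j) := fun j => res1_of_chart0 (hgc 0 j)
    have hXm : OrdP ((X : ℂ[X]) ^ mg) mg := OrdP_X_pow mg
    obtain ⟨c00, m00, c01, m01, h00, h01, h02⟩ := ih0 inv0
    obtain ⟨cI0, mI0, cI1, mI1, hI0, hI1, hI2⟩ := ihI invI
    obtain ⟨m, hmd⟩ : ∃ m, m = mh + a * mg := ⟨_, rfl⟩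
    rw [← hmd] at hm hcb h00 h01 h02 hI0 hI1 hI2 ⊢
    set facE := Φ (a0 + a1 + m) (n0 + n1) with hfacE
    have hcc2 : ∀ z ∈ S.erase 0, ∃ κ' : R, κ' ∈ D ∧
        (((n0 + n1 : ℕ) : ℂ) + ((a0 + a1 + m : ℕ) : ℂ) * s0 = 0 → ∀ ph pg,
          OrdP (res0 (hc z)) ph → MOrd (fun j => res0 (gc z j)) pg →
          κ' = Φ (0 + (ph + a * pg)) 1 * fibreFactor Φ l a (bt fun j => res0 (gc z j))) ∧
        Zc z - κ' * facE ∈ D := by
      intro z hzS
      rw [Finset.mem_erase] at hzS
      obtain ⟨κ', mκ, κ'', mκ', h2, h3, h4⟩ := ihc z hzS.2 hzS.1 (invc z hzS.1)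
      rw [← hmd] at h2 h3 h4
      refine ⟨κ', mκ, h2, ?_⟩
      have h5 := D.add_mem h4 mκ'
      rw [hD.one, mul_one, sub_add_cancel] at h5
      exact h5
    choose! κ' hκ0 hκ1 hκ2 using hcc2
    set cQ : Option ℂ → R := fun Q => Q.elim cI1 fun z => if z = 0 then c00 else κ' z with hcQd
    have hsumQ : ∑ Q ∈ Finset.insertNone S, cQ Q = cI1 + (c00 + ∑ z ∈ S.erase 0, κ' z) := by
      rw [Finset.sum_insertNone, ← Finset.add_sum_erase S _ h0S]
      have e1 : ∀ z ∈ S.erase 0, cQ (some z) = κ' z := by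
        intro z hz
        simp [hcQd, Finset.ne_of_mem_erase hz]
      rw [Finset.sum_congr rfl e1]
      simp [hcQd]
    have hcQm : ∀ Q ∈ Finset.insertNone S, cQ Q ∈ D := by
      intro Q hQ'
      rcases Q with _ | z
      · exact mI1
      · rw [Finset.some_mem_insertNone] at hQ'
        by_cases hz : z = 0
        · simp only [hcQd, Option.elim, hz, if_true]
          exact m00
        · simp only [hcQd, Option.elim, if_neg hz]
          exact hκ0 z (Finset.mem_erase.2 ⟨hz, hQ'⟩)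
    set β : R := ∑ Q ∈ Finset.insertNone S, cQ Q + (l - (S.card : R)) * fibreFactor Φ l a t with hβ
    have hβE : β * facE ∈ D := by
      by_cases hA : ((n0 + n1 : ℕ) : ℂ) + ((a0 + a1 + m : ℕ) : ℂ) * s0 = 0
      · refine hcb hA cQ ?_
        intro Q hQ' ph pg oh og
        rcases Q with _ | z
        · have e1 : ∀ q : MP, res0 (sw q) = res1 q := res0_sw
          have e2 : (fun j => res0 (gQ gc gI none j)) = fun j => res1 (gI j) :=
            funext fun j => e1 _
          rw [e2] at og ⊢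
          exact hI1 hA ph pg (by rw [← e1]; exact oh) og
        · rw [Finset.some_mem_insertNone] at hQ'
          by_cases hz : z = 0
          · subst hz
            rw [AQ_zero, NQ_zero]
            simp only [hcQd, Option.elim, if_true]
            exact h00 hA ph pg oh og
          · rw [AQ_ne a0 a1 hz, NQ_ne n0 n1 hz]
            simp only [hcQd, Option.elim, if_neg hz]
            exact hκ1 z (Finset.mem_erase.2 ⟨hz, hQ'⟩) hA ph pg oh og
      · exact D.mul_mem (D.add_mem (Subring.sum_mem _ hcQm)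
          (D.mul_mem (D.sub_mem hD.ell (natCast_mem D _)) htf)) (hD.reg _ _ (by omega) hA)
    have hsum : ∑ z ∈ S.erase 0, (Zc z - κ' z * facE) ∈ D :=
      Subring.sum_mem _ fun z hzS => hκ2 z hzS
    rw [Finset.sum_sub_distrib, ← Finset.sum_mul] at hsum
    have hfin := D.add_mem (D.add_mem (D.add_mem h02 hI2) hsum) hβE
    have heq : ZI + ∑ z ∈ S, Zc z + (l - (S.card : R)) * (facE * fibreFactor Φ l a t)
          - cI0 * Φ a0 n0 - c01 * Φ a1 n1
        = Zc 0 - c00 * facE - c01 * Φ a1 n1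
          + (ZI - cI0 * Φ a0 n0 - cI1 * facE)
          + (∑ z ∈ S.erase 0, Zc z - (∑ z ∈ S.erase 0, κ' z) * facE)
          + β * facE := by
      rw [← Finset.add_sum_erase S Zc h0S, hβ, hsumQ]
      ring
    rw [← heq] at hfin
    -- the correction terms
    have hcor0 : ∃ c0 ∈ D, ((n0 : ℂ) + a0 * s0 = 0 → ∀ ph pg, OrdP (res0 h') ph →
          MOrd (fun j => res0 (g j)) pg → c0 = Φ (a1 + (ph + a * pg)) n1 *
            fibreFactor Φ l a (bt fun j => res0 (g j))) ∧ (cI0 - c0) * Φ a0 n0 ∈ D := by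
      by_cases hcase : (n0 : ℂ) + a0 * s0 = 0 ∧ ∃ ph pg, OrdP (res0 h') ph ∧
          MOrd (fun j => res0 (g j)) pg
      · obtain ⟨hA0, ph, pg, oh, og⟩ := hcase
        have hnz := crit0 inv hA0 oh og
        have hτ : fibreFactor Φ l a (bt fun j => res0 (g j)) ∈ D := bf_mem hD h1a _
        obtain ⟨ph', rfl, oh'⟩ := oh.unshift hresIh
        obtain ⟨pg', rfl, og'⟩ := og.unshift hXm hresIg
        have h2 := hI0 hA0 ph' pg' oh' og'
        have ebt : bt (fun j => res0 (g j)) = bt fun j => res0 (gI j) :=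
          bt_shift (P := fun j => res0 (g j)) (P' := fun j => res0 (gI j)) hXm hresIg
        have ha0 : 1 ≤ a0 := Nat.one_le_iff_ne_zero.2 (a_ne_zero hiz0 hA0)
        have e1 : mh + ph' + a * (mg + pg') = m + (ph' + a * pg') := by
          rw [hmd, Nat.mul_add]
          omega
        rw [e1] at hnz
        have hp := hD.pass a0 n0 (a1 + (m + (ph' + a * pg'))) n1 ha0 (by omega) hn0 hn1 hA0 hnz
        refine ⟨Φ (a1 + (m + (ph' + a * pg'))) n1 * fibreFactor Φ l a (bt fun j => res0 (g j)),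
          D.mul_mem (hD.reg _ _ hn1 ?_) hτ, ?_, ?_⟩
        · rw [mul_comm]
          exact hnz
        · intro _ ph2 pg2 oh2 og2
          rw [← oh.unique oh2, ← og.unique og2, e1]
        · have h3 := D.mul_mem hp hτ
          rw [h2, ← ebt, show a0 + a1 + m + (ph' + a * pg') = a0 + (a1 + (m + (ph' + a * pg')))
            by omega]
          convert h3 using 1
          ring
      · refine ⟨cI0, mI0, ?_, ?_⟩
        · intro h1 ph pg oh og
          exact absurd ⟨h1, ph, pg, oh, og⟩ hcase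
        · rw [sub_self, zero_mul]
          exact D.zero_mem
    have hcor1 : ∃ c1 ∈ D, ((n1 : ℂ) + a1 * s0 = 0 → ∀ ph pg, OrdP (res1 h') ph →
          MOrd (fun j => res1 (g j)) pg → c1 = Φ (a0 + (ph + a * pg)) n0 *
            fibreFactor Φ l a (bt fun j => res1 (g j))) ∧ (c01 - c1) * Φ a1 n1 ∈ D := by
      by_cases hcase : (n1 : ℂ) + a1 * s0 = 0 ∧ ∃ ph pg, OrdP (res1 h') ph ∧
          MOrd (fun j => res1 (g j)) pg
      · obtain ⟨hA1, ph, pg, oh, og⟩ := hcase
        have hnz := crit1 inv hA1 oh og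
        have hτ : fibreFactor Φ l a (bt fun j => res1 (g j)) ∈ D := bf_mem hD h1a _
        obtain ⟨ph', rfl, oh'⟩ := oh.unshift hres0h
        obtain ⟨pg', rfl, og'⟩ := og.unshift hXm hres0g
        have h2 := h01 hA1 ph' pg' oh' og'
        have ebt : bt (fun j => res1 (g j)) = bt fun j => res1 (gc 0 j) :=
          bt_shift (P := fun j => res1 (g j)) (P' := fun j => res1 (gc 0 j)) hXm hres0g
        have ha1 : 1 ≤ a1 := Nat.one_le_iff_ne_zero.2 (a_ne_zero hiz1 hA1)
        have e1 : mh + ph' + a * (mg + pg') = m + (ph' + a * pg') := by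
          rw [hmd, Nat.mul_add]
          omega
        rw [e1] at hnz
        have hp := hD.pass a1 n1 (a0 + (m + (ph' + a * pg'))) n0 ha1 (by omega) hn1 hn0 hA1 hnz
        refine ⟨Φ (a0 + (m + (ph' + a * pg'))) n0 * fibreFactor Φ l a (bt fun j => res1 (g j)),
          D.mul_mem (hD.reg _ _ hn0 ?_) hτ, ?_, ?_⟩
        · rw [mul_comm]
          exact hnz
        · intro _ ph2 pg2 oh2 og2
          rw [← oh.unique oh2, ← og.unique og2, e1]
        · have h3 := D.mul_mem hp hτ
          rw [h2, ← ebt, show a0 + a1 + m + (ph' + a * pg') = a1 + (a0 + (m + (ph' + a * pg')))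
            by omega, add_comm n0 n1]
          convert h3 using 1
          ring
      · refine ⟨c01, m01, ?_, ?_⟩
        · intro h1 ph pg oh og
          exact absurd ⟨h1, ph, pg, oh, og⟩ hcase
        · rw [sub_self, zero_mul]
          exact D.zero_mem
    obtain ⟨c0, mc0, hc0, hc0'⟩ := hcor0
    obtain ⟨c1, mc1, hc1', hc1''⟩ := hcor1
    refine ⟨c0, mc0, c1, mc1, hc0, hc1', ?_⟩
    have := D.add_mem (D.add_mem hfin hc0') hc1''
    convert this using 1
    ring

theorem fc_translate (c : κ → ℂ) (f : Option κ → MP) (Pt : Fin 2 → ℂ) :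
    (fun j => translate Pt (fc c f j)) = fc c fun j => translate Pt (f j) := by
  funext j
  have h1 := fc_mul (translate Pt) c f (fun j => translate Pt (f j)) 1
    (fun j => (one_mul _).symm) j
  rw [one_mul] at h1
  exact h1

theorem invG_init (h : MP) (f : Option κ → MP) (a : ℕ) (Pt : Fin 2 → ℂ) (s0 : ℂ) :
    InvG h f a Pt s0 (translate Pt h) (fun j => translate Pt (f j)) 0 1 0 1 := by
  intro c
  have h1 := inv_init h f a c Pt s0
  rwa [fc_translate] at h1

/-- the contribution of a fibre is regular at `s0` -/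
theorem fibre_reg (hb : HEq H (FF h f a) b) (hF : FF h f a ≠ 0)
    (hH : ∀ x, MvPolynomial.eval x H ≠ 0) (ha : 1 ≤ a) (hs0 : b.eval s0 ≠ 0)
    (h1a : (1 : ℂ) + a * s0 ≠ 0) (hD : ZData D s0 Φ l) {Z : R}
    (hZ : FibreZeta Φ l a (translate Pt h) (fun j => translate Pt (f j)) 0 1 0 1 Z) : Z ∈ D := by
  obtain ⟨c0, m0, c1, m1, _, _, h1⟩ := goodG_all hb hF hH ha hs0 h1a hD hZ
    (invG_init h f a Pt s0)
  rw [hD.one, mul_one, mul_one] at h1
  have h2 := D.add_mem (D.add_mem h1 m1) m0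
  rwa [sub_add_cancel, sub_add_cancel] at h2

end Ind

end Pool.Agent.N103
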