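import Pool.Agent.N103.GlE

set_option autoImplicit false
set_option linter.unusedSectionVars false
set_option linter.unusedVariables false
set_option linter.unusedSimpArgs false

/-! # The global motivic zeta function -/

namespace Pool.Agent.N103

open Pool.Agent.W574.SM Pool.Agent.W574.MO Pool.Agent.H628R4.TP Pool.Agent.W574.HS

open Polynomial

section Trans

theorem cc_translate (P : Fin 2 → ℂ) (q : MP) :
    MvPolynomial.constantCoeff (translate P q) = MvPolynomial.eval P q := by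
  have h1 : (MvPolynomial.constantCoeff.comp (translate P : MP →ₐ[ℂ] MP).toRingHom)
      = MvPolynomial.eval P := by
    apply MvPolynomial.ringHom_ext
    · intro r
      simp [Pool.Agent.W574.SM.translate]
    · intro i
      simp [Pool.Agent.W574.SM.translate]
  exact congrArg (fun φ : MP →+* ℂ => φ q) h1

theorem pderiv_translate (P : Fin 2 → ℂ) (i : Fin 2) (q : MP) :
    MvPolynomial.pderiv i (translate P q) = translate P (MvPolynomial.pderiv i q) := by
  induction q using MvPolynomial.induction_on with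
  | C r => simp [Pool.Agent.W574.SM.translate]
  | add p q hp hq => rw [map_add, map_add, hp, hq, map_add, map_add]
  | mul_X p j hp =>
    rw [map_mul, Derivation.leibniz, Derivation.leibniz, hp, map_add, smul_eq_mul, smul_eq_mul,
      smul_eq_mul, smul_eq_mul, map_mul, map_mul]
    congr 2
    have e : Pool.Agent.W574.SM.translate P (MvPolynomial.X j : MP) = MvPolynomial.X j + MvPolynomial.C (P j) := by
      simp [Pool.Agent.W574.SM.translate]
    rw [e, map_add, MvPolynomial.pderiv_C, add_zero, MvPolynomial.pderiv_X]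
    by_cases hij : j = i
    · subst hij
      simp
    · simp [Pi.single_apply, hij, Ne.symm hij]

theorem translate_ne {P : Fin 2 → ℂ} {q : MP} (hq : q ≠ 0) : translate P q ≠ 0 := by
  intro h0
  apply hq
  have h1 : Pool.Agent.W574.SM.translate (-P) (Pool.Agent.W574.SM.translate P q) = q := by
    have h2 : (Pool.Agent.W574.SM.translate (-P)).comp (Pool.Agent.W574.SM.translate P)
        = AlgHom.id ℂ MP := by
      apply MvPolynomial.algHom_ext
      intro i
      simp [Pool.Agent.W574.SM.translate]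
    exact congrArg (fun φ : MP →ₐ[ℂ] MP => φ q) h2
  rw [← h1, h0, map_zero]

end Trans

section Roots

variable {κ : Type} [Fintype κ] [DecidableEq κ]
variable {h : MP} {f : Option κ → MP} {a : ℕ}
variable {b : ℂ[X]} {H : MvPolynomial (Fin 2 ⊕ κ) ℂ}

theorem h_ne (hF : FF h f a ≠ 0) : h ≠ 0 := by
  rintro rfl
  apply hF
  rw [FF, map_zero, zero_mul]

/-- the root of the hypersurface -/
theorem root_a (hb : HEq H (FF h f a) b) (hF : FF h f a ≠ 0)
    (hH : ∀ x, MvPolynomial.eval x H ≠ 0) (ha : 1 ≤ a) (j : κ) (hj : f (some j) ≠ 0) :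
    b.eval (-1 / (a : ℂ)) = 0 := by
  obtain ⟨Pt, hPt⟩ : ∃ Pt, MvPolynomial.eval Pt (f (some j)) ≠ 0 := by
    by_contra hcon
    push Not at hcon
    exact hj (MvPolynomial.funext fun x => by rw [hcon, map_zero])
  set s : ℂ := -MvPolynomial.eval Pt (f none) / MvPolynomial.eval Pt (f (some j)) with hs
  refine typeH_root hb hF (hH _) ha (geomInit h f a (Pi.single j s) Pt) 1 one_ne_zero
    (translate_ne (h_ne hF)) (fun i => translate Pt (fc (Pi.single j s) f i))
    (fun i => (one_mul _).symm) ?_ j ?_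
  · rw [cc_translate, fc_none, map_add, map_sum, Finset.sum_eq_single j]
    · rw [map_mul, MvPolynomial.eval_C, Pi.single_eq_same, hs, div_mul_cancel₀ _ hPt,
        add_neg_cancel]
    · intro i _ hi
      rw [Pi.single_eq_of_ne hi, map_zero, zero_mul, map_zero]
    · intro h
      exact absurd (Finset.mem_univ j) h
  · rw [cc_translate]
    exact hPt

theorem root_curve_aux {c : κ → ℂ} {Pt : Fin 2 → ℂ} (hb : HEq H (FF h f a) b)
    (hF : FF h f a ≠ 0) (hH : ∀ x, MvPolynomial.eval x H ≠ 0) {h' : MP} {g : Option κ → MP}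
    (G : GeomD h f a c Pt h' g 0 1 0 1) (mh mg : ℕ) (hm : 1 ≤ mh + a * mg) (q kh : MP)
    (k : Option κ → MP) (hh : h' = q ^ mh * kh) (hg : ∀ j, g j = q ^ mg * k j)
    (h0 : MvPolynomial.constantCoeff q = 0) (i : Fin 2)
    (h1 : MvPolynomial.constantCoeff (MvPolynomial.pderiv i q) ≠ 0)
    (hkh : MvPolynomial.constantCoeff kh ≠ 0) (j : Option κ)
    (hj : MvPolynomial.constantCoeff (k j) ≠ 0) : b.eval (-1 / ((mh + a * mg : ℕ) : ℂ)) = 0 := by
  have hii : i = 0 ∨ i = 1 := by omega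
  rcases hii with rfl | rfl
  · refine curve_rootA hb hF (hH _) G.swap mh mg hm (sw q) (sw kh) (fun i => sw (k i)) ?_ ?_ ?_ ?_
      ?_ j ?_
    · rw [hh, map_mul, map_pow]
    · intro i
      rw [hg, map_mul, map_pow]
    · rw [cc_sw, h0]
    · rw [(pderiv_sw _).2, cc_sw]
      exact h1
    · rw [cc_sw]
      exact hkh
    · rw [cc_sw]
      exact hj
  · exact curve_rootA hb hF (hH _) G mh mg hm q kh k hh hg h0 h1 hkh j hj

/-- the roots of the curves -/
theorem root_curve (hb : HEq H (FF h f a) b) (hF : FF h f a ≠ 0)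
    (hH : ∀ x, MvPolynomial.eval x H ≠ 0) (q : MP) (m : ℕ) (hC : IsCurveA h f a q m) :
    b.eval (-1 / (m : ℂ)) = 0 := by
  obtain ⟨hirr, hm, mh, mg, kh, k, hmm, hh, hkh, hk, j, hj⟩ := hC
  obtain ⟨i, hi⟩ := exists_not_dvd q hirr
  have hp : Prime q := hirr.prime
  have hD : ¬ q ∣ MvPolynomial.pderiv i q * kh * k j := fun hd =>
    (hp.dvd_or_dvd hd).elim (fun hd => (hp.dvd_or_dvd hd).elim hi hkh) hj
  obtain ⟨P, hP1, hP2⟩ := exists_point q _ hp hD
  rw [map_mul, map_mul] at hP2
  have g1 := right_ne_zero_of_mul hP2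
  have g0 := right_ne_zero_of_mul (left_ne_zero_of_mul hP2)
  have gi := left_ne_zero_of_mul (left_ne_zero_of_mul hP2)
  have G := geomInit h f a 0 P
  rw [fc_translate] at G
  have eh : translate P h = translate P q ^ mh * translate P kh := by
    rw [hh, map_mul, map_pow]
  have ek0 : ∀ i, (fun i => translate P (f i)) i
      = translate P q ^ mg * (fun i => translate P (k i)) i := by
    intro i
    show translate P (f i) = _
    rw [hk, map_mul, map_pow]
  have ek : ∀ i, fc 0 (fun i => translate P (f i)) i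
      = translate P q ^ mg * fc 0 (fun i => translate P (k i)) i := by
    intro i
    exact fc_mul (AlgHom.id ℂ MP) 0 (fun i => translate P (f i)) (fun i => translate P (k i))
      (translate P q ^ mg) ek0 i
  have ekj : MvPolynomial.constantCoeff (fc 0 (fun i => translate P (k i)) j) ≠ 0 := by
    rcases j with _ | j
    · rw [cc_fc, cc_translate]
      simpa using g1
    · show MvPolynomial.constantCoeff (translate P (k (some j))) ≠ 0
      rw [cc_translate]
      exact g1
  have hq0 : MvPolynomial.constantCoeff (translate P q) = 0 := by rw [cc_translate, hP1]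
  have hqi : MvPolynomial.constantCoeff (MvPolynomial.pderiv i (translate P q)) ≠ 0 := by
    rw [pderiv_translate, cc_translate]
    exact gi
  have hkh' : MvPolynomial.constantCoeff (translate P kh) ≠ 0 := by
    rw [cc_translate]
    exact g0
  rw [hmm] at hm ⊢
  exact root_curve_aux hb hF hH G mh mg hm _ _ _ eh ek hq0 i hqi hkh' j ekj

end Roots

section Mot

variable {M : Type} [CommRing M] (L : Mˣ)
variable {κ : Type}

theorem Phi_bf (a : ℕ) (t : Bool) :
    Phi L (fibreFactor (mf LL) (PowerSeries.C ((LL : AAˣ) : AA)) a t)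
      = fibreFactor (mf L) (PowerSeries.C (L : M)) a t := by
  rcases t with _ | _
  · show Phi L (PowerSeries.C ((LL : AAˣ) : AA)) = PowerSeries.C (L : M)
    rw [Phi_C, phi_LL]
  · show Phi L (mf LL a 1 + (PowerSeries.C ((LL : AAˣ) : AA) - 1)) = mf L a 1 +
      (PowerSeries.C (L : M) - 1)
    rw [map_add, map_sub, Phi_C, phi_LL, Phi_mf, map_one]

/-- the contribution of a fibre comes from the ring `ℤ[L, L⁻¹]` -/
theorem exists_univG {a : ℕ} {h : MP} {g : Option κ → MP} {a0 n0 a1 n1 : ℕ} {Z : PowerSeries M}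
    (hZ : FibreZeta (mf L) (PowerSeries.C (L : M)) a h g a0 n0 a1 n1 Z) :
    ∃ Z0 : PowerSeries AA,
      FibreZeta (mf LL) (PowerSeries.C ((LL : AAˣ) : AA)) a h g a0 n0 a1 n1 Z0 ∧ Phi L Z0 = Z := by
  classical
  induction hZ with
  | unit h g a0 n0 a1 n1 hh t ht =>
    exact ⟨_, FibreZeta.unit h g a0 n0 a1 n1 hh t ht, by
      rw [map_mul, map_mul, Phi_mf, Phi_mf, Phi_bf]⟩
  | curveV h g a0 n0 mh mg hm q kh k hh hg h0 h1 hkh t ht =>
    exact ⟨_, FibreZeta.curveV h g a0 n0 mh mg hm q kh k hh hg h0 h1 hkh t ht, by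
      rw [map_mul, map_mul, Phi_mf, Phi_mf, Phi_bf]⟩
  | curveU h g a1 n1 mh mg hm q kh k hh hg h0 h1 hkh t ht =>
    exact ⟨_, FibreZeta.curveU h g a1 n1 mh mg hm q kh k hh hg h0 h1 hkh t ht, by
      rw [map_mul, map_mul, Phi_mf, Phi_mf, Phi_bf]⟩
  | blowup h g a0 n0 a1 n1 mh mg hm hc gc hI gI hhc hgc hhI hgI S h0S t hS Zc ZI hz0 hcS hZI
      ih0 ihc ihI =>
    obtain ⟨Y0, hY0, e0⟩ := ih0
    obtain ⟨YI, hYI, eI⟩ := ihI
    have hch : ∀ c : ℂ, ∃ Y : PowerSeries AA, (c ∈ S → c ≠ 0 →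
        FibreZeta (mf LL) (PowerSeries.C ((LL : AAˣ) : AA)) a (hc c) (gc c)
          (a0 + a1 + (mh + a * mg)) (n0 + n1) 0 1 Y ∧ Phi L Y = Zc c) := by
      intro c
      by_cases hcS : c ∈ S ∧ c ≠ 0
      · obtain ⟨Y, hY, e⟩ := ihc c hcS.1 hcS.2
        exact ⟨Y, fun _ _ => ⟨hY, e⟩⟩
      · exact ⟨0, fun h1 h2 => absurd ⟨h1, h2⟩ hcS⟩
    choose Y hY using hch
    let Yc : ℂ → PowerSeries AA := fun c => if c = 0 then Y0 else Y c
    have hYc : ∀ c ∈ S, Phi L (Yc c) = Zc c := by
      intro c hcS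
      by_cases h : c = 0
      · simp only [Yc, if_pos h]
        rw [h]
        exact e0
      · simp only [Yc, if_neg h]
        exact (hY c hcS h).2
    refine ⟨_, FibreZeta.blowup h g a0 n0 a1 n1 mh mg hm hc gc hI gI hhc hgc hhI hgI S h0S t hS Yc
      YI ?_ ?_ hYI, ?_⟩
    · simp only [Yc, if_pos]
      exact hY0
    · intro c hcS h
      simp only [Yc, if_neg h]
      exact (hY c hcS h).1
    · rw [map_add, map_add, map_sum, eI, Finset.sum_congr rfl hYc, map_mul, map_mul, Phi_mf,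
        Phi_bf, map_sub, Phi_C, phi_LL, map_natCast]

theorem mem_allG {a : ℕ} {h : MP} {g : Option κ → MP} {a0 n0 a1 n1 : ℕ} {Z : PowerSeries M}
    (hZ : FibreZeta (mf L) (PowerSeries.C (L : M)) a h g a0 n0 a1 n1 Z) (hn0 : 1 ≤ n0)
    (hn1 : 1 ≤ n1) : Z ∈ DenRing L (fun _ _ => True) := by
  classical
  have hmf : ∀ {a n : ℕ}, 1 ≤ n → mf L a n ∈ DenRing L (fun _ _ => True) :=
    fun hn => mf_mem hn fun _ => trivial
  have htf : ∀ (a : ℕ) (t : Bool), fibreFactor (mf L) (PowerSeries.C (L : M)) a t ∈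
      DenRing L (fun _ _ => True) := by
    intro a t
    rcases t with _ | _
    · exact C_mem _
    · exact Subring.add_mem _ (hmf le_rfl) (Subring.sub_mem _ (C_mem _) (Subring.one_mem _))
  induction hZ with
  | unit h g a0 n0 a1 n1 hh t ht =>
    exact Subring.mul_mem _ (Subring.mul_mem _ (hmf hn0) (hmf hn1)) (htf _ _)
  | curveV h g a0 n0 mh mg hm q kh k hh hg h0 h1 hkh t ht =>
    exact Subring.mul_mem _ (Subring.mul_mem _ (hmf hn0) (hmf le_rfl)) (htf _ _)
  | curveU h g a1 n1 mh mg hm q kh k hh hg h0 h1 hkh t ht =>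
    exact Subring.mul_mem _ (Subring.mul_mem _ (hmf hn1) (hmf le_rfl)) (htf _ _)
  | blowup h g a0 n0 a1 n1 mh mg hm hc gc hI gI hhc hgc hhI hgI S h0S t hS Zc ZI hz0 hcS hZI
      ih0 ihc ihI =>
    refine Subring.add_mem _ (Subring.add_mem _ (ihI hn0 (by omega)) ?_)
      (Subring.mul_mem _ (Subring.sub_mem _ (C_mem _) (natCast_mem _ _))
        (Subring.mul_mem _ (hmf (by omega)) (htf _ _)))
    refine Subring.sum_mem _ fun c hcS => ?_
    by_cases h : c = 0
    · rw [h]
      exact ih0 (by omega) hn1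
    · exact ihc c hcS h (by omega) le_rfl

variable [Fintype κ] [DecidableEq κ]
variable {h : MP} {f : Option κ → MP} {a : ℕ} {Pt : Fin 2 → ℂ}
variable {b : ℂ[X]} {H : MvPolynomial (Fin 2 ⊕ κ) ℂ}

/-- **The denominators of the contribution of a fibre** belong to roots of `b`. -/
theorem fibre_mot (hb : HEq H (FF h f a) b) (hF : FF h f a ≠ 0)
    (hH : ∀ x, MvPolynomial.eval x H ≠ 0) (ha : 1 ≤ a) (hra : b.eval (-1 / (a : ℂ)) = 0)
    (Z : PowerSeries M) (hZ : FibreZeta (mf L) (PowerSeries.C (L : M)) a (translate Pt h)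
      (fun j => translate Pt (f j)) 0 1 0 1 Z) : Z ∈ DenRing L (Kb b) := by
  classical
  obtain ⟨Z0, hZ0, rfl⟩ := exists_univG L hZ
  apply Phi_mem
  obtain ⟨s, hs, Q, hQ⟩ := exists_denom (mem_allG LL hZ0 le_rfl le_rfl)
  refine descent (Kb b) Z0 s (fun p hp => ⟨(hs p hp).1, (hs p hp).2.1⟩) ?_ Q hQ
  intro a' n ha' hn hne
  have hac : (a' : ℂ) ≠ 0 := Nat.cast_ne_zero.2 (by omega)
  have h2 := fibre_reg hb hF hH ha hne (ne_of_root hne ha hra) (zdata_mot LL (-(n : ℂ) / a')) hZ0
  refine Subring.closure_mono (Set.union_subset_union_right _ ?_) h2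
  rintro u ⟨a1, n1, ha1, hn1, hK, hu⟩
  refine ⟨a1, n1, ha1, hn1, ?_, hu⟩
  intro h3
  apply hK
  have h4 : (n : ℂ) * a1 = n1 * a' := by exact_mod_cast h3
  field_simp
  linear_combination -h4

/-- **The denominators of the global motivic zeta function** belong to roots of `b`. -/
theorem global_mot (h : MP) (f : Option κ → MP) (a : ℕ) (hF : FF h f a ≠ 0) (ha : 1 ≤ a)
    (hf : ∃ j : κ, f (some j) ≠ 0) (b : ℂ[X]) (hb : IsBFunction (FF h f a) b) (Z : PowerSeries M)
    (hZ : GlobZeta L h f a Z) : Z ∈ DenRing L (Kb b) := by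
  have hb' := heq_of_bfun _ b hb
  have hH : ∀ x, MvPolynomial.eval x (1 : MvPolynomial (Fin 2 ⊕ κ) ℂ) ≠ 0 := fun x => by
    rw [map_one]
    exact one_ne_zero
  obtain ⟨j, hj⟩ := hf
  have hra := root_a hb' hF hH ha j hj
  have hbf : ∀ t, fibreFactor (mf L) (PowerSeries.C (L : M)) a t ∈ DenRing L (Kb b) := by
    intro t
    rcases t with _ | _
    · exact C_mem _
    · refine Subring.add_mem _ (mf_mem le_rfl fun _ => ?_)
        (Subring.sub_mem _ (C_mem _) (Subring.one_mem _))
      rw [Kb, Nat.cast_one]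
      exact hra
  obtain ⟨u, r, q, m, w, S, ZP, hC, hP, -, rfl⟩ := hZ
  refine Subring.add_mem _ (Subring.add_mem _ (Subring.sum_mem _ fun t _ =>
    Subring.mul_mem _ (C_mem _) (hbf t)) (Subring.sum_mem _ fun i _ => Subring.sum_mem _ fun t _ =>
      Subring.mul_mem _ (C_mem _) (Subring.mul_mem _ (mf_mem le_rfl fun _ => ?_) (hbf t))))
    (Subring.sum_mem _ fun P hPS => fibre_mot L hb' hF hH ha hra (ZP P) (hP P hPS))
  rw [Kb, Nat.cast_one]
  exact root_curve hb' hF hH (q i) (m i) (hC i)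

end Mot

end Pool.Agent.N103
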