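import Pool.Agent.W574.SM.ZetaDefs

set_option autoImplicit false

/-! # Zeta functions of polynomials of degree at most one in all but two variables

Let `F = h(x) (f₀(x) + ∑ y_j f_j(x)) ^ a` with polynomials `h`, `f_j` in two variables
`x = (x₁, x₂)`, and further variables `y_j`. A log resolution of `F` is obtained as follows: blow
up points of the plane until the pull-back of the ideal `h (f₀, f₁, …)` is locally principal and
monomial in coordinates of the surface `X'`. On `X' × ℂ^κ`, near a point `(Q, y)`, the divisor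
of `F` is the sum of a divisor with normal crossings, which comes from `X'`, and of `a` times the
hypersurface `g₀ + ∑ y_j g_j = 0`, where `(g₀, g₁, …)` is the unit ideal near `Q` (the `f_j` divided
by their common factor). This hypersurface is smooth, and transversal to the other divisors. -/

namespace Pool.Agent.N103

open MvPolynomial Pool.Agent.W574.SM

section Poly

variable {κ : Type} [Fintype κ]

/-- `f₀(x) + ∑ y_j f_j(x)` -/
noncomputable def lin (f : Option κ → MvPolynomial (Fin 2) ℂ) : MvPolynomial (Fin 2 ⊕ κ) ℂ :=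
  rename Sum.inl (f none) + ∑ j, X (Sum.inr j) * rename Sum.inl (f (some j))

/-- `h(x) (f₀(x) + ∑ y_j f_j(x)) ^ a` -/
noncomputable def FF (h : MvPolynomial (Fin 2) ℂ) (f : Option κ → MvPolynomial (Fin 2) ℂ)
    (a : ℕ) : MvPolynomial (Fin 2 ⊕ κ) ℂ :=
  rename Sum.inl h * lin f ^ a

/-- The coefficients after the translation `y ↦ y + c`:
`f₀ + ∑ (y_j + c_j) f_j = (f₀ + ∑ c_j f_j) + ∑ y_j f_j`. -/
noncomputable def fc (c : κ → ℂ) (f : Option κ → MvPolynomial (Fin 2) ℂ) :
    Option κ → MvPolynomial (Fin 2) ℂ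
  | none => f none + ∑ j, C (c j) * f (some j)
  | some j => f (some j)

end Poly

section Zeta

variable {κ R : Type} [CommRing R]

/-- The position of the hypersurface `g₀ + ∑ y_j g_j = 0` at the origin (of the coordinates `u, v`
of the surface and the `y_j`): it does not contain the origin (`t = false`), or it contains the
origin, and some `g_j`, `j ≠ 0`, does not vanish there, so that it is smooth and transversal to
`u = 0` and `v = 0` (`t = true`). -/
def HasType (g : Option κ → MvPolynomial (Fin 2) ℂ) : Bool → Prop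
  | false => constantCoeff (g none) ≠ 0
  | true => constantCoeff (g none) = 0 ∧ ∃ j, constantCoeff (g (some j)) ≠ 0

/-- The factor of the hypersurface `g₀ + ∑ y_j g_j = 0` of multiplicity `a`. -/
def typeFactor (Φ : ℕ → ℕ → R) (a : ℕ) : Bool → R
  | false => 1
  | true => Φ a 1

/-- `GermZeta Φ ℓ a h g a₀ n₀ a₁ n₁ Z`: the origin of the plane, with the coordinates `u = X 0` and
`v = X 1`, is a point of a partial resolution, near which the polynomial is
`u ^ a₀ v ^ a₁ h (g₀ + ∑ y_j g_j) ^ a` and the canonical divisor is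
`(n₀ - 1) [u = 0] + (n₁ - 1) [v = 0]`. (So `(a_i, n_i)` are the numerical data `(N_E, ν_E)` of
the exceptional curve `u = 0` resp. `v = 0`, and `(a_i, n_i) = (0, 1)` if there is no
exceptional curve.) `Z` is the contribution of the point `(u, v, y) = 0` to the zeta function: the
sum `∑_I [E_I° ∩ π⁻¹(0)] ∏_{i ∈ I} Φ(N_i, ν_i)` over the strata of a log resolution `π`, where
`Φ(N, ν)` is the local factor of a divisor with the numerical data `(N, ν)`, and `[·]` is the
class (or the Euler characteristic), `ℓ` being the class of the affine line. The rules are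

* `unit`: `h` does not vanish at the origin, and `g₀ + ∑ y_j g_j = 0` is as in `HasType`;
* `curveV`, `curveU`: near the origin, `h = q ^ mh kh` and `g_j = q ^ mg k_j` with the equation `q`
  of a curve which is smooth at the origin and transversal to the exceptional curve `u = 0` (resp.
  `v = 0`), the only one through the origin (if any), a unit `kh`, and `k₀ + ∑ y_j k_j = 0` is as
  in `HasType`;
* `blowup`: the origin of the plane is blown up. The numbers `mh` and `mg` are the multiplicities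
  of `h` and of the ideal `(g₀, g₁, …)`, the new exceptional curve `E` has
  `N_E = a₀ + a₁ + (mh + a mg)` and `ν_E = n₀ + n₁`, and `hc c`, `gc c` and `hI`, `gI` are the
  transforms at the points of `E` (the directions `v = c u` and `u = 0`). At the points `c ∉ S` the
  transform of `h` is a unit and `HasType` holds, with the same `t`; the set of these points has
  the class `ℓ - |S|`. -/
inductive GermZeta (Φ : ℕ → ℕ → R) (ℓ : R) (a : ℕ) :
    MvPolynomial (Fin 2) ℂ → (Option κ → MvPolynomial (Fin 2) ℂ) → ℕ → ℕ → ℕ → ℕ → R → Prop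
  | unit (h : MvPolynomial (Fin 2) ℂ) (g : Option κ → MvPolynomial (Fin 2) ℂ) (a₀ n₀ a₁ n₁ : ℕ)
      (hh : constantCoeff h ≠ 0) (t : Bool) (ht : HasType g t) :
      GermZeta Φ ℓ a h g a₀ n₀ a₁ n₁ (Φ a₀ n₀ * Φ a₁ n₁ * typeFactor Φ a t)
  | curveV (h : MvPolynomial (Fin 2) ℂ) (g : Option κ → MvPolynomial (Fin 2) ℂ) (a₀ n₀ mh mg : ℕ)
      (hm : 1 ≤ mh + a * mg) (q kh : MvPolynomial (Fin 2) ℂ)
      (k : Option κ → MvPolynomial (Fin 2) ℂ) (hh : h = q ^ mh * kh)
      (hg : ∀ j, g j = q ^ mg * k j) (h0 : constantCoeff q = 0)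
      (h1 : constantCoeff (pderiv 1 q) ≠ 0) (hkh : constantCoeff kh ≠ 0) (t : Bool)
      (ht : HasType k t) :
      GermZeta Φ ℓ a h g a₀ n₀ 0 1 (Φ a₀ n₀ * Φ (mh + a * mg) 1 * typeFactor Φ a t)
  | curveU (h : MvPolynomial (Fin 2) ℂ) (g : Option κ → MvPolynomial (Fin 2) ℂ) (a₁ n₁ mh mg : ℕ)
      (hm : 1 ≤ mh + a * mg) (q kh : MvPolynomial (Fin 2) ℂ)
      (k : Option κ → MvPolynomial (Fin 2) ℂ) (hh : h = q ^ mh * kh)
      (hg : ∀ j, g j = q ^ mg * k j) (h0 : constantCoeff q = 0)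
      (h1 : constantCoeff (pderiv 0 q) ≠ 0) (hkh : constantCoeff kh ≠ 0) (t : Bool)
      (ht : HasType k t) :
      GermZeta Φ ℓ a h g 0 1 a₁ n₁ (Φ a₁ n₁ * Φ (mh + a * mg) 1 * typeFactor Φ a t)
  | blowup (h : MvPolynomial (Fin 2) ℂ) (g : Option κ → MvPolynomial (Fin 2) ℂ)
      (a₀ n₀ a₁ n₁ mh mg : ℕ) (hm : 1 ≤ mh + a * mg)
      (hc : ℂ → MvPolynomial (Fin 2) ℂ) (gc : ℂ → Option κ → MvPolynomial (Fin 2) ℂ)
      (hI : MvPolynomial (Fin 2) ℂ) (gI : Option κ → MvPolynomial (Fin 2) ℂ)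
      (hhc : ∀ c, aeval (chart c) h = X 0 ^ mh * hc c)
      (hgc : ∀ c j, aeval (chart c) (g j) = X 0 ^ mg * gc c j)
      (hhI : aeval chartI h = X 1 ^ mh * hI)
      (hgI : ∀ j, aeval chartI (g j) = X 1 ^ mg * gI j)
      (S : Finset ℂ) (h0S : 0 ∈ S) (t : Bool)
      (hS : ∀ c ∉ S, constantCoeff (hc c) ≠ 0 ∧ HasType (gc c) t)
      (Zc : ℂ → R) (ZI : R)
      (h0 : GermZeta Φ ℓ a (hc 0) (gc 0) (a₀ + a₁ + (mh + a * mg)) (n₀ + n₁) a₁ n₁ (Zc 0))
      (hcS : ∀ c ∈ S, c ≠ 0 →
        GermZeta Φ ℓ a (hc c) (gc c) (a₀ + a₁ + (mh + a * mg)) (n₀ + n₁) 0 1 (Zc c))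
      (hZI : GermZeta Φ ℓ a hI gI a₀ n₀ (a₀ + a₁ + (mh + a * mg)) (n₀ + n₁) ZI) :
      GermZeta Φ ℓ a h g a₀ n₀ a₁ n₁ (ZI + ∑ c ∈ S, Zc c +
        (ℓ - (S.card : R)) * (Φ (a₀ + a₁ + (mh + a * mg)) (n₀ + n₁) * typeFactor Φ a t))

/-- `Z` is the contribution of the point `(P, c)` to the zeta function of
`F = h(x) (f₀(x) + ∑ y_j f_j(x)) ^ a`. -/
def PointZeta [Fintype κ] (Φ : ℕ → ℕ → R) (ℓ : R) (h : MvPolynomial (Fin 2) ℂ)
    (f : Option κ → MvPolynomial (Fin 2) ℂ) (a : ℕ) (P : Fin 2 → ℂ) (c : κ → ℂ) (Z : R) : Prop :=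
  GermZeta Φ ℓ a (translate P h) (fun j => translate P (fc c f j)) 0 1 0 1 Z

end Zeta

end Pool.Agent.N103
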