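import Pool.Agent.R852.MC.Defs
import Pool.Agent.N103.ZDefs

set_option autoImplicit false

/-! # Germs of ideals with the polynomials `h(x) (f₀ + ∑ y_j f_j) ^ a` -/

namespace Pool.Agent.N103

open MvPolynomial Pool.Agent.W574.SM Pool.Agent.W574.MO Pool.Agent.W574.CN Pool.Agent.W574.RO
open Pool.Agent.Y229 Pool.Agent.R852.TP

variable {M : Type} [CommRing M]

/-- `GermLin L A Z`: the ideal `I` generated by the family `A` is in the least class with the
following properties, and `Z` is its local motivic zeta function at the origin, normalized such that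
the arcs with the origin `0` have the volume `1`. -/
inductive GermLin (L : Mˣ) : Fam → PowerSeries M → Prop
  /-- the germs in `Germ`: the unit ideal, powers of a variable, ideals of `ℂ[x, y]`, ideals of
  `ℂ[x₀, x₁, x₂]` generated by forms of the same degree, ideals generated by forms of the same degree
  without a common zero outside the origin, and their sums and products -/
  | germ (A : Fam) (Z : PowerSeries M) (h : Germ L A Z) : GermLin L A Z
  /-- the principal ideal generated by `h(x₁, x₂) (f₀(x₁, x₂) + ∑ y_j f_j(x₁, x₂)) ^ a ≠ 0`, with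
  arbitrary polynomials `h`, `f₀`, `f_j` and further variables `y_j` -/
  | lin (κ : Type) [Fintype κ] (h : MvPolynomial (Fin 2) ℂ)
      (f : Option κ → MvPolynomial (Fin 2) ℂ) (a : ℕ) (ha : 1 ≤ a) (hF : FF h f a ≠ 0)
      (Z : PowerSeries M) (hZ : PointZeta (mf L) (PowerSeries.C (L : M)) h f a 0 0 Z) :
      GermLin L ⟨Fin 2 ⊕ κ, Fin 1, fun _ => FF h f a⟩ Z
  /-- the sum of two ideals in disjoint sets of variables: the order is the minimum of the orders -/
  | sum (A B : Fam) (Z W : PowerSeries M) (hA : GermLin L A Z) (hB : GermLin L B W) :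
      GermLin L (A.sum B) (sumSeries Z W)
  /-- the product of two ideals in disjoint sets of variables: the orders are added -/
  | mul (A B : Fam) (Z W : PowerSeries M) (hA : GermLin L A Z) (hB : GermLin L B W) :
      GermLin L (A.mul B) (Z * W)
  /-- the germ of the hypersurface `h(x) ∏_t (∑_j y_{t, j} f_{t, j}(x)) ^ a_t = 0`, if the germ of the
  ideal `h ∏_t (f_{t, j})_j ^ a_t` is in the class -/
  | form (σ τ : Type) [Fintype τ] [DecidableEq τ] [Nonempty τ] (κ : τ → Type)
      [∀ t, Fintype (κ t)] (a : τ → ℕ) (ha : ∀ t, 0 < a t) (h : MvPolynomial σ ℂ)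
      (f : (t : τ) → κ t → MvPolynomial σ ℂ) (Z : PowerSeries M)
      (hA : GermLin L (genFam a h f) Z) :
      GermLin L (formFam a h f) (Z * ∏ t, mf L (a t) 1)
  /-- the powers of a principal ideal: the orders are multiplied by `k` -/
  | pow (σ : Type) (g : MvPolynomial σ ℂ) (k : ℕ) (hk : k ≠ 0) (Z : PowerSeries M)
      (hA : GermLin L ⟨σ, Fin 1, fun _ => g⟩ Z) :
      GermLin L ⟨σ, Fin 1, fun _ => g ^ k⟩ (PowerSeries.expand k hk Z)
  /-- the variables and the generators may be indexed differently -/
  | equiv (A B : Fam) (i : A.σ ≃ B.σ) (k : A.ι ≃ B.ι) (h : ∀ j, B.f (k j) = rename i (A.f j))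
      (Z : PowerSeries M) (hA : GermLin L A Z) : GermLin L B Z

end Pool.Agent.N103
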