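import Pool.Agent.R852.MC.Fin
import Pool.Agent.N103.Main
import Pool.Agent.N103.MDefs

set_option autoImplicit false
set_option linter.unusedSectionVars false
set_option linter.unusedVariables false
set_option linter.unusedSimpArgs false

/-! # Local motivic zeta functions of ideals: the closed class with `h (f₀ + ∑ y_j f_j) ^ a` -/

namespace Pool.Agent.N103

open MvPolynomial Pool.Agent.W574.MO Pool.Agent.W574.SM Pool.Agent.W574.LM Pool.Agent.W574.HS
  Pool.Agent.W574.CN Pool.Agent.Y229 Pool.Agent.R852.TP Pool.Agent.R852.TL Pool.Agent.R852.MC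
open Pool.Agent.W574.RO hiding FF
open Pool.Agent.R852.PP (cntR one_le_cntR)
open Pool.Agent.Y230.PS (FM single_of_isB)
open Pool.Agent.Y230.TH (fm_one)
open Pool.Agent.H628R4.TP (IsBFunction IsLocalBFunction)

theorem heq_of_locEq {σ : Type} (F H : MvPolynomial σ ℂ) (b : Polynomial ℂ)
    (h : IsLocEq H (fun _ : Fin 1 => F) b) : HEq H F b := by
  classical
  obtain ⟨L, m, Q, hQ⟩ := single_eq F H b h
  refine ⟨∑ i, Finsupp.single (m i) ⟨(Q i).1, (Q i).2⟩, fun s => ?_⟩
  rw [hQ s, ← Finsupp.sum_finsetSum_index]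
  · refine Finset.sum_congr rfl fun i _ => ?_
    rw [Finsupp.sum_single_index]
    exact smul_zero _
  · intro a
    exact smul_zero _
  · intro a A B
    rw [← smul_add]
    rfl

section Val

variable {κ : Type}

theorem val_tf (a : ℕ) (t : Bool) : Val (typeFactor (mf LL) a t) 1 := by
  rcases t with _ | _
  · have := val_C 1
    rwa [map_one, map_one] at this
  · have := val_mf a 1 le_rfl fun _ => rfl
    rwa [div_self (lf_ne 1 le_rfl)] at this

theorem val_localA {a : ℕ} {h : MP} {g : Option κ → MP} {a0 n0 a1 n1 : ℕ} {Z : PowerSeries AA}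
    (hZ : GermZeta (mf LL) (PowerSeries.C ((LL : AAˣ) : AA)) a h g a0 n0 a1 n1 Z)
    (hn0 : 1 ≤ n0) (hn1 : 1 ≤ n1) (hz0 : a0 = 0 → n0 = 1) (hz1 : a1 = 0 → n1 = 1) :
    Val Z ((lf 1 - 1) / (lf n0 - 1) * ((lf 1 - 1) / (lf n1 - 1))) := by
  classical
  induction hZ with
  | unit h g a0 n0 a1 n1 hh t ht =>
    have := ((val_mf a0 n0 hn0 hz0).mul (val_mf a1 n1 hn1 hz1)).mul (val_tf a t)
    rwa [mul_one] at this
  | curveV h g a0 n0 mh mg hm q kh k hh hg h0 h1 hkh t ht =>
    have := ((val_mf a0 n0 hn0 hz0).mul (val_mf (mh + a * mg) 1 le_rfl fun _ => rfl)).mul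
      (val_tf a t)
    rwa [mul_one] at this
  | curveU h g a1 n1 mh mg hm q kh k hh hg h0 h1 hkh t ht =>
    rw [mul_comm ((lf 1 - 1) / (lf 1 - 1))]
    have := ((val_mf a1 n1 hn1 hz1).mul (val_mf (mh + a * mg) 1 le_rfl fun _ => rfl)).mul
      (val_tf a t)
    rwa [mul_one] at this
  | blowup h g a0 n0 a1 n1 mh mg hm hc gc hI gI hhc hgc hhI hgI S h0S t hS Zc ZI hZ0 hcS hZI
      ih0 ihc ihI =>
    have hnn : 1 ≤ n0 + n1 := by omega
    have e0 := ih0 hnn hn1 (fun h => by omega) hz1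
    have eI := ihI hn0 hnn hz0 (fun h => by omega)
    set v : ℂ → Pool.Agent.W574.RO.FF := fun c => if c = 0 then (lf 1 - 1) / (lf (n0 + n1) - 1) *
      ((lf 1 - 1) / (lf n1 - 1)) else (lf 1 - 1) / (lf (n0 + n1) - 1) with hv
    have hsum := Val.sum S Zc v fun c hcS' => by
      by_cases h : c = 0
      · rw [hv]
        simp only [if_pos h]
        rw [h]
        exact e0
      · rw [hv]
        simp only [if_neg h]
        have := ihc c hcS' h hnn le_rfl (fun h => by omega) (fun _ => rfl)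
        rwa [div_self (lf_ne 1 le_rfl), mul_one] at this
    have hE := (val_C ((LL : AA) - (S.card : AA))).mul
      ((val_mf (a0 + a1 + (mh + a * mg)) (n0 + n1) hnn (fun h => by omega)).mul (val_tf a t))
    rw [map_sub, map_natCast] at hE
    have hall := (eI.add hsum).add hE
    convert hall using 1
    have h1 : ∑ c ∈ S, v c = (lf 1 - 1) / (lf (n0 + n1) - 1) * ((lf 1 - 1) / (lf n1 - 1)) +
        ((S.card : Pool.Agent.W574.RO.FF) - 1) * ((lf 1 - 1) / (lf (n0 + n1) - 1)) := by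
      rw [← Finset.add_sum_erase S v h0S]
      congr 1
      · rw [hv]
        simp only [if_true]
      · rw [Finset.sum_congr rfl (g := fun _ => (lf 1 - 1) / (lf (n0 + n1) - 1)) fun c hc => ?_]
        · rw [Finset.sum_const, Finset.card_erase_of_mem h0S, nsmul_eq_mul,
            Nat.cast_sub (Finset.card_pos.2 ⟨0, h0S⟩), Nat.cast_one]
        · rw [hv]
          simp only [if_neg (Finset.ne_of_mem_erase hc)]
    rw [h1, map_sub, map_natCast]
    have h3 : algebraMap AA Pool.Agent.W574.RO.FF (LL : AA) = lf 1 := by rw [lf, pow_one]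
    have g0 := lf_ne n0 hn0
    have g1 := lf_ne n1 hn1
    have g2 := lf_ne (n0 + n1) hnn
    rw [h3]
    have h4 := lf_mul n0 n1
    field_simp
    rw [h4]
    ring

end Val

section Point

variable {κ : Type} [Fintype κ] [DecidableEq κ]
variable {h : MP} {f : Option κ → MP} {a : ℕ} {c : κ → ℂ} {Pt : Fin 2 → ℂ}

theorem point_tail {M : Type} [CommRing M] (L : Mˣ) (hF : FF h f a ≠ 0) (ha : 1 ≤ a)
    (Z : PowerSeries M) (hZ : PointZeta (mf L) (PowerSeries.C (L : M)) h f a Pt c Z) :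
    tail 1 Z ∈ DenRing L (Pool.Agent.Y229.KL (fun _ : Fin 1 => FF h f a) (Sum.elim Pt c)) := by
  classical
  obtain ⟨Z0, hZ0, rfl⟩ := exists_univA L hZ
  rw [← Phi_tail]
  apply Phi_mem
  apply tail_mem_of_val
  · obtain ⟨s, hs, Q, hQ⟩ := exists_denom (mem_allA LL hZ0 le_rfl le_rfl)
    refine descent (Pool.Agent.Y229.KL (fun _ : Fin 1 => FF h f a) (Sum.elim Pt c)) Z0 s
      (fun p hp => ⟨(hs p hp).1, (hs p hp).2.1⟩) ?_ Q hQ
    intro a' n ha' hn hne
    have hac : (a' : ℂ) ≠ 0 := Nat.cast_ne_zero.2 (by omega)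
    obtain ⟨H, b, hb, hH, hbn⟩ : ∃ (H : MvPolynomial (Fin 2 ⊕ κ) ℂ) (b : Polynomial ℂ),
        IsLocEq H (fun _ : Fin 1 => FF h f a) b ∧ eval (Sum.elim Pt c) H ≠ 0 ∧
          b.eval (-(n : ℂ) / a') ≠ 0 := by
      by_contra h
      push Not at h
      exact hne h
    have h2 := point_reg (heq_of_locEq _ _ _ hb) hF hH ha hbn (zdata_mot LL (-(n : ℂ) / a')) hZ0
    refine Subring.closure_mono (Set.union_subset_union_right _ ?_) h2
    rintro u ⟨a1, n1, ha1, hn1, hK, hu⟩
    refine ⟨a1, n1, ha1, hn1, ?_, hu⟩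
    intro h3
    apply hK
    have h4 : (n : ℂ) * a1 = n1 * a' := by exact_mod_cast h3
    field_simp
    linear_combination -h4
  · have := val_localA hZ0 le_rfl le_rfl (fun _ => rfl) (fun _ => rfl)
    rwa [div_self (lf_ne 1 le_rfl), one_mul] at this

end Point

variable {M : Type} [CommRing M] {L : Mˣ}

/-- **Local motivic zeta functions.** -/
theorem germLin_main (A : Fam) (Z : PowerSeries M) (h : GermLin L A Z) :
    Finite A.σ ∧ (∃ j, A.f j ≠ 0) ∧ tail 1 Z ∈ DenRing L (KS A.f 0) := by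
  classical
  induction h with
  | germ A Z h => exact germ_main A Z h
  | lin κ h f a ha hF Z hZ =>
    refine ⟨inferInstanceAs (Finite (Fin 2 ⊕ κ)), ⟨(0 : Fin 1), hF⟩, ?_⟩
    have h1 := point_tail L hF ha Z hZ
    have h3 : (Sum.elim (0 : Fin 2 → ℂ) (0 : κ → ℂ)) = 0 := by
      funext x
      rcases x with x | x <;> rfl
    rw [h3] at h1
    exact denRing_mono (fun x n _ _ h => sf_of_local _ 0 _ h (exists_fe _ ⟨(0 : Fin 1), hF⟩)) h1
  | sum A B Z W hA hB ihA ihB =>
    obtain ⟨fA, hne, hZ⟩ := ihA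
    obtain ⟨fB, -, hW⟩ := ihB
    have := fA
    have := fB
    refine ⟨inferInstanceAs (Finite (A.σ ⊕ B.σ)), sum_ne hne, ?_⟩
    rw [tail_min]
    refine had_mem hZ hW fun a n a' n' l ha hn hK ha' hn' hK' hl hal hal' => ?_
    have h1 := sf_sum A.f B.f 0 0 _ _ hK hK'
    have h3 : (Sum.elim (0 : A.σ → ℂ) (0 : B.σ → ℂ)) = 0 := by
      funext x
      rcases x with x | x <;> rfl
    rw [add_frac ha ha' hl hal hal', h3] at h1
    exact h1
  | mul A B Z W hA hB ihA ihB =>
    obtain ⟨fA, hneA, hZ⟩ := ihA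
    obtain ⟨fB, hneB, hW⟩ := ihB
    have := fA
    have := fB
    have h3 : (Sum.elim (0 : A.σ → ℂ) (0 : B.σ → ℂ)) = 0 := by
      funext x
      rcases x with x | x <;> rfl
    refine ⟨inferInstanceAs (Finite (A.σ ⊕ B.σ)), mul_ne hneA hneB, ?_⟩
    refine tail_mul_mem (denRing_mono (fun a n _ _ h => ?_) hZ)
      (denRing_mono (fun a n _ _ h => ?_) hW)
    · have h1 := sf_mul A.f B.f 0 0 _ h hneB
      rw [h3] at h1
      exact h1
    · have h1 := sf_mul' A.f B.f 0 0 _ h hneA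
      rw [h3] at h1
      exact h1
  | form σ τ κ a ha h f Z hA ihA =>
    obtain ⟨fA, hne, hZ⟩ := ihA
    have hfin : Finite σ := fA
    have hF := form_ne' a h f ha hne
    have hfin' : Finite ((Σ t, κ t) ⊕ σ) := inferInstance
    have hFne : ∃ j, (formFam a h f).f j ≠ 0 := ⟨(0 : Fin 1), hF⟩
    refine ⟨hfin', hFne, tail_mul_mem (denRing_mono (fun x n _ _ h1 => ?_) hZ)
      (tail_prod_mem _ _ fun t _ => tail_mf_mem _ (ha t) ?_)⟩
    · exact sf_of_lm _ hFne _ _ (Nat.le_add_right _ _)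
        (lm_form a h f ha hne _ 1 (lm_of_sf _ _ h1))
    · have h2 := lm_form a h f ha hne (-((1 : ℕ) : ℂ) / a t) 0 (lm_zero _ _)
      refine sf_of_lm _ hFne _ _ ?_ h2
      rw [zero_add]
      exact one_le_cntR' a ha t _ (by push_cast; ring)
  | pow σ g k hk Z hA ihA =>
    obtain ⟨fA, ⟨j, hj⟩, hZ⟩ := ihA
    have hfin : Finite σ := fA
    have hg : g ≠ 0 := hj
    refine ⟨hfin, ⟨(0 : Fin 1), pow_ne_zero k hg⟩, tail_expand_mem k hk (fun a n ha hn h1 => ?_) _ hZ⟩
    refine sf_of_local _ 0 _ (fun H b hb hH => ?_) (exists_fe _ ⟨(0 : Fin 1), pow_ne_zero k hg⟩)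
    have h3 := SF.locEq h1 H _ (loc_shift g hg k 0 (Nat.pos_of_ne_zero hk) H b hb) hH
    rw [← exp_root k a n hk ha] at h3
    have h4 := root_of_shift b k 0 hk _ 0 h3
    rwa [Nat.cast_zero, zero_div, sub_zero] at h4
  | equiv A B i k h Z hA ihA =>
    obtain ⟨fA, ⟨j, hj⟩, hZ⟩ := ihA
    have := fA
    refine ⟨Finite.of_equiv _ i, ⟨k j, ?_⟩, denRing_mono (fun a n _ _ hS => ?_) hZ⟩
    · rw [h, Ne, map_eq_zero_iff _ (rename_injective _ i.injective)]
      exact hj
    · exact sf_equiv i k A.f B.f h 0 _ hS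

/-- ideals at the origin -/
theorem germLin_ideal (A : Fam) (Z : PowerSeries M) (h : GermLin L A Z) (c : M) :
    PowerSeries.C c * Z ∈ DenRing L (fun a n => ∀ b : Polynomial ℂ, IsLocalBI A.f b →
      b.eval (-(n : ℂ) / a) = 0) := by
  classical
  obtain ⟨hfin, -, hm⟩ := germLin_main A Z h
  have := hfin
  refine (DenRing L _).mul_mem (C_mem _) (denRing_mono (fun a n _ _ h b hb => ?_)
    (mem_of_tail hm))
  exact SF.localBI h b hb

end Pool.Agent.N103
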