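import Pool.Agent.R852.MC.Fin
import Pool.Agent.N103.GlF
import Pool.Agent.N103.GKDefs
import Pool.Agent.N103.MotCl

set_option autoImplicit false
set_option linter.unusedSectionVars false
set_option linter.unusedVariables false
set_option linter.unusedSimpArgs false

/-! # Global motivic zeta functions of ideals: the closed class with `h (f₀ + ∑ y_j f_j) ^ a` -/

namespace Pool.Agent.N103

open MvPolynomial Pool.Agent.W574.MO Pool.Agent.W574.SM Pool.Agent.W574.LM Pool.Agent.W574.HS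
  Pool.Agent.W574.CN Pool.Agent.Y229 Pool.Agent.R852.TP Pool.Agent.R852.TL Pool.Agent.R852.MC
open Pool.Agent.W574.RO hiding FF
open Pool.Agent.R852.PP (cntR one_le_cntR)
open Pool.Agent.Y230.PS (FM single_of_isB)
open Pool.Agent.Y230.TH (fm_one)
open Pool.Agent.H628R4.TP (IsBFunction IsLocalBFunction)

section Val

variable {κ : Type}

theorem val_LL : Val (PowerSeries.C ((LL : AAˣ) : AA)) (lf 1) := by
  have := val_C ((LL : AAˣ) : AA)
  have h3 : algebraMap AA Pool.Agent.W574.RO.FF (LL : AA) = lf 1 := by rw [lf, pow_one]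
  rwa [h3] at this

theorem val_bf (a : ℕ) (t : Bool) :
    Val (fibreFactor (mf LL) (PowerSeries.C ((LL : AAˣ) : AA)) a t) (lf 1) := by
  rcases t with _ | _
  · exact val_LL
  · have h1 := val_mf a 1 le_rfl fun _ => rfl
    rw [div_self (lf_ne 1 le_rfl)] at h1
    have h2 := val_C (-1 : AA)
    have h3 := h1.add (val_LL.add h2)
    rw [map_neg, map_neg, map_one, map_one] at h3
    have e1 : (1 + (lf 1 + -1) : Pool.Agent.W574.RO.FF) = lf 1 := by ring
    have e2 : fibreFactor (mf LL) (PowerSeries.C ((LL : AAˣ) : AA)) a true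
        = mf LL a 1 + (PowerSeries.C ((LL : AAˣ) : AA) + -1) := by
      rw [fibreFactor, sub_eq_add_neg]
    rw [e1] at h3
    rw [e2]
    exact h3

theorem val_fibre {a : ℕ} {h : MP} {g : Option κ → MP} {a0 n0 a1 n1 : ℕ} {Z : PowerSeries AA}
    (hZ : FibreZeta (mf LL) (PowerSeries.C ((LL : AAˣ) : AA)) a h g a0 n0 a1 n1 Z)
    (hn0 : 1 ≤ n0) (hn1 : 1 ≤ n1) (hz0 : a0 = 0 → n0 = 1) (hz1 : a1 = 0 → n1 = 1) :
    Val Z ((lf 1 - 1) / (lf n0 - 1) * ((lf 1 - 1) / (lf n1 - 1)) * lf 1) := by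
  classical
  induction hZ with
  | unit h g a0 n0 a1 n1 hh t ht =>
    exact ((val_mf a0 n0 hn0 hz0).mul (val_mf a1 n1 hn1 hz1)).mul (val_bf a t)
  | curveV h g a0 n0 mh mg hm q kh k hh hg h0 h1 hkh t ht =>
    exact ((val_mf a0 n0 hn0 hz0).mul (val_mf (mh + a * mg) 1 le_rfl fun _ => rfl)).mul
      (val_bf a t)
  | curveU h g a1 n1 mh mg hm q kh k hh hg h0 h1 hkh t ht =>
    rw [mul_comm ((lf 1 - 1) / (lf 1 - 1))]
    exact ((val_mf a1 n1 hn1 hz1).mul (val_mf (mh + a * mg) 1 le_rfl fun _ => rfl)).mul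
      (val_bf a t)
  | blowup h g a0 n0 a1 n1 mh mg hm hc gc hI gI hhc hgc hhI hgI S h0S t hS Zc ZI hZ0 hcS hZI
      ih0 ihc ihI =>
    have hnn : 1 ≤ n0 + n1 := by omega
    have e0 := ih0 hnn hn1 (fun h => by omega) hz1
    have eI := ihI hn0 hnn hz0 (fun h => by omega)
    set v : ℂ → Pool.Agent.W574.RO.FF := fun c => if c = 0 then (lf 1 - 1) / (lf (n0 + n1) - 1) *
      ((lf 1 - 1) / (lf n1 - 1)) * lf 1 else (lf 1 - 1) / (lf (n0 + n1) - 1) * lf 1 with hv
    have hsum := Val.sum S Zc v fun c hcS' => by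
      by_cases h : c = 0
      · rw [hv]
        simp only [if_pos h]
        rw [h]
        exact e0
      · rw [hv]
        simp only [if_neg h]
        have := ihc c hcS' h hnn le_rfl (fun h => by omega) (fun _ => rfl)
        rwa [div_self (lf_ne 1 le_rfl), mul_one] at this
    have hE := (val_C ((LL : AA) - (S.card : AA))).mul
      ((val_mf (a0 + a1 + (mh + a * mg)) (n0 + n1) hnn (fun h => by omega)).mul (val_bf a t))
    rw [map_sub, map_natCast] at hE
    have hall := (eI.add hsum).add hE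
    convert hall using 1
    have h1 : ∑ c ∈ S, v c = (lf 1 - 1) / (lf (n0 + n1) - 1) * ((lf 1 - 1) / (lf n1 - 1)) * lf 1 +
        ((S.card : Pool.Agent.W574.RO.FF) - 1) * ((lf 1 - 1) / (lf (n0 + n1) - 1) * lf 1) := by
      rw [← Finset.add_sum_erase S v h0S]
      congr 1
      · rw [hv]
        simp only [if_true]
      · rw [Finset.sum_congr rfl (g := fun _ => (lf 1 - 1) / (lf (n0 + n1) - 1) * lf 1)
          fun c hc => ?_]
        · rw [Finset.sum_const, Finset.card_erase_of_mem h0S, nsmul_eq_mul,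
            Nat.cast_sub (Finset.card_pos.2 ⟨0, h0S⟩), Nat.cast_one]
        · rw [hv]
          simp only [if_neg (Finset.ne_of_mem_erase hc)]
    rw [h1, map_sub, map_natCast]
    have h3 : algebraMap AA Pool.Agent.W574.RO.FF (LL : AA) = lf 1 := by rw [lf, pow_one]
    have g0 := lf_ne n0 hn0
    have g1 := lf_ne n1 hn1
    have g2 := lf_ne (n0 + n1) hnn
    rw [h3]
    have h4 := lf_mul n0 n1
    field_simp
    rw [h4]
    ring

end Val

section Tail

variable {M : Type} [CommRing M] (L : Mˣ)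

theorem C_LLinv_mul (Z0 : PowerSeries AA) :
    Phi L (PowerSeries.C (((LL⁻¹ : AAˣ)) : AA) * Z0) = PowerSeries.C ((L⁻¹ : Mˣ) : M) * Phi L Z0 := by
  rw [map_mul, Phi_C]
  congr 2
  have h1 : (Pool.Agent.W574.MO.phi L ((LL⁻¹ : AAˣ) : AA)) * (L : M) = 1 := by
    rw [← phi_LL L, ← map_mul, ← Units.val_mul, inv_mul_cancel, Units.val_one, map_one]
  exact (Units.eq_inv_of_mul_eq_one_left (by rw [mul_comm]; exact h1))

theorem val_inv_mul {Z0 : PowerSeries AA} (h : Val Z0 (lf 1)) :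
    Val (PowerSeries.C (((LL⁻¹ : AAˣ)) : AA) * Z0) 1 := by
  have h1 := (val_C (((LL⁻¹ : AAˣ)) : AA)).mul h
  have h3 : algebraMap AA Pool.Agent.W574.RO.FF (((LL⁻¹ : AAˣ)) : AA) * lf 1 = 1 := by
    rw [lf, pow_one, ← map_mul, ← Units.val_mul, inv_mul_cancel, Units.val_one, map_one]
  rwa [h3] at h1

variable {κ : Type} [Fintype κ] [DecidableEq κ]
variable {h : MP} {f : Option κ → MP} {a : ℕ} {Pt : Fin 2 → ℂ}

theorem bf_tail {K : ℕ → ℕ → Prop} (a : ℕ) (ha : 1 ≤ a) (hK : K a 1) (t : Bool) :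
    tail 1 (PowerSeries.C ((L⁻¹ : Mˣ) : M) * fibreFactor (mf L) (PowerSeries.C (L : M)) a t)
      ∈ DenRing L K := by
  rw [← Phi_bf L a t, ← C_LLinv_mul, ← Phi_tail]
  apply Phi_mem
  refine tail_mem_of_val ((DenRing LL K).mul_mem (C_mem _) ?_) (val_inv_mul (val_bf a t))
  rcases t with _ | _
  · exact C_mem _
  · exact Subring.add_mem _ (mf_mem le_rfl fun _ => hK)
      (Subring.sub_mem _ (C_mem _) (Subring.one_mem _))

theorem heq_of_fe (F : MvPolynomial (Fin 2 ⊕ κ) ℂ) (b : Polynomial ℂ)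
    (hb : IsFunctionalEq (fun _ : Fin 1 => F) b) : HEq 1 F b :=
  heq_of_locEq F 1 b (isLocEq_one _ b hb)

theorem fibre_tail (hF : FF h f a ≠ 0) (ha : 1 ≤ a) (hf : ∃ j : κ, f (some j) ≠ 0)
    (Z : PowerSeries M) (hZ : FibreZeta (mf L) (PowerSeries.C (L : M)) a (translate Pt h)
      (fun j => translate Pt (f j)) 0 1 0 1 Z) :
    tail 1 (PowerSeries.C ((L⁻¹ : Mˣ) : M) * Z) ∈ DenRing L (KF (fun _ : Fin 1 => FF h f a)) := by
  classical
  obtain ⟨j, hj⟩ := hf
  obtain ⟨Z0, hZ0, rfl⟩ := exists_univG L hZ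
  rw [← C_LLinv_mul, ← Phi_tail]
  apply Phi_mem
  apply tail_mem_of_val
  · refine (DenRing LL _).mul_mem (C_mem _) ?_
    obtain ⟨s, hs, Q, hQ⟩ := exists_denom (mem_allG LL hZ0 le_rfl le_rfl)
    refine descent (KF (fun _ : Fin 1 => FF h f a)) Z0 s
      (fun p hp => ⟨(hs p hp).1, (hs p hp).2.1⟩) ?_ Q hQ
    intro a' n ha' hn hne
    have hac : (a' : ℂ) ≠ 0 := Nat.cast_ne_zero.2 (by omega)
    obtain ⟨b, hb, hbn⟩ : ∃ b : Polynomial ℂ, IsFunctionalEq (fun _ : Fin 1 => FF h f a) b ∧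
        b.eval (-(n : ℂ) / a') ≠ 0 := by
      by_contra h
      push Not at h
      exact hne h
    have hb' := heq_of_fe _ _ hb
    have hH : ∀ x, MvPolynomial.eval x (1 : MvPolynomial (Fin 2 ⊕ κ) ℂ) ≠ 0 := fun x => by
      rw [map_one]
      exact one_ne_zero
    have h2 := fibre_reg hb' hF hH ha hbn (ne_of_root hbn ha (root_a hb' hF hH ha j hj))
      (zdata_mot LL (-(n : ℂ) / a')) hZ0
    refine Subring.closure_mono (Set.union_subset_union_right _ ?_) h2
    rintro u ⟨a1, n1, ha1, hn1, hK, hu⟩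
    refine ⟨a1, n1, ha1, hn1, ?_, hu⟩
    intro h3
    apply hK
    have h4 : (n : ℂ) * a1 = n1 * a' := by exact_mod_cast h3
    field_simp
    linear_combination -h4
  · have h1 := val_fibre hZ0 le_rfl le_rfl (fun _ => rfl) (fun _ => rfl)
    rw [div_self (lf_ne 1 le_rfl), one_mul, one_mul] at h1
    exact val_inv_mul h1

/-- the global motivic zeta function of `h (f₀ + ∑ y_j f_j) ^ a` -/
theorem glob_tail (hF : FF h f a ≠ 0) (ha : 1 ≤ a) (hf : ∃ j : κ, f (some j) ≠ 0)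
    (Z : PowerSeries M) (hZ : GlobZeta L h f a Z) :
    tail 1 (PowerSeries.C ((L⁻¹ ^ 3 : Mˣ) : M) * Z)
      ∈ DenRing L (KF (fun _ : Fin 1 => FF h f a)) := by
  classical
  have hH : ∀ x, MvPolynomial.eval x (1 : MvPolynomial (Fin 2 ⊕ κ) ℂ) ≠ 0 := fun x => by
    rw [map_one]
    exact one_ne_zero
  have hbf : ∀ t, tail 1 (PowerSeries.C ((L⁻¹ : Mˣ) : M) *
      fibreFactor (mf L) (PowerSeries.C (L : M)) a t) ∈
        DenRing L (KF (fun _ : Fin 1 => FF h f a)) := by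
    obtain ⟨j, hj⟩ := hf
    refine fun t => bf_tail L a ha (fun b hb => ?_) t
    have hb' := heq_of_fe _ _ hb
    have := root_a hb' hF hH ha j hj
    rw [Nat.cast_one]
    exact this
  obtain ⟨u, r, q, m, w, S, ZP, hC, hP, htot, rfl⟩ := hZ
  have e : (1 : M) = ((L⁻¹ ^ 2 : Mˣ) : M) *
      (∑ t, u t * 1 + ∑ i, ∑ t, w i t * 1 + ∑ P ∈ S, (1 : M)) := by
    rw [Finset.sum_congr rfl fun t _ => mul_one (u t), Finset.sum_congr rfl fun i _ =>
      Finset.sum_congr rfl fun t _ => mul_one (w i t), Finset.sum_const, nsmul_eq_mul,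
      mul_one, htot, ← Units.val_pow_eq_pow_val, ← Units.val_mul, ← mul_pow, inv_mul_cancel,
      one_pow, Units.val_one]
  have e2 : PowerSeries.C ((L⁻¹ ^ 3 : Mˣ) : M) *
      (∑ t, PowerSeries.C (u t) * fibreFactor (mf L) (PowerSeries.C (L : M)) a t +
        ∑ i, ∑ t, PowerSeries.C (w i t) *
          (mf L (m i) 1 * fibreFactor (mf L) (PowerSeries.C (L : M)) a t) + ∑ P ∈ S, ZP P)
      = PowerSeries.C ((L⁻¹ ^ 2 : Mˣ) : M) *
      (∑ t, PowerSeries.C (u t) * (PowerSeries.C ((L⁻¹ : Mˣ) : M) *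
          fibreFactor (mf L) (PowerSeries.C (L : M)) a t) +
        ∑ i, ∑ t, PowerSeries.C (w i t) *
          (mf L (m i) 1 * (PowerSeries.C ((L⁻¹ : Mˣ) : M) *
            fibreFactor (mf L) (PowerSeries.C (L : M)) a t)) +
        ∑ P ∈ S, PowerSeries.C ((L⁻¹ : Mˣ) : M) * ZP P) := by
    have e3 : PowerSeries.C ((L⁻¹ ^ 3 : Mˣ) : M) = PowerSeries.C ((L⁻¹ ^ 2 : Mˣ) : M) *
        PowerSeries.C ((L⁻¹ : Mˣ) : M) := by
      rw [← map_mul, ← Units.val_mul, ← pow_succ]
    rw [e3, mul_assoc]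
    congr 1
    rw [mul_add, mul_add, Finset.mul_sum, Finset.mul_sum, Finset.mul_sum]
    congr 1
    congr 1
    · exact Finset.sum_congr rfl fun t _ => by ring
    · refine Finset.sum_congr rfl fun i _ => ?_
      rw [Finset.mul_sum]
      exact Finset.sum_congr rfl fun t _ => by ring
  rw [e2, e, tail_C_mul, tail_add, tail_add, tail_sum, tail_sum, tail_sum]
  refine (DenRing L _).mul_mem (C_mem _) ((DenRing L _).add_mem ((DenRing L _).add_mem ?_ ?_) ?_)
  · refine Subring.sum_mem _ fun t _ => ?_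
    rw [tail_C_mul]
    exact (DenRing L _).mul_mem (C_mem _) (hbf t)
  · refine Subring.sum_mem _ fun i _ => ?_
    rw [tail_sum]
    refine Subring.sum_mem _ fun t _ => ?_
    rw [tail_C_mul]
    obtain ⟨-, hm, -⟩ := hC i
    refine (DenRing L _).mul_mem (C_mem _) (tail_mul_mem (tail_mf_mem (m i) hm ?_) (hbf t))
    intro b hb
    have := root_curve (heq_of_fe _ _ hb) hF hH (q i) (m i) (hC i)
    rw [Nat.cast_one]
    exact this
  · exact Subring.sum_mem _ fun P hPS => fibre_tail L hF ha hf (ZP P) (hP P hPS)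

end Tail

variable {M : Type} [CommRing M] {L : Mˣ}

/-- **Global motivic zeta functions.** -/
theorem globLin_main (A : Fam) (Z : PowerSeries M) (h : GlobLin L A Z) :
    Finite A.σ ∧ (∃ j, A.f j ≠ 0) ∧ tail 1 Z ∈ DenRing L (KF A.f) := by
  classical
  induction h with
  | old A Z h => exact mg_main A Z h
  | lin κ h f a ha hF hf Z hZ =>
    exact ⟨inferInstanceAs (Finite (Fin 2 ⊕ κ)), ⟨(0 : Fin 1), hF⟩, glob_tail L hF ha hf Z hZ⟩
  | sum A B Z W hA hB ihA ihB =>
    obtain ⟨fA, hne, hZ⟩ := ihA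
    obtain ⟨fB, -, hW⟩ := ihB
    have := fA
    have := fB
    refine ⟨inferInstanceAs (Finite (A.σ ⊕ B.σ)), sum_ne hne, ?_⟩
    rw [tail_min]
    refine had_mem hZ hW fun a n a' n' l ha hn hK ha' hn' hK' hl hal hal' => ?_
    have h1 := forced_sum A.f B.f _ _ hK hK'
    rw [add_frac ha ha' hl hal hal'] at h1
    exact h1
  | mul A B Z W hA hB ihA ihB =>
    obtain ⟨fA, hneA, hZ⟩ := ihA
    obtain ⟨fB, hneB, hW⟩ := ihB
    have := fA
    have := fB
    refine ⟨inferInstanceAs (Finite (A.σ ⊕ B.σ)), mul_ne hneA hneB, ?_⟩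
    refine tail_mul_mem (denRing_mono (fun a n _ _ h => ?_) hZ)
      (denRing_mono (fun a n _ _ h => ?_) hW)
    · exact fun b hb => h b (functionalEq_mul A.f B.f hneB b hb)
    · exact fun b hb => h b (functionalEq_mul' A.f B.f hneA b hb)
  | form σ τ κ a ha h f Z hA ihA =>
    obtain ⟨fA, hne, hZ⟩ := ihA
    have hfin : Finite σ := fA
    have hF := form_ne' a h f ha hne
    have hfin' : Finite ((Σ t, κ t) ⊕ σ) := inferInstance
    refine ⟨hfin', ⟨(0 : Fin 1), hF⟩, tail_mul_mem (denRing_mono (fun x n _ _ h1 => ?_) hZ)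
      (tail_prod_mem _ _ fun t _ => ?_)⟩
    · have h2 := fm_form a h f ha hne (-(n : ℂ) / x) 1 ((fm_one _ _).2 h1)
      exact (fm_one _ _).1 (h2.mono (Nat.le_add_right _ _))
    · obtain ⟨-, h2⟩ := built_main (L := L) _ _ (Built.power (a t) (ha t))
      refine denRing_mono (fun x n hx hn h3 => ?_) ?_ (Z := tail 1 _) (K := fun x n => x = a t ∧ n = 1)
      · obtain ⟨rfl, rfl⟩ := h3
        have h4 := fm_form a h f ha hne (-((1 : ℕ) : ℂ) / a t) 0 (fun b hb => by
          rw [pow_zero]; exact one_dvd _)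
        refine (fm_one _ _).1 (h4.mono ?_)
        rw [zero_add]
        exact one_le_cntR' a ha t _ (by push_cast; ring)
      · rw [tail_power (a t) (ha t)]
        exact (DenRing L _).add_mem (DenRing L _).one_mem ((DenRing L _).mul_mem
          ((DenRing L _).mul_mem ((DenRing L _).mul_mem (C_mem _) X_mem) (X_pow_sum_mem (a t)))
          (geo_mem (ha t) le_rfl ⟨rfl, rfl⟩))
  | pow σ g k hk Z hA ihA =>
    obtain ⟨fA, ⟨j, hj⟩, hZ⟩ := ihA
    have hfin : Finite σ := fA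
    have hg : g ≠ 0 := hj
    refine ⟨hfin, ⟨(0 : Fin 1), pow_ne_zero k hg⟩, tail_expand_mem k hk (fun a n ha hn h1 => ?_) _ hZ⟩
    intro b hb
    have h3 := h1 _ (single_of_isB _ _ (isB_shift g hg k 0 (Nat.pos_of_ne_zero hk) b
      (isB_of_single _ b hb)))
    rw [← exp_root k a n hk ha] at h3
    have h4 := root_of_shift b k 0 hk _ 0 h3
    rwa [Nat.cast_zero, zero_div, sub_zero] at h4
  | equiv A B i k h Z hA ihA =>
    obtain ⟨fA, ⟨j, hj⟩, hZ⟩ := ihA
    have := fA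
    refine ⟨Finite.of_equiv _ i, ⟨k j, ?_⟩, denRing_mono (fun a n _ _ hS => ?_) hZ⟩
    · rw [h, Ne, map_eq_zero_iff _ (rename_injective _ i.injective)]
      exact hj
    · exact isForcing_global.equiv A B i k h _ hS

/-- hypersurfaces -/
theorem globLin_hyp {σ : Type} (F : MvPolynomial σ ℂ) (Z : PowerSeries M)
    (h : GlobLin L ⟨σ, Fin 1, fun _ => F⟩ Z) (b : Polynomial ℂ) (hb : IsBFunction F b) :
    Z ∈ DenRing L (RootPair b) := by
  obtain ⟨-, -, hm⟩ := globLin_main _ Z h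
  exact denRing_mono (fun a n _ _ h => h b (single_of_isB _ _ hb)) (mem_of_tail hm)

/-- hypersurfaces at the origin -/
theorem germLin_hyp {σ : Type} (F : MvPolynomial σ ℂ) (Z : PowerSeries M)
    (h : GermLin L ⟨σ, Fin 1, fun _ => F⟩ Z) (b : Polynomial ℂ) (hb : IsLocalBFunction F b)
    (c : M) : PowerSeries.C c * Z ∈ DenRing L (RootPair b) := by
  classical
  obtain ⟨hfin, ⟨j, hj⟩, hm⟩ := germLin_main _ Z h
  exact (DenRing L _).mul_mem (C_mem _) (denRing_mono
    (fun a n _ _ h => sf_root hfin F hj _ h b hb) (mem_of_tail hm))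

end Pool.Agent.N103
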