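import Pool.Agent.R852.MC.JDefs
import Pool.Agent.N103.MDefs
import Pool.Agent.N103.GKDefs

set_option autoImplicit false

/-! # Jets with angular component one: the classes with the polynomials `h(x) (f₀ + ∑ y_j f_j) ^ a` -/

namespace Pool.Agent.N103

open MvPolynomial Pool.Agent.W574.MO Pool.Agent.W574.RO Pool.Agent.R852.TP Pool.Agent.R852.MC

variable {M : Type} [CommRing M]

/-- `Z` is (of the form of) the series `∑_{m ≥ 0} [X_{m,1}] L^(-m N) T^m` of
`F = h ∏_t (∑_j y_{t, j} f_{t, j}) ^ a_t` in `N` variables, where `X_{m,1}` is the set of the `m`-jets `φ`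
with `F(φ) = t^m` modulo `t^(m + 1)`, and the ideal `J = h ∏_t (f_{t, j})_j ^ a_t` is in the class
`GlobLin`, with the motivic zeta function `Z' = ∫ T^(ord J) dμ` (all arcs have the volume `1`).

Let `φ = (x(t), y(t))` be an arc and `e_t = min_j ord f_{t, j}(x(t))`. Then
`∑_j y_{t, j} f_{t, j} = t^(e_t) ℓ_t(y_t(t))`, where one of the coefficients of the linear form `ℓ_t` is a
unit, so for fixed `x(t)` the orders `k_t` and the first coefficients `λ_t` of the `ℓ_t(y_t(t))` are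
independent: the volume of the `y_t(t)` with `ord = k_t` and `λ_t` in a set is the class of the set times
`L^(-k_t - 1)`. The set of the `(λ_t)` with `∏_t λ_t ^ a_t = c` has the class `g (L - 1) ^ (k - 1)`, `k` the
number of the `t`, with `g` as in `NumC`. So the series is `L^N Z'` times
`g (L - 1) ^ (k - 1) L ^ (-k) ∏_t 1 / (1 - L⁻¹ T^(a_t))`. -/
def JetGlob (L : Mˣ) {σ τ : Type} [Fintype τ] [DecidableEq τ] {κ : τ → Type} [∀ t, Fintype (κ t)]
    (a : τ → ℕ) (h : MvPolynomial σ ℂ) (f : (t : τ) → κ t → MvPolynomial σ ℂ)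
    (Z : PowerSeries M) : Prop :=
  ∃ (g : ℕ) (Z' : PowerSeries M), NumC a h g ∧ GlobLin L (genFam a h f) Z' ∧
    Z = PowerSeries.C (((L ^ (Nat.card σ + ∑ t, Fintype.card (κ t)) : Mˣ) : M) *
      ((g : M) * ((L : M) - 1) ^ (Fintype.card τ - 1) * ((L⁻¹ ^ Fintype.card τ : Mˣ) : M))) * Z' *
        ∏ t, geo L (a t) 1

/-- `Z` is (of the form of) the series `∑_{m ≥ 1} [X_{m,1,0}] L^(-m N) T^m` of
`F = h ∏_t (∑_j y_{t, j} f_{t, j}) ^ a_t` in `N` variables, where `X_{m,1,0}` is the set of the `m`-jets `φ`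
with `φ(0) = 0` and `F(φ) = t^m` modulo `t^(m + 1)`, and the germ of the ideal
`J = h ∏_t (f_{t, j})_j ^ a_t` is in the class `GermLin`, with the motivic zeta function `Z'` at the origin
(the arcs with the origin `0` have the volume `1`): as in `JetGlob`, it is `Z'` times
`g (L - 1) ^ (k - 1) L ^ (-k) ∏_t T^(a_t) / (1 - L⁻¹ T^(a_t))`, `k` the number of the `t`. -/
def JetGerm (L : Mˣ) {σ τ : Type} [Fintype τ] [DecidableEq τ] {κ : τ → Type} [∀ t, Fintype (κ t)]
    (a : τ → ℕ) (h : MvPolynomial σ ℂ) (f : (t : τ) → κ t → MvPolynomial σ ℂ)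
    (Z : PowerSeries M) : Prop :=
  ∃ (g : ℕ) (Z' : PowerSeries M), NumC a h g ∧ GermLin L (genFam a h f) Z' ∧
    Z = PowerSeries.C ((g : M) * ((L : M) - 1) ^ (Fintype.card τ - 1) *
      ((L⁻¹ ^ Fintype.card τ : Mˣ) : M)) * Z' * ∏ t, (PowerSeries.X ^ a t * geo L (a t) 1)

end Pool.Agent.N103
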