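import Pool.Agent.R852.TP.Defs
import Pool.Agent.N103.ZDefs

set_option autoImplicit false

/-! # The classes of topological zeta functions with the polynomials `h(x) (f₀ + ∑ y_j f_j) ^ a` -/

namespace Pool.Agent.N103

open MvPolynomial Pool.Agent.W574.SM Pool.Agent.W574.CN Pool.Agent.W574.RO
open Pool.Agent.Y229 Pool.Agent.W574.MO Pool.Agent.W425.SM Pool.Agent.W425.SV Pool.Agent.W422.GC
open Pool.Agent.W425.ND

/-- `LinZeta h f a Z`: the (global) topological zeta function `Z` of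
`F = h(x) (f₀(x) + ∑ y_j f_j(x)) ^ a ≠ 0`, `x = (x₁, x₂)`, `a ≥ 1`, is a constant plus a linear
combination with integer coefficients of the contributions of points `(P i, c i)`, see `PointZeta`
(the integral of these contributions with respect to the Euler characteristic; they are constant on
the members of a finite partition). -/
def LinZeta {κ : Type} [Fintype κ] (h : MvPolynomial (Fin 2) ℂ)
    (f : Option κ → MvPolynomial (Fin 2) ℂ) (a : ℕ) (Z : RatFunc ℂ) : Prop :=
  1 ≤ a ∧ FF h f a ≠ 0 ∧ ∃ (m : ℕ) (χ₀ : ℤ) (χ : Fin m → ℤ) (P : Fin m → Fin 2 → ℂ)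
    (c : Fin m → κ → ℂ) (W : Fin m → RatFunc ℂ),
    (∀ i, PointZeta fac 1 h f a (P i) (c i) (W i)) ∧
    Z = (χ₀ : RatFunc ℂ) + ∑ i, (χ i : RatFunc ℂ) * W i

/-- `LinAt At A Z`: the ideals in the class `At`, and the principal ideals generated by
`h(x₁, x₂) (f₀(x₁, x₂) + ∑ y_j f_j(x₁, x₂)) ^ a`. -/
inductive LinAt (At : Fam → RatFunc ℂ → Prop) : Fam → RatFunc ℂ → Prop
  /-- the ideals in the class `At` -/
  | base (A : Fam) (Z : RatFunc ℂ) (h : At A Z) : LinAt At A Z
  /-- polynomials of degree at most one in all but two variables, times `h(x₁, x₂)` -/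
  | lin (κ : Type) [Fintype κ] (h : MvPolynomial (Fin 2) ℂ)
      (f : Option κ → MvPolynomial (Fin 2) ℂ) (a : ℕ) (Z : RatFunc ℂ) (hZ : LinZeta h f a Z) :
      LinAt At ⟨Fin 2 ⊕ κ, Fin 1, fun _ => FF h f a⟩ Z

/-- `LinHyp HAt A Z`: the hypersurfaces in the class `HAt`, and the hypersurfaces
`h(x₁, x₂) (f₀(x₁, x₂) + ∑ y_j f_j(x₁, x₂)) ^ a = 0` whose topological zeta function has at most a
simple pole at `-1`. -/
inductive LinHyp (HAt : Fam → RatFunc ℂ → Prop) : Fam → RatFunc ℂ → Prop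
  /-- the hypersurfaces in the class `HAt` -/
  | base (A : Fam) (Z : RatFunc ℂ) (h : HAt A Z) : LinHyp HAt A Z
  /-- polynomials of degree at most one in all but two variables, times `h(x₁, x₂)` -/
  | lin (κ : Type) [Fintype κ] (h : MvPolynomial (Fin 2) ℂ)
      (f : Option κ → MvPolynomial (Fin 2) ℂ) (a : ℕ) (Z : RatFunc ℂ) (hZ : LinZeta h f a Z)
      (h1 : ((RatFunc.X + 1) * Z).denom.eval (-1) ≠ 0) :
      LinHyp HAt ⟨Fin 2 ⊕ κ, Fin 1, fun _ => FF h f a⟩ Z

/-- `NdHyp A Z`: the plane curves, and the polynomials `g = ∑_j a_j x ^ (v j)`, `g(0) = 0`, which are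
nondegenerate with respect to their Newton polytope, and whose topological zeta function has at
most a simple pole at `-1` (and no pole at the natural numbers, which holds for all topological
zeta functions). -/
inductive NdHyp : Fam → RatFunc ℂ → Prop
  /-- plane curves -/
  | curve (g : MvPolynomial (Fin 2) ℂ) (hg : g ≠ 0) (Z : RatFunc ℂ)
      (hZ : PlaneZeta (fun _ : Fin 1 => g) Z) : NdHyp ⟨Fin 2, Fin 1, fun _ => g⟩ Z
  /-- nondegenerate polynomials -/
  | nondeg (r N : ℕ) (hr : 1 ≤ r) (v : Fin r → Fin N → ℕ) (a : Fin r → ℂ)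
      (hv : Function.Injective v) (hv0 : ∀ j, v j ≠ 0) (hnd : Nondeg v a) (R : SmoothFan N)
      (hR : Principal v R)
      (h1 : ∀ i : ℕ, ((RatFunc.X + 1) * topZetaG v R).denom.eval ((i : ℂ) - 1) ≠ 0) :
      NdHyp ⟨Fin N, Fin 1, fun _ => sparse v a⟩ (topZetaG v R)

end Pool.Agent.N103
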