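import Pool.Agent.N103.BlowA

set_option autoImplicit false
set_option linter.unusedSectionVars false
set_option linter.unusedVariables false
set_option linter.unusedSimpArgs false

/-! # The leaves -/

namespace Pool.Agent.N103

open Pool.Agent.W574.SM

open Polynomial

section Types

variable {κ : Type}

open Classical in
/-- the type of `u = 0` -/
noncomputable def t0 (g : Option κ → MP) : Bool := decide (res0 (g none) = 0)

open Classical in
/-- the type of `v = 0` -/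
noncomputable def t1 (g : Option κ → MP) : Bool := decide (res1 (g none) = 0)

theorem t0_true {g : Option κ → MP} : t0 g = true ↔ res0 (g none) = 0 := by
  rw [t0, decide_eq_true_iff]

theorem t0_false {g : Option κ → MP} : t0 g = false ↔ res0 (g none) ≠ 0 := by
  rw [t0, decide_eq_false_iff_not]

theorem t1_true {g : Option κ → MP} : t1 g = true ↔ res1 (g none) = 0 := by
  rw [t1, decide_eq_true_iff]

theorem t1_false {g : Option κ → MP} : t1 g = false ↔ res1 (g none) ≠ 0 := by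
  rw [t1, decide_eq_false_iff_not]

theorem t0_sw (g : Option κ → MP) : t0 (fun j => sw (g j)) = t1 g := by
  rw [t0, t1, res0_sw]

theorem fam_sw (t : Bool) (a : ℕ) (h : MP) (g : Option κ → MP) (j : Option κ) :
    fam t a (sw h) (fun j => sw (g j)) j = sw (fam t a h g j) := by
  rw [fam, fam, map_mul, map_pow]
  rcases t with _ | _ <;> rfl

theorem Ord_sw {t : Bool} {a : ℕ} {h : MP} {g : Option κ → MP} {μ : ℕ}
    (hμ : Ord1 (fam t a h g) μ) : Ord0 (fam t a (sw h) (fun j => sw (g j))) μ := by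
  refine ⟨fun j k hk => ?_, ?_⟩
  · rw [fam_sw, res0_sw]
    exact hμ.1 j k hk
  · obtain ⟨j, hj⟩ := hμ.2
    refine ⟨j, ?_⟩
    rw [fam_sw, res0_sw]
    exact hj

theorem Ord0_of {t : Bool} {a : ℕ} {h : MP} {g : Option κ → MP} {ph pg : ℕ} (oh : OrdP (res0 h) ph)
    (h1 : ∀ j, ∀ k < pg, (res0 (if t then g j else g none)).coeff k = 0) (j : Option κ)
    (h2 : OrdP (res0 (if t then g j else g none)) pg) : Ord0 (fam t a h g) (ph + a * pg) := by
  constructor
  · intro i k hk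
    rw [fam, map_mul, map_pow]
    have h3 : X ^ (ph + a * pg) ∣ res0 h * res0 (if t then g i else g none) ^ a := by
      rw [pow_add, pow_mul']
      exact mul_dvd_mul (X_pow_dvd_iff.2 oh.1) (pow_dvd_pow_of_dvd (X_pow_dvd_iff.2 (h1 i)) a)
    exact X_pow_dvd_iff.1 h3 k hk
  · refine ⟨j, ?_⟩
    rw [fam, map_mul, map_pow]
    exact (oh.mul (h2.pow a)).2

theorem Ord0_false {a : ℕ} {h : MP} {g : Option κ → MP} {ph pg : ℕ} (oh : OrdP (res0 h) ph)
    (og : OrdP (res0 (g none)) pg) : Ord0 (fam false a h g) (ph + a * pg) := by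
  refine Ord0_of oh (fun j k hk => ?_) none ?_
  · simp only [Bool.false_eq_true, if_false]
    exact og.1 k hk
  · simp only [Bool.false_eq_true, if_false]
    exact og

theorem OrdP_curve {q : MP} (h0 : MvPolynomial.constantCoeff q = 0)
    (h1 : MvPolynomial.constantCoeff (MvPolynomial.pderiv 1 q) ≠ 0) : OrdP (res0 q) 1 := by
  constructor
  · intro k hk
    have : k = 0 := by omega
    rw [this, coeff_res0, h0]
  · rw [← coeff_res0, res0_pderiv, coeff_derivative] at h1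
    simpa using h1

end Types

section Leaf

variable {κ : Type} [Fintype κ] [DecidableEq κ]
variable {h : MP} {f : Option κ → MP} {a : ℕ} {c : κ → ℂ} {Pt : Fin 2 → ℂ}
  {h' : MP} {g : Option κ → MP} {a0 n0 a1 n1 : ℕ} {b : ℂ[X]}
  {H : MvPolynomial (Fin 2 ⊕ κ) ℂ} {R : Type} [CommRing R]

theorem nodeT' (hb : HEq H (FF h f a) b) (hF : FF h f a ≠ 0)
    (hH : MvPolynomial.eval (Sum.elim Pt c) H ≠ 0) (ha : 1 ≤ a)
    (G : GeomD h f a c Pt h' g a0 n0 a1 n1) (hn0 : 1 ≤ n0) (hn1 : 1 ≤ n1)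
    (hz0 : a0 = 0 → n0 = 1) (hz1 : a1 = 0 → n1 = 1)
    (hJ2' : 0 < a1 → (n1 - 1) * a0 < a1 * n0) (s0 : ℂ) (hs0 : b.eval s0 ≠ 0)
    (hA0 : (n0 : ℂ) + a0 * s0 = 0) (j : κ) (ph p0 pj : ℕ) (oh : OrdP (res0 h') ph)
    (o0 : OrdP (res0 (g none)) p0) (oj : OrdP (res0 (g (some j))) pj) (hlt : pj < p0) :
    a1 + ph + a * pj = 0 ∧ n1 = 1 ∧ p0 = pj + 1 := by
  have ha0 : 1 ≤ a0 := Nat.one_le_iff_ne_zero.2 (a_ne_zero hz0 hA0)
  have hac : (a0 : ℂ) ≠ 0 := Nat.cast_ne_zero.2 (by omega)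
  have hs : s0 = -(n0 : ℂ) / a0 := by
    rw [eq_div_iff hac]
    linear_combination hA0
  refine (nodeT hb hF hH ha G hn0 hn1 ha0 (by rw [← hs]; exact hs0) j ph p0 pj oh o0 oj hlt ?_
    ?_).1
  · intro hpos
    by_cases h1 : 0 < a1
    · have h2 := hJ2' h1
      have h3 : a1 * n0 ≤ n0 * (a1 + ph + a * pj) := by
        rw [mul_comm]
        exact Nat.mul_le_mul_left _ (by omega)
      omega
    · rw [hz1 (by omega), Nat.sub_self, zero_mul]
      exact Nat.mul_pos (by omega) hpos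
  · intro h1
    exact hz1 (by omega)

/-- the leaf `unit` -/
theorem leaf_unit (hb : HEq H (FF h f a) b) (hF : FF h f a ≠ 0)
    (hH : MvPolynomial.eval (Sum.elim Pt c) H ≠ 0) (ha : 1 ≤ a)
    (G : GeomD h f a c Pt h' g a0 n0 a1 n1) (hn0 : 1 ≤ n0) (hn1 : 1 ≤ n1)
    (hz0 : a0 = 0 → n0 = 1) (hz1 : a1 = 0 → n1 = 1)
    (hJ2' : 0 < a1 → (n1 - 1) * a0 < a1 * n0) (s0 : ℂ) (hs0 : b.eval s0 ≠ 0)
    (hH0 : (n0 : ℂ) + a0 * s0 = 0 → ∀ μ, Ord0 (fam (t0 g) a h' g) μ →
      (n1 : ℂ) + s0 * ((a1 + μ : ℕ) : ℂ) ≠ 0)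
    (hA0 : (n0 : ℂ) + a0 * s0 = 0) (hh : MvPolynomial.constantCoeff h' ≠ 0) (t : Bool)
    (ht : HasType g t) (Φ : ℕ → ℕ → R) (h01 : Φ 0 1 = 1) :
    (n1 : ℂ) + a1 * s0 ≠ 0 ∧ ∀ μ, Ord0 (fam (t0 g) a h' g) μ →
      Φ a1 n1 * typeFactor Φ a t = Φ (a1 + μ) n1 * typeFactor Φ a (t0 g) := by
  have oh : OrdP (res0 h') 0 := OrdP_of_cc hh
  have hfin : Ord0 (fam (t0 g) a h' g) 0 → (n1 : ℂ) + a1 * s0 ≠ 0 := by
    intro h1
    have h2 := hH0 hA0 0 h1
    rw [add_zero] at h2
    intro h3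
    apply h2
    rw [← h3]
    ring
  rcases t with _ | _
  · have ht' : MvPolynomial.constantCoeff (g none) ≠ 0 := ht
    have og : OrdP (res0 (g none)) 0 := OrdP_of_cc ht'
    have htt : t0 g = false := t0_false.2 (fun h0 => og.2 (by rw [h0, coeff_zero]))
    rw [htt] at hfin ⊢
    have h1 : Ord0 (fam false a h' g) 0 := by simpa using Ord0_false (a := a) oh og
    refine ⟨hfin h1, fun μ hμ => ?_⟩
    rw [← h1.unique hμ, add_zero]
  · have ht' : MvPolynomial.constantCoeff (g none) = 0 ∧ ∃ j,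
      MvPolynomial.constantCoeff (g (some j)) ≠ 0 := ht
    obtain ⟨ht0, j, hj⟩ := ht'
    have oj : OrdP (res0 (g (some j))) 0 := OrdP_of_cc hj
    by_cases h0 : res0 (g none) = 0
    · have htt : t0 g = true := t0_true.2 h0
      rw [htt] at hfin ⊢
      have h1 : Ord0 (fam true a h' g) 0 := by
        have := Ord0_of (t := true) (a := a) (g := g) oh (pg := 0)
          (fun _ k hk => absurd hk (by omega)) (some j) (by simpa using oj)
        simpa using this
      refine ⟨hfin h1, fun μ hμ => ?_⟩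
      rw [← h1.unique hμ, add_zero]
    · have htt : t0 g = false := t0_false.2 h0
      rw [htt]
      obtain ⟨p0, o0⟩ := exists_OrdP _ h0
      have hp0 : 0 < p0 := by
        by_contra hcon
        have : p0 = 0 := by omega
        rw [this] at o0
        apply o0.2
        rw [coeff_res0, ht0]
      obtain ⟨r1, r2, r3⟩ := nodeT' hb hF hH ha G hn0 hn1 hz0 hz1 hJ2' s0 hs0 hA0 j 0 p0 0 oh o0 oj
        hp0
      have ha1 : a1 = 0 := by omega
      subst ha1 r2 r3
      refine ⟨by simp, fun μ hμ => ?_⟩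
      have h1 : Ord0 (fam false a h' g) (0 + a * (0 + 1)) := Ord0_false oh o0
      rw [← h1.unique hμ, h01]
      simp [typeFactor]

/-- the leaf `curveV` -/
theorem leaf_curve (hb : HEq H (FF h f a) b) (hF : FF h f a ≠ 0)
    (hH : MvPolynomial.eval (Sum.elim Pt c) H ≠ 0) (ha : 1 ≤ a)
    (G : GeomD h f a c Pt h' g a0 n0 0 1) (hn0 : 1 ≤ n0) (hz0 : a0 = 0 → n0 = 1)
    (s0 : ℂ) (hs0 : b.eval s0 ≠ 0) (hA0 : (n0 : ℂ) + a0 * s0 = 0)
    (mh mg : ℕ) (hm : 1 ≤ mh + a * mg) (q kh : MP)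
    (k : Option κ → MP) (hh : h' = q ^ mh * kh) (hg : ∀ j, g j = q ^ mg * k j)
    (h0 : MvPolynomial.constantCoeff q = 0)
    (h1 : MvPolynomial.constantCoeff (MvPolynomial.pderiv 1 q) ≠ 0)
    (hkh : MvPolynomial.constantCoeff kh ≠ 0) (t : Bool) (ht : HasType k t) (Φ : ℕ → ℕ → R) :
    ∀ μ, Ord0 (fam (t0 g) a h' g) μ →
      Φ (mh + a * mg) 1 * typeFactor Φ a t = Φ (0 + μ) 1 * typeFactor Φ a (t0 g) := by
  have oq := OrdP_curve h0 h1
  have oh : OrdP (res0 h') mh := by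
    rw [hh, map_mul, map_pow]
    simpa using (oq.pow mh).mul (OrdP_of_cc hkh)
  have og : ∀ (j : Option κ) (p : ℕ), OrdP (res0 (k j)) p → OrdP (res0 (g j)) (mg + p) := by
    intro j p hp
    rw [hg, map_mul, map_pow]
    simpa using (oq.pow mg).mul hp
  have hgne : ∀ j, res0 (k j) ≠ 0 → res0 (g j) ≠ 0 := by
    intro j hj
    obtain ⟨p, hp⟩ := exists_OrdP _ hj
    intro h2
    exact (og j p hp).2 (by rw [h2, coeff_zero])
  intro μ hμ
  rcases t with _ | _
  · have ht' : MvPolynomial.constantCoeff (k none) ≠ 0 := ht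
    have ok : OrdP (res0 (k none)) 0 := OrdP_of_cc ht'
    have htt : t0 g = false := t0_false.2 (hgne none (fun h0 => ok.2 (by rw [h0, coeff_zero])))
    rw [htt] at hμ ⊢
    have h2 : Ord0 (fam false a h' g) (mh + a * mg) := Ord0_false oh (og none 0 ok)
    rw [← h2.unique hμ, zero_add]
  · have ht' : MvPolynomial.constantCoeff (k none) = 0 ∧ ∃ j,
      MvPolynomial.constantCoeff (k (some j)) ≠ 0 := ht
    obtain ⟨ht0, j, hj⟩ := ht'
    have oj : OrdP (res0 (g (some j))) (mg + 0) := og (some j) 0 (OrdP_of_cc hj)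
    by_cases h2 : res0 (k none) = 0
    · have htt : t0 g = true := t0_true.2 (by rw [hg, map_mul, h2, mul_zero])
      rw [htt] at hμ ⊢
      have h3 : Ord0 (fam true a h' g) (mh + a * mg) := by
        refine Ord0_of (t := true) oh (fun i l hl => ?_) (some j) (by simpa using oj)
        simp only [if_true]
        have h4 : X ^ mg ∣ res0 (g i) := by
          rw [hg, map_mul, map_pow]
          refine Dvd.dvd.mul_right ?_ _
          exact pow_dvd_pow_of_dvd (by
            rw [X_dvd_iff, coeff_res0, h0]) mg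
        exact X_pow_dvd_iff.1 h4 l hl
      rw [← h3.unique hμ, zero_add]
    · exfalso
      obtain ⟨p, hp⟩ := exists_OrdP _ h2
      have hp0 : 0 < p := by
        by_contra hcon
        have : p = 0 := by omega
        rw [this] at hp
        apply hp.2
        rw [coeff_res0, ht0]
      obtain ⟨r1, r2, r3⟩ := nodeT' hb hF hH ha G hn0 le_rfl hz0 (fun _ => rfl)
        (fun h => absurd h (lt_irrefl 0)) s0 hs0 hA0 j mh (mg + p) (mg + 0) oh (og none p hp) oj
        (by omega)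
      rw [add_zero] at r1
      omega

end Leaf

end Pool.Agent.N103
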