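import Pool.Agent.N103.Geo

set_option autoImplicit false
set_option linter.unusedSectionVars false
set_option linter.unusedVariables false
set_option linter.unusedSimpArgs false

/-! # Roots at the nodes -/

namespace Pool.Agent.N103

attribute [-instance] HahnSeries.powerSeriesAlgebra

open Pool.Agent.W574.SM

open Polynomial

variable {κ : Type} [Fintype κ] [DecidableEq κ]

section Roots

variable {h : MP} {f : Option κ → MP} {a : ℕ} {c : κ → ℂ} {Pt : Fin 2 → ℂ}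
  {h' : MP} {g : Option κ → MP} {a0 n0 a1 n1 : ℕ} {b : ℂ[X]}
  {H : MvPolynomial (Fin 2 ⊕ κ) ℂ}

/-- the root of a curve -/
theorem curve_rootA (hb : HEq H (FF h f a) b) (hF : FF h f a ≠ 0)
    (hH : MvPolynomial.eval (Sum.elim Pt c) H ≠ 0)
    (G : GeomD h f a c Pt h' g a0 n0 0 1) (mh mg : ℕ) (hm : 1 ≤ mh + a * mg) (q kh : MP)
    (k : Option κ → MP) (hh : h' = q ^ mh * kh) (hg : ∀ j, g j = q ^ mg * k j)
    (h0 : MvPolynomial.constantCoeff q = 0)
    (h1 : MvPolynomial.constantCoeff (MvPolynomial.pderiv 1 q) ≠ 0)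
    (hkh : MvPolynomial.constantCoeff kh ≠ 0) (j : Option κ)
    (hj : MvPolynomial.constantCoeff (k j) ≠ 0) : b.eval (-1 / ((mh + a * mg : ℕ) : ℂ)) = 0 := by
  have hinl : Function.Injective (Sum.inl : Fin 2 → Fin 2 ⊕ κ) := Sum.inl_injective
  refine codim1 (FF h f a) H b hb hF c G.ξ (MvPolynomial.rename Sum.inl q)
    (MvPolynomial.rename Sum.inl (G.Wh * G.Wf ^ a * kh) * lin k ^ a) (Sum.inl 1) (mh + a * mg) hm
    a0 0 (n0 - 1) 0 G.W' ?_ ?_ ?_ ?_ (fun h => by simp at h) (fun _ => ⟨rfl, rfl⟩) ?_ G.hW' ?_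
  · have h2 : lin g = MvPolynomial.rename Sum.inl (q ^ mg) * lin k := by
      rw [← lin_mul]
      exact congrArg lin (funext hg)
    have h3 : (MvPolynomial.rename Sum.inl (G.Wh * G.Wf ^ a * h') : MvPolynomial (Fin 2 ⊕ κ) ℂ)
        = MvPolynomial.rename Sum.inl (G.Wh * G.Wf ^ a * (q ^ mh * kh)) := by rw [← hh]
    rw [Xi_FF G, h2, h3]
    simp only [map_mul, map_pow]
    ring
  · intro p hp hpc hpt hpq hd
    rcases hp.dvd_or_dvd hd with h2 | h2
    · refine not_dvd_of_cc hpc ?_ h2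
      rw [MvPolynomial.constantCoeff_rename, map_mul, map_mul, map_pow]
      exact mul_ne_zero (mul_ne_zero G.hWh (pow_ne_zero _ G.hWf)) hkh
    · have h3 := hp.dvd_of_dvd_pow h2
      rcases j with _ | j
      · exact not_dvd_of_cc hpc (by rwa [cc_lin]) h3
      · have hq0 : MvPolynomial.rename (Sum.inl : Fin 2 → Fin 2 ⊕ κ) q ≠ 0 := by
          intro h4
          have h5 : q = 0 := MvPolynomial.rename_injective _ hinl (by rw [h4, map_zero])
          rw [h5, map_zero, map_zero] at h1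
          exact h1 rfl
        have h4 := dvd_pderiv_of_dvd hp hq0 hpq (Sum.inr j) (pderiv_inr_rename j q)
        obtain ⟨r, hr⟩ := h3
        have h5 := congrArg (MvPolynomial.pderiv (Sum.inr j)) hr
        rw [pderiv_lin, Derivation.leibniz, smul_eq_mul, smul_eq_mul] at h5
        refine not_dvd_of_cc (x := MvPolynomial.rename Sum.inl (k (some j))) hpc ?_ ?_
        · rwa [MvPolynomial.constantCoeff_rename]
        · rw [h5]
          exact dvd_add (dvd_mul_right _ _) (h4.mul_left _)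
  · rw [MvPolynomial.constantCoeff_rename, h0]
  · rw [MvPolynomial.pderiv_rename hinl, MvPolynomial.constantCoeff_rename]
    exact h1
  · rw [G.eJ, Nat.sub_self]
  · rw [cc_Xi c G.ξ Pt G.eP]
    exact hH

/-- the root of the hypersurface `g₀ + ∑ y_j g_j = 0` -/
theorem typeH_root (hb : HEq H (FF h f a) b) (hF : FF h f a ≠ 0)
    (hH : MvPolynomial.eval (Sum.elim Pt c) H ≠ 0) (ha : 1 ≤ a)
    (G : GeomD h f a c Pt h' g a0 n0 a1 n1) (x : MP) (hx : x ≠ 0) (hh' : h' ≠ 0)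
    (k : Option κ → MP) (hg : ∀ j, g j = x * k j) (h0 : MvPolynomial.constantCoeff (k none) = 0)
    (j : κ) (hj : MvPolynomial.constantCoeff (k (some j)) ≠ 0) : b.eval (-1 / (a : ℂ)) = 0 := by
  have hinl : Function.Injective (Sum.inl : Fin 2 → Fin 2 ⊕ κ) := Sum.inl_injective
  refine codim1 (FF h f a) H b hb hF c G.ξ (lin k)
    (MvPolynomial.rename Sum.inl (G.Wh * G.Wf ^ a * h' * x ^ a)) (Sum.inr j) a ha
    a0 a1 (n0 - 1) (n1 - 1) G.W' ?_ ?_ ?_ ?_ (fun h => by simp at h) (fun h => by simp at h)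
    G.eJ G.hW' ?_
  · have h2 : lin g = MvPolynomial.rename Sum.inl x * lin k := by
      rw [← lin_mul]
      exact congrArg lin (funext hg)
    rw [Xi_FF G, h2]
    simp only [map_mul, map_pow]
    ring
  · intro p hp hpc hpt hpq hd
    refine not_dvd_of_cc hpc hpt (dvd_pderiv_of_dvd hp ?_ hd (Sum.inr j) (pderiv_inr_rename j _))
    intro h4
    have h5 : G.Wh * G.Wf ^ a * h' * x ^ a = 0 :=
      MvPolynomial.rename_injective _ hinl (by rw [h4, map_zero])
    have hWh : G.Wh ≠ 0 := fun h => G.hWh (by rw [h, map_zero])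
    have hWf : G.Wf ≠ 0 := fun h => G.hWf (by rw [h, map_zero])
    exact (mul_ne_zero (mul_ne_zero (mul_ne_zero hWh (pow_ne_zero _ hWf)) hh')
      (pow_ne_zero _ hx)) h5
  · rw [cc_lin, h0]
  · rw [pderiv_lin, MvPolynomial.constantCoeff_rename]
    exact hj
  · rw [cc_Xi c G.ξ Pt G.eP]
    exact hH

theorem OrdP.mul {p q : ℂ[X]} {k l : ℕ} (hp : OrdP p k) (hq : OrdP q l) : OrdP (p * q) (k + l) := by
  obtain ⟨p', hp'⟩ := X_pow_dvd_iff.2 hp.1
  obtain ⟨q', hq'⟩ := X_pow_dvd_iff.2 hq.1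
  have e : p * q = X ^ (k + l) * (p' * q') := by rw [hp', hq']; ring
  have hp0 : p'.coeff 0 ≠ 0 := by
    have h1 := hp.2
    have h2 := coeff_X_pow_mul p' k 0
    rw [hp'] at h1
    rw [zero_add] at h2
    rwa [h2] at h1
  have hq0 : q'.coeff 0 ≠ 0 := by
    have h1 := hq.2
    have h2 := coeff_X_pow_mul q' l 0
    rw [hq'] at h1
    rw [zero_add] at h2
    rwa [h2] at h1
  constructor
  · rw [← X_pow_dvd_iff, e]
    exact dvd_mul_right _ _
  · have h2 := coeff_X_pow_mul (p' * q') (k + l) 0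
    rw [zero_add] at h2
    rw [e, h2, mul_coeff_zero]
    exact mul_ne_zero hp0 hq0

theorem OrdP_X_pow (k : ℕ) : OrdP (X ^ k) k := by
  constructor
  · intro i hi
    rw [coeff_X_pow, if_neg (by omega)]
  · rw [coeff_X_pow, if_pos rfl]
    exact one_ne_zero

theorem OrdP_of_cc {W : MP} (hW : MvPolynomial.constantCoeff W ≠ 0) : OrdP (res0 W) 0 := by
  refine ⟨fun i hi => absurd hi (by omega), ?_⟩
  rw [coeff_res0]
  exact hW

theorem OrdP.pow {p : ℂ[X]} {k : ℕ} (hp : OrdP p k) (n : ℕ) : OrdP (p ^ n) (n * k) := by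
  induction n with
  | zero =>
    rw [pow_zero, zero_mul]
    exact ⟨fun i hi => absurd hi (by omega), by simp⟩
  | succ n ih =>
    rw [pow_succ, Nat.succ_mul]
    exact ih.mul hp

/-- **(B)** at a node: if some `g_j` has smaller order than `g_0` along a critical curve, then
`g_0 + ∑ y_j g_j = 0` is smooth and transversal to it, and there is no other divisor. -/
theorem nodeT (hb : HEq H (FF h f a) b) (hF : FF h f a ≠ 0)
    (hH : MvPolynomial.eval (Sum.elim Pt c) H ≠ 0) (ha : 1 ≤ a)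
    (G : GeomD h f a c Pt h' g a0 n0 a1 n1) (hn0 : 1 ≤ n0) (hn1 : 1 ≤ n1) (ha0 : 1 ≤ a0)
    (hs : b.eval (-(n0 : ℂ) / a0) ≠ 0) (j : κ) (ph p0 pj : ℕ) (oh : OrdP (res0 h') ph)
    (o0 : OrdP (res0 (g none)) p0) (oj : OrdP (res0 (g (some j))) pj) (hlt : pj < p0)
    (h1 : 0 < a1 + ph + a * pj → (n1 - 1) * a0 < n0 * (a1 + ph + a * pj))
    (h2 : a1 + ph + a * pj = 0 → n1 = 1) :
    (a1 + ph + a * pj = 0 ∧ n1 = 1 ∧ p0 = pj + 1) ∧ (-(n0 : ℂ) / a0 * a + 1 : ℂ) ≠ 0 := by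
  set Jp : MP := MvPolynomial.X 1 ^ (n1 - 1) * G.W' with hJp
  set Hh : MP := MvPolynomial.X 1 ^ G.b1 * G.Wh * h' with hHh
  set Gj : Option κ → MP := fun j => MvPolynomial.X 1 ^ G.c1 * G.Wf * g j with hGj
  have eJ : jac G.ξ = MvPolynomial.X 0 ^ (n0 - 1) * Jp := by rw [G.eJ, hJp]; ring
  have eh : MvPolynomial.aeval G.ξ h = MvPolynomial.X 0 ^ G.b0 * Hh := by rw [G.eh, hHh]; ring
  have ef : ∀ j, MvPolynomial.aeval G.ξ (fc c f j) = MvPolynomial.X 0 ^ G.c0 * Gj j := by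
    intro j
    rw [G.ef, hGj]
    ring
  have oJ : OrdP (res0 Jp) (n1 - 1) := by
    rw [hJp, map_mul, map_pow, res0_X1]
    simpa using (OrdP_X_pow (n1 - 1)).mul (OrdP_of_cc G.hW')
  have oHh : OrdP (res0 Hh) (G.b1 + ph) := by
    rw [hHh, map_mul, map_mul, map_pow, res0_X1]
    simpa using ((OrdP_X_pow G.b1).mul (OrdP_of_cc G.hWh)).mul oh
  have oG : ∀ (i : Option κ) (p : ℕ), OrdP (res0 (g i)) p → OrdP (res0 (Gj i)) (G.c1 + p) := by
    intro i p hp
    rw [hGj]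
    simp only
    rw [map_mul, map_mul, map_pow, res0_X1]
    simpa using ((OrdP_X_pow G.c1).mul (OrdP_of_cc G.hWf)).mul hp
  have od0 := Od_aeval (oG none p0 o0)
  have odj := Od_aeval (oG (some j) pj oj)
  have odh := Od_aeval oHh
  have odJ := Od_aeval oJ
  have hDx : dw (HahnSeries.single 1 1 : KL) = 1 := by
    have h3 : dw (HahnSeries.single 1 1 : KL) = (HahnSeries.single (-1) 1 : KL) *
      hd (0 : Derivation ℂ ℂ ℂ) 1 (HahnSeries.single 1 1) := rfl
    rw [h3, hd_single, one_mul, Int.cast_one, one_mul, HahnSeries.single_mul_single, one_mul]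
    rfl
  obtain ⟨N, e, hN⟩ := star h f a c b H hb hF G.ξ Pt (G.eK0 ha0) n0 hn0 Jp eJ G.b0 G.c0 Hh Gj eh ef
    a0 G.ea0 ha0 hs dw (HahnSeries.single 1 1) hDx odJ.ne odh.ne
    (fun i => Polynomial.aeval (HahnSeries.single 1 1) (res0 (Gj i))) (fun i => rfl) (some j) odj.ne
  have ea1 := G.ea1
  have hNs : G.b1 + ph + a * (G.c1 + pj) = a1 + ph + a * pj := by
    rw [Nat.mul_add]
    omega
  have oq : Od ((a1 + ph + a * pj : ℕ) : ℤ) (Polynomial.aeval (HahnSeries.single 1 1 : KL) (res0 Hh)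
      * Polynomial.aeval (HahnSeries.single 1 1 : KL) (res0 (Gj (some j))) ^ a) := by
    have h3 := odh.mul (odj.pow a)
    rw [← hNs]
    convert h3 using 1
    push_cast
    ring
  have odJ' : Od ((n1 : ℤ) - 1) (Polynomial.aeval (HahnSeries.single 1 1 : KL) (res0 Jp)) := by
    convert odJ using 1
    rw [Nat.cast_sub hn1]
    rfl
  obtain ⟨⟨r1, r2, r3⟩, r4⟩ := partB
    (fun i => Polynomial.aeval (HahnSeries.single 1 1 : KL) (res0 (Gj i))) j _ _ od0 odj
    (by push_cast; omega) n0 a0 a n1 (a1 + ph + a * pj) hn0 ha0 ha hn1 _ _ oq odJ' (eta c Pt H)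
    (by rw [cc_eta]; exact hH) h1 h2 N e hN
  refine ⟨⟨r1, r2, ?_⟩, r4⟩
  push_cast at r3
  omega

end Roots

end Pool.Agent.N103
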