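import Pool.Agent.N103.Chain

set_option autoImplicit false
set_option linter.unusedSectionVars false
set_option linter.unusedVariables false

/-! # The local analysis at a point of an exceptional curve -/

namespace Pool.Agent.N103

attribute [-instance] HahnSeries.powerSeriesAlgebra

open Pool.Agent.W574.SM HahnSeries

/-- Laurent series -/
abbrev KL := HahnSeries ℤ ℂ

/-- the derivation `d / dw` -/
noncomputable def dw : Derivation ℂ KL KL := (single (-1) 1 : KL) • hd (0 : Derivation ℂ ℂ ℂ) 1

theorem coeff_shift (x : KL) (g : ℤ) : ((single (-1) 1 : KL) * x).coeff g = x.coeff (g + 1) := by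
  have h := coeff_single_mul_add (r := (1 : ℂ)) (x := x) (a := g + 1) (b := -1)
  rw [one_mul] at h
  rw [← h]
  congr 1
  ring

theorem coeff_dw (x : KL) (g : ℤ) : (dw x).coeff g = ((g + 1 : ℤ) : ℂ) * x.coeff (g + 1) := by
  have h : dw x = (single (-1) 1 : KL) * hd (0 : Derivation ℂ ℂ ℂ) 1 x := rfl
  rw [h, coeff_shift, coeff_hd, Derivation.coe_zero, Pi.zero_apply, zero_add, one_mul]

/-- order exactly `d` -/
def Od (d : ℤ) (x : KL) : Prop := Ge d x ∧ x.coeff d ≠ 0

theorem Od.ne {d : ℤ} {x : KL} (h : Od d x) : x ≠ 0 := ne_of_coeff h.2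

theorem Od.mul {d e : ℤ} {x y : KL} (hx : Od d x) (hy : Od e y) : Od (d + e) (x * y) :=
  ⟨hx.1.mul hy.1, by rw [coeff_mul_Ge hx.1 hy.1]; exact mul_ne_zero hx.2 hy.2⟩

theorem Od_one : Od 0 (1 : KL) := ⟨Ge_one, by rw [coeff_one, if_pos rfl]; exact one_ne_zero⟩

theorem Od.pow {d : ℤ} {x : KL} (hx : Od d x) (n : ℕ) : Od (n * d) (x ^ n) := by
  induction n with
  | zero => rw [pow_zero, Nat.cast_zero, zero_mul]; exact Od_one
  | succ n ih =>
    have h := ih.mul hx
    rw [pow_succ]
    convert h using 1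
    push_cast
    ring

theorem Od.inv {d : ℤ} {x : KL} (hx : Od d x) : Od (-d) x⁻¹ := by
  obtain ⟨v, hv, hvG⟩ := exists_inv hx.1 (isUnit_iff_ne_zero.2 hx.2)
  have h1 : x⁻¹ = v := inv_eq_of_mul_eq_one_right hv
  rw [h1]
  refine ⟨hvG, ?_⟩
  intro h
  have h2 := coeff_mul_Ge hx.1 hvG
  rw [hv, add_neg_cancel, coeff_one, if_pos rfl, h, mul_zero] at h2
  exact one_ne_zero h2

theorem Od_alg (c : ℂ) (hc : c ≠ 0) : Od 0 (algebraMap ℂ KL c) := by
  rw [algMap_eq]
  exact ⟨Ge_C _, by rw [coeff_C0]; exact hc⟩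

theorem Ge_dw {d : ℤ} {x : KL} (hx : Ge d x) : Ge (d - 1) (dw x) := by
  intro g hg
  rw [coeff_dw, hx _ (by omega), mul_zero]

theorem coeff_dw_pred (d : ℤ) (x : KL) : (dw x).coeff (d - 1) = (d : ℂ) * x.coeff d := by
  rw [coeff_dw, sub_add_cancel]

theorem Ge.sub {B : Type} [CommRing B] {d : ℤ} {x y : HahnSeries ℤ B} (hx : Ge d x) (hy : Ge d y) :
    Ge d (x - y) :=
  fun g hg => by rw [coeff_sub, hx g hg, hy g hg, sub_zero]

/-- the order at zero of a polynomial -/
def OrdP (p : Polynomial ℂ) (k : ℕ) : Prop := (∀ i < k, p.coeff i = 0) ∧ p.coeff k ≠ 0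

theorem exists_OrdP (p : Polynomial ℂ) (hp : p ≠ 0) : ∃ k, OrdP p k := by
  refine ⟨p.natTrailingDegree, fun i hi => ?_, ?_⟩
  · exact Polynomial.coeff_eq_zero_of_lt_natTrailingDegree hi
  · exact Polynomial.trailingCoeff_nonzero_iff_nonzero.2 hp

theorem OrdP.unique {p : Polynomial ℂ} {k l : ℕ} (hk : OrdP p k) (hl : OrdP p l) : k = l := by
  rcases lt_trichotomy k l with h | h | h
  · exact absurd (hl.1 k h) hk.2
  · exact h
  · exact absurd (hk.1 l h) hl.2

theorem coeff_aeval_w (p : Polynomial ℂ) (g : ℤ) :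
    (Polynomial.aeval (single 1 1 : KL) p).coeff g = if 0 ≤ g then p.coeff g.toNat else 0 := by
  induction p using Polynomial.induction_on' with
  | add p q hp hq =>
    rw [map_add, coeff_add, hp, hq, Polynomial.coeff_add]
    split_ifs <;> simp
  | monomial k c =>
    rw [Polynomial.aeval_monomial, single_pow, one_pow, algMap_eq, nsmul_eq_mul, mul_one,
      C_mul_eq_smul, coeff_smul, coeff_single, Polynomial.coeff_monomial, smul_eq_mul]
    by_cases hg : 0 ≤ g
    · rw [if_pos hg]
      by_cases h : g = k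
      · rw [if_pos h, if_pos (by omega), mul_one]
        rfl
      · rw [if_neg h, if_neg (by omega), mul_zero]
    · rw [if_neg hg, if_neg (by omega), mul_zero]

theorem Od_aeval {p : Polynomial ℂ} {k : ℕ} (h : OrdP p k) :
    Od k (Polynomial.aeval (single 1 1 : KL) p) := by
  constructor
  · intro g hg
    rw [coeff_aeval_w]
    split_ifs with h1
    · exact h.1 _ (by omega)
    · rfl
  · rw [coeff_aeval_w, if_pos (by omega)]
    simpa using h.2

theorem solve {ρ l : ℤ} (c : ℂ) (y m r : KL) (hy : Od (ρ - 1) y) (hr : Od l r)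
    (h : algebraMap ℂ KL c * y * m = r) : c ≠ 0 ∧ Od (l - ρ + 1) m := by
  have hc : c ≠ 0 := by
    rintro rfl
    rw [map_zero, zero_mul, zero_mul] at h
    exact hr.ne h.symm
  refine ⟨hc, ?_⟩
  have hy0 := hy.ne
  have hc0 : algebraMap ℂ KL c ≠ 0 := (Od_alg c hc).ne
  have h1 : m = (algebraMap ℂ KL c * y)⁻¹ * r := by
    rw [← h, ← mul_assoc, inv_mul_cancel₀ (mul_ne_zero hc0 hy0), one_mul]
  rw [h1]
  have h2 := ((Od_alg c hc).mul hy).inv.mul hr
  convert h2 using 1
  ring

section Main

variable {κ : Type} [Fintype κ] [DecidableEq κ]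

theorem partB (g : Option κ → KL) (j : κ) (p0 pj : ℤ) (h0 : Od p0 (g none))
    (hj : Od pj (g (some j))) (hlt : pj < p0) (n A a ν Ns : ℕ) (hn : 1 ≤ n) (hA : 1 ≤ A)
    (ha : 1 ≤ a) (hν : 1 ≤ ν) (q0 J : KL) (hq : Od Ns q0) (hJ : Od (ν - 1 : ℤ) J)
    (η : MvPolynomial κ ℂ) (hη : MvPolynomial.constantCoeff η ≠ 0)
    (h1 : 0 < Ns → (ν - 1) * A < n * Ns) (h2 : Ns = 0 → ν = 1) (N : MvPolynomial κ KL) (e : ℕ)
    (h : TT g (some j) * dc dw N
        + MvPolynomial.C (algebraMap ℂ KL (-(n : ℂ) / A * a - e)) * dc dw (TT g (some j)) * N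
        + MvPolynomial.C (algebraMap ℂ KL (-(n : ℂ) / A) * (dw q0 / q0)) * TT g (some j) * N
        = MvPolynomial.C J * MvPolynomial.map (algebraMap ℂ KL) η * TT g (some j) ^ (e + 1)) :
    (Ns = 0 ∧ ν = 1 ∧ p0 = pj + 1) ∧ (-(n : ℂ) / A * a + 1 : ℂ) ≠ 0 := by
  set s0 : ℂ := -(n : ℂ) / A with hs0
  have hAc : (A : ℂ) ≠ 0 := Nat.cast_ne_zero.2 (by omega)
  set ρ : ℤ := p0 - pj with hρ
  set θ : KL := g none / g (some j) with hθ
  have hθo : Od ρ θ := by
    have := h0.mul hj.inv
    rw [hθ, div_eq_mul_inv]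
    exact this
  have hth : theta g j (fun _ => (0 : KL)) = θ := by
    rw [theta]
    simp only [zero_mul, Finset.sum_const_zero, add_zero]
    rfl
  have hθ' : Od (ρ - 1) (dw θ) := by
    refine ⟨Ge_dw hθo.1, ?_⟩
    rw [coeff_dw_pred]
    refine mul_ne_zero ?_ hθo.2
    rw [Int.cast_ne_zero]
    omega
  obtain ⟨c1, c2⟩ := chain (S := KL) dw dw (fun k => rfl) g j hj.ne (fun _ => 0)
    (fun i => map_zero dw) N e _ _ J _ h
  rw [hth] at c1 c2
  set Nt := rho j (fun _ => (0 : KL)) θ N with hNt
  set Et := rho j (fun _ => (0 : KL)) θ (MvPolynomial.map (algebraMap ℂ KL) η) with hEt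
  have halg : ∀ k : KL, algebraMap KL KL k = k := fun k => rfl
  simp only [halg] at c1 c2
  -- the right hand side
  have hE : (∀ k, Ge 0 (Et.coeff k)) ∧ (Et.coeff 0).coeff 0 = MvPolynomial.constantCoeff η := by
    rw [hEt]
    clear c2 h hη hEt Et
    induction η using MvPolynomial.induction_on with
    | C c =>
      rw [MvPolynomial.map_C, rho_C, halg]
      constructor
      · intro k
        rw [Polynomial.coeff_C]
        split_ifs
        · exact Ge_algMap c
        · exact Ge_zero 0
      · rw [Polynomial.coeff_C_zero, algMap_eq, coeff_C0, MvPolynomial.constantCoeff_C]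
        rfl
    | add p q hp hq =>
      rw [map_add, map_add]
      refine ⟨fun k => ?_, ?_⟩
      · rw [Polynomial.coeff_add]
        exact (hp.1 k).add (hq.1 k)
      · rw [Polynomial.coeff_add, coeff_add, hp.2, hq.2, map_add]
    | mul_X p i hp =>
      rw [map_mul, map_mul, MvPolynomial.map_X, rho_X, map_mul, MvPolynomial.constantCoeff_X,
        mul_zero]
      have hθ0 : Ge 0 θ := hθo.1.mono (by omega)
      split_ifs with hij
      · rw [mul_sub]
        have h3 : ∀ k, Ge 0 ((rho j (fun _ => (0 : KL)) θ (MvPolynomial.map (algebraMap ℂ KL) p)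
            * Polynomial.C θ).coeff k) := by
          intro k
          rw [Polynomial.coeff_mul_C]
          simpa using (hp.1 k).mul hθ0
        refine ⟨fun k => ?_, ?_⟩
        · rw [Polynomial.coeff_sub]
          refine Ge.sub ?_ (h3 k)
          rcases k with _ | k
          · rw [Polynomial.coeff_mul_X_zero]; exact Ge_zero 0
          · rw [Polynomial.coeff_mul_X]; exact hp.1 k
        · rw [Polynomial.coeff_sub, Polynomial.coeff_mul_X_zero, zero_sub, coeff_neg,
            Polynomial.coeff_mul_C]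
          have h4 := coeff_mul_Ge (hp.1 0) hθ0
          rw [add_zero] at h4
          rw [h4, hθo.1 0 (by omega), mul_zero, neg_zero]
      · rw [map_zero, mul_zero]
        exact ⟨fun k => by rw [Polynomial.coeff_zero]; exact Ge_zero 0, by simp⟩
  -- the coefficients of small degree
  have hz : ∀ k ≤ e, Nt.coeff k = 0 := by
    intro k
    induction k with
    | zero =>
      intro _
      rcases mul_eq_zero.1 c1 with h4 | h4
      · exact absurd h4 (mul_ne_zero (Od_alg _ (neg_ne hn hA ha e)).ne hθ'.ne)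
      · exact h4
    | succ k ih =>
      intro hk
      have h3 := c2 k
      rw [if_neg (by omega), ih (by omega), map_zero, mul_zero, add_zero, zero_add] at h3
      have h5 : algebraMap ℂ KL (s0 * a - e) + (k + 1)
          = algebraMap ℂ KL (s0 * a - (e - (k + 1) : ℕ)) := by
        rw [Nat.cast_sub (by omega)]
        simp only [map_sub, map_natCast]
        push_cast
        ring
      rw [h5] at h3
      rcases mul_eq_zero.1 h3 with h6 | h6
      · exact absurd h6 (mul_ne_zero (Od_alg _ (neg_ne hn hA ha _)).ne hθ'.ne)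
      · exact h6
  -- the first coefficient
  have hsc : ∀ i : ℕ, algebraMap ℂ KL (s0 * a - e) + (((e + i : ℕ) : KL) + 1)
      = algebraMap ℂ KL (s0 * a + (i + 1)) := by
    intro i
    simp only [map_sub, map_add, map_natCast, map_one]
    push_cast
    ring
  have hbase := c2 e
  rw [if_pos le_rfl, Nat.sub_self, hz e le_rfl, map_zero, mul_zero, add_zero, zero_add] at hbase
  have hsc0 := hsc 0
  rw [add_zero] at hsc0
  rw [hsc0] at hbase
  have hE0 : Od 0 (Et.coeff 0) := ⟨hE.1 0, by rw [hE.2]; exact hη⟩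
  obtain ⟨hs1, hm1⟩ := solve _ _ _ _ hθ' (hJ.mul hE0) hbase
  refine ⟨?_, by simpa using hs1⟩
  by_contra hcon
  -- the chain of coefficients
  have hne : ∀ i : ℕ, 1 ≤ i → (((ν - ρ * i : ℤ) : ℂ) + s0 * Ns) ≠ 0 := by
    intro i hi h3
    apply hcon
    have h4 : (ν - ρ * i) * (A : ℤ) = n * Ns := by
      have h5 : (((ν - ρ * i) * (A : ℤ) : ℤ) : ℂ) = ((n * Ns : ℤ) : ℂ) := by
        rw [hs0] at h3
        push_cast at h3 ⊢
        field_simp at h3
        linear_combination h3
      exact_mod_cast h5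
    have h6 : Ns = 0 := by
      by_contra hN
      have h7 := h1 (by omega)
      have h8 : ((ν : ℤ) - 1) * A < n * Ns := by
        have : (((ν - 1) * A : ℕ) : ℤ) < ((n * Ns : ℕ) : ℤ) := by exact_mod_cast h7
        rw [Nat.cast_mul, Nat.cast_sub hν] at this
        push_cast at this
        exact this
      rw [← h4] at h8
      have h9 : (ν : ℤ) - 1 < ν - ρ * i := lt_of_mul_lt_mul_right h8 (by omega)
      have h10 : 1 ≤ ρ * i := by
        have h11 : 1 ≤ ρ := by omega
        have h12 : (1 : ℤ) ≤ i := by exact_mod_cast hi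
        nlinarith
      omega
    have h7 := h2 h6
    rw [h6, Nat.cast_zero, mul_zero] at h4
    have h8 : (ν : ℤ) - ρ * i = 0 := by
      rcases mul_eq_zero.1 h4 with h9 | h9
      · exact h9
      · omega
    rw [h7] at h8
    have h9 : ρ * i = 1 := by push_cast at h8; omega
    have h10 : ρ = 1 := by
      have h11 : 1 ≤ ρ := by omega
      have h12 : (1 : ℤ) ≤ i := by exact_mod_cast hi
      nlinarith
    exact ⟨h6, h7, by omega⟩
  have hchain : ∀ i : ℕ, Od (ν - ρ * (i + 1)) (Nt.coeff (e + (i + 1))) := by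
    intro i
    induction i with
    | zero =>
      rw [zero_add]
      convert hm1 using 1
      push_cast
      ring
    | succ i ih =>
      have h3 := c2 (e + (i + 1))
      rw [if_pos (by omega), hsc, show e + (i + 1) - e = i + 1 by omega] at h3
      set l : ℤ := ν - ρ * (i + 1) with hl
      set m := Nt.coeff (e + (i + 1)) with hm
      have hr : Od (l - 1) (J * Et.coeff (i + 1) - (dw m
          + algebraMap ℂ KL s0 * (dw q0 / q0) * m)) := by
        have h4 : Od (Ns : ℤ) q0 := hq
        have h5 : Ge (l - 1) (dw m + algebraMap ℂ KL s0 * (dw q0 / q0) * m) ∧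
            (dw m + algebraMap ℂ KL s0 * (dw q0 / q0) * m).coeff (l - 1)
              = ((l : ℂ) + s0 * Ns) * m.coeff l := by
          have h6 : Ge (-1) (dw q0 / q0) ∧ (dw q0 / q0).coeff (-1) = Ns := by
            have h7 := h4.inv
            have h8 := (Ge_dw h4.1).mul h7.1
            have h9 := coeff_mul_Ge (Ge_dw h4.1) h7.1
            have h10 := coeff_mul_Ge h4.1 h7.1
            rw [mul_inv_cancel₀ h4.ne, add_neg_cancel, coeff_one, if_pos rfl] at h10
            rw [coeff_dw_pred, mul_assoc, ← h10, mul_one] at h9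
            have h11 : (Ns : ℤ) - 1 + -(Ns : ℤ) = -1 := by ring
            rw [h11] at h8 h9
            rw [div_eq_mul_inv]
            exact ⟨h8, by rw [h9]; simp⟩
          have h12 := h6.1.mul ih.1
          have h13 := coeff_mul_Ge h6.1 ih.1
          rw [h6.2] at h13
          have h14 : (-1 : ℤ) + l = l - 1 := by ring
          rw [h14] at h12 h13
          have h15 := (Ge_algMap s0).mul h12
          have h16 := coeff_mul_Ge (Ge_algMap (B := ℂ) s0) h12
          rw [zero_add] at h15 h16
          rw [mul_assoc]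
          refine ⟨(Ge_dw ih.1).add h15, ?_⟩
          rw [coeff_add, coeff_dw_pred, h16, h13, algMap_eq, coeff_C0]
          change (l : ℂ) * m.coeff l + s0 * (Ns * m.coeff l) = _
          ring
        have h6 : Ge (ν - 1 : ℤ) (J * Et.coeff (i + 1)) := by
          have := hJ.1.mul (hE.1 (i + 1))
          rwa [add_zero] at this
        have hlν : l - 1 < ν - 1 := by
          have h11 : 1 ≤ ρ := by omega
          have h12 : (0 : ℤ) ≤ i := by omega
          nlinarith
        refine ⟨Ge.sub (h6.mono hlν.le) h5.1, ?_⟩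
        rw [coeff_sub, h6 _ hlν, h5.2, zero_sub, neg_ne_zero]
        refine mul_ne_zero ?_ ih.2
        have := hne (i + 1) (by omega)
        rw [hl]
        push_cast at this ⊢
        exact this
      obtain ⟨_, h7⟩ := solve (s0 * a + ((i + 1 : ℕ) + 1)) (dw θ) (Nt.coeff (e + (i + 1) + 1)) _ hθ'
        hr (by rw [← h3]; ring)
      have h8 : l - 1 - ρ + 1 = ν - ρ * ((i + 1 : ℕ) + 1) := by
        rw [hl]
        push_cast
        ring
      rw [h8] at h7
      exact h7
  have h3 := (hchain Nt.natDegree).ne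
  apply h3
  exact Polynomial.coeff_eq_zero_of_natDegree_lt (by omega)

end Main

end Pool.Agent.N103
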