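import Pool.Agent.N103.LDefs
import Pool.Agent.Y229.LPAtoms

set_option autoImplicit false

/-! # The strong conjecture: the building blocks -/

namespace Pool.Agent.N103

open MvPolynomial Pool.Agent.W574.SM Pool.Agent.W574.CN Pool.Agent.W574.RO Pool.Agent.Y229

/-- `BaseAt A Z`: the ideals in `Basic`, with their global topological zeta functions, where
`PlaneZeta` is used for the ideals of `ℂ[x, y]`. -/
def BaseAt (A : Fam) (Z : RatFunc ℂ) : Prop := Basic (fun _ f Z => PlaneZeta f Z) A Z

/-- `PlaneHyp A Z`: the plane curves `g = 0`, with their global topological zeta functions. -/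
inductive PlaneHyp : Fam → RatFunc ℂ → Prop
  /-- plane curves -/
  | curve (g : MvPolynomial (Fin 2) ℂ) (hg : g ≠ 0) (Z : RatFunc ℂ)
      (hZ : PlaneZeta (fun _ : Fin 1 => g) Z) : PlaneHyp ⟨Fin 2, Fin 1, fun _ => g⟩ Z

end Pool.Agent.N103
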