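import Pool.Agent.N103.TopCl
import Pool.Agent.N103.SDefs

set_option autoImplicit false
set_option linter.unusedSectionVars false
set_option linter.unusedVariables false
set_option linter.unusedSimpArgs false

/-! # The strong conjecture for the closed classes with the polynomials `h(x) (f₀ + ∑ y_j f_j) ^ a` -/

namespace Pool.Agent.N103

open MvPolynomial Pool.Agent.W574.SM Pool.Agent.W574.CN Pool.Agent.W574.RO Pool.Agent.Y229
open Pool.Agent.W574.MO Pool.Agent.W425.SM Pool.Agent.W425.SV Pool.Agent.W422.GC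
open Pool.Agent.W425.ND Pool.Agent.W574.HS Pool.Agent.Y230.PS Pool.Agent.TH192.DT
open Pool.Agent.Y230.TH Pool.Agent.TH187.SA Pool.Agent.W574.LM Pool.Agent.R852.TP
open Pool.Agent.H628R4.TP (IsBFunction)

/-- **The strong conjecture for ideals.** -/
theorem base_strong_ideal (A : Fam) (Z : RatFunc ℂ)
    (h : TPw (LinAt BaseAt) (LinHyp PlaneHyp) false A Z)
    (b : Polynomial ℂ) (hb : IsFunctionalEq A.f b) (s₀ : ℂ) (hs : Z.denom.eval s₀ = 0) :
    b.eval s₀ = 0 := by
  obtain ⟨t, ht, h1⟩ := (tp_closure ⊥ bot_div (LinAt BaseAt) (LinHyp PlaneHyp)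
    (linAt_at ⊥ BaseAt (fun A Z h => sa_at ⊥ A Z (.all _ _ (.basic _ _ h))))
    (linHyp_cl ⊥ PlaneHyp (fun A Z h => strongHyp_cl ⊥ A Z (by
      cases h with
      | curve g hg Z hZ => exact .curve g hg _ hZ))) false _ Z h).pole s₀ hs
  rw [AddSubmonoid.mem_bot] at ht
  rw [ht, sub_zero, fm_one] at h1
  exact h1 b hb

/-- **The strong conjecture for hypersurfaces.** -/
theorem base_strong {σ : Type} (F : MvPolynomial σ ℂ) (Z : RatFunc ℂ)
    (h : TPw (LinAt BaseAt) (LinHyp PlaneHyp) false ⟨σ, Fin 1, fun _ => F⟩ Z)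
    (b : Polynomial ℂ) (hb : IsBFunction F b) (s₀ : ℂ) (hs : Z.denom.eval s₀ = 0) :
    b.eval s₀ = 0 :=
  base_strong_ideal _ Z h b (single_of_isB F b hb) s₀ hs

end Pool.Agent.N103
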