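import Pool.Agent.R852.TL.Defs
import Pool.Agent.N103.ZDefs

set_option autoImplicit false

/-! # Germs at the origin: the classes of local topological zeta functions with the germs of the
polynomials `h(x) (f₀ + ∑ y_j f_j) ^ a` -/

namespace Pool.Agent.N103

open MvPolynomial Pool.Agent.W574.SM Pool.Agent.W574.CN Pool.Agent.W574.RO
open Pool.Agent.Y229 Pool.Agent.W574.MO Pool.Agent.W425.SM Pool.Agent.W425.SV Pool.Agent.W422.GC
open Pool.Agent.W425.ND

/-- `GermAt At A Z`: the germs of ideals at the origin in the class `At` (with finitely many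
variables), and the germs at the origin of the principal ideals generated by
`h(x₁, x₂) (f₀(x₁, x₂) + ∑ y_j f_j(x₁, x₂)) ^ a ≠ 0`, `a ≥ 1`, with the local topological zeta function
`Z` given by `PointZeta` at the origin. -/
inductive GermAt (At : Fam → RatFunc ℂ → Prop) : Fam → RatFunc ℂ → Prop
  /-- the ideals in the class `At` -/
  | base (A : Fam) (Z : RatFunc ℂ) (hfin : Finite A.σ) (h : At A Z) : GermAt At A Z
  /-- polynomials of degree at most one in all but two variables, times `h(x₁, x₂)` -/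
  | lin (κ : Type) [Fintype κ] (h : MvPolynomial (Fin 2) ℂ)
      (f : Option κ → MvPolynomial (Fin 2) ℂ) (a : ℕ) (ha : 1 ≤ a) (hF : FF h f a ≠ 0)
      (Z : RatFunc ℂ) (hZ : PointZeta fac 1 h f a 0 0 Z) :
      GermAt At ⟨Fin 2 ⊕ κ, Fin 1, fun _ => FF h f a⟩ Z

/-- `GermHyp HAt A Z`: the germs of hypersurfaces in the class `HAt`, and the germs at the origin of
the hypersurfaces `h(x₁, x₂) (f₀(x₁, x₂) + ∑ y_j f_j(x₁, x₂)) ^ a = 0` whose local topological zeta
function has at most a simple pole at `-1`. -/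
inductive GermHyp (HAt : Fam → RatFunc ℂ → Prop) : Fam → RatFunc ℂ → Prop
  /-- the hypersurfaces in the class `HAt` -/
  | base (A : Fam) (Z : RatFunc ℂ) (h : HAt A Z) : GermHyp HAt A Z
  /-- polynomials of degree at most one in all but two variables, times `h(x₁, x₂)` -/
  | lin (κ : Type) [Fintype κ] (h : MvPolynomial (Fin 2) ℂ)
      (f : Option κ → MvPolynomial (Fin 2) ℂ) (a : ℕ) (ha : 1 ≤ a) (hF : FF h f a ≠ 0)
      (Z : RatFunc ℂ) (hZ : PointZeta fac 1 h f a 0 0 Z)
      (h1 : ((RatFunc.X + 1) * Z).denom.eval (-1) ≠ 0) :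
      GermHyp HAt ⟨Fin 2 ⊕ κ, Fin 1, fun _ => FF h f a⟩ Z

end Pool.Agent.N103
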