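import Pool.Agent.R852.TL.Main
import Pool.Agent.Y230.TL.Fin
import Pool.Agent.Y230.TL.A
import Pool.Agent.Y230.TL.U
import Pool.Agent.Y64.TL.ExpB
import Pool.Agent.Y475.TL.L
import Pool.Agent.Y448.TL.J
import Pool.Agent.N103.MotCl
import Pool.Agent.N103.TLDefs

set_option autoImplicit false
set_option linter.unusedSectionVars false
set_option linter.unusedVariables false
set_option linter.unusedSimpArgs false

/-! # Germs at the origin: the closed classes with `h(x) (f₀ + ∑ y_j f_j) ^ a` -/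

namespace Pool.Agent.N103

open MvPolynomial Pool.Agent.W574.SM Pool.Agent.W574.CN Pool.Agent.W574.RO Pool.Agent.Y229
open Pool.Agent.W574.MO Pool.Agent.W425.SM Pool.Agent.W425.SV Pool.Agent.W422.GC
open Pool.Agent.W425.ND Pool.Agent.W574.HS Pool.Agent.TH192.DT Pool.Agent.W574.LM
open Pool.Agent.Y230.TL Pool.Agent.R852.TL
open Pool.Agent.R852.TP (nat_div bot_div)
open Pool.Agent.H628R4.TP (IsLocalBFunction)

theorem tJ' : StJ := Pool.Agent.Y448.TL.tJ tA Pool.Agent.Y64.TL.tB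
theorem tU' : StU := tU Pool.Agent.Y64.TL.tB
theorem tL' : StL := Pool.Agent.Y475.TL.tL

/-- the poles of the local zeta function of `h (f₀ + ∑ y_j f_j) ^ a` -/
theorem germLin_sf {κ : Type} [Fintype κ] (h : MvPolynomial (Fin 2) ℂ)
    (f : Option κ → MvPolynomial (Fin 2) ℂ) (a : ℕ) (ha : 1 ≤ a) (hF : FF h f a ≠ 0)
    (Z : RatFunc ℂ) (hZ : PointZeta fac 1 h f a 0 0 Z) (s : ℂ) (hs : Z.denom.eval s = 0) :
    SF (fun _ : Fin 1 => FF h f a) 0 s := by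
  classical
  refine sf_of_local _ 0 _ (fun H b hb hH => ?_) (exists_fe _ ⟨(0 : Fin 1), hF⟩)
  by_contra hne
  refine Reg_denom s _ ?_ hs
  exact point_reg (heq_of_locEq _ _ _ hb) hF
    (by rw [eval_elim_zero]; rwa [MvPolynomial.eval_zero] at hH) ha hne (zdata_top s) hZ

theorem germAt_at (T : AddSubmonoid ℂ) (At : Fam → RatFunc ℂ → Prop)
    (hAt : ∀ A Z, Finite A.σ → At A Z → (∃ j, A.f j ≠ 0) ∧
      ∀ s₀ : ℂ, Z.denom.eval s₀ = 0 → ∃ t ∈ T, FoL A (s₀ - t)) (A : Fam) (Z : RatFunc ℂ)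
    (h : GermAt At A Z) : Finite A.σ ∧ (∃ j, A.f j ≠ 0) ∧
      ∀ s₀ : ℂ, Z.denom.eval s₀ = 0 → ∃ t ∈ T, FoL A (s₀ - t) := by
  cases h with
  | base _ _ hfin h => exact ⟨hfin, hAt _ _ hfin h⟩
  | lin κ h f a ha hF _ hZ =>
    refine ⟨inferInstanceAs (Finite (Fin 2 ⊕ κ)), ⟨(0 : Fin 1), hF⟩, fun s hs => ?_⟩
    refine ⟨0, T.zero_mem, ?_⟩
    rw [sub_zero]
    exact germLin_sf h f a ha hF Z hZ s hs

theorem germHyp_cl (T : AddSubmonoid ℂ) (HAt : Fam → RatFunc ℂ → Prop)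
    (hHAt : ∀ A Z, HAt A Z → Cl T true A Z) (A : Fam) (Z : RatFunc ℂ) (h : GermHyp HAt A Z) :
    Cl T true A Z := by
  cases h with
  | base _ _ h => exact hHAt _ _ h
  | lin κ h f a ha hF _ hZ h1 =>
    have hp : ∀ s : ℂ, Z.denom.eval s = 0 → SF (fun _ : Fin 1 => FF h f a) 0 s :=
      germLin_sf h f a ha hF Z hZ
    refine ⟨inferInstanceAs (Finite (Fin 2 ⊕ κ)), ⟨(0 : Fin 1), hF⟩, fun s hs => ?_,
      fun _ s hs => ?_⟩
    · refine ⟨0, T.zero_mem, ?_⟩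
      rw [sub_zero]
      exact hp s hs
    · refine ⟨0, T.zero_mem, fun j => ?_⟩
      rw [sub_zero]
      refine tL'.rf_of_sf _ 0 s (fun h2 => ?_) (hp s (Pool.Agent.Y230.TH.pole_of_ref Z s hs))
      subst h2
      exact h1 hs

/-- **The strong conjecture at the origin.** -/
theorem germ_strong {σ : Type} (F : MvPolynomial σ ℂ) (Z : RatFunc ℂ)
    (h : TQ (GermAt StrongLocal) (GermHyp StrongHyp) false ⟨σ, Fin 1, fun _ => F⟩ Z)
    (b : Polynomial ℂ) (hb : IsLocalBFunction F b) (s₀ : ℂ) (hs : Z.denom.eval s₀ = 0) :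
    b.eval s₀ = 0 := by
  have hC := tq_closure tJ' tU' tL' ⊥ bot_div (GermAt StrongLocal) (GermHyp StrongHyp)
    (germAt_at ⊥ StrongLocal fun A Z hfin h => (fi_strong ⊥ A Z ⟨hfin, h⟩).2)
    (germHyp_cl ⊥ StrongHyp (strongHyp_cl tL')) false _ Z h
  obtain ⟨t, ht, h1⟩ := hC.pole s₀ hs
  rw [AddSubmonoid.mem_bot] at ht
  rw [ht, sub_zero] at h1
  obtain ⟨j, hj⟩ := hC.ne
  exact root_of_sf hC.fin F hj s₀ h1 b hb

/-- **The weak conjecture at the origin.** -/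
theorem germ_weak {σ : Type} (F : MvPolynomial σ ℂ) (Z : RatFunc ℂ)
    (h : TQ (GermAt WeakLocal) (GermHyp WeakHyp) false ⟨σ, Fin 1, fun _ => F⟩ Z)
    (b : Polynomial ℂ) (hb : IsLocalBFunction F b) (s₀ : ℂ) (hs : Z.denom.eval s₀ = 0) :
    ∃ i : ℕ, b.eval (s₀ - i) = 0 := by
  have hC := tq_closure tJ' tU' tL' natC nat_div (GermAt WeakLocal) (GermHyp WeakHyp)
    (germAt_at natC WeakLocal fun A Z hfin h => (fi_weak A Z ⟨hfin, h⟩).2)
    (germHyp_cl natC WeakHyp (weakHyp_cl tL')) false _ Z h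
  obtain ⟨t, ht, h1⟩ := hC.pole s₀ hs
  obtain ⟨i, rfl⟩ := (mem_natC _).1 ht
  obtain ⟨j, hj⟩ := hC.ne
  exact ⟨i, root_of_sf hC.fin F hj _ h1 b hb⟩

end Pool.Agent.N103
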