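import Pool.Agent.R852.TP.Fin
import Pool.Agent.N103.Main
import Pool.Agent.N103.LDefs

set_option autoImplicit false
set_option linter.unusedSectionVars false
set_option linter.unusedVariables false
set_option linter.unusedSimpArgs false

/-! # The closed classes with the polynomials `h(x) (f₀ + ∑ y_j f_j) ^ a` -/

namespace Pool.Agent.N103

open MvPolynomial Pool.Agent.W574.SM Pool.Agent.W574.CN Pool.Agent.W574.RO Pool.Agent.Y229
open Pool.Agent.W574.MO Pool.Agent.W425.SM Pool.Agent.W425.SV Pool.Agent.W422.GC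
open Pool.Agent.W425.ND Pool.Agent.W574.HS Pool.Agent.Y230.PS Pool.Agent.TH192.DT
open Pool.Agent.Y230.TH Pool.Agent.TH187.SA Pool.Agent.W574.LM Pool.Agent.R852.TP
open Pool.Agent.H628R4.TP (IsBFunction)

/-- the poles of the zeta function of `h (f₀ + ∑ y_j f_j) ^ a` -/
theorem linZeta_pole {κ : Type} [Fintype κ] (h : MvPolynomial (Fin 2) ℂ)
    (f : Option κ → MvPolynomial (Fin 2) ℂ) (a : ℕ) (Z : RatFunc ℂ) (hZ : LinZeta h f a Z)
    (s : ℂ) (hs : Z.denom.eval s = 0) : Forced (fun _ : Fin 1 => FF h f a) s := by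
  classical
  obtain ⟨ha, hF, m, χ₀, χ, P, c, W, hW, rfl⟩ := hZ
  intro b hb
  have hb1 : IsBFunction (FF h f a) b := isB_of_single _ b hb
  refine global_top h f a ha hF b hb1 1 le_rfl χ P c W (fun i => ?_) χ₀ s hs
  rw [facT_one]
  exact hW i

theorem linAt_at (T : AddSubmonoid ℂ) (At : Fam → RatFunc ℂ → Prop)
    (hAt : ∀ A Z, At A Z → Finite A.σ ∧ (∃ j, A.f j ≠ 0) ∧
      ∀ s₀ : ℂ, Z.denom.eval s₀ = 0 → ∃ t ∈ T, FoG A (s₀ - t)) (A : Fam) (Z : RatFunc ℂ)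
    (h : LinAt At A Z) : Finite A.σ ∧ (∃ j, A.f j ≠ 0) ∧
      ∀ s₀ : ℂ, Z.denom.eval s₀ = 0 → ∃ t ∈ T, FoG A (s₀ - t) := by
  cases h with
  | base _ _ h => exact hAt _ _ h
  | lin κ h f a _ hZ =>
    refine ⟨inferInstanceAs (Finite (Fin 2 ⊕ κ)), ⟨(0 : Fin 1), hZ.2.1⟩, fun s hs => ?_⟩
    refine ⟨0, T.zero_mem, ?_⟩
    rw [sub_zero]
    exact linZeta_pole h f a Z hZ s hs

theorem linHyp_cl (T : AddSubmonoid ℂ) (HAt : Fam → RatFunc ℂ → Prop)
    (hHAt : ∀ A Z, HAt A Z → Cl T true A Z) (A : Fam) (Z : RatFunc ℂ) (h : LinHyp HAt A Z) :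
    Cl T true A Z := by
  cases h with
  | base _ _ h => exact hHAt _ _ h
  | lin κ h f a _ hZ h1 =>
    have hp : ∀ s : ℂ, Z.denom.eval s = 0 → FM (fun _ : Fin 1 => FF h f a) s 1 := fun s hs =>
      (fm_one _ _).2 (linZeta_pole h f a Z hZ s hs)
    refine ⟨inferInstanceAs (Finite (Fin 2 ⊕ κ)), ⟨(0 : Fin 1), hZ.2.1⟩, fun s hs => ?_,
      fun _ hs => hp _ hs, fun _ s hs => ?_⟩
    · refine ⟨0, T.zero_mem, ?_⟩
      rw [sub_zero]
      exact hp s hs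
    · refine ⟨0, T.zero_mem, ?_⟩
      rw [sub_zero, dl_eq]
      split_ifs with h2
      · subst h2
        exact absurd hs h1
      · rw [add_zero]
        exact hp s (pole_of_ref Z s hs)

theorem ndHyp_cl (A : Fam) (Z : RatFunc ℂ) (h : NdHyp A Z) : Cl natC true A Z := by
  cases h with
  | curve g hg Z hZ => exact weakHyp_cl _ _ (.strong _ _ (.curve g hg _ hZ))
  | nondeg r N hr v a hv hv0 hnd R hR h1 =>
    exact weakHyp_cl _ _ (.nondeg r N hr v a hv hv0 hnd R hR h1)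

theorem wg_at (A : Fam) (Z : RatFunc ℂ) (h : WeakGlobal A Z) :
    Finite A.σ ∧ (∃ j, A.f j ≠ 0) ∧
      ∀ s₀ : ℂ, Z.denom.eval s₀ = 0 → ∃ t ∈ natC, FoG A (s₀ - t) :=
  wa_at A Z (.weak A Z h)

/-- **The weak conjecture.** -/
theorem lin_weak {σ : Type} (F : MvPolynomial σ ℂ) (Z : RatFunc ℂ)
    (h : TPw (LinAt WeakGlobal) (LinHyp NdHyp) false ⟨σ, Fin 1, fun _ => F⟩ Z) (b : Polynomial ℂ)
    (hb : IsBFunction F b) (s₀ : ℂ) (hs : Z.denom.eval s₀ = 0) :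
    ∃ i : ℕ, b.eval (s₀ - i) = 0 := by
  obtain ⟨t, ht, h1⟩ := (tp_closure natC nat_div (LinAt WeakGlobal) (LinHyp NdHyp)
    (linAt_at natC WeakGlobal wg_at) (linHyp_cl natC NdHyp ndHyp_cl) false _ Z h).pole s₀ hs
  obtain ⟨i, rfl⟩ := (mem_natC _).1 ht
  rw [fm_one] at h1
  exact ⟨i, h1 b (single_of_isB F b hb)⟩

/-- **The strong conjecture.** -/
theorem lin_strong_ideal (A : Fam) (Z : RatFunc ℂ)
    (h : TPw (LinAt StrongAt) (LinHyp StrongHyp) false A Z)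
    (b : Polynomial ℂ) (hb : IsFunctionalEq A.f b) (s₀ : ℂ) (hs : Z.denom.eval s₀ = 0) :
    b.eval s₀ = 0 := by
  obtain ⟨t, ht, h1⟩ := (tp_closure ⊥ bot_div (LinAt StrongAt) (LinHyp StrongHyp)
    (linAt_at ⊥ StrongAt (fun A Z h => sa_at ⊥ A Z h))
    (linHyp_cl ⊥ StrongHyp (fun A Z h => strongHyp_cl ⊥ A Z h)) false _ Z h).pole s₀ hs
  rw [AddSubmonoid.mem_bot] at ht
  rw [ht, sub_zero, fm_one] at h1
  exact h1 b hb

/-- **The strong conjecture for hypersurfaces.** -/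
theorem lin_strong {σ : Type} (F : MvPolynomial σ ℂ) (Z : RatFunc ℂ)
    (h : TPw (LinAt StrongAt) (LinHyp StrongHyp) false ⟨σ, Fin 1, fun _ => F⟩ Z)
    (b : Polynomial ℂ) (hb : IsBFunction F b) (s₀ : ℂ) (hs : Z.denom.eval s₀ = 0) :
    b.eval s₀ = 0 :=
  lin_strong_ideal _ Z h b (single_of_isB F b hb) s₀ hs

end Pool.Agent.N103
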